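import Mathlib

set_option autoImplicit false
set_option linter.unusedSectionVars false
set_option linter.unusedVariables false

namespace Pool.Agent.Lib.MP_16ef92_ag.CV

open Polynomial

noncomputable section

/-- Smooth connected affine curves over `K`. -/
structure Crv (K V : Type) [Field K] [CommRing V] [Algebra K V] : Prop where
  ded : IsDedekindDomain V
  ft : Algebra.FiniteType K V
  nf : ¬ IsField V

section loc

variable {V L : Type} [CommRing V] [Field L] [Algebra V L]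

/-- `f` is a unit at the prime `q`. -/
def LU (q : Ideal V) (f : L) : Prop :=
  ∃ s t : V, s ∉ q ∧ t ∉ q ∧ f * algebraMap V L t = algebraMap V L s

/-- `f` is a unit times an `n`-th power at `q`. -/
def Pw (q : Ideal V) (n : ℕ) (f : L) : Prop := ∃ z : L, z ≠ 0 ∧ LU q (f / z ^ n)

variable (L) in
/-- `π` is a uniformiser at `q`. -/
structure Unif (q : Ideal V) (π : V) : Prop where
  ne : algebraMap V L π ≠ 0
  ex : ∀ f : L, f ≠ 0 → ∃ a : ℤ, LU q (f / algebraMap V L π ^ a)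
  uq : ∀ a : ℤ, LU q (algebraMap V L π ^ a) → a = 0

variable {q : Ideal V} [hq : q.IsPrime] {f g : L} {n : ℕ}

theorem LU.one : LU q (1 : L) :=
  ⟨1, 1, (Ideal.ne_top_iff_one q).1 hq.ne_top, (Ideal.ne_top_iff_one q).1 hq.ne_top, one_mul _⟩

theorem LU.of_notMem {s : V} (h : s ∉ q) : LU q (algebraMap V L s) :=
  ⟨s, 1, h, (Ideal.ne_top_iff_one q).1 hq.ne_top, by rw [map_one, mul_one]⟩

theorem LU.mul (h : LU q f) (h' : LU q g) : LU q (f * g) := by
  obtain ⟨s, t, hs, ht, e⟩ := h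
  obtain ⟨s', t', hs', ht', e'⟩ := h'
  refine ⟨s * s', t * t', fun h => (hq.mem_or_mem h).elim hs hs',
    fun h => (hq.mem_or_mem h).elim ht ht', ?_⟩
  rw [map_mul, map_mul, ← e, ← e']
  ring

theorem LU.pow (h : LU q f) (n : ℕ) : LU q (f ^ n) := by
  induction n with
  | zero => simpa using LU.one
  | succ n ih => rw [pow_succ]; exact ih.mul h

theorem LU.ne_zero [FaithfulSMul V L] (h : LU q f) : f ≠ 0 := by
  obtain ⟨s, t, hs, ht, e⟩ := h
  rintro rfl
  rw [zero_mul, eq_comm, FaithfulSMul.algebraMap_eq_zero_iff] at e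
  exact hs (e ▸ q.zero_mem)

theorem LU.inv [FaithfulSMul V L] (h : LU q f) : LU q f⁻¹ := by
  have h0 := h.ne_zero
  obtain ⟨s, t, hs, ht, e⟩ := h
  exact ⟨t, s, ht, hs, by rw [← e, inv_mul_cancel_left₀ h0]⟩

theorem LU.div [FaithfulSMul V L] (h : LU q f) (h' : LU q g) : LU q (f / g) := by
  rw [div_eq_mul_inv]
  exact h.mul h'.inv

theorem LU.zpow [FaithfulSMul V L] (h : LU q f) (a : ℤ) : LU q (f ^ a) := by
  obtain ⟨m, rfl | rfl⟩ := a.eq_nat_or_neg
  · simpa using h.pow m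
  · simpa using (h.pow m).inv

theorem LU.pw (h : LU q f) (n : ℕ) : Pw q n f := ⟨1, one_ne_zero, by simpa using h⟩

theorem Pw.mul (h : Pw q n f) (h' : Pw q n g) : Pw q n (f * g) := by
  obtain ⟨z, hz, h⟩ := h
  obtain ⟨w, hw, h'⟩ := h'
  refine ⟨z * w, mul_ne_zero hz hw, ?_⟩
  rw [mul_pow, mul_div_mul_comm]
  exact h.mul h'

theorem Pw.pow (hf : f ≠ 0) (n : ℕ) : Pw q n (f ^ n) :=
  ⟨f, hf, by rw [div_self (pow_ne_zero _ hf)]; exact LU.one⟩

theorem Pw.ne_zero [FaithfulSMul V L] (h : Pw q n f) : f ≠ 0 := by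
  obtain ⟨z, hz, h⟩ := h
  rintro rfl
  exact h.ne_zero (zero_div _)

/-- With a uniformiser, `Pw` is divisibility of the order. -/
theorem Unif.pw_iff [FaithfulSMul V L] {π : V} (h : Unif L q π) {a : ℤ}
    (ha : LU q (f / algebraMap V L π ^ a)) : Pw q n f ↔ (n : ℤ) ∣ a := by
  have h0 := h.ne
  constructor
  · rintro ⟨z, hz, h1⟩
    obtain ⟨b, hb⟩ := h.ex z hz
    have hf : f ≠ 0 := fun e => ha.ne_zero (by rw [e, zero_div])
    have h2 := (h1.mul (hb.pow n)).div ha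
    have h3 : f / z ^ n * (z / algebraMap V L π ^ b) ^ n / (f / algebraMap V L π ^ a) =
        algebraMap V L π ^ (a - n * b) := by
      rw [zpow_sub₀ h0, mul_comm (n : ℤ) b, zpow_mul, zpow_natCast, div_pow]
      field_simp
    rw [h3] at h2
    exact ⟨b, sub_eq_zero.1 (h.uq _ h2)⟩
  · rintro ⟨b, rfl⟩
    refine ⟨algebraMap V L π ^ b, zpow_ne_zero _ h0, ?_⟩
    rwa [mul_comm, zpow_mul, zpow_natCast] at ha

end loc

end

end Pool.Agent.Lib.MP_16ef92_ag.CV
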