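import Mathlib
import Pool.Agent.Lib.MP_16ef92_ag.CV.RDef

set_option autoImplicit false
set_option linter.unusedSectionVars false
set_option linter.unusedVariables false

namespace Pool.Agent.Lib.MP_16ef92_ag.CV

open TensorProduct

noncomputable section

variable (V L W : Type) [CommRing V] [IsDomain V] [Field L] [Algebra V L] [IsFractionRing V L]
  [CommRing W] [Algebra V W] [Algebra.Etale V W]

/-- `W` is flat over `V`. -/
theorem et_inj : Function.Injective (algebraMap W (W ⊗[V] L)) :=
  Algebra.TensorProduct.includeLeft_injective (S := V) (IsFractionRing.injective V L)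

/-- A nonzero flat algebra over a domain is torsion free. -/
theorem et_faith [Nontrivial W] : Function.Injective (algebraMap V W) :=
  FaithfulSMul.algebraMap_injective V W

/-- `W ⊗ L` is the localisation of `W` at the nonzero elements of `V`, so it is a domain; it is
etale over the field `L`, so finite over `L`; a finite domain over a field is a field. -/
theorem et_field [IsDomain W] : IsField (W ⊗[V] L) ∧ IsFractionRing W (W ⊗[V] L) := by
  have hle : Algebra.algebraMapSubmonoid W (nonZeroDivisors V) ≤ nonZeroDivisors W := by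
    rintro _ ⟨v, hv, rfl⟩
    exact mem_nonZeroDivisors_of_ne_zero
      ((map_ne_zero_iff _ (et_faith V W)).2 (nonZeroDivisors.ne_zero hv))
  have hd : IsDomain (W ⊗[V] L) := IsLocalization.isDomain_of_le_nonZeroDivisors _ hle
  have e := (Algebra.TensorProduct.comm V W L).toRingEquiv
  have hd' : IsDomain (L ⊗[V] W) := e.symm.injective.isDomain _
  have := Algebra.FormallyUnramified.finite_of_free L (L ⊗[V] W)
  have : IsArtinianRing (L ⊗[V] W) := isArtinian_of_tower L inferInstance
  have hF : IsField (W ⊗[V] L) := e.toMulEquiv.isField (IsArtinianRing.isField_of_isDomain _)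
  refine ⟨hF, IsLocalization.of_le _ _ hle fun r hr => ?_⟩
  obtain ⟨b, hb⟩ := hF.mul_inv_cancel
    ((map_ne_zero_iff _ (et_inj V L W)).2 (nonZeroDivisors.ne_zero hr))
  exact IsUnit.of_mul_eq_one b hb

variable [IsIntegrallyClosed V]

include V

/-- `TensorProduct.toIntegralClosure_bijective_of_smooth` with `B = L`, where
`integralClosure V L = ⊥`. -/
theorem et_int {z : W ⊗[V] L} (hz : IsIntegral W z) : ∃ w, algebraMap W (W ⊗[V] L) w = z := by
  obtain ⟨t, ht⟩ := (toIntegralClosure_bijective_of_smooth (R := V) (S := W) (B := L)).2 ⟨z, hz⟩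
  obtain rfl : Algebra.TensorProduct.map (AlgHom.id W W) (integralClosure V L).val t = z :=
    congrArg Subtype.val ht
  clear ht hz
  induction t with
  | zero => exact ⟨0, by rw [map_zero, map_zero]⟩
  | add a b ha hb =>
    obtain ⟨a', ha⟩ := ha
    obtain ⟨b', hb⟩ := hb
    exact ⟨a' + b', by rw [map_add, map_add, ha, hb]⟩
  | tmul w l =>
    obtain ⟨v, hv⟩ := (isIntegrallyClosed_iff L).1 inferInstance l.2
    refine ⟨v • w, ?_⟩
    rw [Algebra.TensorProduct.map_tmul, Subalgebra.coe_val, ← hv, Algebra.algebraMap_eq_smul_one v,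
      TensorProduct.tmul_smul, TensorProduct.smul_tmul']
    rfl

/-- `et_field` and `et_int`. -/
theorem et_normal [IsDomain W] : IsIntegrallyClosed W := by
  have := (et_field V (FractionRing V) W).2
  exact (isIntegrallyClosed_iff (W ⊗[V] FractionRing V)).2 fun hz => et_int V _ W hz

theorem r1_dec : ∃ (r : ℕ) (e : Fin r → W), CompleteOrthogonalIdempotents e ∧
    ∀ i, IsDomain (Localization.Away (e i)) := by
  classical
  obtain ⟨I, _, A, _, _, φ, -⟩ := (Algebra.Etale.iff_exists_algEquiv_prod (FractionRing V)
    (FractionRing V ⊗[V] W)).1 inferInstance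
  have := Fintype.ofFinite I
  obtain ⟨ψ, -⟩ : ∃ ψ : W ⊗[V] FractionRing V ≃+* ∀ i, A i, True :=
    ⟨(Algebra.TensorProduct.comm V W _).toRingEquiv.trans φ.toRingEquiv, trivial⟩
  have hs := CompleteOrthogonalIdempotents.single A
  have hi : ∀ i, ∃ w, algebraMap W (W ⊗[V] FractionRing V) w = ψ.symm (Pi.single i 1) := fun i => by
    refine et_int V _ W ⟨Polynomial.X * (Polynomial.X - Polynomial.C 1),
      Polynomial.monic_X.mul (Polynomial.monic_X_sub_C 1), ?_⟩
    rw [Polynomial.eval₂_mul, Polynomial.eval₂_sub, Polynomial.eval₂_X, Polynomial.eval₂_C, map_one,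
      mul_sub, mul_one, ← map_mul, (hs.idem i).eq, sub_self]
  choose e he using hi
  obtain ⟨g, hg, hge⟩ : ∃ g : W →+* ∀ i, A i, Function.Injective g ∧ ∀ i, g (e i) = Pi.single i 1 :=
    ⟨ψ.toRingHom.comp (algebraMap W _), ψ.injective.comp (et_inj V _ W), fun i => by
      change ψ (algebraMap W _ (e i)) = _
      rw [he, ψ.apply_symm_apply]⟩
  have hc : CompleteOrthogonalIdempotents e :=
    (CompleteOrthogonalIdempotents.map_injective_iff g hg).1 (by
      rwa [show g ∘ e = fun i => Pi.single i 1 from funext hge])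
  refine ⟨_, e ∘ (Fintype.equivFin I).symm, (CompleteOrthogonalIdempotents.equiv _).2 hc,
    fun j => ?_⟩
  change IsDomain (Localization.Away (e ((Fintype.equivFin I).symm j)))
  generalize (Fintype.equivFin I).symm j = i
  have hu : ∀ y : Submonoid.powers (e i), IsUnit (((Pi.evalRingHom A i).comp g) y) := by
    rintro ⟨_, n, rfl⟩
    simp [hge]
  refine Function.Injective.isDomain (IsLocalization.lift (S := Localization.Away (e i)) hu)
    ((IsLocalization.lift_injective_iff hu).2 fun x y => ⟨fun h => ?_, fun h => ?_⟩)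
  · rw [← IsLocalization.lift_eq (S := Localization.Away (e i)) hu x, h, IsLocalization.lift_eq]
  · refine (IsLocalization.eq_iff_exists (Submonoid.powers (e i)) _).2
      ⟨⟨e i, Submonoid.mem_powers _⟩, hg (funext fun k => ?_)⟩
    change g (e i * x) k = g (e i * y) k
    rw [map_mul, map_mul, hge, Pi.mul_apply, Pi.mul_apply]
    rcases eq_or_ne k i with rfl | hk
    · exact congrArg _ h
    · rw [Pi.single_eq_of_ne hk, zero_mul, zero_mul]

/-- `W ⊗ L` is a finite product of fields (`Algebra.Etale.iff_exists_algEquiv_prod`), the basic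
idempotents are integral, so they come from `W` (`et_int`, `et_inj`), their sum is 1, so one of
them, `e`, is not in `q`.  If `a * b * e ^ k = 0` in `W` then `a * e = 0` or `b * e = 0`. -/
theorem et_dom (q : Ideal W) [q.IsPrime] :
    ∃ e : W, e ∉ q ∧ IsIdempotentElem e ∧ IsDomain (Localization.Away e) := by
  obtain ⟨r, e, hc, hd⟩ := r1_dec V W
  obtain ⟨i, hi⟩ : ∃ i, e i ∉ q := by
    by_contra h
    push Not at h
    exact (Ideal.ne_top_iff_one q).1 (Ideal.IsPrime.ne_top inferInstance)
      (hc.complete ▸ q.sum_mem fun i _ => h i)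
  exact ⟨e i, hi, hc.idem i, hd i⟩

/-- The same idempotents, all at once. -/
theorem et_dec : ∃ (r : ℕ) (e : Fin r → W), CompleteOrthogonalIdempotents e ∧
    ∀ i, IsDomain (Localization.Away (e i)) := r1_dec V W

end

end Pool.Agent.Lib.MP_16ef92_ag.CV
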