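import Mathlib
import Pool.Agent.Lib.MP_16ef92_ag.RS.Push
import Pool.Agent.Lib.MP_16ef92_ag.RS.Cup
import Pool.Agent.Lib.MP_16ef92_ag.CV.R1

set_option autoImplicit false
set_option linter.unusedSectionVars false
set_option linter.unusedVariables false
set_option linter.style.haveILetI false

namespace Pool.Agent.Lib.MP_16ef92_ag.CV

open RS

noncomputable section

variable [Bg] {R V W : Type} [CommRing R] [CommRing V] [CommRing W] {M : Type} [AddCommGroup M]

/-- Locally constant functions on points. -/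
def LC (s : Pnt V → M) : Prop := ∀ y, Nr y fun y' => s y' = s y

theorem mem_cst {a : R →+* V} {s : Pnt V → M} : s ∈ (cst R M).S a ↔ LC s := Iff.rfl

theorem cst_tor {n : ℕ} (h : ∀ m : M, n • m = 0) (R : Type) [CommRing R] : (cst R M).Tor n :=
  fun _ m _ => h m

/-- Constant sections. -/
def csec (R : Type) [CommRing R] (M : Type) [AddCommGroup M] : M →+ Z0 (cst R M) :=
  AddMonoidHom.mk' (fun m => ⟨fun _ => m, fun _ => .of_forall fun _ => rfl⟩) fun _ _ => rfl

/-- Restriction of classes with constant coefficients. -/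
abbrev rc (q : ℕ) (M : Type) [AddCommGroup M] (g : V →+* W) : H q (cst V M) →+ H q (cst W M) :=
  Hmap q (cstMap g (AddMonoidHom.id M))

theorem rc_rc {q : ℕ} (g : R →+* V) (g' : V →+* W) (g'' : R →+* W) (h : g'.comp g = g'')
    (ξ : H q (cst R M)) : rc q M g' (rc q M g ξ) = rc q M g'' ξ :=
  Hmap_comp_of q _ _ _ h (fun _ _ _ => rfl) ξ

theorem rc_can {q : ℕ} (g : V →+* W) (ξ : H q (cst V M)) :
    Hmap q ((cst V M).can g) ξ = rc q M g ξ := Hmap_congr q _ _ rfl (fun _ _ _ => rfl) ξ

theorem rc_HR {q : ℕ} {a : R →+* V} {a' : R →+* W} (g : V →+* W) (h : g.comp a = a')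
    (ξ : H q (cst V M)) : HR q (cst R M) g h ξ = rc q M g ξ :=
  Hmap_congr q _ _ rfl (fun _ _ _ => rfl) ξ

theorem rc_bij {q : ℕ} (g : V →+* W) (hg : Function.Bijective g) : Function.Bijective (rc q M g) :=
  Hmap_bij' q _ hg (fun _ _ _ h => h) fun _ v _ => ⟨v, trivial, rfl⟩

/-- Compare with a point whose kernel is zero. -/
theorem LC.const [IsDomain V] (hV : Good V) {s : Pnt V → M} (h : LC s) (y y' : Pnt V) :
    s y = s y' := by
  obtain ⟨z, hz⟩ := hV ⊥ Ideal.isPrime_bot
  have key : ∀ y : Pnt V, s z = s y := fun y => by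
    obtain ⟨f, hf, h1⟩ := h y
    refine h1 z fun h0 => hf ?_
    have h2 : f ∈ RingHom.ker z := h0
    rw [hz, Ideal.mem_bot] at h2
    rw [h2, map_zero]
  rw [← key y, ← key y']

theorem LC.field {L : Type} [Field L] {s : Pnt L → M} (h : LC s) (y y' : Pnt L) :
    s y = s y' := by
  obtain ⟨f, hf, h1⟩ := h y'
  refine h1 y ((map_ne_zero y).2 fun h0 => hf ?_)
  rw [h0, map_zero]

section Normal

variable {L : Type} [Field L] [IsDomain V] [Algebra V L] [IsFractionRing V L]

theorem csta_inj {c : V →+* W} (hc : c.Etale) : Function.Injective (Ten.inl c (algebraMap V L)) := by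
  have hj : @IsFractionRing V _ L _ (algebraMap V L).toAlgebra := by
    rw [toAlgebra_algebraMap]
    infer_instance
  generalize algebraMap V L = j at hj
  letI := c.toAlgebra
  letI := j.toAlgebra
  haveI : Algebra.Etale V W := hc
  exact et_inj V L W

theorem csta_ind {R V T : Type} [CommRing R] [CommRing V] [CommRing T] (a : R →+* V) (g : R →+* T)
    (P : Ten a g → Prop) (h0 : P 0) (h1 : ∀ v t, P (Ten.inl a g v * Ten.inr a g t))
    (h2 : ∀ x y, P x → P y → P (x + y)) (x : Ten a g) : P x := by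
  letI := a.toAlgebra
  letI := g.toAlgebra
  refine TensorProduct.induction_on (motive := P) x h0 (fun v t => ?_) h2
  have e : Ten.inl a g v * Ten.inr a g t = (v ⊗ₜ[R] t : TensorProduct R V T) := by
    change ((v ⊗ₜ[R] (1 : T)) * ((1 : V) ⊗ₜ[R] t) : TensorProduct R V T) = _
    rw [Algebra.TensorProduct.tmul_mul_tmul, mul_one, one_mul]
  exact e ▸ h1 v t

theorem csta_frac (c : V →+* W) (g : Ten c (algebraMap V L)) :
    ∃ (v : V) (w : W), v ≠ 0 ∧
      Ten.inl c (algebraMap V L) (c v) * g = Ten.inl c (algebraMap V L) w := by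
  have hc : ∀ v, Ten.inl c (algebraMap V L) (c v) = Ten.inr c (algebraMap V L) (algebraMap V L v) :=
    fun v => RingHom.congr_fun (Ten.comm c (algebraMap V L)) v
  refine csta_ind c (algebraMap V L) (fun g => ∃ (v : V) (w : W), v ≠ 0 ∧
      Ten.inl c (algebraMap V L) (c v) * g = Ten.inl c (algebraMap V L) w)
    ⟨1, 0, one_ne_zero, by rw [mul_zero, map_zero]⟩ (fun w l => ?_) ?_ g
  · obtain ⟨⟨a, b⟩, hab⟩ := IsLocalization.surj (nonZeroDivisors V) l
    refine ⟨b, w * c a, nonZeroDivisors.ne_zero b.2, ?_⟩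
    rw [map_mul, hc, hc, mul_left_comm, ← map_mul, mul_comm _ l, hab]
  · rintro x y ⟨v, w, hv, e⟩ ⟨v', w', hv', e'⟩
    refine ⟨v * v', c v' * w + c v * w', mul_ne_zero hv hv', ?_⟩
    rw [map_add, map_mul, map_mul, map_mul, map_mul, ← e, ← e']
    ring

theorem csta_pt (hV : Good V) {c : V →+* W} (hc : c.Etale) {g : Ten c (algebraMap V L)}
    (hg : ¬ IsNilpotent g) : ∃ z : Pnt (Ten c (algebraMap V L)), z g ≠ 0 := by
  have hT : Good (Ten c (algebraMap V L)) :=
    (hV.loc (nonZeroDivisors V) L).et (Ten.etale_inr _ hc)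
  rw [nilpotent_iff_mem_prime] at hg
  push Not at hg
  obtain ⟨p, hp, hgp⟩ := hg
  obtain ⟨z, rfl⟩ := hT p hp
  exact ⟨z, hgp⟩

theorem csta_same (hV : Good V) {c : V →+* W} (hc : c.Etale)
    {s : Pnt (Ten c (algebraMap V L)) → M} (h : LC s) {e : W}
    (he : IsDomain (Localization.Away e)) {z z' : Pnt (Ten c (algebraMap V L))}
    (hz : z (Ten.inl c _ e) ≠ 0) (hz' : z' (Ten.inl c _ e) ≠ 0) : s z = s z' := by
  have key : ∀ (z : Pnt (Ten c (algebraMap V L))) (g : Ten c (algebraMap V L)),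
      z (Ten.inl c _ e) ≠ 0 → z g ≠ 0 → ∃ (u : Ten c (algebraMap V L)) (w : W),
        u * g = Ten.inl c _ w ∧ algebraMap W (Localization.Away e) w ≠ 0 := by
    intro z g h1 h2
    obtain ⟨v, w, hv, e1⟩ := csta_frac c g
    refine ⟨_, w, e1, fun h0 => ?_⟩
    obtain ⟨⟨_, k, rfl⟩, hk⟩ := (IsLocalization.map_eq_zero_iff (Submonoid.powers e) _ _).1 h0
    have h3 : z (Ten.inl c (algebraMap V L) (c v)) ≠ 0 := by
      have h4 : Ten.inl c (algebraMap V L) (c v) =
          Ten.inr c (algebraMap V L) (algebraMap V L v) :=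
        RingHom.congr_fun (Ten.comm c (algebraMap V L)) v
      rw [h4]
      exact (map_ne_zero (z.comp (Ten.inr c (algebraMap V L)))).2
        ((map_ne_zero_iff _ (IsFractionRing.injective V L)).2 hv)
    have h5 := congrArg (fun x => z (Ten.inl c (algebraMap V L) x)) hk
    simp only [map_mul, map_pow, map_zero] at h5
    rw [← e1, map_mul] at h5
    exact mul_ne_zero (pow_ne_zero _ h1) (mul_ne_zero h3 h2) h5
  obtain ⟨g, hg, h1⟩ := h z
  obtain ⟨g', hg', h2⟩ := h z'
  obtain ⟨u, w, e1, hw⟩ := key z g hz hg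
  obtain ⟨u', w', e2, hw'⟩ := key z' g' hz' hg'
  obtain ⟨y, hy⟩ := csta_pt hV hc (g := g * g') (by
    rintro ⟨n, hn⟩
    have h3 : (w * w') ^ n = 0 := by
      apply csta_inj (L := L) hc
      rw [map_pow, map_mul, ← e1, ← e2, map_zero, mul_mul_mul_comm, mul_pow, hn, mul_zero]
    have h4 := congrArg (algebraMap W (Localization.Away e)) h3
    rw [map_pow, map_mul, map_zero] at h4
    exact pow_ne_zero n (mul_ne_zero hw hw') h4)
  rw [map_mul, mul_ne_zero_iff] at hy
  rw [← h1 y hy.1, ← h2 y hy.2]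

/-- Near every point there is a point over the generic point: if `y f ≠ 0` then `f` is not
nilpotent in `Ten c j` (`et_inj`), so some prime of `Ten c j` misses it (`Good.et`, `Good.loc`). -/
theorem near_gen (hV : Good V) {c : V →+* W} (hc : c.Etale) (y : Pnt W) {f : W} (hf : y f ≠ 0) :
    ∃ z : Pnt (Ten c (algebraMap V L)), z (Ten.inl c _ f) ≠ 0 := by
  refine csta_pt hV hc ?_
  rintro ⟨n, hn⟩
  have h1 : f ^ n = 0 := csta_inj (L := L) hc (by rw [map_pow, hn, map_zero])
  have h2 := congrArg y h1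
  rw [map_pow, map_zero] at h2
  exact pow_ne_zero n hf h2

theorem LC.ext_gen (hV : Good V) {c : V →+* W} (hc : c.Etale) {s : Pnt W → M} (h : LC s)
    (h0 : rs (Ten.inl c (algebraMap V L)) s = 0) : s = 0 := by
  funext y
  obtain ⟨f, hf, h1⟩ := h y
  obtain ⟨z, hz⟩ := near_gen (L := L) hV hc y hf
  exact (h1 (z.comp (Ten.inl c _)) hz).symm.trans (congrFun h0 z)

/-- `et_dec`: on `D(e i)` the function `s` is constant, because `Ten c j` localised at `e i` is a
domain (all elements of `Ten c j` are fractions with denominators from `V`). -/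
theorem LC.lift_gen [IsIntegrallyClosed V] (hV : Good V) {c : V →+* W} (hc : c.Etale)
    {s : Pnt (Ten c (algebraMap V L)) → M} (h : LC s) :
    ∃ t : Pnt W → M, LC t ∧ rs (Ten.inl c (algebraMap V L)) t = s := by
  obtain ⟨r, e, hce, hd⟩ : ∃ (r : ℕ) (e : Fin r → W), CompleteOrthogonalIdempotents e ∧
      ∀ i, IsDomain (Localization.Away (e i)) := by
    letI := c.toAlgebra
    haveI : Algebra.Etale V W := hc
    exact et_dec V W
  have h1 : ∀ y : Pnt W, ∃ i, y (e i) ≠ 0 := fun y => by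
    by_contra hn
    push Not at hn
    have h2 := congrArg y hce.complete
    rw [map_sum, map_one, Finset.sum_eq_zero fun i _ => hn i] at h2
    exact zero_ne_one h2
  choose idx hidx using h1
  have h2 : ∀ i, ∃ m : M, ∀ z : Pnt (Ten c (algebraMap V L)),
      z (Ten.inl c _ (e i)) ≠ 0 → s z = m := fun i => by
    by_cases hz : ∃ z : Pnt (Ten c (algebraMap V L)), z (Ten.inl c _ (e i)) ≠ 0
    · obtain ⟨z, hz⟩ := hz
      exact ⟨s z, fun z' hz' => csta_same hV hc h (hd i) hz' hz⟩
    · exact ⟨0, fun z hz' => absurd ⟨z, hz'⟩ hz⟩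
  choose m hm using h2
  refine ⟨fun y => m (idx y), fun y => ⟨e (idx y), hidx y, fun y' hy => ?_⟩, funext fun z => ?_⟩
  · have h3 : idx y' = idx y := by
      by_contra hne
      have h4 := congrArg y' (hce.ortho hne)
      rw [map_mul, map_zero] at h4
      exact mul_ne_zero (hidx y') hy h4
    change m (idx y') = m (idx y)
    rw [h3]
  · exact (hm _ z (hidx (z.comp (Ten.inl c _)))).symm

variable (V L M) in
/-- The unit. -/
def unitJ : Hom (cst V M) (push (algebraMap V L) (cst L M)) :=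
  (cstMap (algebraMap V L) (AddMonoidHom.id M)).adj

/-- `Mor.adj_spec` with `c` the identity, `pg_zero`, `near_gen`. -/
theorem unitJ_inj (hV : Good V) : (unitJ V M L).Inj := fun x u _ h => by
  have h1 := (cstMap (algebraMap V L) (AddMonoidHom.id M)).adj_spec et_id x (csec V M u).2
  obtain ⟨f, hf, h2⟩ := (pg_zero (F := cst L M) et_id x (s := fun _ => u)
    (csec _ M u).2).1 (h1.symm.trans h)
  obtain ⟨z, hz⟩ := near_gen (L := L) hV et_id x hf
  exact h2 z hz

/-- `pg_surj`, `LC.lift_gen`, `Mor.adj_spec`. -/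
theorem unitJ_surj [IsIntegrallyClosed V] (hV : Good V) : (unitJ V M L).Surj := fun x v hv => by
  obtain ⟨W, _, c, y, s, hc, rfl, hs, rfl⟩ := pg_surj x hv
  obtain ⟨t, ht, rfl⟩ := LC.lift_gen (M := M) hV hc hs
  exact ⟨t y, trivial, (cstMap (algebraMap V L) (AddMonoidHom.id M)).adj_spec hc y ht⟩

theorem eps_unitJ (q : ℕ) (ξ : H q (cst V M)) :
    Hmap q (eps (algebraMap V L) (cst L M)) (Hmap q (unitJ V M L) ξ) =
      rc q M (algebraMap V L) ξ :=
  Hmap_comp_of q _ _ _ rfl (fun x u hu => Mor.eps_adj _ x hu) ξ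

/-- Classes of degree one are determined at the generic point. -/
theorem rc_gen_inj [IsIntegrallyClosed V] (hV : Good V) :
    Function.Injective (rc 1 M (algebraMap V L)) := fun ξ ξ' e => by
  rw [← eps_unitJ, ← eps_unitJ] at e
  exact (Hmap_bij 1 _ (unitJ_inj hV) (unitJ_surj hV)).1
    (eps_inj 1 _ (fun i hi => absurd hi (by omega)) e)

end Normal

section Closed

variable {K : Type} [Field K] (F : Sys K)

/-- Global sections give a morphism from the constant system. -/
def cstHom (F : Sys R) : Hom (cst R (Z0 F)) F where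
  φ x m := m.1 x
  add _ _ _ _ _ := rfl
  mem x m _ := F.mem m.2 x
  sec {V} _ {a} {s} hs := F.loc_nr fun y => ⟨rs a (s y).1, F.res a (s y).2,
    (hs y).mono fun y' h => congrArg (fun m : Z0 F => m.1 (y'.comp a)) h⟩

/-- `Sys.sep`. -/
theorem cstHom_inj : (cstHom F).Inj := fun x m _ h => by
  obtain ⟨f, hf, h1⟩ := F.sep (a := RingHom.id K) m.2 x h
  exact Subtype.ext (funext fun y => h1 y ((map_ne_zero y).2 ((map_ne_zero x).1 hf)))

theorem cstb_sec [IsSepClosed K] {c : K →+* W} (hc : c.Etale) (y : Pnt W) :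
    ∃ τ : W →+* K, τ.comp c = RingHom.id K ∧ (y.comp c).comp τ = y := by
  letI := c.toAlgebra
  have : Algebra.Etale K W := hc
  have := Algebra.FormallyUnramified.finite_of_free K W
  have : IsArtinianRing W := isArtinian_of_tower K inferInstance
  let e := Algebra.FormallyEtale.equivPiOfIsSepClosed K W
  obtain ⟨i, w, hw⟩ := pnt_pi (y.comp e.symm.toRingEquiv.toRingHom)
  have h1 : ∀ k, e (c k) i = k := fun k => congrFun (e.commutes k) i
  have h2 : ∀ v, y v = w (e v i) := fun v => by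
    have h3 := RingHom.congr_fun hw (e v)
    exact (congrArg y (e.symm_apply_apply v)).symm.trans h3
  refine ⟨(Pi.evalRingHom _ i).comp e.toRingEquiv.toRingHom, RingHom.ext h1,
    RingHom.ext fun v => ?_⟩
  change y (c (e v i)) = y v
  rw [h2, h1, h2 v]

/-- `Sys.stalk`; an etale algebra over a separably closed field is a product of copies of it, so
the point `y` is `x ∘ τ` for a section `τ`. -/
theorem cstHom_surj [IsSepClosed K] : (cstHom F).Surj := fun x v hv => by
  obtain ⟨W, _, c, y, t, hc, rfl, ht, rfl⟩ := F.stalk x v hv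
  obtain ⟨τ, h1, h2⟩ := cstb_sec hc y
  exact ⟨⟨rs τ t, F.res' τ h1 ht⟩, trivial, congrArg t h2⟩

theorem cstHom_bij [IsSepClosed K] (a : K →+* V) (q : ℕ) :
    Function.Bijective (Hmap q ((cstHom F).pb a)) :=
  Hmap_bij q _ (fun x => cstHom_inj F (x.comp a)) fun x => cstHom_surj F (x.comp a)

theorem z0_tor {F : Sys R} {n : ℕ} (h : F.Tor n) (m : Z0 F) : n • m = 0 := H_tor h 0 m

end Closed

end

end Pool.Agent.Lib.MP_16ef92_ag.CV
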