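import Mathlib
import Pool.Agent.Lib.MP_16ef92_ag.RS.Coh
import Pool.Agent.Lib.MP_16ef92_ag.AL.PA1

set_option autoImplicit false
set_option linter.unusedSectionVars false
set_option linter.unusedVariables false
set_option linter.style.haveILetI false

namespace Pool.Agent.Lib.MP_16ef92_ag.CV

open RS Module

noncomputable section

section Abs

variable {Γ : Type} [Group Γ] {Φ : AL.Fam Γ} {l : ℕ} [Fact l.Prime]

/-- `AL.lift` for infinite discrete modules.  The cocycle `c'` is constant on the cosets of some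
`N ∈ Φ.S`, so it has finitely many values; choose lifts; each has a finite orbit; the subgroup
`M₀` spanned by these orbits is finite (finitely generated and killed by `l ^ k`), stable, and
fixed by a member of the family; apply `AL.lift` to `M₀`. -/
theorem lift_disc (h2 : AL.H2 Φ l) {M M' : Type} [AddCommGroup M] [AddCommGroup M']
    {ρ : Γ →* End ℤ M} {ρ' : Γ →* End ℤ M'} (p : M →+ M') (he : ∀ g m, p (ρ g m) = ρ' g (p m))
    {k : ℕ} (hl : ∀ m : M, l ^ k • m = 0) (hd : ∀ m : M, Φ.Ev fun g => ρ g m = m)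
    (c' : AL.Zc Φ ρ') (hr : ∀ g, ∃ m, p m = c'.1 g) :
    ∃ c : AL.Zc Φ ρ, ∀ g, p (c.1 g) = c'.1 g := by
  obtain ⟨N, hN, hc⟩ := c'.2.2
  have := Φ.fin N hN
  choose m hm using hr
  obtain ⟨N', hN', hf⟩ := AL.Fam.Ev.forall fun q : Γ ⧸ N => hd (m q.out)
  have := Φ.fin N' hN'
  let T : Set M := Set.range fun x : (Γ ⧸ N) × Γ => ρ x.2 (m x.1.out)
  have hT : T.Finite := by
    refine (Set.finite_range fun x : (Γ ⧸ N) × (Γ ⧸ N') => ρ x.2.out (m x.1.out)).subset ?_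
    rintro _ ⟨⟨q, g⟩, rfl⟩
    obtain ⟨n, hn⟩ := QuotientGroup.mk_out_eq_mul N' g
    refine ⟨(q, (g : Γ ⧸ N')), ?_⟩
    change ρ (g : Γ ⧸ N').out _ = ρ g _
    rw [hn, map_mul, End.mul_apply, hf _ n.2]
  let M₀ : Submodule ℤ M := Submodule.span ℤ T
  have hst : ∀ g, ∀ x ∈ M₀, ρ g x ∈ M₀ := fun g x hx => by
    refine (Submodule.map_span_le (ρ g) T M₀).2 ?_ (Submodule.mem_map_of_mem hx)
    rintro _ ⟨⟨q, g'⟩, rfl⟩
    refine Submodule.subset_span ⟨(q, g * g'), ?_⟩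
    change ρ (g * g') _ = _
    rw [map_mul, End.mul_apply]
  let ρ₀ : Γ →* End ℤ M₀ :=
    { toFun := fun g => (ρ g).restrict (hst g)
      map_one' := LinearMap.ext fun x => Subtype.ext (by
        change ρ 1 x.1 = x.1
        rw [map_one]; rfl)
      map_mul' := fun g g' => LinearMap.ext fun x => Subtype.ext (by
        change ρ (g * g') x.1 = ρ g (ρ g' x.1)
        rw [map_mul]; rfl) }
  have hl0 : ∀ x : M₀, l ^ k • x = 0 := fun x => Subtype.ext (hl x.1)
  have : Module.Finite ℤ M₀ := Module.Finite.span_of_finite ℤ hT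
  have : Finite M₀ := Module.finite_of_fg_torsion M₀ fun x =>
    ⟨⟨((l ^ k : ℕ) : ℤ), mem_nonZeroDivisors_of_ne_zero
      (Nat.cast_ne_zero.2 (pow_ne_zero _ (Fact.out : l.Prime).ne_zero))⟩, by
      change ((l ^ k : ℕ) : ℤ) • x = 0
      rw [Nat.cast_smul_eq_nsmul, hl0]⟩
  have h0 : Φ.Ev fun g => ρ₀ g = 1 := ⟨N', hN', fun g hg => LinearMap.ext fun x => Subtype.ext (by
    change ρ g x.1 = (LinearMap.id : M →ₗ[ℤ] M) x.1
    refine LinearMap.eqOn_span' (s := T) ?_ x.2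
    rintro _ ⟨⟨q, g'⟩, rfl⟩
    change ρ g (ρ g' _) = ρ g' _
    rw [← End.mul_apply, ← map_mul, show g * g' = g' * (g'⁻¹ * g * g') by group, map_mul,
      End.mul_apply, hf _ ((Φ.normal N' hN').conj_mem' g hg g')])⟩
  obtain ⟨c, hc'⟩ := AL.lift h2 (ρ := ρ₀) (ρ' := ρ') (p.comp M₀.subtype.toAddMonoidHom)
    (fun g x => he g x.1) ⟨k, hl0⟩ h0 c' fun g => by
      refine ⟨⟨ρ 1 (m (g : Γ ⧸ N).out), Submodule.subset_span ⟨((g : Γ ⧸ N), 1), rfl⟩⟩, ?_⟩
      obtain ⟨n, hn⟩ := QuotientGroup.mk_out_eq_mul N g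
      change p (ρ 1 (m (g : Γ ⧸ N).out)) = _
      rw [map_one, End.one_apply, hm, hn, c'.2.1, hc _ n.2, map_zero, add_zero]
  exact ⟨⟨fun g => (c.1 g).1, fun g g' => congrArg Subtype.val (c.2.1 g g'),
    c.2.2.mono fun g hg => congrArg Subtype.val hg⟩, hc'⟩

end Abs

variable [Bg] {R Rt : Type} [CommRing R] [CommRing Rt] {Γ : Type} [Group Γ]

/-- A finite level of a tower. -/
structure Lev (a : R →+* Rt) (ρ : Γ →* (Rt →+* Rt)) (Φ : AL.Fam Γ) : Type 1 where
  W : Type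
  [inst : CommRing W]
  b : R →+* W
  d : W →+* Rt
  σ : Γ → (W →+* W)
  et : b.Etale
  comm : d.comp b = a
  sur : Sur d
  equi : ∀ g, d.comp (σ g) = (ρ g).comp d
  fix : ∀ g, (σ g).comp b = b
  ev : Φ.Ev fun g => (ρ g).comp d = d

attribute [instance] Lev.inst

/-- Galois towers. -/
structure GT (a : R →+* Rt) (ρ : Γ →* (Rt →+* Rt)) (Φ : AL.Fam Γ) : Prop where
  fix : ∀ g, (ρ g).comp a = a
  sur : Sur a
  trans : ∀ y y' : Pnt Rt, y.comp a = y'.comp a → ∃ g, y' = y.comp (ρ g)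
  cof : ∀ N ∈ Φ.S, ∀ (W : Type) [CommRing W] (b : R →+* W) (d : W →+* Rt), b.Etale →
    d.comp b = a → ∃ (L : Lev a ρ Φ) (e : W →+* L.W), e.comp b = L.b ∧ L.d.comp e = d ∧
      ∀ (y : Pnt Rt) (g : Γ), (y.comp (ρ g)).comp L.d = y.comp L.d → g ∈ N
  lim : ∀ (F : Sys R), ∀ s ∈ F.S a, ∃ (W : Type) (_ : CommRing W) (b : R →+* W) (d : W →+* Rt)
    (t : Pnt W → F.A), b.Etale ∧ d.comp b = a ∧ t ∈ F.S b ∧ s = rs d t

/-- The map on sections over an algebra. -/
def appS {F G : Sys R} (m : Hom F G) (a : R →+* Rt) : F.S a →+ G.S a := (m.pb a).app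

theorem appS_val {F G : Sys R} (m : Hom F G) (a : R →+* Rt) (s : F.S a) (y : Pnt Rt) :
    (appS m a s).1 y = m.φ (y.comp a) (s.1 y) := rfl

/-- Restriction of global sections. -/
def resS (F : Sys R) (a : R →+* Rt) : Z0 F →+ F.S a := (F.can a).app

theorem resS_val (F : Sys R) (a : R →+* Rt) (s : Z0 F) : (resS F a s).1 = rs a s.1 := rfl

theorem appS_resS {F G : Sys R} (m : Hom F G) (a : R →+* Rt) (s : Z0 F) :
    appS m a (resS F a s) = resS G a (m.app s) := rfl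

/-- Sections over `a` form an exact functor. -/
def Exa (a : R →+* Rt) : Prop :=
  ∀ (F G : Sys R) (p : Hom F G), p.Surj → Function.Surjective (appS p a)

namespace GT

variable {a : R →+* Rt} {ρ : Γ →* (Rt →+* Rt)} {Φ : AL.Fam Γ} (h : GT a ρ Φ)

/-- The action on sections over the top of the tower. -/
def act (F : Sys R) : Γ →* End ℤ (F.S a) where
  toFun g := (AddMonoidHom.mk' (fun s : F.S a =>
    (⟨rs (ρ g) s.1, F.res' (ρ g) (h.fix g) s.2⟩ : F.S a)) fun _ _ => rfl).toIntLinearMap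
  map_one' := LinearMap.ext fun s => Subtype.ext (funext fun y => by
    change s.1 (y.comp (ρ 1)) = s.1 y
    rw [map_one]; rfl)
  map_mul' g k := LinearMap.ext fun s => Subtype.ext (funext fun y => by
    change s.1 (y.comp (ρ (g * k))) = s.1 ((y.comp (ρ g)).comp (ρ k))
    rw [map_mul]; rfl)

theorem act_val (F : Sys R) (g : Γ) (s : F.S a) (y : Pnt Rt) :
    (h.act F g s).1 y = s.1 (y.comp (ρ g)) := rfl

theorem act_app {F G : Sys R} (m : Hom F G) (g : Γ) (s : F.S a) :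
    appS m a (h.act F g s) = h.act G g (appS m a s) := Subtype.ext (funext fun y => by
  rw [appS_val, act_val, act_val, appS_val, RingHom.comp_assoc, h.fix])

theorem act_res (F : Sys R) (g : Γ) (s : Z0 F) : h.act F g (resS F a s) = resS F a s :=
  Subtype.ext (funext fun y => by
    rw [act_val, resS_val, rs_apply, rs_apply, RingHom.comp_assoc, h.fix])

include h in
theorem res_inj (F : Sys R) : Function.Injective (resS F a) := fun s t e =>
  Subtype.ext (funext fun x => by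
    obtain ⟨y, rfl⟩ := h.sur x
    exact congrFun (congrArg Subtype.val e) y)

include h in
theorem gta_fin (F : Sys R) {ι : Type} (s : ι → F.S a) (I : Finset ι) :
    ∃ (W : Type) (_ : CommRing W) (b : R →+* W) (d : W →+* Rt), b.Etale ∧ d.comp b = a ∧
      ∀ i ∈ I, ∃ t ∈ F.S b, (s i).1 = rs d t := by
  classical
  induction I using Finset.induction_on with
  | empty => exact ⟨R, _, RingHom.id R, a, et_id, rfl, by simp⟩
  | insert j I _ ih =>
    obtain ⟨W, _, b, d, hb, hd, ht⟩ := ih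
    obtain ⟨W', _, b', d', t', hb', hd', ht', e⟩ := h.lim F _ (s j).2
    refine ⟨Ten b b', _, (Ten.inl b b').comp b, Ten.lift d d' (hd.trans hd'.symm),
      et_comp hb (Ten.etale_inl b hb'), by rw [← RingHom.comp_assoc, Ten.lift_inl, hd],
      fun i hi => ?_⟩
    rcases Finset.mem_insert.1 hi with rfl | hi
    · exact ⟨_, F.res' (Ten.inr b b') (Ten.comm b b').symm ht', by rw [rs_comp, Ten.lift_inr, e]⟩
    · obtain ⟨t, h1, h2⟩ := ht i hi
      exact ⟨_, F.res (Ten.inl b b') h1, by rw [rs_comp, Ten.lift_inl, h2]⟩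

include h in
/-- Finitely many sections come from one level (`lim`, tensor products of the algebras, `cof`). -/
theorem lev (F : Sys R) {ι : Type} [Finite ι] (s : ι → F.S a) {N : Subgroup Γ} (hN : N ∈ Φ.S) :
    ∃ L : Lev a ρ Φ, (∀ i, ∃ t ∈ F.S L.b, (s i).1 = rs L.d t) ∧
      ∀ (y : Pnt Rt) (g : Γ), (y.comp (ρ g)).comp L.d = y.comp L.d → g ∈ N := by
  have := Fintype.ofFinite ι
  obtain ⟨W, _, b, d, hb, hd, ht⟩ := h.gta_fin F s Finset.univ
  obtain ⟨L, e, h1, h2, h3⟩ := h.cof N hN W b d hb hd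
  refine ⟨L, fun i => ?_, h3⟩
  obtain ⟨t, k1, k2⟩ := ht i (Finset.mem_univ i)
  exact ⟨_, F.res' e h1 k1, by rw [rs_comp, h2, k2]⟩

/-- `lev` and `Lev.ev`. -/
theorem disc (F : Sys R) (s : F.S a) : Φ.Ev fun g => h.act F g s = s := by
  obtain ⟨N, hN⟩ := Φ.ne
  obtain ⟨L, h1, -⟩ := h.lev F (fun _ : Unit => s) hN
  obtain ⟨t, -, e⟩ := h1 ()
  refine L.ev.mono fun g hg => Subtype.ext (funext fun y => ?_)
  rw [act_val, e, rs_apply, rs_apply, RingHom.comp_assoc, hg]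

/-- Put `t x = s y` for any `y` over `x` (`trans`); on a level `rs L.b t` is the given section
(`L.sur`); `L.b` is a cover; `Sys.desc`. -/
theorem desc (F : Sys R) (s : F.S a) (hs : ∀ g, h.act F g s = s) : ∃ t, resS F a t = s := by
  obtain ⟨N, hN⟩ := Φ.ne
  obtain ⟨L, h1, -⟩ := h.lev F (fun _ : Unit => s) hN
  obtain ⟨t, ht, e⟩ := h1 ()
  choose y₀ hy using h.sur
  have key : ∀ y : Pnt Rt, s.1 (y₀ (y.comp a)) = s.1 y := fun y => by
    obtain ⟨g, hg⟩ := h.trans y _ (hy (y.comp a)).symm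
    rw [hg, ← h.act_val, hs]
  have hc : Cov L.b := ⟨L.et, fun x => ⟨(y₀ x).comp L.d, by
    rw [RingHom.comp_assoc, L.comm, hy]⟩⟩
  have h2 : rs L.b (fun x => s.1 (y₀ x)) = t := funext fun z => by
    obtain ⟨y, rfl⟩ := L.sur z
    rw [rs_apply, RingHom.comp_assoc, L.comm, key, e, rs_apply]
  exact ⟨⟨fun x => s.1 (y₀ x), F.desc (a := RingHom.id R) hc (h2 ▸ ht)⟩,
    Subtype.ext (funext key)⟩

/-- Let `c = 0` on `N`; `c g` depends only on the coset `g N`.  Take a level `L` for the finitely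
many values; there `c g = rs L.d (germ of τ g)` with `τ g` a discontinuous section
(`Pre.Shf.sec`, `god_shf`).  For `x : Pnt R` fix `y₀ x` over `x`.  For `z : Pnt L.W` over `x` write
`z = y₀ ∘ ρ k ∘ L.d` and put `υ z = ev (c k y₀)`, which does not depend on `k`.  Then
`rs (L.σ g) υ = υ + τ g`; take `u = rs L.d (germ of υ)` and use `germ_res`, `germ_add`. -/
theorem cob_J (F : Sys R) (c : AL.Zc Φ (h.act (J F))) :
    ∃ u, ∀ g, c.1 g = h.act (J F) g u - u := by
  obtain ⟨N, hN, h0⟩ := c.2.2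
  have := Φ.fin N hN
  have hcN : ∀ g, ∀ n ∈ N, c.1 (g * n) = c.1 g := fun g n hn => by
    rw [c.2.1, h0 n hn, map_zero, add_zero]
  obtain ⟨L, hL, hfree⟩ := h.lev (J F) (fun q : Γ ⧸ N => c.1 q.out) hN
  have hL' : ∀ g, ∃ t ∈ (J F).S L.b, (c.1 g).1 = rs L.d t := fun g => by
    obtain ⟨n, hn⟩ := QuotientGroup.mk_out_eq_mul N g
    have h1 := hL (g : Γ ⧸ N)
    rwa [hn, hcN g n n.2] at h1
  choose t ht hct using hL'
  have hda : ∀ y : Pnt Rt, (y.comp L.d).comp L.b = y.comp a := fun y => by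
    rw [RingHom.comp_assoc, L.comm]
  have hρa : ∀ (y : Pnt Rt) g, (y.comp (ρ g)).comp a = y.comp a := fun y g => by
    rw [RingHom.comp_assoc, h.fix]
  have hρρ : ∀ (y : Pnt Rt) g k, (y.comp (ρ g)).comp (ρ k) = y.comp (ρ (g * k)) := fun y g k => by
    rw [map_mul]; rfl
  obtain ⟨e, he⟩ : ∃ e : Γ → Pnt Rt → F.A, ∀ g y, e g y = (god F).ev (y.comp a) ((c.1 g).1 y) :=
    ⟨_, fun _ _ => rfl⟩
  have hem : ∀ g y, e g y ∈ F.M (y.comp a) := fun g y => by
    rw [he]; exact Pre.ev_mem (P := god F) _ ((J F).mem (c.1 g).2 y)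
  have hec : ∀ g k y, e (g * k) y = e g y + e k (y.comp (ρ g)) := fun g k y => by
    have h1 := (J F).mem (c.1 k).2 (y.comp (ρ g))
    rw [hρa] at h1
    rw [he, he, he, c.2.1, hρa]
    exact Pre.ev_add (P := god F) _ ((J F).mem (c.1 g).2 y) h1
  choose y₀ hy₀ using h.sur
  have hk : ∀ y : Pnt Rt, ∃ k, y = (y₀ (y.comp a)).comp (ρ k) := fun y => h.trans _ _ (hy₀ _)
  choose κ hκ using hk
  choose lf hlf using L.sur
  obtain ⟨υ, hυ⟩ : ∃ υ : Pnt L.W → F.A, ∀ z, υ z = e (κ (lf z)) (y₀ ((lf z).comp a)) :=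
    ⟨_, fun _ => rfl⟩
  have hυm : ∀ z, υ z ∈ F.M (z.comp L.b) := fun z => by
    have h1 := hem (κ (lf z)) (y₀ ((lf z).comp a))
    rwa [hy₀, ← hυ, ← hda, hlf] at h1
  have hυk : ∀ (y : Pnt Rt) k, y = (y₀ (y.comp a)).comp (ρ k) →
      υ (y.comp L.d) = e k (y₀ (y.comp a)) := fun y k hy => by
    have h1 : (lf (y.comp L.d)).comp a = y.comp a := by rw [← hda, hlf, hda]
    have h2 := hκ (lf (y.comp L.d))
    rw [h1] at h2
    have h3 : k⁻¹ * κ (lf (y.comp L.d)) ∈ N := by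
      refine hfree y _ ?_
      have h4 : y.comp (ρ (k⁻¹ * κ (lf (y.comp L.d)))) = lf (y.comp L.d) :=
        ((congrArg (fun y' : Pnt Rt => y'.comp (ρ (k⁻¹ * κ (lf (y.comp L.d))))) hy).trans
          (by rw [hρρ, mul_inv_cancel_left])).trans h2.symm
      rw [h4, hlf]
    have h5 := hcN k _ h3
    rw [mul_inv_cancel_left] at h5
    rw [hυ, h1, he, he, h5]
  refine ⟨⟨rs L.d fun z => (god F).germ L.b z υ,
    (J F).res' L.d L.comm (Pre.gs_germ (P := god F) L.et hυm)⟩, fun g => ?_⟩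
  obtain ⟨τ, hτm, hτ, hτe⟩ : ∃ τ : Pnt L.W → F.A, τ ∈ (god F).S L.b ∧
      (∀ z, t g z = (god F).gd.germ L.b z τ) ∧
      ∀ z : Pnt L.W, τ z = (god F).ev (z.comp L.b) (t g z) :=
    ⟨fun z => (god F).ev (z.comp L.b) (t g z), ((god_shf F).sec L.et (ht g)).1,
      ((god_shf F).sec L.et (ht g)).2, fun _ => rfl⟩
  have hσ : rs (L.σ g) υ = υ + τ := by
    funext z
    obtain ⟨y, rfl⟩ := L.sur z
    have h1 : (y.comp L.d).comp (L.σ g) = (y.comp (ρ g)).comp L.d := by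
      rw [RingHom.comp_assoc, L.equi]; rfl
    have h2 : y.comp (ρ g) = (y₀ ((y.comp (ρ g)).comp a)).comp (ρ (κ y * g)) := by
      rw [hρa, ← hρρ, ← hκ]
    have h3 : e g y = τ (y.comp L.d) := by
      rw [he, hτe, hct, hda]; rfl
    rw [rs_apply, h1, hυk _ _ h2, hρa, hec, ← hκ, ← hυk y _ (hκ y), h3]
    rfl
  refine Subtype.ext (funext fun y => ?_)
  have h1 : (y.comp (ρ g)).comp L.d = (y.comp L.d).comp (L.σ g) := by
    rw [RingHom.comp_assoc (L.σ g), L.equi]; rfl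
  have h2 := (god F).gd.germ_res (L.σ g) (y.comp L.d) L.et (by rw [L.fix]; exact L.et) hυm
  rw [L.fix] at h2
  have h3 := ((god F).gd.germ_add (y.comp L.d) L.et hυm hτm).symm.trans
    ((congrArg ((god F).gd.germ L.b (y.comp L.d)) hσ).symm.trans h2)
  change (c.1 g).1 y = (god F).gd.germ L.b ((y.comp (ρ g)).comp L.d) υ -
    (god F).gd.germ L.b (y.comp L.d) υ
  rw [h1, ← h3, add_sub_cancel_left, hct]
  exact hτ _

theorem gtb_inj {F G : Sys R} {i : Hom F G} (hi : i.Inj) : Function.Injective (appS i a) :=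
  (injective_iff_map_eq_zero _).2 fun s hs => Subtype.ext (funext fun y =>
    hi (y.comp a) _ (F.mem s.2 y) (congrFun (congrArg Subtype.val hs) y))

theorem gtb_comp {F G K : Sys R} {i : Hom F G} {p : Hom G K} (hs : SES i p) (s : F.S a) :
    appS p a (appS i a s) = 0 := Subtype.ext (funext fun y =>
  (hs.ex (y.comp a) _ (i.mem _ _ (F.mem s.2 y))).2 (Mor.mem_im.2 ⟨_, F.mem s.2 y, rfl⟩))

theorem gtb_mid {F G K : Sys R} {i : Hom F G} {p : Hom G K} (hs : SES i p) (s : G.S a)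
    (h0 : appS p a s = 0) : ∃ t, appS i a t = s := by
  have h1 : ∀ y : Pnt Rt, ∃ u ∈ F.M (y.comp a), i.φ (y.comp a) u = s.1 y := fun y =>
    Mor.mem_im.1 ((hs.ex (y.comp a) _ (G.mem s.2 y)).1 (congrFun (congrArg Subtype.val h0) y))
  choose t ht hts using h1
  exact ⟨⟨t, i.sec_of_inj hs.inj ht (by rw [funext hts]; exact s.2)⟩, Subtype.ext (funext hts)⟩

include h in
/-- The class is represented by `t ∈ Z0 (Q (Q F))`.  Lift it to `u` over `a` in `J (Q F)`; then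
`act g u - u` is the image under `eta (Q F)` of a cocycle `c'` in `Q F` (`ses_can`,
`Mor.sec_of_inj`); lift `c'` to a cocycle in `J F` (`lift_disc`, `J_tor`), which is the coboundary
of some `v` (`cob_J`); `u - eta (piQ v)` is invariant, so it descends (`desc`), and it maps to `t`
(`res_inj`). -/
theorem cd_one (hx : Exa a) {l k : ℕ} [Fact l.Prime] (h2 : AL.H2 Φ l) {F : Sys R}
    (hF : F.Tor (l ^ k)) (ξ : H 2 F) : ξ = 0 := by
  obtain ⟨t, rfl⟩ : ∃ t : Z0 (Q (Q F)), sh 0 (Q F) t = ξ := sh_surj 0 (Q F) ξ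
  have hs := ses_can (Q F)
  obtain ⟨u, hu⟩ := hx _ _ (piQ (Q F)) hs.surj (resS _ a t)
  have h1 : ∀ g, ∃ w, appS (eta (Q F)) a w = h.act _ g u - u := fun g =>
    gtb_mid hs _ (by rw [map_sub, h.act_app, hu, h.act_res, sub_self])
  choose c' hc' using h1
  have hz : c' ∈ AL.Zc Φ (h.act (Q F)) := by
    refine ⟨fun g g' => gtb_inj hs.inj ?_, (h.disc _ u).mono fun g hg => gtb_inj hs.inj ?_⟩
    · rw [map_add, h.act_app, hc', hc', hc', map_sub, map_mul, End.mul_apply]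
      abel
    · rw [hc', hg, sub_self, map_zero]
  obtain ⟨c, hc⟩ := lift_disc h2 (ρ := h.act (J F)) (appS (piQ F) a) (h.act_app (piQ F)) (k := k)
    (fun m => Subtype.ext (funext fun y => J_tor hF _ _ ((J F).mem m.2 y))) (h.disc (J F))
    ⟨c', hz⟩ fun g => hx _ _ (piQ F) (ses_can F).surj _
  obtain ⟨v, hv⟩ := h.cob_J F c
  obtain ⟨s, hs'⟩ := h.desc _ (u - appS (eta (Q F)) a (appS (piQ F) a v)) fun g => by
    have h3 := hc g
    rw [hv, map_sub] at h3
    have h4 := hc' g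
    rw [← show _ = c' g from h3, map_sub] at h4
    rw [map_sub, ← h.act_app, ← h.act_app, sub_eq_sub_iff_sub_eq_sub, h4]
  refine (sh_ker 0 (Q F) t).2 ⟨s, h.res_inj _ ?_⟩
  change resS _ a ((piQ (Q F)).app s) = _
  rw [← appS_resS, hs', map_sub, gtb_comp hs, sub_zero, hu]

include h in
theorem cd_all (hx : Exa a) {l k : ℕ} [Fact l.Prime] (h2 : AL.H2 Φ l) (q : ℕ) {F : Sys R}
    (hF : F.Tor (l ^ k)) (ξ : H (q + 2) F) : ξ = 0 := by
  induction q generalizing F with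
  | zero => exact h.cd_one hx h2 hF ξ
  | succ q ih => exact ih (Q_tor hF) ξ

end GT

end

end Pool.Agent.Lib.MP_16ef92_ag.CV
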