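import Mathlib
import Pool.Agent.Lib.MP_16ef92_ag.AL.PA0
import Pool.Agent.Lib.MP_16ef92_ag.EL.Tsen2
import Pool.Agent.Lib.MP_6adaea_nt.V.FF0

set_option autoImplicit false
set_option linter.unusedSectionVars false
set_option linter.unusedVariables false

namespace Pool.Agent.Lib.MP_16ef92_ag.CV

open Polynomial Pool.Agent.Lib.MP_6adaea_nt

noncomputable section

variable (L Ls : Type) [Field L] [Field Ls] [Algebra L Ls] [Algebra.IsAlgebraic L Ls]

/-- Finite index: `EL.exists_normal` (needs any `EL.Pl`, e.g. `⟨2, Nat.prime_two⟩`). -/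
theorem near_fin (N : Subgroup (Ls ≃ₐ[L] Ls)) (h : Near fun g => g ∈ N) : N.FiniteIndex := by
  let : EL.Pl := ⟨2, Nat.prime_two⟩
  obtain ⟨M, -, h1, h2, -⟩ := EL.exists_normal h
  exact Subgroup.finiteIndex_of_le (H := M) h2

/-- The open normal subgroups of a Galois group. -/
def famG : AL.Fam (Ls ≃ₐ[L] Ls) where
  S := {N | N.Normal ∧ Near fun g => g ∈ N}
  ne := ⟨⊤, inferInstance, .of_forall fun _ => trivial⟩
  normal _ h := h.1
  fin N h := near_fin L Ls N h.2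
  inf N h N' h' := ⟨haveI := h.1; haveI := h'.1; inferInstance,
    (h.2.and h'.2).mono fun _ hg => hg⟩

variable {L Ls}

/-- `EL.exists_normal` again. -/
theorem famG_ev {P : (Ls ≃ₐ[L] Ls) → Prop} : (famG L Ls).Ev P ↔ Near P := by
  let : EL.Pl := ⟨2, Nat.prime_two⟩
  refine ⟨fun ⟨N, hN, h⟩ => hN.2.mono h, fun h => ?_⟩
  obtain ⟨M, h0, -, h2, h3⟩ := EL.exists_normal h
  exact ⟨M, ⟨h0, h3⟩, h2⟩

theorem r4_aux {B : Type} [Field B] [Algebra B L] [Algebra B Ls] [IsScalarTower B L Ls]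
    [Algebra.IsAlgebraic B Ls] [IsSepClosed Ls] [EL.Pl] [Fact EL.ell.Prime] (hl : (EL.ell : Ls) ≠ 0)
    (hR : ∀ g : Ls ≃ₐ[B] Ls, EL.Ru g) (hN : ∀ H : Subgroup (Ls ≃ₐ[B] Ls), EL.Nrm H) :
    AL.H2 (famG L Ls) EL.ell := by
  intro P hP β hc hn
  rw [famG_ev] at hP hn
  have : NeZero (EL.ell : Ls) := ⟨hl⟩
  obtain ⟨r, hr⟩ : ∃ r : Ls, IsPrimitiveRoot r EL.ell :=
    HasEnoughRootsOfUnity.exists_primitiveRoot _ _
  have c1 : ∀ m : ℕ, r ^ (m : ZMod EL.ell).val = r ^ m := fun m => by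
    rw [ZMod.val_natCast, ← pow_eq_pow_mod m hr.pow_eq_one]
  have c2 : ∀ a b : ZMod EL.ell, r ^ (a + b).val = r ^ a.val * r ^ b.val := fun a b => by
    conv_lhs => rw [← ZMod.natCast_zmod_val a, ← ZMod.natCast_zmod_val b, ← Nat.cast_add, c1,
      pow_add]
  have c3 : ∀ {a b : ZMod EL.ell}, r ^ a.val = r ^ b.val → a = b := fun h =>
    ZMod.val_injective _ (hr.pow_inj (ZMod.val_lt _) (ZMod.val_lt _) h)
  have c4 : ∀ {w : Ls}, w ^ EL.ell ^ 1 = 1 → ∃ a : ZMod EL.ell, w = r ^ a.val := fun hw => by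
    obtain ⟨i, _, hi⟩ := hr.eq_pow_of_pow_eq_one ((pow_one EL.ell) ▸ hw)
    exact ⟨i, by rw [c1, hi]⟩
  let ι : (Ls ≃ₐ[L] Ls) →* (Ls ≃ₐ[B] Ls) :=
    { toFun := fun g => g.restrictScalars B
      map_one' := rfl
      map_mul' := fun _ _ => rfl }
  have hι : ∀ g, Function.invFun ι (ι g) = g :=
    Function.leftInverse_invFun (AlgEquiv.restrictScalars_injective B)
  obtain ⟨S, hS⟩ := hn
  obtain ⟨b, hb1, ⟨S', hb2⟩, hb3⟩ := EL.h2_zero hl (P.map ι) (fun g _ => hR g) (hN _) (n := 1)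
    (fun g h => r ^ (β (Function.invFun ι g) (Function.invFun ι h)).val)
    (fun g _ h _ => by rw [pow_one, ← pow_mul, mul_comm, pow_mul, hr.pow_eq_one, one_pow])
    (by
      rintro _ ⟨g, hg, rfl⟩ _ ⟨h, hh, rfl⟩ _ ⟨k, hk, rfl⟩
      simp only [← map_mul, hι, ← c2, hc g hg h hh k hk])
    ⟨S, by
      rintro _ hm ⟨m, -, rfl⟩ _ ⟨g, hg, rfl⟩ _ ⟨h, hh, rfl⟩
      simp only [← map_mul, hι, (hS m hm g hg h hh).1, (hS m hm g hg h hh).2, and_self]⟩
  choose! e he using fun g (hg : g ∈ P) => c4 (hb1 (ι g) ⟨g, hg, rfl⟩)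
  refine ⟨e, fun g hg h hh => c3 ?_, famG_ev.2 ((hP.and ⟨S', fun m hm => hb2 (ι m) hm⟩).mono
    fun m hm g hg => c3 ?_)⟩
  · have := hb3 _ ⟨g, hg, rfl⟩ _ ⟨h, hh, rfl⟩
    rw [hι, hι, ← map_mul] at this
    rw [c2, c2, ← he g hg, ← he h hh, ← he _ (P.mul_mem hg hh)]
    exact this
  · rw [← he g hg, ← he _ (P.mul_mem hg hm.1), map_mul]
    exact hm.2 ⟨m, hm.1, rfl⟩ _ ⟨g, hg, rfl⟩

/-- Tsen.  Take `t` transcendental with `L` finite over `B = K⟮t⟯`; `Ls` is algebraic over `B`.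
Transport `P` and `β` along `restrictScalars B` to a subgroup `H` of `Ls ≃ₐ[B] Ls` (an automorphism
over `B` that fixes a finite `B`-basis of `L` is one over `L`), then argue as in `AL.h2_open`:
`EL.h2_zero` with `EL.nrm_of (k := K) t`, and a primitive `l`-th root of unity of `K`. -/
theorem h2_ff {K : Type} [Field K] [IsAlgClosed K] [Algebra K L] [IsFF K L] [IsSepClosed Ls]
    {l : ℕ} [Fact l.Prime] (hl : (l : K) ≠ 0) : AL.H2 (famG L Ls) l := by
  obtain ⟨t, -, ht⟩ := IsFF.ex (k := K) (K := L)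
  let : EL.Pl := ⟨l, Fact.out⟩
  let : Algebra K Ls := ((algebraMap L Ls).comp (algebraMap K L)).toAlgebra
  have : IsScalarTower K L Ls := IsScalarTower.of_algebraMap_eq fun _ => rfl
  have : Algebra.IsAlgebraic (IntermediateField.adjoin K {t}) Ls :=
    Algebra.IsAlgebraic.trans _ L Ls
  have hk : ∀ (g : Ls ≃ₐ[IntermediateField.adjoin K {t}] Ls) (c : K),
      g (algebraMap K Ls c) = algebraMap K Ls c := fun g c =>
    g.commutes (algebraMap K (IntermediateField.adjoin K {t}) c)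
  have h1 : (l : Ls) ≠ 0 := by
    have := (map_ne_zero (algebraMap K Ls)).2 hl
    rwa [map_natCast] at this
  refine r4_aux (B := IntermediateField.adjoin K {t}) h1 (fun g m w hw => ?_) fun H =>
    EL.nrm_of (k := K) (algebraMap L Ls t) (fun b => ?_) H (fun g _ => hk g) fun g _ =>
      g.commutes ⟨t, IntermediateField.mem_adjoin_simple_self K t⟩
  · have h2 : IsIntegral K w := IsIntegral.of_pow (EL.lp_pos m) (hw ▸ isIntegral_one)
    obtain ⟨c, rfl⟩ := minpoly.mem_range_of_degree_eq_one K w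
      (IsAlgClosed.degree_eq_one_of_irreducible K (minpoly.irreducible h2))
    exact hk g c
  · have h2 := IntermediateField.adjoin_map K {t} (IsScalarTower.toAlgHom K L Ls)
    rw [Set.image_singleton] at h2
    exact h2.le ⟨b.1, b.2, rfl⟩

end

end Pool.Agent.Lib.MP_16ef92_ag.CV
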