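import Mathlib
import Pool.Agent.Lib.MP_16ef92_ag.CV.GT
import Pool.Agent.Lib.MP_16ef92_ag.CV.Cst
import Pool.Agent.Lib.MP_16ef92_ag.CV.R4

set_option autoImplicit false
set_option linter.unusedSectionVars false
set_option linter.unusedVariables false
set_option linter.style.haveILetI false

namespace Pool.Agent.Lib.MP_16ef92_ag.CV

open RS Pool.Agent.Lib.MP_6adaea_nt

noncomputable section

variable [Bg] (L Ls : Type) [Field L] [Field Ls] [Algebra L Ls] [IsGalois L Ls] [IsSepClosed Ls]

section Aux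

variable {R K : Type} [CommRing R] [Field K]

theorem fld_sec [IsSepClosed K] {T Ω : Type} [CommRing T] [Field Ω] {e : K →+* T} (he : e.Etale)
    (z : T →+* Ω) : ∃ τ : T →+* K, τ.comp e = RingHom.id K ∧ (z.comp e).comp τ = z := by
  algebraize [e]
  haveI := Algebra.FormallyUnramified.finite_of_free K T
  haveI : IsArtinianRing T := isArtinian_of_tower K inferInstance
  haveI : (RingHom.ker z).IsPrime := RingHom.ker_isPrime z
  letI := Ideal.Quotient.field (RingHom.ker z)
  let u := RingEquiv.ofBijective _ (IsSepClosed.algebraMap_bijective K (T ⧸ RingHom.ker z))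
  refine ⟨u.symm.toRingHom.comp (Ideal.Quotient.mk _), RingHom.ext fun r => ?_,
    RingHom.ext fun t => ?_⟩
  · exact u.symm_apply_apply r
  · have h : Ideal.Quotient.mk (RingHom.ker z) (e (u.symm (Ideal.Quotient.mk _ t))) =
        Ideal.Quotient.mk _ t := u.apply_symm_apply _
    exact (RingHom.sub_mem_ker_iff z).1 (Ideal.Quotient.eq.1 h)

theorem fld_val [IsSepClosed K] (F : Sys R) (a : R →+* K) (y : Pnt K) {m : F.A}
    (hm : m ∈ F.M (y.comp a)) : ∃ (W : Type) (_ : CommRing W) (c : R →+* W) (d : W →+* K)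
      (t : Pnt W → F.A), c.Etale ∧ d.comp c = a ∧ t ∈ F.S c ∧ rs d t y = m := by
  obtain ⟨W, _, c, w, t, hc, hw, ht, rfl⟩ := F.stalk _ m hm
  obtain ⟨τ, h1, h2⟩ := fld_sec (Ten.etale_inr a hc) (Ten.lift w y hw)
  refine ⟨W, _, c, τ.comp (Ten.inl c a), t, hc, ?_, ht, ?_⟩
  · rw [RingHom.comp_assoc, Ten.comm, ← RingHom.comp_assoc, h1, RingHom.id_comp]
  · rw [Ten.lift_inr] at h2
    rw [rs_apply, ← RingHom.comp_assoc, h2, Ten.lift_inl]

theorem fld_ext (F : Sys R) {a : R →+* K} {s t : Pnt K → F.A} (hs : s ∈ F.S a) (ht : t ∈ F.S a)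
    {y : Pnt K} (h : s y = t y) : s = t := by
  obtain ⟨f, hf, h1⟩ := F.sep' hs ht h
  exact funext fun y' => h1 y' ((map_ne_zero y').2 ((map_ne_zero y).1 hf))

theorem fld_sur {K' : Type} [Field K'] [Algebra K K'] [Algebra.IsAlgebraic K K'] :
    Sur (algebraMap K K') := fun y => by
  obtain ⟨z, hz, -⟩ := pnt_lift_int (b := algebraMap K K')
    (algebraMap_isIntegral_iff.2 inferInstance) y ⊥ Ideal.isPrime_bot
    (by rw [← RingHom.ker_eq_comap_bot, (RingHom.injective_iff_ker_eq_bot _).1 y.injective,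
      (RingHom.injective_iff_ker_eq_bot _).1 (algebraMap K K').injective])
  exact ⟨z, hz⟩

end Aux

/-- The Galois group acts by ring homomorphisms. -/
def rhoG : (Ls ≃ₐ[L] Ls) →* (Ls →+* Ls) where
  toFun g := g
  map_one' := rfl
  map_mul' _ _ := rfl

theorem fld_trans (y y' : Pnt Ls) (h : y.comp (algebraMap L Ls) = y'.comp (algebraMap L Ls)) :
    ∃ g, y' = y.comp (rhoG L Ls g) := by
  letI : Algebra Ls OO := y.toAlgebra
  letI : Algebra L OO := (y.comp (algebraMap L Ls)).toAlgebra
  haveI : IsScalarTower L Ls OO := IsScalarTower.of_algebraMap_eq' rfl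
  let φ : Ls →ₐ[L] OO := ⟨y', fun r => (RingHom.congr_fun h r).symm⟩
  exact ⟨φ.restrictNormal' Ls, RingHom.ext fun x => (φ.restrictNormal_commutes Ls x).symm⟩

/-- The level of a finite Galois intermediate field. -/
def fld_lev (E : FiniteGaloisIntermediateField L Ls) :
    Lev (algebraMap L Ls) (rhoG L Ls) (famG L Ls) where
  W := E
  b := algebraMap L E
  d := algebraMap E Ls
  σ g := (AlgEquiv.restrictNormal g E : E →+* E)
  et := RingHom.etale_algebraMap.2 ⟨Algebra.FormallyEtale.of_isSeparable L E,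
    Algebra.FinitePresentation.of_finiteType.1 inferInstance⟩
  comm := rfl
  sur := fld_sur
  equi g := RingHom.ext fun x => AlgEquiv.restrictNormal_commutes g E x
  fix g := RingHom.ext fun x => (AlgEquiv.restrictNormal g E).commutes x
  ev := by
    classical
    obtain ⟨B, hB⟩ := Module.Finite.fg_top (R := L) (M := E)
    refine famG_ev.2 ⟨B.image (algebraMap E Ls), fun g hg => RingHom.ext fun x => ?_⟩
    exact LinearMap.congr_fun (LinearMap.ext_on hB
      (f := (g : Ls →ₐ[L] Ls).toLinearMap ∘ₗ (E.toIntermediateField.val).toLinearMap)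
      (g := (E.toIntermediateField.val).toLinearMap)
      fun b hb => hg _ (Finset.mem_image_of_mem _ hb)) x

/-- `sur`: `pnt_lift_int`.  `trans`: two points of `Ls` that agree on `L` have the same image (the
separable closure of the image of `L` in `OO`).  `cof`: the level is a finite Galois intermediate
field that contains the image of `d` (finitely generated) and a finite set `S` whose pointwise
stabiliser lies in `N`.  `lim`: if `Ls` has a point `y`, write `s y = t w` with `Sys.stalk`; `w`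
factors as `y ∘ d`; then `s` and `rs d t` agree at `y`, hence everywhere (`Sys.sep'`, `Ls` is a
field); if it has none take `W = L`, `t = 0`. -/
theorem gt_field : GT (algebraMap L Ls) (rhoG L Ls) (famG L Ls) := by
  refine ⟨fun g => RingHom.ext fun r => g.commutes r, fld_sur, fld_trans L Ls,
    fun N hN W _ b d hb hd => ?_, fun F s hs => ?_⟩
  · obtain ⟨S, hS⟩ := hN.2
    letI := b.toAlgebra
    haveI : Algebra.Etale L W := hb
    obtain ⟨T, hT⟩ := Algebra.FiniteType.out (R := L) (A := W)
    let E := FiniteGaloisIntermediateField.adjoin L ((S : Set Ls) ∪ d '' T)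
    have hE := FiniteGaloisIntermediateField.subset_adjoin L ((S : Set Ls) ∪ d '' T)
    let d' : W →ₐ[L] Ls := ⟨d, RingHom.congr_fun hd⟩
    have h1 : ∀ w, d w ∈ E.toIntermediateField := fun w =>
      (Algebra.adjoin_le (S := E.toIntermediateField.toSubalgebra.comap d')
        fun t ht => hE (Or.inr ⟨t, ht, rfl⟩))
        (hT ▸ Algebra.mem_top : w ∈ Algebra.adjoin L (T : Set W))
    refine ⟨fld_lev L Ls E, d.codRestrict E.toIntermediateField h1,
      RingHom.ext fun r => Subtype.ext (RingHom.congr_fun hd r), rfl, fun y g h => ?_⟩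
    exact hS g fun s hs => y.injective (RingHom.congr_fun h ⟨s, hE (Or.inl hs)⟩)
  · rcases isEmpty_or_nonempty (Pnt Ls) with h | ⟨⟨y⟩⟩
    · exact ⟨L, _, RingHom.id L, algebraMap L Ls, 0, et_id, rfl, zero_mem _,
        funext fun y => h.elim y⟩
    · obtain ⟨W, _, c, d, t, hc, hd, ht, h⟩ := fld_val F _ y (F.mem hs y)
      exact ⟨W, _, c, d, t, hc, hd, ht, fld_ext F hs (F.res' d hd ht) h.symm⟩

/-- Evaluation at a point of `Ls` identifies sections over `Ls` with a stalk (`cstHom_inj`,
`cstHom_surj` for `F.pb (algebraMap L Ls)`). -/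
theorem exa_field : Exa (algebraMap L Ls) := fun F G p hp s => by
  rcases isEmpty_or_nonempty (Pnt Ls) with h | ⟨⟨y⟩⟩
  · exact ⟨0, Subtype.ext (funext fun y => h.elim y)⟩
  · obtain ⟨u, hu, e⟩ := hp _ _ (G.mem s.2 y)
    obtain ⟨W, _, c, d, t, hc, hd, ht, h⟩ := fld_val F (algebraMap L Ls) y hu
    refine ⟨⟨rs d t, F.res' d hd ht⟩, Subtype.ext (fld_ext G (appS p _ _).2 s.2 (y := y) ?_)⟩
    rw [appS_val, ← e, ← h]

variable {L}

/-- Function fields of curves have cohomological dimension at most one. -/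
theorem cd_ff {K : Type} [Field K] [IsAlgClosed K] [Algebra K L] [IsFF K L] {l k : ℕ}
    [Fact l.Prime] (hl : (l : K) ≠ 0) (q : ℕ) {F : Sys L} (hF : F.Tor (l ^ k))
    (ξ : H (q + 2) F) : ξ = 0 :=
  (gt_field L (SeparableClosure L)).cd_all (exa_field L _) (h2_ff (K := K) hl) q hF ξ

end

end Pool.Agent.Lib.MP_16ef92_ag.CV
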