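import Mathlib
import Pool.Agent.Lib.MP_16ef92_ag.CV.Cst

set_option autoImplicit false
set_option linter.unusedSectionVars false
set_option linter.unusedVariables false
set_option linter.style.haveILetI false

namespace Pool.Agent.Lib.MP_16ef92_ag.CV

open RS

noncomputable section

variable [Bg] {V W V' : Type} [CommRing V] [CommRing W] [CommRing V'] {n : ℕ} [NeZero n]

variable (n) in
/-- A root of unity that is primitive at every point, `n` being invertible. -/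
structure Prim (ζ : V) : Prop where
  unit : IsUnit (n : V)
  pow : ζ ^ n = 1
  prim : ∀ x : Pnt V, IsPrimitiveRoot (x ζ) n

theorem Prim.map {ζ : V} (h : Prim n ζ) (g : V →+* W) : Prim n (g ζ) :=
  ⟨by simpa using h.unit.map g, by rw [← map_pow, h.pow, map_one], fun x => h.prim (x.comp g)⟩

theorem prim_field {L : Type} [Field L] {ζ : L} (h : IsPrimitiveRoot ζ n) : Prim n ζ :=
  ⟨Ne.isUnit (h.neZero' (R := L)).ne, h.pow_eq_one, fun x => h.map_of_injective x.injective⟩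

variable (n) in
/-- `ξ` is the Kummer class of the unit `u`. -/
def IsK (ζ : V) (u : Vˣ) (ξ : H 1 (cst V (ZMod n))) : Prop :=
  ∀ (W : Type) [CommRing W] (b : V →+* W) (w : W) (t : Pnt W → ZMod n) (r : Pnt V → OO),
    b.Etale → w ^ n = b u → (∀ y : Pnt W, y w = y (b ζ) ^ (t y).val * r (y.comp b)) →
      IsCls (cst V (ZMod n)) ξ b t

/-- The cover obtained by adjoining an `n`-th root: `AdjoinRoot (X ^ n - C u)` is standard etale
(`StandardEtalePair`, the derivative `n X ^ (n - 1)` is a unit), and universal. -/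
theorem exists_root_cov (hn : IsUnit (n : V)) (u : Vˣ) : ∃ (W : Type) (_ : CommRing W)
    (b : V →+* W) (w : W), Cov b ∧ w ^ n = b u ∧ ∀ (W' : Type) [CommRing W'] (b' : V →+* W')
      (w' : W'), w' ^ n = b' u → ∃ d : W →+* W', d.comp b = b' ∧ d w = w' := by
  let P : StandardEtalePair V := ⟨Polynomial.X ^ n - Polynomial.C u.1,
    Polynomial.monic_X_pow_sub_C _ (NeZero.ne n), _, 1, 0, 1, by
      rw [mul_one, mul_zero, add_zero, pow_one]⟩
  have key : ∀ (W' : Type) [CommRing W'] (b' : V →+* W') (w' : W'), w' ^ n = b' u →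
      ∃ d : P.Ring →+* W', d.comp (algebraMap V _) = b' ∧ d P.X = w' := by
    intro W' _ b' w' hw
    letI := b'.toAlgebra
    have h1 : IsUnit w' := (isUnit_pow_iff (NeZero.ne n)).1 (hw ▸ u.isUnit.map b')
    have h2 : P.HasMap w' := by
      refine ⟨?_, ?_⟩
      · simp only [P, map_sub, map_pow, Polynomial.aeval_X, Polynomial.aeval_C]
        exact sub_eq_zero.2 hw
      · simp only [P, Polynomial.derivative_sub, Polynomial.derivative_X_pow,
          Polynomial.derivative_C, sub_zero, map_mul, map_pow, Polynomial.aeval_X,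
          Polynomial.aeval_C]
        exact (hn.map _).mul (h1.pow _)
    exact ⟨(P.lift w' h2).toRingHom, RingHom.ext (P.lift w' h2).commutes, P.lift_X w' h2⟩
  refine ⟨P.Ring, _, algebraMap V _, P.X, ⟨RingHom.etale_algebraMap.2 inferInstance, fun y => ?_⟩,
    ?_, key⟩
  · obtain ⟨z, hz⟩ := IsAlgClosed.exists_pow_nat_eq (y u) (NeZero.pos n)
    exact (key _ y z hz).imp fun _ h => h.1
  · have := P.hasMap_X.1
    simp only [P, map_sub, map_pow, Polynomial.aeval_X, Polynomial.aeval_C] at this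
    exact sub_eq_zero.1 this

theorem kuma_ne {b : V →+* W} {w : W} {u : Vˣ} (h : w ^ n = b u) (y : Pnt W) : y w ≠ 0 :=
  (((isUnit_pow_iff (NeZero.ne n)).1 (h ▸ u.isUnit.map b)).map y).ne_zero

theorem kuma_pw {z : OO} (h : IsPrimitiveRoot z n) (a b : ZMod n) :
    z ^ (a + b).val = z ^ a.val * z ^ b.val := by
  rw [ZMod.val_add, ← pow_eq_pow_mod _ h.pow_eq_one, pow_add]

theorem kuma_inj {z : OO} (h : IsPrimitiveRoot z n) {a b : ZMod n} (e : z ^ a.val = z ^ b.val) :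
    a = b := ZMod.val_injective n (h.pow_inj a.val_lt b.val_lt e)

theorem kuma_lc {ζ w w' : V} (h : Prim n ζ) (h0 : ∀ y : Pnt V, y w' ≠ 0) {t : Pnt V → ZMod n}
    (ht : ∀ y : Pnt V, y w = y ζ ^ (t y).val * y w') : LC t := fun y => by
  classical
  have e : ∀ y' : Pnt V, y' (∏ j ∈ Finset.univ.erase (t y), (w - ζ ^ j.val * w')) ≠ 0 ↔
      t y' = t y := fun y' => by
    rw [map_prod, Finset.prod_ne_zero_iff]
    simp only [map_sub, map_mul, map_pow, ht y', sub_ne_zero, Finset.mem_erase, Finset.mem_univ,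
      and_true]
    exact ⟨fun h1 => by_contra fun h2 => h1 _ h2 rfl, fun h1 j hj h2 =>
      hj ((kuma_inj (h.prim y') (mul_right_cancel₀ (h0 y') h2)).symm.trans h1)⟩
  exact ⟨_, (e y).2 rfl, fun y' => (e y').1⟩

/-- The logarithm exists pointwise: fix an `n`-th root `r x` of `x u` for every point `x`. -/
theorem exists_log {ζ : V} (h : Prim n ζ) (u : Vˣ) : ∃ r : Pnt V → OO,
    ∀ (W : Type) [CommRing W] (b : V →+* W) (w : W), w ^ n = b u →
      ∃ t : Pnt W → ZMod n, ∀ y : Pnt W, y w = y (b ζ) ^ (t y).val * r (y.comp b) := by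
  choose r hr using fun x : Pnt V => IsAlgClosed.exists_pow_nat_eq (x u) (NeZero.pos n)
  refine ⟨r, fun W _ b w hw => ?_⟩
  have key : ∀ y : Pnt W, ∃ k : ZMod n, y w = y (b ζ) ^ k.val * r (y.comp b) := fun y => by
    have h0 : r (y.comp b) ≠ 0 := kuma_ne (hr (y.comp b)) (RingHom.id _)
    obtain ⟨i, hi, e⟩ := (h.prim (y.comp b)).eq_pow_of_pow_eq_one (ξ := y w / r (y.comp b)) (by
      rw [div_pow, hr, ← map_pow, hw]
      exact div_self (u.isUnit.map (y.comp b)).ne_zero)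
    exact ⟨i, by rw [ZMod.val_cast_of_lt hi]; exact (div_eq_iff h0).1 e.symm⟩
  exact Classical.skolem.1 key

/-- The logarithm of a root of unity is locally constant: `∏ (ε - ζ ^ j)` vanishes at all points;
near `y` the factors with `j ≠ t y` do not vanish. -/
theorem lc_log {ζ ε : V} (h : Prim n ζ) (hε : ε ^ n = 1) {t : Pnt V → ZMod n}
    (ht : ∀ y : Pnt V, y ε = y ζ ^ (t y).val) : LC t :=
  kuma_lc (w := ε) (w' := 1) h (fun y => by simp) fun y => by simp [ht y]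

/-- On the universal cover the logarithm is a `Coc` (`lc_log`); `Coc.exists_cls`; for another
`(W, w, t, r)` use `IsCls.refine` and `IsCls.change`. -/
theorem exists_isK (ζ : V) (u : Vˣ) : ∃ ξ, Prim n ζ → IsK n ζ u ξ := by
  classical
  by_cases h : Prim n ζ
  swap
  · exact ⟨0, fun h' => absurd h' h⟩
  obtain ⟨W₀, _, b₀, w₀, hb₀, hw₀, hu⟩ := exists_root_cov h.unit u
  obtain ⟨r₀, hr₀⟩ := exists_log h u
  obtain ⟨t₀, ht₀⟩ := hr₀ W₀ b₀ w₀ hw₀
  have hc : Coc (cst V (ZMod n)) b₀ t₀ := ⟨fun _ => trivial, fun T _ d e hde => by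
    refine kuma_lc (w := d w₀) (w' := e w₀) (h.map (d.comp b₀))
      (fun y => kuma_ne hw₀ (y.comp e)) fun y => ?_
    have e1 : (y.comp e).comp b₀ = (y.comp d).comp b₀ := congrArg y.comp hde.symm
    have e2 : y (e (b₀ ζ)) = y (d (b₀ ζ)) := RingHom.congr_fun e1 ζ
    have h1 : y (d w₀) = y (d (b₀ ζ)) ^ _ * _ := ht₀ (y.comp d)
    have h2 : y (e w₀) = y (e (b₀ ζ)) ^ _ * _ := ht₀ (y.comp e)
    have h3 := kuma_pw (h.prim ((y.comp d).comp b₀)) (t₀ (y.comp d) - t₀ (y.comp e)) (t₀ (y.comp e))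
    rw [sub_add_cancel] at h3
    rw [h1, h2, e1, e2, ← mul_assoc]
    exact congrArg (· * _) h3⟩
  obtain ⟨ξ, hξ⟩ := hc.exists_cls hb₀
  refine ⟨ξ, fun _ W _ b w t r hb hw ht => ?_⟩
  obtain ⟨d, rfl, rfl⟩ := hu W b w hw
  have key : ∀ y y' : Pnt W, y.comp (d.comp b₀) = y'.comp (d.comp b₀) →
      t y - t₀ (y.comp d) = t y' - t₀ (y'.comp d) := fun y y' e => by
    have hp := h.prim (y.comp (d.comp b₀))
    have e2 : y' (d (b₀ ζ)) = y (d (b₀ ζ)) := (RingHom.congr_fun e ζ).symm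
    have h1 : y (d w₀) = y (d (b₀ ζ)) ^ _ * r₀ (y.comp (d.comp b₀)) := ht₀ (y.comp d)
    have h2 : y' (d w₀) = y' (d (b₀ ζ)) ^ _ * r₀ (y'.comp (d.comp b₀)) := ht₀ (y'.comp d)
    have h3 : y (d w₀) = y (d (b₀ ζ)) ^ _ * _ := ht y
    have h4 : y' (d w₀) = y' (d (b₀ ζ)) ^ _ * _ := ht y'
    rw [e2, ← e] at h2 h4
    have h5 := right_ne_zero_of_mul (h1 ▸ kuma_ne hw y)
    have h6 := right_ne_zero_of_mul (h3 ▸ kuma_ne hw y)
    rw [sub_eq_sub_iff_add_eq_add]
    refine kuma_inj hp (mul_right_cancel₀ (mul_ne_zero h5 h6) ?_)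
    rw [kuma_pw hp, kuma_pw hp]
    change y (d (b₀ ζ)) ^ _ * y (d (b₀ ζ)) ^ _ * _ = y (d (b₀ ζ)) ^ _ * y (d (b₀ ζ)) ^ _ * _
    linear_combination (congrArg₂ (· * ·) h3 h2).symm.trans
      ((mul_comm _ _).trans (congrArg₂ (· * ·) h4 h1))
  refine (hξ.refine hb₀.et hb d rfl).change hb (fun x =>
    if h : ∃ y : Pnt W, y.comp (d.comp b₀) = x then t h.choose - t₀ (h.choose.comp d) else 0)
    (fun _ => trivial) ?_
  refine (congrArg (· ∈ _) (funext fun y => ?_)).mpr (zero_mem _)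
  have hy : ∃ y' : Pnt W, y'.comp (d.comp b₀) = y.comp (d.comp b₀) := ⟨y, rfl⟩
  refine sub_eq_zero.2 ((key _ _ hy.choose_spec).symm.trans ?_)
  rw [rs_apply, dif_pos hy]

variable (n) in
/-- The Kummer class. -/
def kum (ζ : V) (u : Vˣ) : H 1 (cst V (ZMod n)) := (exists_isK ζ u).choose

theorem kum_spec {ζ : V} (h : Prim n ζ) (u : Vˣ) : IsK n ζ u (kum n ζ u) :=
  (exists_isK ζ u).choose_spec h

theorem kumb_pow {x : OO} (hx : x ^ n = 1) {k : ℕ} {a : ZMod n} (e : (k : ZMod n) = a) :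
    x ^ a.val = x ^ k := by
  rw [← e, ZMod.val_natCast, ← pow_eq_pow_mod k hx]

theorem kumb_one {ζ : V} (h : Prim n ζ) (b : V →+* W) (y : Pnt W) : y (b ζ) ^ n = 1 := by
  rw [← map_pow, ← map_pow, h.pow, map_one, map_one]

/-- Use a cover on which both units have roots; `IsCls.add`, `IsCls.unique`. -/
theorem kum_mul {ζ : V} (h : Prim n ζ) (u v : Vˣ) : kum n ζ (u * v) = kum n ζ u + kum n ζ v := by
  obtain ⟨W₁, _, b₁, w₁, c₁, e₁, -⟩ := exists_root_cov h.unit u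
  obtain ⟨W₂, _, b₂, w₂, c₂, e₂, -⟩ := exists_root_cov h.unit v
  have hb := et_comp c₁.et (Ten.etale_inl b₁ c₂.et)
  have h1 : Ten.inl b₁ b₂ w₁ ^ n = (Ten.inl b₁ b₂).comp b₁ u := by
    rw [← map_pow, e₁, RingHom.comp_apply]
  have h2 : Ten.inr b₁ b₂ w₂ ^ n = (Ten.inl b₁ b₂).comp b₁ v := by
    rw [← map_pow, e₂, Ten.comm, RingHom.comp_apply]
  obtain ⟨r, hr⟩ := exists_log h u
  obtain ⟨r', hr'⟩ := exists_log h v
  obtain ⟨t, ht⟩ := hr _ _ _ h1
  obtain ⟨t', ht'⟩ := hr' _ _ _ h2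
  refine IsCls.unique (c₁.sur.comp (Sur.inl b₁ c₂.sur)) (kum_spec h (u * v) _ _
    (Ten.inl b₁ b₂ w₁ * Ten.inr b₁ b₂ w₂) (t + t') (r * r') hb ?_ fun y => ?_)
    ((kum_spec h u _ _ _ t r hb h1 ht).add hb (kum_spec h v _ _ _ t' r' hb h2 ht'))
  · rw [mul_pow, h1, h2, ← map_mul, Units.val_mul]
  · rw [map_mul, ht, ht', kumb_pow (kumb_one h _ y) (k := (t y).val + (t' y).val)
      (a := (t + t') y) (by simp), pow_add, Pi.mul_apply, mul_mul_mul_comm]

/-- `W = V`, `t = 0`. -/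
theorem kum_pow_n {ζ : V} (h : Prim n ζ) (u : Vˣ) : kum n ζ (u ^ n) = 0 :=
  ((kum_spec h (u ^ n) V (RingHom.id V) u 0 (fun x => x u) et_id (Units.val_pow_eq_pow_val u n).symm
    fun y => by simp).zero_iff ⟨et_id, fun y => ⟨y, rfl⟩⟩).2
    ⟨0, fun _ => zero_mem _, fun y => .of_forall fun _ => rfl⟩

/-- `IsCls.map` with the base change of the cover. -/
theorem kum_map {ζ : V} (h : Prim n ζ) (u : Vˣ) (g : V →+* W) :
    rc 1 (ZMod n) g (kum n ζ u) = kum n (g ζ) (Units.map (g : V →* W) u) := by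
  obtain ⟨W₁, _, b, w, c, e, -⟩ := exists_root_cov h.unit u
  obtain ⟨r, hr⟩ := exists_log h u
  obtain ⟨t, ht⟩ := hr _ b w e
  have hb := Ten.etale_inr g c.et
  have h1 : ∀ x, Ten.inl b g (b x) = Ten.inr b g (g x) := RingHom.congr_fun (Ten.comm b g)
  refine IsCls.unique (Sur.inr g c.sur) ((kum_spec h u _ b w t r c.et e ht).map c.et
    (cstMap g (AddMonoidHom.id (ZMod n))) hb (Ten.inl b g) (Ten.comm b g))
    (kum_spec (h.map g) _ _ _ (Ten.inl b g w) (fun z => t (z.comp (Ten.inl b g)))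
      (fun x => r (x.comp g)) hb ?_ fun y => ?_)
  · rw [← map_pow, e, h1]
    rfl
  · have := ht (y.comp (Ten.inl b g))
    rwa [RingHom.comp_apply, RingHom.comp_apply, h1, RingHom.comp_assoc, Ten.comm] at this

/-- Change of the root of unity; `IsCls.nsmul`. -/
theorem kum_zeta {ζ : V} (h : Prim n ζ) {j : ℕ} (h' : Prim n (ζ ^ j)) (u : Vˣ) :
    kum n ζ u = j • kum n (ζ ^ j) u := by
  obtain ⟨W₁, _, b, w, c, e, -⟩ := exists_root_cov h.unit u
  obtain ⟨r, hr⟩ := exists_log h' u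
  obtain ⟨t, ht⟩ := hr _ b w e
  refine IsCls.unique c.sur (kum_spec h u _ b w (j • t) r c.et e fun y => ?_)
    ((kum_spec h' u _ b w t r c.et e ht).nsmul c.et j)
  rw [ht, kumb_pow (kumb_one h b y) (k := j * (t y).val) (a := (j • t) y) (by simp), pow_mul,
    map_pow, map_pow]

/-- The Kummer map as a homomorphism. -/
def kumH {ζ : V} (h : Prim n ζ) : Additive Vˣ →+ H 1 (cst V (ZMod n)) :=
  AddMonoidHom.mk' (fun u => kum n ζ u.toMul) fun u v => kum_mul h _ _

theorem kum_one {ζ : V} (h : Prim n ζ) : kum n ζ 1 = 0 := map_zero (kumH h)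

theorem kum_pow {ζ : V} (h : Prim n ζ) (u : Vˣ) (k : ℕ) : kum n ζ (u ^ k) = k • kum n ζ u :=
  map_nsmul (kumH h) k (Additive.ofMul u)

theorem kum_zpow {ζ : V} (h : Prim n ζ) (u : Vˣ) (k : ℤ) : kum n ζ (u ^ k) = k • kum n ζ u :=
  map_zsmul (kumH h) k (Additive.ofMul u)

variable {M : Type} [AddCommGroup M] (hM : ∀ m : M, n • m = 0)

/-- A class with values in `ZMod n` times an element of `M`. -/
def cm : H 1 (cst V (ZMod n)) →+ M →+ H 1 (cst V M) :=
  AddMonoidHom.mk' (fun c => (cup (cst_tor hM V) c 0).comp (csec V M)) fun c c' =>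
    AddMonoidHom.ext fun m => cup_add (cst_tor hM V) c c' 0 _

theorem cm_apply (c : H 1 (cst V (ZMod n))) (m : M) :
    cm hM c m = cup (cst_tor hM V) c 0 (csec V M m) := rfl

theorem rc_cm (g : V →+* W) (c : H 1 (cst V (ZMod n))) (m : M) :
    rc 1 M g (cm hM c m) = cm hM (rc 1 (ZMod n) g c) m :=
  cup_nat (cst_tor hM V) (cst_tor hM W) (cstMap g (AddMonoidHom.id M)) c 0 _

theorem cm_cls {c : H 1 (cst V (ZMod n))} {b : V →+* W} (hb : b.Etale) {σ : Pnt W → ZMod n}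
    (hc : IsCls (cst V (ZMod n)) c b σ) (m : M) :
    IsCls (cst V M) (cm hM c m) b fun y => (σ y).val • m := cup_cls (cst_tor hM V) hb hc _

end

end Pool.Agent.Lib.MP_16ef92_ag.CV
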