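import Mathlib
import Pool.Agent.Lib.MP_16ef92_ag.Gal

set_option autoImplicit false
set_option linter.unusedSectionVars false
set_option linter.unusedVariables false

namespace Pool.Agent.Lib.MP_16ef92_ag.CV

open Polynomial

noncomputable section

variable {L Ls M : Type} [Field L] [Field Ls] [Algebra L Ls] [IsGalois L Ls] [IsSepClosed Ls]
  [AddCommGroup M] {n : ℕ} [NeZero n] {ζ : L}

/-- Independent elements of `M` of orders `d i`. -/
def Ind {ι : Type} [Fintype ι] (m : ι → M) (d : ι → ℕ) : Prop :=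
  ∀ a : ι → ℤ, ∑ i, a i • m i = 0 ↔ ∀ i, (d i : ℤ) ∣ a i

/-- A finite subgroup is a direct sum of cyclic groups
(`AddCommGroup.equiv_directSum_zmod_of_finite'`). -/
theorem exists_ind (A : AddSubgroup M) [Finite A] :
    ∃ (r : ℕ) (m : Fin r → M) (d : Fin r → ℕ), (∀ i, m i ∈ A) ∧ (∀ i, d i ≠ 0) ∧ Ind m d ∧
      ∀ x ∈ A, ∃ a : Fin r → ℤ, x = ∑ i, a i • m i := by
  classical
  obtain ⟨ι, _, d, hd, ⟨e⟩⟩ := AddCommGroup.equiv_directSum_zmod_of_finite' A
  let σ := (Fintype.equivFin ι).symm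
  let b : ι → A := fun i => e.symm (DirectSum.of (fun i => ZMod (d i)) i 1)
  have key : ∀ (a : ι → ℤ) (j : ι), e (∑ i, a i • b i) j = (a j : ZMod (d j)) := fun a j => by
    have k0 : ∀ i, e (a i • b i) = DirectSum.of (fun i => ZMod (d i)) i (a i) := fun i => by
      rw [map_zsmul, e.apply_symm_apply, ← map_zsmul, zsmul_one]
    rw [map_sum, DFinsupp.finsetSum_apply, Finset.sum_eq_single j]
    · rw [k0, DirectSum.of_eq_same]
    · intro i _ hi
      rw [k0, DirectSum.of_eq_of_ne _ _ _ hi.symm]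
    · simp
  have k2 : ∀ a : Fin (Fintype.card ι) → ℤ, ∑ i, a i • (b (σ i) : M) =
      ((∑ i, a (σ.symm i) • b i : A) : M) := fun a => by
    rw [← σ.sum_comp]
    simp
  refine ⟨_, fun i => b (σ i), fun i => d (σ i), fun i => (b _).2,
    fun i => (one_pos.trans (hd (σ i))).ne', fun a => ?_, fun x hx => ?_⟩
  · rw [k2, ZeroMemClass.coe_eq_zero, ← e.map_eq_zero_iff, DFinsupp.ext_iff, ← σ.forall_congr_right]
    refine forall_congr' fun i => ?_
    rw [key, σ.symm_apply_apply]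
    exact ZMod.intCast_zmod_eq_zero_iff_dvd _ _
  · refine ⟨fun i => (e ⟨x, hx⟩ (σ i)).cast, ?_⟩
    rw [k2]
    refine congrArg Subtype.val (e.injective (DFinsupp.ext fun j => ?_) : (⟨x, hx⟩ : A) = _)
    rw [key]
    obtain ⟨i, rfl⟩ := σ.surjective j
    rw [σ.symm_apply_apply, ZMod.intCast_zmod_cast]

/-- Characters with values in `ZMod n` separate the points of a group killed by `n`
(`CharacterModule.exists_character_apply_ne_zero_of_ne_zero`; the `n`-torsion of `ℚ / ℤ` embeds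
in `ZMod n`). -/
theorem exists_chr (hM : ∀ m : M, n • m = 0) {m : M} (hm : m ≠ 0) :
    ∃ φ : M →+ ZMod n, φ m ≠ 0 := by
  obtain ⟨c, hc⟩ := CharacterModule.exists_character_apply_ne_zero_of_ne_zero hm
  have hn : (n : ℚ) ≠ 0 := Nat.cast_ne_zero.2 (NeZero.ne n)
  let u : AddCircle (1 : ℚ) := ((1 / n : ℚ) : AddCircle (1 : ℚ))
  have hu : ∀ k : ℤ, k • u = 0 ↔ (n : ℤ) ∣ k := fun k => by
    rw [← addOrderOf_dvd_iff_zsmul_eq_zero, AddCircle.addOrderOf_period_div (NeZero.pos n)]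
  let ι : ZMod n →+ AddCircle (1 : ℚ) :=
    ZMod.lift n ⟨zmultiplesHom _ u, (hu n).2 dvd_rfl⟩
  have hι : ∀ k : ℤ, ι k = k • u := fun k => ZMod.lift_coe _ _ _
  have hi : Function.Injective ι := (injective_iff_map_eq_zero _).2 fun x hx => by
    obtain ⟨k, rfl⟩ := ZMod.intCast_surjective x
    exact (ZMod.intCast_zmod_eq_zero_iff_dvd _ _).2 ((hu k).1 (hι k ▸ hx))
  have hs : ∀ x, ∃ y, ι y = c x := fun x => by
    obtain ⟨k, -, hk⟩ := (AddCircle.nsmul_eq_zero_iff (u := c x) (NeZero.pos n)).1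
      (by rw [← map_nsmul, hM, map_zero])
    refine ⟨(k : ℤ), ?_⟩
    rw [hι, ← hk, ← AddCircle.coe_zsmul]
    congr 1
    simp [div_eq_mul_inv]
  choose φ hφ using hs
  refine ⟨AddMonoidHom.mk' φ fun x y => hi (by rw [map_add, hφ, hφ, hφ, map_add]), fun e => hc ?_⟩
  rw [← hφ, show φ m = 0 from e, map_zero]

theorem r5_fin (φ : (Ls ≃ₐ[L] Ls) → M) (hφ : ∀ g h, φ (g * h) = φ g + φ h)
    (hn : Near fun g => φ g = 0) : (Set.range φ).Finite := by
  classical
  obtain ⟨S, hS⟩ := hn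
  let r : (Ls ≃ₐ[L] Ls) → S → Ls := fun g s => g s
  have h1 : (Set.range r).Finite := (Set.Finite.pi' fun s : S =>
    (minpoly L (s : Ls)).rootSet_finite Ls).subset (by
      rintro _ ⟨g, rfl⟩ s
      exact mem_rootSet.2 ⟨minpoly.ne_zero (Algebra.IsIntegral.isIntegral _),
        by rw [aeval_algHom_apply, minpoly.aeval, map_zero]⟩)
  refine (h1.image fun t => φ (Function.invFun r t)).subset ?_
  rintro _ ⟨g, rfl⟩
  refine ⟨r g, ⟨g, rfl⟩, ?_⟩
  have h2 : r (Function.invFun r (r g)) = r g := Function.invFun_eq ⟨g, rfl⟩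
  have h3 := hS (g⁻¹ * Function.invFun r (r g)) fun s hs => by
    rw [AlgEquiv.mul_apply, show Function.invFun r (r g) s = g s from congrFun h2 ⟨s, hs⟩,
      inv_apply_self]
  have h4 := hφ g (g⁻¹ * Function.invFun r (r g))
  rwa [mul_inv_cancel_left, h3, add_zero] at h4

theorem r5_root (hζ : IsPrimitiveRoot ζ n) {u : Ls} (hu : u ^ n = 1) :
    ∃ e : ℕ, u = algebraMap L Ls ζ ^ e := by
  obtain ⟨e, -, he⟩ := (hζ.map_of_injective (algebraMap L Ls).injective).eq_pow_of_pow_eq_one hu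
  exact ⟨e, he.symm⟩

/-- Kummer theory with coefficients.  The image of `φ` is finite (`φ` kills the pointwise
stabiliser of a finite set, which has finite index); `exists_ind`; the coordinates `χ i` are
characters mod `d i`, and `d i ∣ n`; `hilbert90` for `g ↦ ζ ^ (n / d i * χ i g)` gives `β i`, and
`f i = β i ^ d i` is fixed, so it is in `L` (`InfiniteGalois.mem_range_algebraMap_iff_fixed`).
If `w ^ n = f i` then `w ^ (n / d i) / β i` is a power of `ζ`, so `e ≡ χ i g mod d i`. -/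
theorem kum_dec (hζ : IsPrimitiveRoot ζ n) (hM : ∀ m : M, n • m = 0) (φ : (Ls ≃ₐ[L] Ls) → M)
    (hφ : ∀ g h, φ (g * h) = φ g + φ h) (hn : Near fun g => φ g = 0) :
    ∃ (r : ℕ) (f : Fin r → Lˣ) (m : Fin r → M) (d : Fin r → ℕ), Ind m d ∧ (∀ i, d i ∣ n) ∧
      ∀ w : Fin r → Ls, (∀ i, w i ^ n = algebraMap L Ls (f i)) → ∀ (g : Ls ≃ₐ[L] Ls)
        (e : Fin r → ℕ), (∀ i, g (w i) = algebraMap L Ls ζ ^ e i * w i) →
          φ g = ∑ i, e i • m i := by
  classical
  have h1 : φ 1 = 0 := by simpa using hφ 1 1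
  let A : AddSubgroup M :=
    { carrier := Set.range φ
      add_mem' := by
        rintro _ _ ⟨g, rfl⟩ ⟨h, rfl⟩
        exact ⟨g * h, hφ g h⟩
      zero_mem' := ⟨1, h1⟩
      neg_mem' := by
        rintro _ ⟨g, rfl⟩
        exact ⟨g⁻¹, eq_neg_of_add_eq_zero_left (by rw [← hφ, inv_mul_cancel, h1])⟩ }
  have : Finite A := r5_fin φ hφ hn
  obtain ⟨r, m, d, -, hd, hI, hA⟩ := exists_ind A
  choose χ hχ using fun g => hA (φ g) ⟨g, rfl⟩
  have hc : ∀ a b : Fin r → ℤ, ∑ i, a i • m i = ∑ i, b i • m i ↔ ∀ i, (d i : ℤ) ∣ a i - b i :=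
    fun a b => by
      rw [← hI (fun i => a i - b i), ← sub_eq_zero, ← Finset.sum_sub_distrib]
      simp only [sub_smul]
  have hdn : ∀ i, d i ∣ n := fun i => by
    have := (hI (Pi.single i (n : ℤ))).1 (by
      rw [Finset.sum_eq_single i (fun j _ hj => by simp [hj]) (by simp)]
      simpa using hM (m i)) i
    simpa [Int.natCast_dvd_natCast] using this
  have hz := hζ.map_of_injective (algebraMap L Ls).injective
  have hξ : ∀ i, IsPrimitiveRoot (algebraMap L Ls ζ ^ (n / d i)) (d i) := fun i =>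
    hz.pow (NeZero.pos n) (Nat.div_mul_cancel (hdn i)).symm
  have h0 : ∀ i, algebraMap L Ls ζ ^ (n / d i) ≠ 0 := fun i => (hξ i).ne_zero (hd i)
  have he : ∀ i (a b : ℤ), (algebraMap L Ls ζ ^ (n / d i)) ^ a = (algebraMap L Ls ζ ^ (n / d i)) ^ b ↔
      (d i : ℤ) ∣ a - b := fun i a b => by
    rw [← (hξ i).zpow_eq_one_iff_dvd, zpow_sub₀ (h0 i), div_eq_one_iff_eq (zpow_ne_zero _ (h0 i))]
  have hβ : ∀ i, ∃ β : Ls, β ≠ 0 ∧ ∀ g : Ls ≃ₐ[L] Ls,
      g β = (algebraMap L Ls ζ ^ (n / d i)) ^ χ g i * β := fun i => by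
    obtain ⟨β, hb, h⟩ := hilbert90 ⊤ (fun g => (algebraMap L Ls ζ ^ (n / d i)) ^ χ g i)
      (fun g _ => zpow_ne_zero _ (h0 i)) (fun g _ h _ => by
        rw [map_zpow₀, map_pow, AlgEquiv.commutes, ← zpow_add₀ (h0 i), he]
        refine (hc _ (fun i => χ g i + χ h i)).1 ?_ i
        simp only [add_smul, Finset.sum_add_distrib, ← hχ, hφ])
      (hn.mono fun g hg _ => ((hξ i).zpow_eq_one_iff_dvd _).2 ((hI _).1 (by rw [← hχ, hg]) i))
    exact ⟨β, hb, fun g => h g trivial⟩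
  choose β hb hβ using hβ
  have hf : ∀ i, ∃ f : Lˣ, algebraMap L Ls f = β i ^ d i := fun i => by
    obtain ⟨f, hf⟩ := (InfiniteGalois.mem_range_algebraMap_iff_fixed (k := L) (β i ^ d i)).2
      fun g => by
        rw [map_pow, hβ, mul_pow, ← zpow_natCast, ← zpow_mul,
          ((hξ i).zpow_eq_one_iff_dvd _).2 (dvd_mul_left _ _), one_mul]
    exact ⟨Units.mk0 f fun e => pow_ne_zero _ (hb i) (by rw [← hf, e, map_zero]), hf⟩
  choose f hf using hf
  refine ⟨r, f, m, d, hI, hdn, fun w hw g e hg => ?_⟩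
  rw [hχ]
  simp only [← natCast_zsmul]
  refine (hc _ _).2 fun i => (he i _ _).1 ?_
  have h2 : (w i ^ (n / d i) / β i) ^ d i = 1 := by
    rw [div_pow, ← pow_mul, Nat.div_mul_cancel (hdn i), hw, hf, div_self (pow_ne_zero _ (hb i))]
  have h3 : w i ^ (n / d i) / β i ≠ 0 := fun e => by
    rw [e, zero_pow (hd i)] at h2
    exact zero_ne_one h2
  obtain ⟨k, hk⟩ := r5_root hζ (u := w i ^ (n / d i) / β i) (by
    obtain ⟨c, hc⟩ := hdn i
    rw [show ∀ u : Ls, u ^ n = (u ^ d i) ^ c from fun u => by rw [← pow_mul, ← hc], h2, one_pow])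
  have h4 : g (w i ^ (n / d i) / β i) = w i ^ (n / d i) / β i := by
    rw [hk, map_pow, AlgEquiv.commutes]
  rw [map_div₀, map_pow, hg, hβ, mul_pow, mul_div_mul_comm, mul_eq_right₀ h3,
    div_eq_one_iff_eq (zpow_ne_zero _ (h0 i)), ← pow_mul, mul_comm, pow_mul] at h4
  rw [← h4, zpow_natCast]

/-- The converse: `∏ w i ^ (ψ (m i)).val` is fixed by all `g`. -/
theorem kum_rel (hζ : IsPrimitiveRoot ζ n) {ι : Type} [Fintype ι] (f : ι → Lˣ) (m : ι → M)
    (w : ι → Ls) (hw : ∀ i, w i ^ n = algebraMap L Ls (f i))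
    (h : ∀ (g : Ls ≃ₐ[L] Ls) (e : ι → ℕ), (∀ i, g (w i) = algebraMap L Ls ζ ^ e i * w i) →
      ∑ i, e i • m i = 0) (ψ : M →+ ZMod n) :
    ∃ z : Lˣ, ∏ i, f i ^ (ψ (m i)).val = z ^ n := by
  have hw0 : ∀ i, w i ≠ 0 := fun i e => by
    have := hw i
    rw [e, zero_pow (NeZero.ne n), eq_comm, map_eq_zero] at this
    exact (f i).ne_zero this
  obtain ⟨z, hz⟩ := (InfiniteGalois.mem_range_algebraMap_iff_fixed (k := L)
    (∏ i, w i ^ (ψ (m i)).val)).2 fun g => by
      have h1 : ∀ i, ∃ e : ℕ, g (w i) = algebraMap L Ls ζ ^ e * w i := fun i => by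
        obtain ⟨e, he⟩ := r5_root hζ (u := g (w i) / w i) (by
          rw [div_pow, ← map_pow, hw, AlgEquiv.commutes, ← hw, div_self (pow_ne_zero _ (hw0 i))])
        exact ⟨e, (div_eq_iff (hw0 i)).1 he⟩
      choose e he using h1
      have h2 := congrArg ψ (h g e he)
      have h3 : n ∣ ∑ i, e i * (ψ (m i)).val := by
        rw [← ZMod.natCast_eq_zero_iff, ← map_zero ψ, ← h2]
        simp
      simp only [map_prod, map_pow, he, mul_pow, Finset.prod_mul_distrib, ← pow_mul,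
        Finset.prod_pow_eq_pow_sum]
      rw [((hζ.map_of_injective (algebraMap L Ls).injective).pow_eq_one_iff_dvd _).2 h3, one_mul]
  have h0 : z ≠ 0 := fun e => Finset.prod_ne_zero_iff.2 (fun i _ => pow_ne_zero _ (hw0 i))
    (by rw [← hz, e, map_zero])
  refine ⟨Units.mk0 z h0, Units.ext ((algebraMap L Ls).injective ?_)⟩
  simp only [Units.coe_prod, Units.val_pow_eq_pow_val, Units.val_mk0, map_prod, map_pow, hz, ← hw,
    ← Finset.prod_pow, ← pow_mul, mul_comm n]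

end

end Pool.Agent.Lib.MP_16ef92_ag.CV
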