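import Mathlib
import Pool.Agent.Lib.MP_16ef92_ag.CV.Fld
import Pool.Agent.Lib.MP_16ef92_ag.CV.Kum
import Pool.Agent.Lib.MP_16ef92_ag.CV.R5

set_option autoImplicit false
set_option linter.unusedSectionVars false
set_option linter.unusedVariables false
set_option linter.style.haveILetI false

namespace Pool.Agent.Lib.MP_16ef92_ag.CV

open RS

noncomputable section

variable [Bg] {L Ls : Type} [Field L] [Field Ls] [Algebra L Ls] [IsGalois L Ls] [IsSepClosed Ls]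
  {M : Type} [AddCommGroup M]

/-- `φ` is the character attached to the class `ξ`. -/
def IsChr (x : Pnt Ls) (ξ : H 1 (cst L M)) (φ : (Ls ≃ₐ[L] Ls) → M) : Prop :=
  ∀ (W : Type) [CommRing W] (b : L →+* W) (t : Pnt W → M) (τ : W →+* Ls), b.Etale →
    IsCls (cst L M) ξ b t → τ.comp b = algebraMap L Ls →
      ∀ g, φ g = t ((x.comp (rhoG L Ls g)).comp τ) - t (x.comp τ)

/-- A representative together with a map to `Ls`: `H_loc` at the point below `x`,
`exists_rep_of`; the point of `W` factors through `Ls` (as in `gt_field`, or base change to `Ls`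
and use that etale `Ls`-algebras split). -/
theorem exists_rep_sep (x : Pnt Ls) (ξ : H 1 (cst L M)) : ∃ (W : Type) (_ : CommRing W)
    (b : L →+* W) (t : Pnt W → M) (τ : W →+* Ls), b.Etale ∧ IsCls (cst L M) ξ b t ∧
      τ.comp b = algebraMap L Ls := by
  obtain ⟨W, _, b, y, hb, -, h⟩ := H_loc 0 _ ξ (x.comp (algebraMap L Ls))
  obtain ⟨t, ht⟩ := exists_rep_of hb ξ h
  let := b.toAlgebra
  obtain ⟨I, _, A, _, _, φ, hA⟩ := (Algebra.Etale.iff_exists_algEquiv_prod L W).1 hb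
  have := y.domain_nontrivial
  obtain ⟨i⟩ : Nonempty I := not_isEmpty_iff.1 fun _ =>
    not_subsingleton W (φ.toEquiv.subsingleton_congr.2 inferInstance)
  have := (hA i).2
  let τ : W →ₐ[L] Ls := (IsSepClosed.lift.comp (Pi.evalAlgHom L A i)).comp φ.toAlgHom
  exact ⟨W, _, b, t, τ, hb, ht, τ.comp_algebraMap⟩

section

variable {W W' : Type} [CommRing W] [CommRing W'] {b : L →+* W} {b' : L →+* W'} {t : Pnt W → M}
  {t' : Pnt W' → M} {τ : W →+* Ls} {τ' : W' →+* Ls} {ξ ξ' : H 1 (cst L M)}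

theorem chra_sur (hτ : τ.comp b = algebraMap L Ls) : Sur b := fun y => by
  obtain ⟨z, hz⟩ := (gt_field L Ls).sur y
  exact ⟨z.comp τ, by rw [RingHom.comp_assoc, hτ, hz]⟩

theorem chra_fix (hτ : τ.comp b = algebraMap L Ls) (g : Ls ≃ₐ[L] Ls) :
    ((rhoG L Ls g).comp τ).comp b = algebraMap L Ls := by
  rw [RingHom.comp_assoc, hτ, (gt_field L Ls).fix]

theorem chra_const (hb : b.Etale) (ht : IsCls (cst L M) ξ b t) (hτ : τ.comp b = algebraMap L Ls)
    (g : Ls ≃ₐ[L] Ls) (y y' : Pnt Ls) : t ((y.comp (rhoG L Ls g)).comp τ) - t (y.comp τ) =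
      t ((y'.comp (rhoG L Ls g)).comp τ) - t (y'.comp τ) :=
  LC.field (mem_cst.1 ((ht.coc hb).sec Ls _ τ ((chra_fix hτ g).trans hτ.symm))) y y'

theorem chra_zero (hb : b.Etale) (ht : IsCls (cst L M) 0 b t) (hτ : τ.comp b = algebraMap L Ls)
    (x : Pnt Ls) (g : Ls ≃ₐ[L] Ls) : t ((x.comp (rhoG L Ls g)).comp τ) = t (x.comp τ) := by
  obtain ⟨u : Pnt L → M, -, hu⟩ := (ht.zero_iff ⟨hb, chra_sur hτ⟩).1 rfl
  have h : t ((x.comp (rhoG L Ls g)).comp τ) - u (x.comp (((rhoG L Ls g).comp τ).comp b)) =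
      t (x.comp τ) - u (x.comp (τ.comp b)) :=
    LC.field (mem_cst.1 ((cst L M).res τ hu)) (x.comp (rhoG L Ls g)) x
  rwa [chra_fix hτ, hτ, sub_left_inj] at h

theorem chra_ref (hb : b.Etale) (ht : IsCls (cst L M) ξ b t) (hτ : τ.comp b = algebraMap L Ls)
    (hb' : b'.Etale) (ht' : IsCls (cst L M) ξ' b' t') (hτ' : τ'.comp b' = algebraMap L Ls) :
    ∃ (T : Type) (_ : CommRing T) (c : L →+* T) (s s' : Pnt T → M) (θ : T →+* Ls), c.Etale ∧
      IsCls (cst L M) ξ c s ∧ IsCls (cst L M) ξ' c s' ∧ θ.comp c = algebraMap L Ls ∧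
      (∀ y : Pnt Ls, s (y.comp θ) = t (y.comp τ)) ∧
      ∀ y : Pnt Ls, s' (y.comp θ) = t' (y.comp τ') := by
  have hc := et_comp hb (Ten.etale_inl b hb')
  refine ⟨Ten b b', _, _, _, _, Ten.lift τ τ' (hτ.trans hτ'.symm), hc, ht.refine hb hc _ rfl,
    ht'.refine hb' hc _ (Ten.comm b b').symm, ?_, fun y => ?_, fun y => ?_⟩
  · rw [← RingHom.comp_assoc, Ten.lift_inl, hτ]
  · exact congrArg (fun e => t (y.comp e)) (Ten.lift_inl ..)
  · exact congrArg (fun e => t' (y.comp e)) (Ten.lift_inr ..)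

end

/-- Two representatives are compared on `Ten b b'`, a cover because it maps to `Ls`
(`(gt_field L Ls).sur`); `IsCls.add`, `IsCls.neg`, `IsCls.zero_iff`; a locally constant function
takes the same value at `x ∘ g ∘ τ` and at `x ∘ τ`, which have the same kernel. -/
theorem exists_isChr (x : Pnt Ls) (ξ : H 1 (cst L M)) : ∃ φ, IsChr x ξ φ := by
  obtain ⟨W, _, b, t, τ, hb, ht, hτ⟩ := exists_rep_sep x ξ
  refine ⟨fun g => t ((x.comp (rhoG L Ls g)).comp τ) - t (x.comp τ),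
    fun W' _ b' t' τ' hb' ht' hτ' g => ?_⟩
  obtain ⟨T, _, c, s, s', θ, hc, h1, h2, h3, h4, h5⟩ := chra_ref hb ht hτ hb' ht' hτ'
  have h6 := h1.add hc (h2.neg hc)
  rw [add_neg_cancel] at h6
  have h7 : s _ + -s' _ = s _ + -s' _ := chra_zero hc h6 h3 x g
  rw [h4, h4, h5, h5, ← sub_eq_add_neg, ← sub_eq_add_neg] at h7
  exact sub_eq_sub_iff_sub_eq_sub.1 h7

theorem IsChr.unique {x : Pnt Ls} {ξ : H 1 (cst L M)} {φ φ' : (Ls ≃ₐ[L] Ls) → M}
    (h : IsChr x ξ φ) (h' : IsChr x ξ φ') : φ = φ' := by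
  obtain ⟨W, _, b, t, τ, hb, ht, hτ⟩ := exists_rep_sep x ξ
  exact funext fun g => (h W b t τ hb ht hτ g).trans (h' W b t τ hb ht hτ g).symm

/-- Common refinement and `IsCls.add`. -/
theorem isChr_add (x : Pnt Ls) (ξ ξ' : H 1 (cst L M)) : (exists_isChr x (ξ + ξ')).choose =
    (exists_isChr x ξ).choose + (exists_isChr x ξ').choose := by
  obtain ⟨W, _, b, t, τ, hb, ht, hτ⟩ := exists_rep_sep x ξ
  obtain ⟨W', _, b', t', τ', hb', ht', hτ'⟩ := exists_rep_sep x ξ'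
  obtain ⟨T, _, c, s, s', θ, hc, h1, h2, h3, -⟩ := chra_ref hb ht hτ hb' ht' hτ'
  funext g
  rw [Pi.add_apply, (exists_isChr x ξ).choose_spec T c s θ hc h1 h3,
    (exists_isChr x ξ').choose_spec T c s' θ hc h2 h3,
    (exists_isChr x (ξ + ξ')).choose_spec T c _ θ hc (h1.add hc h2) h3]
  exact add_sub_add_comm _ _ _ _

/-- The character of a class. -/
def chr (x : Pnt Ls) : H 1 (cst L M) →+ ((Ls ≃ₐ[L] Ls) → M) :=
  AddMonoidHom.mk' (fun ξ => (exists_isChr x ξ).choose) (isChr_add x)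

theorem chr_spec (x : Pnt Ls) (ξ : H 1 (cst L M)) : IsChr x ξ (chr x ξ) :=
  (exists_isChr x ξ).choose_spec

/-- `y ↦ t (y ∘ h ∘ τ) - t (y ∘ τ)` is a section over the field `Ls` (`IsCls.coc`), so it is
constant (`LC.field`). -/
theorem chr_mul (x : Pnt Ls) (ξ : H 1 (cst L M)) (g h : Ls ≃ₐ[L] Ls) :
    chr x ξ (g * h) = chr x ξ g + chr x ξ h := by
  obtain ⟨W, _, b, t, τ, hb, ht, hτ⟩ := exists_rep_sep x ξ
  rw [chr_spec x ξ W b t τ hb ht hτ, chr_spec x ξ W b t τ hb ht hτ, chr_spec x ξ W b t τ hb ht hτ,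
    chra_const hb ht hτ h x (x.comp (rhoG L Ls g)), add_comm, sub_add_sub_cancel]
  rfl

/-- `W` is finitely generated. -/
theorem chr_near (x : Pnt Ls) (ξ : H 1 (cst L M)) : Near fun g => chr x ξ g = 0 := by
  obtain ⟨W, _, b, t, τ, hb, ht, hτ⟩ := exists_rep_sep x ξ
  obtain ⟨N, hN⟩ := (famG L Ls).ne
  obtain ⟨U, e, -, h2, -⟩ := (gt_field L Ls).cof N hN W b τ hb hτ
  refine (famG_ev.1 U.ev).mono fun g hg => ?_
  rw [chr_spec x ξ W b t τ hb ht hτ, ← h2, RingHom.comp_assoc, ← RingHom.comp_assoc e, hg,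
    sub_self]

/-- Refine to a level (`GT.cof`); `t (y ∘ τ)` depends only on the point below `y` (`GT.trans` and
the constancy above); `IsCls.zero_iff`. -/
theorem chr_inj (x : Pnt Ls) {ξ : H 1 (cst L M)} (h : ∀ g, chr x ξ g = 0) : ξ = 0 := by
  obtain ⟨W, _, b, t, τ, hb, ht, hτ⟩ := exists_rep_sep x ξ
  obtain ⟨N, hN⟩ := (famG L Ls).ne
  obtain ⟨U, e, h1, h2, -⟩ := (gt_field L Ls).cof N hN W b τ hb hτ
  choose z hz using (gt_field L Ls).sur
  refine ((ht.refine hb U.et e h1).zero_iff ⟨U.et, chra_sur U.comm⟩).2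
    ⟨fun y => t ((z y).comp τ), fun _ => trivial, ?_⟩
  convert zero_mem ((cst L M).S U.b)
  funext w
  obtain ⟨y, rfl⟩ := U.sur w
  obtain ⟨g, hg⟩ := (gt_field L Ls).trans y _ (hz (y.comp (algebraMap L Ls))).symm
  have h3 := (chra_const hb ht hτ g y x).trans
    ((chr_spec x ξ W b t τ hb ht hτ g).symm.trans (h g))
  change t (y.comp (U.d.comp e)) - t ((z (y.comp (U.d.comp U.b))).comp τ) = 0
  rw [h2, U.comm, hg, sub_eq_zero.1 h3, sub_self]

variable {n : ℕ} [NeZero n] (hM : ∀ m : M, n • m = 0) {ζ : L}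

/-- `exists_root_cov`, `exists_log`, `kum_spec`, `cm_cls`. -/
theorem chr_kum (hζ : IsPrimitiveRoot ζ n) (x : Pnt Ls) (f : Lˣ) (m : M) {w : Ls}
    (hw : w ^ n = algebraMap L Ls f) {g : Ls ≃ₐ[L] Ls} {e : ℕ}
    (he : g w = algebraMap L Ls ζ ^ e * w) : chr x (cm hM (kum n ζ f) m) g = e • m := by
  obtain ⟨W, _, b, w₀, hb, hw₀, hu⟩ := exists_root_cov (prim_field hζ).unit f
  obtain ⟨τ, hτ, hτw⟩ := hu Ls (algebraMap L Ls) w hw
  obtain ⟨r, hr⟩ := exists_log (prim_field hζ) f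
  obtain ⟨t, ht⟩ := hr W b w₀ hw₀
  have hc := kum_spec (prim_field hζ) f W b w₀ t r hb.et hw₀ ht
  have hb' : ∀ a : L, τ (b a) = algebraMap L Ls a := fun a => RingHom.congr_fun hτ a
  have e1 : ((x.comp (rhoG L Ls g)).comp τ).comp b = (x.comp τ).comp b := RingHom.ext fun a => by
    change x (g (τ (b a))) = x (τ (b a))
    rw [hb', AlgEquiv.commutes]
  have h1 := ht ((x.comp (rhoG L Ls g)).comp τ)
  have h0 := ht (x.comp τ)
  rw [e1] at h1
  change x (g (τ w₀)) = x (g (τ (b ζ))) ^ _ * _ at h1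
  change x (τ w₀) = x (τ (b ζ)) ^ _ * _ at h0
  rw [hτw, hb'] at h0 h1
  rw [AlgEquiv.commutes, he, map_mul, map_pow] at h1
  have hw0 : x w ≠ 0 := fun h => by
    have h2 := congrArg x hw
    rw [map_pow, h, zero_pow (NeZero.ne n), eq_comm, map_eq_zero, map_eq_zero] at h2
    exact f.ne_zero h2
  have hr0 : r ((x.comp τ).comp b) ≠ 0 := fun h => hw0 (by rw [h0, h, mul_zero])
  have hz : IsPrimitiveRoot (x (algebraMap L Ls ζ)) n :=
    (hζ.map_of_injective (algebraMap L Ls).injective).map_of_injective x.injective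
  rw [h0, ← mul_assoc, ← pow_add, mul_left_inj' hr0,
    (hz.isOfFinOrder (NeZero.ne n)).pow_eq_pow_iff_modEq, ← hz.eq_orderOf] at h1
  refine (chr_spec x (cm hM (kum n ζ f) m) W b _ τ hb.et (cm_cls hM hb.et hc m) hτ g).trans ?_
  rw [sub_eq_iff_eq_add, ← add_nsmul, nsmul_eq_mod_nsmul _ (hM m), ← h1,
    ← nsmul_eq_mod_nsmul _ (hM m)]

theorem chrb_pnt (hL : Good L) : Nonempty (Pnt Ls) := by
  obtain ⟨y, -⟩ := hL.int (a := algebraMap L Ls) (fun z => Algebra.IsIntegral.isIntegral z) ⊥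
    Ideal.isPrime_bot
  exact ⟨y⟩

theorem chrb_root (hζ : IsPrimitiveRoot ζ n) (f : Lˣ) :
    ∃ w : Ls, w ^ n = algebraMap L Ls f := by
  haveI : NeZero (n : Ls) := (hζ.map_of_injective (algebraMap L Ls).injective).neZero'
  exact IsSepClosed.exists_pow_nat_eq _ n

theorem chrb_exp (hζ : IsPrimitiveRoot ζ n) {f : Lˣ} {w : Ls} (hw : w ^ n = algebraMap L Ls f)
    (g : Ls ≃ₐ[L] Ls) : ∃ e : ℕ, g w = algebraMap L Ls ζ ^ e * w := by
  have hw0 : w ≠ 0 := fun e => by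
    rw [e, zero_pow (NeZero.ne n), eq_comm, map_eq_zero] at hw
    exact f.ne_zero hw
  obtain ⟨e, he⟩ := r5_root hζ (u := g w / w) (by
    rw [div_pow, ← map_pow, hw, AlgEquiv.commutes, ← hw, div_self (pow_ne_zero _ hw0)])
  exact ⟨e, (div_eq_iff hw0).1 he⟩

theorem chrb_sum (hζ : IsPrimitiveRoot ζ n) (x : Pnt Ls) {ι : Type} [Fintype ι] (f : ι → Lˣ)
    (m : ι → M) {w : ι → Ls} (hw : ∀ i, w i ^ n = algebraMap L Ls (f i)) {g : Ls ≃ₐ[L] Ls}
    {e : ι → ℕ} (he : ∀ i, g (w i) = algebraMap L Ls ζ ^ e i * w i) :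
    chr x (∑ i, cm hM (kum n ζ (f i)) (m i)) g = ∑ i, e i • m i := by
  rw [map_sum, Finset.sum_apply]
  exact Finset.sum_congr rfl fun i _ => chr_kum hM hζ x (f i) (m i) (hw i) (he i)

/-- Kummer theory over a field: take `Ls = SeparableClosure L` and a point of it (`Good.int`);
`kum_dec`, `chr_inj`, `chr_kum`. -/
theorem fk_dec (hL : Good L) (hζ : IsPrimitiveRoot ζ n) (ξ : H 1 (cst L M)) :
    ∃ (r : ℕ) (f : Fin r → Lˣ) (m : Fin r → M) (d : Fin r → ℕ), Ind m d ∧ (∀ i, d i ∣ n) ∧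
      ξ = ∑ i, cm hM (kum n ζ (f i)) (m i) := by
  obtain ⟨x⟩ := chrb_pnt (Ls := SeparableClosure L) hL
  obtain ⟨r, f, m, d, hI, hd, H⟩ := kum_dec hζ hM (chr x ξ) (chr_mul x ξ) (chr_near x ξ)
  refine ⟨r, f, m, d, hI, hd, sub_eq_zero.1 (chr_inj x fun g => ?_)⟩
  choose w hw using fun i => chrb_root (Ls := SeparableClosure L) hζ (f i)
  choose e he using fun i => chrb_exp hζ (hw i) g
  rw [map_sub, Pi.sub_apply, chrb_sum hM hζ x f m hw he, H w hw g e he, sub_self]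

/-- `kum_rel`, `chr_kum`. -/
theorem fk_rel (hL : Good L) (hζ : IsPrimitiveRoot ζ n) {ι : Type} [Fintype ι] (f : ι → Lˣ)
    (m : ι → M) (h : ∑ i, cm hM (kum n ζ (f i)) (m i) = 0) (ψ : M →+ ZMod n) :
    ∃ z : Lˣ, ∏ i, f i ^ (ψ (m i)).val = z ^ n := by
  obtain ⟨x⟩ := chrb_pnt (Ls := SeparableClosure L) hL
  choose w hw using fun i => chrb_root (Ls := SeparableClosure L) hζ (f i)
  refine kum_rel hζ f m w hw (fun g e he => ?_) ψ
  rw [← chrb_sum hM hζ x f m hw he, h, map_zero, Pi.zero_apply]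

end

end Pool.Agent.Lib.MP_16ef92_ag.CV
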