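import Mathlib
import Pool.Agent.Lib.MP_16ef92_ag.CV.RDef

set_option autoImplicit false
set_option linter.unusedSectionVars false
set_option linter.unusedVariables false

namespace Pool.Agent.Lib.MP_16ef92_ag.CV

open Polynomial WeierstrassCurve WeierstrassCurve.Affine WeierstrassCurve.Affine.CoordinateRing

noncomputable section

variable {A A' : Type} [CommRing A] [CommRing A']

/-- Elliptic curves `y^2 = cubic` with `2` invertible. -/
structure Ok (W : Affine A) : Prop where
  a1 : W.a₁ = 0
  a3 : W.a₃ = 0
  two : IsUnit (2 : A)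
  disc : IsUnit W.Δ

/-- Points as optional pairs. -/
abbrev Op (A : Type) : Type := Option (A × A)

/-- The point lies on the curve. -/
def On (W : Affine A) : Op A → Prop
  | none => True
  | some v => W.Equation v.1 v.2

/-- The ideal of a point. -/
def II (W : Affine A) : Op A → Ideal W.CoordinateRing
  | none => ⊤
  | some v => XYIdeal W v.1 (C v.2)

/-- The pair attached to a point. -/
def pt {W : Affine A} : W.Point → Op A
  | .zero => none
  | .some x y _ => some (x, y)

/-- The image of a point under a ring homomorphism. -/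
def omap (φ : A →+* A') (o : Op A) : Op A' := o.map (Prod.map φ φ)

/-- Normalised elements: the leading coefficient of the norm is `1` or `-1`. -/
def Mon {W : Affine A} (f : W.CoordinateRing) : Prop :=
  (Algebra.norm A[X] f).Monic ∨ (-Algebra.norm A[X] f).Monic

/-- `f` is a normalised function with divisor `n (o) - n (0)`. -/
structure Rep (W : Affine A) (n : ℕ) (o : Op A) (f : W.CoordinateRing) : Prop where
  id : Ideal.span {f} = II W o ^ n
  mon : Mon f

/-- `ψ` is the map of coordinate rings over `φ`. -/
structure CM (W : Affine A) (W' : Affine A') (φ : A →+* A')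
    (ψ : W.CoordinateRing →+* W'.CoordinateRing) : Prop where
  eq : W.map φ = W'
  app : ∀ p, ψ (CoordinateRing.mk W p) = CoordinateRing.mk W' (p.map (mapRingHom φ))

theorem cm_map (W : Affine A) (φ : A →+* A') : CM W (W.map φ) φ (CoordinateRing.map W φ) :=
  ⟨rfl, map_mk φ⟩

theorem CM.unique {W : Affine A} {W' : Affine A'} {φ : A →+* A'}
    {ψ : W.CoordinateRing →+* W'.CoordinateRing} (h : CM W W' φ ψ) :
    ∃ e : W.map φ = W', e ▸ CoordinateRing.map W φ = ψ := by
  obtain ⟨rfl, h⟩ := h
  refine ⟨rfl, RingHom.ext fun s => ?_⟩
  obtain ⟨p, rfl⟩ := AdjoinRoot.mk_surjective s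
  exact (map_mk φ p).trans (h p).symm

theorem on_pt {W : Affine A} (P : W.Point) : On W (pt P) := by
  cases P with
  | zero => trivial
  | some x y h => exact h.1

theorem pt_inj {W : Affine A} {P Q : W.Point} (h : pt P = pt Q) : P = Q := by
  cases P <;> cases Q <;> simp_all [pt]

end

end Pool.Agent.Lib.MP_16ef92_ag.CV
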