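import Mathlib
import Pool.Agent.Lib.MP_16ef92_ag.CV.EDef

set_option autoImplicit false
set_option linter.unusedSectionVars false
set_option linter.unusedVariables false

namespace Pool.Agent.Lib.MP_16ef92_ag.CV

open Polynomial WeierstrassCurve WeierstrassCurve.Affine WeierstrassCurve.Affine.CoordinateRing

noncomputable section

variable {A A' : Type} [CommRing A] [CommRing A'] {W : Affine A} {W' : Affine A'} {φ : A →+* A'}
  {ψ : W.CoordinateRing →+* W'.CoordinateRing} {n : ℕ} {o : Op A} {f : W.CoordinateRing}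

theorem Ok.map (h : Ok W) (φ : A →+* A') : Ok (W.map φ) := by
  refine ⟨by simp [h.a1], by simp [h.a3], ?_, ?_⟩
  · simpa [map_ofNat] using h.two.map φ
  · rw [WeierstrassCurve.map_Δ]
    exact h.disc.map φ

theorem On.map (h : On W o) (φ : A →+* A') : On (W.map φ) (omap φ o) := by
  cases o with
  | none => trivial
  | some v => exact Equation.map φ h

theorem CM.ii (h : CM W W' φ ψ) (o : Op A) : (II W o).map ψ = II W' (omap φ o) := by
  cases o with
  | none => exact Ideal.map_top ψ
  | some v =>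
    change (XYIdeal W v.1 (C v.2)).map ψ = XYIdeal W' (φ v.1) (C (φ v.2))
    simp only [XYIdeal, XClass, YClass, Ideal.map_span, Set.image_pair, h.app]
    simp

/-- `exists_smul_basis_eq`, `norm_smul_basis`. -/
theorem CM.norm (h : CM W W' φ ψ) (f : W.CoordinateRing) :
    Algebra.norm A'[X] (ψ f) = (Algebra.norm A[X] f).map φ := by
  obtain ⟨p, q, rfl⟩ := exists_smul_basis_eq f
  have e : ψ (p • 1 + q • CoordinateRing.mk W Polynomial.X) =
      p.map φ • 1 + q.map φ • CoordinateRing.mk W' Polynomial.X := by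
    simp only [CoordinateRing.smul, map_add, map_mul, map_one, h.app]
    simp
  rw [e, norm_smul_basis, norm_smul_basis, ← h.eq]
  simp

theorem Rep.map (h : Rep W n o f) (hc : CM W W' φ ψ) : Rep W' n (omap φ o) (ψ f) := by
  refine ⟨?_, ?_⟩
  · rw [← hc.ii, ← Ideal.map_pow, ← h.id, Ideal.map_span, Set.image_singleton]
  · rcases h.mon with h1 | h1
    · exact Or.inl (hc.norm f ▸ h1.map φ)
    · refine Or.inr ?_
      rw [hc.norm f, ← Polynomial.map_neg]
      exact h1.map φ

theorem Mon.mul {g : W.CoordinateRing} (h : Mon f) (h' : Mon g) : Mon (f * g) := by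
  unfold Mon at *
  rw [map_mul]
  rcases h with h | h <;> rcases h' with h' | h'
  · exact Or.inl (h.mul h')
  · exact Or.inr (by simpa using h.mul h')
  · exact Or.inr (by simpa using h.mul h')
  · exact Or.inl (by simpa using h.mul h')

theorem Mon.ne_zero [Nontrivial A] (h : Mon f) : f ≠ 0 := by
  rintro rfl
  have e : Algebra.norm A[X] (0 : W.CoordinateRing) = 0 := by
    simpa using norm_smul_basis (W' := W) 0 0
  rcases h with h | h
  · exact (e ▸ h).ne_zero rfl
  · rw [e, neg_zero] at h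
    exact h.ne_zero rfl

theorem rep_none (W : Affine A) (n : ℕ) : Rep W n none 1 :=
  ⟨by simp [II, Ideal.top_pow], Or.inl (by simp)⟩

/-- Mathlib's `XYIdeal_neg_mul` over a ring: the two derivatives `3x^2 + 2 a₂ x + a₄` and
`2 y` at a point of the curve generate the unit ideal, because `Δ` is a combination of the cubic
`= y^2` and its derivative. -/
theorem xy_neg_mul (h : Ok W) {x y : A} (hxy : W.Equation x y) :
    XYIdeal W x (C (-y)) * XYIdeal W x (C y) = Ideal.span {XClass W x} := by
  have he := (equation_iff ..).mp hxy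
  rw [h.a1, h.a3] at he
  obtain ⟨v, hv⟩ := h.disc.exists_left_inv
  obtain ⟨α, β, hαβ⟩ : ∃ α β : A, α * (2 * y) + β * (3 * x ^ 2 + 2 * W.a₂ * x + W.a₄) = 1 := by
    refine ⟨v * (8 * y * (3 * (6 * W.a₄ - 2 * W.a₂ ^ 2) * x + 2 * W.a₂ * (6 * W.a₄ - 2 * W.a₂ ^ 2) -
      3 * (9 * W.a₆ - W.a₂ * W.a₄))), -(16 * v * ((6 * W.a₄ - 2 * W.a₂ ^ 2) * x ^ 2 +
      (W.a₂ * (6 * W.a₄ - 2 * W.a₂ ^ 2) - (9 * W.a₆ - W.a₂ * W.a₄)) * x +
      (4 * W.a₄ ^ 2 - W.a₂ ^ 2 * W.a₄ - 3 * W.a₂ * W.a₆))), ?_⟩
    simp only [WeierstrassCurve.Δ, b₂, b₄, b₆, b₈, h.a1, h.a3] at hv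
    linear_combination hv + 16 * v * (3 * (6 * W.a₄ - 2 * W.a₂ ^ 2) * x +
      2 * W.a₂ * (6 * W.a₄ - 2 * W.a₂ ^ 2) - 3 * (9 * W.a₆ - W.a₂ * W.a₄)) * he
  have e1 : YClass W (C (-y)) * YClass W (C y) = XClass W x *
      mk W (C (X ^ 2 + C (x + W.a₂) * X + C (x ^ 2 + W.a₂ * x + W.a₄))) := by
    simp only [XClass, YClass, ← map_mul]
    refine AdjoinRoot.mk_eq_mk.mpr ⟨1, ?_⟩
    have h2 := congr_arg C (congr_arg C he.symm)
    rw [WeierstrassCurve.Affine.polynomial, h.a1, h.a3]
    simp only [map_add, map_mul, map_pow, map_neg, map_sub, map_zero] at h2 ⊢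
    linear_combination h2
  have e2 : mk W (C (C α)) * (YClass W (C (-y)) - YClass W (C y)) + mk W (C (C β)) *
      (mk W (C (X ^ 2 + C (x + W.a₂) * X + C (x ^ 2 + W.a₂ * x + W.a₄))) -
        XClass W x * mk W (C (X + C (2 * x + W.a₂)))) = 1 := by
    have h2 := congr_arg (fun t => mk W (C (C t))) hαβ
    simp only [XClass, YClass, map_add, map_mul, map_pow, map_neg, map_sub, map_one,
      map_ofNat] at h2 ⊢
    linear_combination h2
  have hu : ∀ t, XClass W x ∈ XYIdeal W x t := fun t => Ideal.subset_span (by simp)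
  have hy : ∀ t, YClass W t ∈ XYIdeal W x t := fun t => Ideal.subset_span (by simp)
  apply le_antisymm
  · rw [XYIdeal, XYIdeal, Ideal.span_pair_mul_span_pair, Ideal.span_le]
    rintro z (rfl | rfl | rfl | rfl)
    · exact Ideal.mem_span_singleton.2 (dvd_mul_right _ _)
    · exact Ideal.mem_span_singleton.2 (dvd_mul_right _ _)
    · exact Ideal.mem_span_singleton.2 (dvd_mul_left _ _)
    · exact Ideal.mem_span_singleton.2 ⟨_, e1⟩
  · rw [Ideal.span_singleton_le_iff_mem]
    have e3 : XClass W x = mk W (C (C α)) * (YClass W (C (-y)) * XClass W x -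
        XClass W x * YClass W (C y)) + mk W (C (C β)) * (YClass W (C (-y)) * YClass W (C y) -
        mk W (C (X + C (2 * x + W.a₂))) * (XClass W x * XClass W x)) := by
      rw [e1]
      linear_combination (-XClass W x) * e2
    rw [e3]
    exact add_mem (Ideal.mul_mem_left _ _ (sub_mem (Ideal.mul_mem_mul (hy _) (hu _))
      (Ideal.mul_mem_mul (hu _) (hy _)))) (Ideal.mul_mem_left _ _ (sub_mem
      (Ideal.mul_mem_mul (hy _) (hy _)) (Ideal.mul_mem_left _ _ (Ideal.mul_mem_mul (hu _) (hu _)))))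

/-- `XClass W x` is the monic polynomial `X - C x` acting on a free `A[X]`-module. -/
theorem xclass_reg (W : Affine A) (x : A) : XClass W x ∈ nonZeroDivisors W.CoordinateRing := by
  refine mem_nonZeroDivisors_iff_right.2 fun s hs => ?_
  obtain ⟨p, q, rfl⟩ := exists_smul_basis_eq s
  rw [XClass, smul_basis_mul_C] at hs
  obtain ⟨h1, h2⟩ := smul_basis_eq_zero hs
  rw [(monic_X_sub_C x).mul_left_eq_zero_iff] at h1 h2
  simp [h1, h2]

/-- Let `I`, `J` be the ideals of the point and of its negative, `u = XClass`, `I J = (u)`.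
Induction on `n`: if `s ∈ I^k` and `c s ∈ I^(k+1)`, then for `j ∈ J^k` write `j s = u^k t`; then
`c t ∈ I`, so `t ∈ I` (`quotientXYIdealEquiv`); hence `s u^k ∈ u^k I^(k+1)`. -/
theorem ii_sat [IsDomain A] (h : Ok W) (ho : On W o) {c : A} (hc : c ≠ 0) {s : W.CoordinateRing}
    (hs : algebraMap A _ c * s ∈ II W o ^ n) : s ∈ II W o ^ n := by
  cases o with
  | none => simp [II, Ideal.top_pow]
  | some v =>
    obtain ⟨x, y⟩ := v
    change W.Equation x y at ho
    simp only [II] at hs ⊢
    have hJI := xy_neg_mul h ho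
    have h1 : ∀ t : W.CoordinateRing, algebraMap A _ c * t ∈ XYIdeal W x (C y) →
        t ∈ XYIdeal W x (C y) := by
      intro t ht
      let e := quotientXYIdealEquiv (W' := W) (x := x) (y := C y) ho
      have h2 := congr_arg e (Ideal.Quotient.eq_zero_iff_mem.2 ht)
      rw [map_mul, map_mul, map_zero] at h2
      have h3 : e (Ideal.Quotient.mk _ (algebraMap A W.CoordinateRing c)) = c := e.commutes c
      rw [h3] at h2
      exact Ideal.Quotient.eq_zero_iff_mem.1 (e.injective (by
        rw [map_zero]; exact (mul_eq_zero.1 h2).resolve_left hc))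
    induction n with
    | zero => simp
    | succ k ih =>
      have hk := ih (Ideal.pow_le_pow_right (Nat.le_succ k) hs)
      have hreg := pow_mem (xclass_reg W x) k
      have hp : XYIdeal W x (C (-y)) ^ k * XYIdeal W x (C y) ^ k = Ideal.span {XClass W x ^ k} := by
        rw [← mul_pow, hJI, Ideal.span_singleton_pow]
      have h4 : XYIdeal W x (C (-y)) ^ k * Ideal.span {s} ≤
          Ideal.span {XClass W x ^ k} * XYIdeal W x (C y) := by
        rw [mul_comm, Ideal.span_singleton_mul_le_iff]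
        intro j hj
        obtain ⟨t, ht⟩ := Ideal.mem_span_singleton.1 (hp ▸ Ideal.mul_mem_mul hj hk)
        have h5 : j * (algebraMap A _ c * s) ∈
            Ideal.span {XClass W x ^ k} * XYIdeal W x (C y) := by
          rw [← hp, mul_assoc, ← pow_succ]
          exact Ideal.mul_mem_mul hj hs
        obtain ⟨i, hi, e⟩ := Ideal.mem_span_singleton_mul.1 h5
        have h6 : i = algebraMap A _ c * t :=
          (mul_cancel_left_mem_nonZeroDivisors hreg).1 (by linear_combination e + algebraMap A _ c * ht)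
        rw [mul_comm s j, ht]
        exact Ideal.mul_mem_mul (Ideal.mem_span_singleton_self _) (h1 t (h6 ▸ hi))
      have h7 : XClass W x ^ k * s ∈
          Ideal.span {XClass W x ^ k} * XYIdeal W x (C y) ^ (k + 1) := by
        have h8 := Ideal.mul_mono_left (K := XYIdeal W x (C y) ^ k) h4
        rw [mul_right_comm, hp, mul_assoc, ← pow_succ'] at h8
        exact h8 (Ideal.mul_mem_mul (Ideal.mem_span_singleton_self _)
          (Ideal.mem_span_singleton_self _))
      obtain ⟨i, hi, e⟩ := Ideal.mem_span_singleton_mul.1 h7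
      exact (mul_cancel_left_mem_nonZeroDivisors hreg).1 e ▸ hi

/-- Write `u = ∑ i_k j_k`, `i_k j_k = u r_k`, so `∑ r_k = 1` and some `r = r_k ∉ q`; then
`r I ⊆ (z)` for `z = i_k`.  So `r^n f = s z^n`, `z^n = t f`, and `r^n = s t` because `f` is not a
zero divisor (`u^n ∈ (f)`). -/
theorem Rep.loc (h : Ok W) (ho : On W o) (hf : Rep W n o f) (q : Ideal W.CoordinateRing)
    [q.IsPrime] : ∃ r s z : W.CoordinateRing, r ∉ q ∧ s ∉ q ∧ f * r = s * z ^ n := by
  have hq : q.IsPrime := inferInstance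
  have h1q : (1 : W.CoordinateRing) ∉ q := fun c => hq.ne_top ((Ideal.eq_top_iff_one q).2 c)
  cases o with
  | none =>
    have hu : IsUnit f := Ideal.span_singleton_eq_top.1 (by simpa [II, Ideal.top_pow] using hf.id)
    exact ⟨1, f, 1, h1q, fun c => hq.ne_top (q.eq_top_of_isUnit_mem c hu), by simp⟩
  | some v =>
    obtain ⟨x, y⟩ := v
    change W.Equation x y at ho
    have hid : Ideal.span {f} = XYIdeal W x (C y) ^ n := hf.id
    have hJI := xy_neg_mul h ho
    have hreg := xclass_reg W x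
    have hdiv : ∀ j ∈ XYIdeal W x (C (-y)), ∀ i ∈ XYIdeal W x (C y), ∃ t, j * i = XClass W x * t :=
      fun j hj i hi => Ideal.mem_span_singleton.1 (hJI ▸ Ideal.mul_mem_mul hj hi)
    obtain ⟨j, hj, z, hz, r, hr, hrq⟩ : ∃ j ∈ XYIdeal W x (C (-y)), ∃ z ∈ XYIdeal W x (C y),
        ∃ r, j * z = XClass W x * r ∧ r ∉ q := by
      by_contra hcon
      push Not at hcon
      have h2 : XYIdeal W x (C (-y)) * XYIdeal W x (C y) ≤ Ideal.span {XClass W x} * q := by
        refine Ideal.mul_le.2 fun j hj i hi => ?_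
        obtain ⟨t, ht⟩ := hdiv j hj i hi
        rw [ht]
        exact Ideal.mul_mem_mul (Ideal.mem_span_singleton_self _) (hcon j hj i hi t ht)
      rw [hJI] at h2
      obtain ⟨w, hw, e⟩ := Ideal.mem_span_singleton_mul.1 (h2 (Ideal.mem_span_singleton_self _))
      have h3 : w = 1 := (mul_cancel_left_mem_nonZeroDivisors hreg).1 (by rw [e, mul_one])
      exact h1q (h3 ▸ hw)
    have h4 : Ideal.span {r} * XYIdeal W x (C y) ≤ Ideal.span {z} := by
      rw [Ideal.span_singleton_mul_le_iff]
      intro i hi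
      obtain ⟨t, ht⟩ := hdiv j hj i hi
      exact Ideal.mem_span_singleton.2 ⟨t, (mul_cancel_left_mem_nonZeroDivisors hreg).1 (by
        linear_combination z * ht - i * hr)⟩
    have h5 := Ideal.pow_right_mono h4 n
    rw [mul_pow, ← hid, Ideal.span_singleton_pow, Ideal.span_singleton_pow] at h5
    obtain ⟨s, hs⟩ := Ideal.mem_span_singleton.1 (h5 (Ideal.mul_mem_mul
      (Ideal.mem_span_singleton_self _) (Ideal.mem_span_singleton_self _)))
    obtain ⟨t, ht⟩ := Ideal.mem_span_singleton.1 (hid ▸ Ideal.pow_mem_pow hz n)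
    obtain ⟨w, hw⟩ := Ideal.mem_span_singleton.1
      (hid ▸ Ideal.pow_mem_pow (Ideal.subset_span (by simp) : XClass W x ∈ XYIdeal W x (C y)) n)
    have hfr : f ∈ nonZeroDivisors W.CoordinateRing :=
      (mul_mem_nonZeroDivisors.1 (hw ▸ pow_mem hreg n)).1
    have h6 : r ^ n = t * s := (mul_cancel_left_mem_nonZeroDivisors hfr).1 (by
      linear_combination hs + s * ht)
    refine ⟨r ^ n, s, z, fun c => hrq (hq.mem_of_pow_mem n c), fun c => hrq
      (hq.mem_of_pow_mem n (h6 ▸ q.mul_mem_left t c)), by linear_combination hs⟩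

end

end Pool.Agent.Lib.MP_16ef92_ag.CV
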