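import Mathlib
import Pool.Agent.Lib.MP_16ef92_ag.CV.EDef

set_option autoImplicit false
set_option linter.unusedSectionVars false
set_option linter.unusedVariables false

namespace Pool.Agent.Lib.MP_16ef92_ag.CV

open Polynomial WeierstrassCurve WeierstrassCurve.Affine WeierstrassCurve.Affine.CoordinateRing

noncomputable section

theorem e2_dvd {B L : Type} [CommRing B] [IsDomain B] [IsIntegrallyClosed B] [Field L]
    [Algebra B L] (hi : Function.Injective (algebraMap B L)) {p d : B} (hd : d ≠ 0) {z : L}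
    (hz : IsIntegral B z) (e : z * algebraMap B L d = algebraMap B L p) : d ∣ p := by
  have hi' : Function.Injective (Algebra.ofId B L) := hi
  let j : FractionRing B →ₐ[B] L := IsFractionRing.liftAlgHom hi'
  have hd' : algebraMap B L d ≠ 0 := fun h => hd (hi (h.trans (map_zero _).symm))
  have hz' : j (algebraMap B _ p / algebraMap B _ d) = z := by
    rw [map_div₀, j.commutes, j.commutes, div_eq_iff hd', e]
  have h1 : IsIntegral B (algebraMap B (FractionRing B) p / algebraMap B _ d) := by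
    rw [← isIntegral_algHom_iff j j.injective, hz']
    exact hz
  obtain ⟨w, hw⟩ := IsIntegrallyClosed.isIntegral_iff.1 h1
  refine ⟨w, hi ?_⟩
  have h2 : algebraMap B L w = z := by rw [← hz', ← hw, j.commutes]
  rw [map_mul, h2, ← e, mul_comm]

theorem e2_core {B R : Type} [CommRing B] [IsDomain B] [IsIntegrallyClosed B] [CommRing R]
    [IsDomain R] [Algebra B R] [FaithfulSMul B R] [Algebra.IsIntegral B R] {y : R} {c : B}
    (hy : y ^ 2 = algebraMap B R c)
    (hb : ∀ x : R, ∃ p q : B, algebraMap B R p + algebraMap B R q * y = x)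
    (τ : R →ₐ[B] R) (hτ : τ y = -y) (h2 : IsUnit (2 : B)) (hc : c ≠ 0)
    (hs : ∀ s, c ∣ s ^ 2 → c ∣ s) : IsIntegrallyClosed R := by
  have hττ : ∀ x, τ (τ x) = x := by
    intro x
    obtain ⟨p, q, rfl⟩ := hb x
    simp only [map_add, map_mul, AlgHom.commutes, hτ, map_neg, neg_neg]
  have hτi : Function.Injective τ := Function.LeftInverse.injective hττ
  rw [isIntegrallyClosed_iff (FractionRing R)]
  intro z hz
  have hRL := IsFractionRing.injective R (FractionRing R)
  have hi : Function.Injective (algebraMap B (FractionRing R)) := by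
    rw [IsScalarTower.algebraMap_eq B R (FractionRing R)]
    exact hRL.comp (FaithfulSMul.algebraMap_injective B R)
  have hg : Function.Injective ((IsScalarTower.toAlgHom B R (FractionRing R)).comp τ) :=
    hRL.comp hτi
  let σ : FractionRing R →ₐ[B] FractionRing R := IsFractionRing.liftAlgHom hg
  have hσ : ∀ x : R, σ (algebraMap R _ x) = algebraMap R _ (τ x) := fun x =>
    IsFractionRing.lift_algebraMap hg x
  have hzB : IsIntegral B z := isIntegral_trans z hz
  obtain ⟨a, b, hb0, rfl⟩ := IsFractionRing.div_surjective (A := R) z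
  have hb1 : b ≠ 0 := nonZeroDivisors.ne_zero hb0
  set z := algebraMap R (FractionRing R) a / algebraMap R (FractionRing R) b with hzdef
  obtain ⟨d, hd⟩ : ∃ d : B, algebraMap B R d = b * τ b := by
    obtain ⟨u, v, rfl⟩ := hb b
    refine ⟨u ^ 2 - v ^ 2 * c, ?_⟩
    simp only [map_add, map_mul, map_sub, map_pow, AlgHom.commutes, hτ, ← hy]
    ring
  have hd0 : d ≠ 0 := by
    rintro rfl
    rw [map_zero] at hd
    exact mul_ne_zero hb1 (fun h => hb1 (hτi (h.trans (map_zero τ).symm))) hd.symm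
  obtain ⟨p, q, hpq⟩ := hb (a * τ b)
  set Y := algebraMap R (FractionRing R) y with hY
  have hbL : algebraMap R (FractionRing R) b ≠ 0 := fun h => hb1 (hRL (h.trans (map_zero _).symm))
  have e1 : z * algebraMap B _ d = algebraMap B _ p + algebraMap B _ q * Y := by
    have h := congrArg (algebraMap R (FractionRing R)) hpq
    rw [map_add, map_mul, ← IsScalarTower.algebraMap_apply, ← IsScalarTower.algebraMap_apply] at h
    rw [h, IsScalarTower.algebraMap_apply B R (FractionRing R) d, hd, map_mul, map_mul, hzdef,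
      ← mul_assoc, div_mul_cancel₀ _ hbL]
  have hσY : σ Y = -Y := by rw [hY, hσ, hτ, map_neg]
  have e2 : σ z * algebraMap B _ d = algebraMap B _ p - algebraMap B _ q * Y := by
    have h := congrArg σ e1
    rw [map_mul, map_add, map_mul, σ.commutes, σ.commutes, σ.commutes, hσY] at h
    rw [h]
    ring
  have hY2 : Y ^ 2 = algebraMap B _ c := by
    rw [hY, ← map_pow, hy, ← IsScalarTower.algebraMap_apply]
  have hYi : IsIntegral B Y :=
    (Algebra.IsIntegral.isIntegral (R := B) y).map (IsScalarTower.toAlgHom B R (FractionRing R))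
  have h1 : d ∣ 2 * p := e2_dvd hi hd0 (hzB.add (hzB.map σ)) (by
    rw [add_mul, e1, e2, map_mul, map_ofNat]
    ring)
  obtain ⟨p', rfl⟩ := (h2.dvd_mul_left).1 h1
  have hw : IsIntegral B (z - algebraMap B _ p') := hzB.sub isIntegral_algebraMap
  have e3 : (z - algebraMap B _ p') * algebraMap B _ d = algebraMap B _ q * Y := by
    rw [sub_mul, e1, map_mul]
    ring
  obtain ⟨s, hs1⟩ : d ∣ q * c := e2_dvd hi hd0 (hw.mul hYi) (by
    rw [mul_right_comm, e3, map_mul, ← hY2]
    ring)
  obtain ⟨m, hm⟩ : d ^ 2 ∣ q ^ 2 * c := e2_dvd hi (pow_ne_zero 2 hd0) (hw.pow 2) (by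
    rw [map_pow, ← mul_pow, e3, map_mul, map_pow, ← hY2]
    ring)
  have h3 : s ^ 2 = c * m := by
    apply mul_left_cancel₀ (pow_ne_zero 2 hd0)
    linear_combination c * hm - (d * s + q * c) * hs1
  obtain ⟨t, rfl⟩ := hs s ⟨m, h3⟩
  have h4 : q = d * t := by
    apply mul_right_cancel₀ hc
    rw [hs1]
    ring
  refine ⟨algebraMap B R p' + algebraMap B R t * y, ?_⟩
  have hdL : algebraMap B (FractionRing R) d ≠ 0 := fun h => hd0 (hi (h.trans (map_zero _).symm))
  apply mul_right_cancel₀ hdL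
  rw [e1, h4, map_add, map_mul, ← IsScalarTower.algebraMap_apply, ← IsScalarTower.algebraMap_apply,
    map_mul, map_mul]
  ring

theorem e2_sep {A : Type} [CommRing A] {W : Affine A} (h : Ok W) :
    (X ^ 3 + C W.a₂ * X ^ 2 + C W.a₄ * X + C W.a₆ : A[X]).Separable := by
  obtain ⟨u, hu⟩ := h.disc.exists_left_inv
  have hΔ : W.Δ = 16 * (W.a₂ ^ 2 * W.a₄ ^ 2 - 4 * W.a₂ ^ 3 * W.a₆ - 4 * W.a₄ ^ 3 - 27 * W.a₆ ^ 2
      + 18 * W.a₂ * W.a₄ * W.a₆) := by
    simp only [WeierstrassCurve.Δ, b₂, b₄, b₆, b₈, h.a1, h.a3]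
    ring
  have hu' := congrArg (C : A →+* A[X]) hu
  rw [hΔ] at hu'
  simp only [map_mul, map_add, map_sub, map_pow, map_one, map_ofNat] at hu'
  have hd : derivative (X ^ 3 + C W.a₂ * X ^ 2 + C W.a₄ * X + C W.a₆ : A[X]) =
      3 * X ^ 2 + 2 * C W.a₂ * X + C W.a₄ := by
    simp only [derivative_add, derivative_mul, derivative_C, derivative_X_pow, derivative_X,
      Nat.cast_ofNat, map_ofNat]
    ring
  refine ⟨-16 * C u * ((6 * C W.a₂ ^ 2 - 18 * C W.a₄) * X +
      (4 * C W.a₂ ^ 3 - 15 * C W.a₂ * C W.a₄ + 27 * C W.a₆)),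
    -16 * C u * ((-2 * C W.a₂ ^ 2 + 6 * C W.a₄) * X ^ 2 +
      (-2 * C W.a₂ ^ 3 + 7 * C W.a₂ * C W.a₄ - 9 * C W.a₆) * X +
      (-C W.a₂ ^ 2 * C W.a₄ + 4 * C W.a₄ ^ 2 - 3 * C W.a₂ * C W.a₆)), ?_⟩
  rw [hd]
  linear_combination hu'

theorem e2_fin {A : Type} [CommRing A] (W : Affine A) : Module.Finite A[X] W.CoordinateRing :=
  Module.Finite.of_basis (CoordinateRing.basis W)

/-- Let `c` be the cubic, `z = (p + q y) / d` with `p q d ∈ A[X]` (multiply by the conjugate of the
denominator).  The conjugation `y ↦ -y` preserves integrality over `A[X]`, which is normal; so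
`d ∣ 2 p`, `d ∣ p`; then `q y / d` is integral, `s = q c / d` has `s^2 = (q y / d)^2 c` integral, so
`s ∈ A[X]` and `c ∣ s^2`; `c` is monic and separable over the fraction field of `A`
(`Δ ≠ 0`), so `c ∣ s` and `d ∣ q`. -/
theorem Ok.normal {A : Type} [CommRing A] [IsDomain A] [IsIntegrallyClosed A] {W : Affine A}
    (h : Ok W) : IsIntegrallyClosed W.CoordinateRing := by
  have := e2_fin W
  have hp : W.polynomial =
      X ^ 2 - C (X ^ 3 + C W.a₂ * X ^ 2 + C W.a₄ * X + C W.a₆ : A[X]) := by
    rw [polynomial, h.a1, h.a3]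
    simp
  have hm : (X ^ 3 + C W.a₂ * X ^ 2 + C W.a₄ * X + C W.a₆ : A[X]).Monic := by monicity!
  have hs := e2_sep h
  generalize (X ^ 3 + C W.a₂ * X ^ 2 + C W.a₄ * X + C W.a₆ : A[X]) = c at hp hm hs
  have hy : AdjoinRoot.root W.polynomial ^ 2 = algebraMap A[X] W.CoordinateRing c := by
    have h1 := AdjoinRoot.eval₂_root W.polynomial
    have h2 : eval₂ (AdjoinRoot.of W.polynomial) (AdjoinRoot.root W.polynomial) (X ^ 2 - C c) = 0 :=
      (congrArg (eval₂ _ _) hp).symm.trans h1
    rw [eval₂_sub, eval₂_X_pow, eval₂_C, sub_eq_zero] at h2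
    exact h2
  have hτ : W.polynomial.eval₂ (Algebra.ofId A[X] W.CoordinateRing)
      (-AdjoinRoot.root W.polynomial) = 0 := by
    have h2 : eval₂ (Algebra.ofId A[X] W.CoordinateRing : A[X] →+* W.CoordinateRing)
        (-AdjoinRoot.root W.polynomial) (X ^ 2 - C c) = 0 := by
      rw [eval₂_sub, eval₂_X_pow, eval₂_C, neg_sq, hy, sub_eq_zero]
      rfl
    exact (congrArg (eval₂ _ _) hp).trans h2
  refine e2_core hy (fun x => ?_) (AdjoinRoot.liftAlgHom W.polynomial _ _ hτ)
    (AdjoinRoot.liftAlgHom_root _ _ _ _) ?_ hm.ne_zero fun s hd => ?_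
  · obtain ⟨p, q, rfl⟩ := exists_smul_basis_eq x
    exact ⟨p, q, by rw [Algebra.smul_def, Algebra.smul_def, mul_one]; rfl⟩
  · have h2 := h.two.map (C : A →+* A[X])
    rwa [map_ofNat] at h2
  · have hi := IsFractionRing.injective A (FractionRing A)
    rw [← map_dvd_map _ hi hm] at hd ⊢
    rw [Polynomial.map_pow] at hd
    exact (hs.map.squarefree.dvd_pow_iff_dvd two_ne_zero).1 hd

/-- Finite over `K[X]`: noetherian, `Ring.DimensionLEOne.isIntegralClosure` or
`Ring.DimensionLEOne.of_isIntegral`, not a field since `K[X]` is not. -/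
theorem Ok.crv {K : Type} [Field K] {W : Affine K} (h : Ok W) : Crv K W.CoordinateRing := by
  have := e2_fin W
  have := h.normal
  have h1 : IsNoetherianRing W.CoordinateRing := IsNoetherianRing.of_finite K[X] _
  have h2 : Ring.DimensionLEOne W.CoordinateRing := Ring.DimensionLEOne.of_isIntegral K[X] _
  have h3 : IsDedekindRing W.CoordinateRing := { }
  refine ⟨inferInstance, Algebra.FiniteType.trans (S := K[X]) inferInstance inferInstance,
    fun hf => Polynomial.not_isField K ?_⟩
  exact (Algebra.IsIntegral.isField_iff_isField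
    (FaithfulSMul.algebraMap_injective K[X] W.CoordinateRing)).2 hf

/-- Nullstellensatz: `x` and `y` are congruent to constants `a`, `b` mod `q`, the pair lies on the
curve, and `XYIdeal a (C b)` is maximal (`quotientXYIdealEquiv`). -/
theorem Ok.max {K : Type} [Field K] [IsAlgClosed K] {W : Affine K} (h : Ok W)
    (q : Ideal W.CoordinateRing) [q.IsPrime] (hq : q ≠ ⊥) : ∃ P : W.Point, q = II W (pt P) := by
  have := h.crv.ded
  have := h.crv.ft
  have hm : q.IsMaximal := Ideal.IsPrime.isMaximal inferInstance hq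
  let _ := Ideal.Quotient.field q
  have hf : Module.Finite K (W.CoordinateRing ⧸ q) := finite_of_finite_type_of_isJacobsonRing _ _
  have hs := (IsAlgClosed.algebraMap_bijective_of_isIntegral (k := K)
    (K := W.CoordinateRing ⧸ q)).2
  obtain ⟨a, ha⟩ := hs (Ideal.Quotient.mk q (CoordinateRing.mk W (C X)))
  obtain ⟨b, hb⟩ := hs (Ideal.Quotient.mk q (CoordinateRing.mk W X))
  have hle : XYIdeal W a (C b) ≤ q := by
    rw [XYIdeal, Ideal.span_le, Set.insert_subset_iff, Set.singleton_subset_iff]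
    constructor
    · rw [SetLike.mem_coe, XClass, map_sub, map_sub, ← Ideal.Quotient.eq, ← ha]
      rfl
    · rw [SetLike.mem_coe, YClass, map_sub, ← Ideal.Quotient.eq, ← hb]
      rfl
  have he : W.Equation a b := by
    have h1 : W.polynomial - C (C (W.polynomial.evalEval a b)) ∈
        Ideal.span {C (X - C a), X - C (C b)} := by
      rw [mem_span_C_X_sub_C_X_sub_C_iff_eval_eval_eq_zero]
      simp [evalEval]
    have h2 := Ideal.mem_map_of_mem (CoordinateRing.mk W) h1
    rw [map_sub (CoordinateRing.mk W), AdjoinRoot.mk_self, zero_sub, neg_mem_iff, Ideal.map_span,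
      Set.image_pair] at h2
    by_contra hne
    exact hm.ne_top (Ideal.eq_top_of_isUnit_mem _ (hle h2)
      ((((Ne.isUnit hne).map C).map C).map (CoordinateRing.mk W)))
  have hx : (XYIdeal W a (C b)).IsMaximal := Ideal.Quotient.maximal_of_isField _
    ((quotientXYIdealEquiv (W' := W) (x := a) (y := C b) he).toMulEquiv.isField
      (Field.toIsField K))
  exact ⟨.some a b ((equation_iff_nonsingular_of_Δ_ne_zero h.disc.ne_zero).1 he),
    (hx.eq_of_le hm.ne_top hle).symm⟩

end

end Pool.Agent.Lib.MP_16ef92_ag.CV
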