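import Mathlib
import Pool.Agent.Lib.MP_16ef92_ag.CV.E1

set_option autoImplicit false
set_option linter.unusedSectionVars false
set_option linter.unusedVariables false

namespace Pool.Agent.Lib.MP_16ef92_ag.CV

open Polynomial WeierstrassCurve WeierstrassCurve.Affine WeierstrassCurve.Affine.CoordinateRing
open scoped Classical

noncomputable section

variable {F : Type} [Field F] {W : Affine F} {n : ℕ}

theorem e3_alg (c : F) :
    algebraMap F W.CoordinateRing c = (C c : F[X]) • (1 : W.CoordinateRing) := by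
  rw [Algebra.smul_def, mul_one]
  exact IsScalarTower.algebraMap_apply F F[X] _ c

theorem e3_norm (c : F) :
    Algebra.norm F[X] (algebraMap F W.CoordinateRing c) = C (c ^ 2) := by
  have := norm_smul_basis (W' := W) (C c) 0
  rw [zero_smul, add_zero, ← e3_alg] at this
  rw [this, map_pow]
  ring

theorem e3_mon {f : W.CoordinateRing} :
    Mon f ↔ (Algebra.norm F[X] f).leadingCoeff * (Algebra.norm F[X] f).leadingCoeff = 1 := by
  rw [mul_self_eq_one_iff, Mon, Monic, Monic, leadingCoeff_neg, neg_eq_iff_eq_neg]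

theorem e3_lc (c : F) (f : W.CoordinateRing) :
    (Algebra.norm F[X] (algebraMap F W.CoordinateRing c * f)).leadingCoeff =
      c ^ 2 * (Algebra.norm F[X] f).leadingCoeff := by
  rw [map_mul, e3_norm, leadingCoeff_mul, leadingCoeff_C]

theorem e3_pow {f : W.CoordinateRing} (h : Mon f) (k : ℕ) : Mon (f ^ k) := by
  induction k with
  | zero => simpa using (rep_none W 0).mon
  | succ k ih => rw [pow_succ]; exact ih.mul h

theorem e3_unit {c : F} (hc : c ≠ 0) : IsUnit (algebraMap F W.CoordinateRing c) :=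
  hc.isUnit.map _

/-- Units are constants (`degree_norm_smul_basis`; see `MP_796ce4_ag.r1a_unit`). -/
theorem unit_const {u : W.CoordinateRing} (hu : IsUnit u) : ∃ c : F, u = algebraMap F _ c := by
  obtain ⟨p, q, rfl⟩ := exists_smul_basis_eq u
  have h1 := degree_eq_zero_of_isUnit (hu.map (Algebra.norm F[X]))
  rw [degree_norm_smul_basis] at h1
  have hq : q = 0 := by
    by_contra hq
    have h2 : 2 • q.degree + 3 ≤ 0 := h1 ▸ le_max_right _ _
    rw [degree_eq_natDegree hq] at h2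
    have h3 : ((2 * q.natDegree + 3 : ℕ) : WithBot ℕ) ≤ ((0 : ℕ) : WithBot ℕ) := by
      simpa [two_nsmul, two_mul] using h2
    have h4 : 2 * q.natDegree + 3 ≤ 0 := by exact_mod_cast h3
    omega
  have hp : p.natDegree = 0 := by
    by_cases hp : p = 0
    · simp [hp]
    have h2 : 2 • p.degree ≤ 0 := h1 ▸ le_max_left _ _
    rw [degree_eq_natDegree hp] at h2
    have h3 : ((2 * p.natDegree : ℕ) : WithBot ℕ) ≤ ((0 : ℕ) : WithBot ℕ) := by
      simpa [two_nsmul, two_mul] using h2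
    have h4 : 2 * p.natDegree ≤ 0 := by exact_mod_cast h3
    omega
  refine ⟨p.coeff 0, ?_⟩
  rw [hq, zero_smul, add_zero, e3_alg, ← eq_C_of_natDegree_eq_zero hp]

theorem e3_cubic (a b c : F) : (X ^ 3 + C a * X ^ 2 + C b * X + C c : F[X]).Monic ∧
    (X ^ 3 + C a * X ^ 2 + C b * X + C c : F[X]).natDegree = 3 := by
  constructor
  · monicity!
  · compute_degree!

/-- For `f = p + q y` the leading coefficient of the norm `p^2 - q^2 cubic` is the square of the
leading coefficient of `p` or minus the square of that of `q`; divide by it. -/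
theorem exists_mon (h : Ok W) {f : W.CoordinateRing} (hf : f ≠ 0) :
    ∃ c : F, c ≠ 0 ∧ Mon (algebraMap F _ c * f) := by
  obtain ⟨p, q, rfl⟩ := exists_smul_basis_eq f
  obtain ⟨m, d⟩ := e3_cubic W.a₂ W.a₄ W.a₆
  have e : Algebra.norm F[X] (p • (1 : W.CoordinateRing) + q • mk W X) =
      p ^ 2 - q ^ 2 * (X ^ 3 + C W.a₂ * X ^ 2 + C W.a₄ * X + C W.a₆) := by
    rw [norm_smul_basis, h.a1, h.a3]
    simp
  generalize (X ^ 3 + C W.a₂ * X ^ 2 + C W.a₄ * X + C W.a₆ : F[X]) = g at m d e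
  have A : p ≠ 0 → (q ^ 2 * g).degree < (p ^ 2).degree →
      ∃ c : F, c ≠ 0 ∧ Mon (algebraMap F _ c * (p • (1 : W.CoordinateRing) + q • mk W X)) := by
    intro hp k
    have l := leadingCoeff_ne_zero.2 hp
    refine ⟨p.leadingCoeff⁻¹, inv_ne_zero l, e3_mon.2 ?_⟩
    rw [e3_lc, e, leadingCoeff_sub_of_degree_lt k, leadingCoeff_pow]
    field_simp
  have B : q ≠ 0 → (p ^ 2).degree < (q ^ 2 * g).degree →
      ∃ c : F, c ≠ 0 ∧ Mon (algebraMap F _ c * (p • (1 : W.CoordinateRing) + q • mk W X)) := by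
    intro hq k
    have l := leadingCoeff_ne_zero.2 hq
    refine ⟨q.leadingCoeff⁻¹, inv_ne_zero l, e3_mon.2 ?_⟩
    rw [e3_lc, e, leadingCoeff_sub_of_degree_lt' k, leadingCoeff_mul, leadingCoeff_pow,
      m.leadingCoeff]
    field_simp
  by_cases hq : q = 0
  · have hp : p ≠ 0 := by
      rintro rfl
      exact hf (by rw [hq, zero_smul, zero_smul, add_zero])
    refine A hp ?_
    rw [hq, zero_pow two_ne_zero, zero_mul, degree_zero]
    exact bot_lt_iff_ne_bot.2 (degree_ne_bot.2 (pow_ne_zero _ hp))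
  have g0 : q ^ 2 * g ≠ 0 := mul_ne_zero (pow_ne_zero _ hq) m.ne_zero
  by_cases hp : p = 0
  · refine B hq ?_
    rw [hp, zero_pow two_ne_zero, degree_zero]
    exact bot_lt_iff_ne_bot.2 (degree_ne_bot.2 g0)
  have d1 : (p ^ 2).natDegree = 2 * p.natDegree := natDegree_pow p 2
  have d2 : (q ^ 2 * g).natDegree = 2 * q.natDegree + 3 := by
    rw [natDegree_mul (pow_ne_zero _ hq) m.ne_zero, natDegree_pow, d]
  rcases lt_or_gt_of_ne (show (p ^ 2).natDegree ≠ (q ^ 2 * g).natDegree by omega) with k | k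
  · exact B hq (degree_lt_degree k)
  · exact A hp (degree_lt_degree k)

/-- The norm of a constant is its square. -/
theorem Mon.const {f : W.CoordinateRing} {c : F} (h : Mon f) (h' : Mon (algebraMap F _ c * f)) :
    c ^ 4 = 1 := by
  rw [e3_mon] at h h'
  rw [e3_lc] at h'
  linear_combination h' - c ^ 4 * h

theorem e3_class (P : W.Point) :
    ∃ U : (FractionalIdeal (nonZeroDivisors W.CoordinateRing) W.FunctionField)ˣ,
      (U : FractionalIdeal (nonZeroDivisors W.CoordinateRing) W.FunctionField) =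
        (II W (pt P) : Ideal W.CoordinateRing) ∧
      ClassGroup.mk W.FunctionField U = Additive.toMul (Affine.Point.toClass P) := by
  rcases P with _ | ⟨x, y, h⟩
  · refine ⟨1, ?_, ?_⟩
    · simp [II, pt]
    · rw [map_one]
      rfl
  · exact ⟨XYIdeal' (W := W) h, XYIdeal'_eq h, rfl⟩

/-- `Point.toClass` is additive; `ClassGroup.mk_eq_one_of_coe_ideal`
(see `MP_796ce4_ag.r1a_class`, `r1a_gen`). -/
theorem rep_ex (h : Ok W) {P : W.Point} (hP : n • P = 0) : ∃ f, Rep W n (pt P) f := by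
  obtain ⟨U, hU, hc⟩ := e3_class P
  have h1 : ((U ^ n : (FractionalIdeal (nonZeroDivisors W.CoordinateRing) W.FunctionField)ˣ) :
      FractionalIdeal (nonZeroDivisors W.CoordinateRing) W.FunctionField) =
      (II W (pt P) ^ n : Ideal W.CoordinateRing) := by
    rw [Units.val_pow_eq_pow_val, hU, FractionalIdeal.coeIdeal_pow]
  have h2 : ClassGroup.mk W.FunctionField (U ^ n) = 1 := by
    rw [map_pow, hc, ← toMul_nsmul, ← map_nsmul, hP, map_zero, toMul_zero]
  obtain ⟨f, f0, hf⟩ := (ClassGroup.mk_eq_one_of_coe_ideal h1).mp h2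
  obtain ⟨c, c0, hc⟩ := exists_mon h f0
  exact ⟨_, by rw [hf, Ideal.span_singleton_mul_left_unit (e3_unit c0)], hc⟩

/-- Equal classes, with normalised multipliers (`exists_mon`). -/
theorem ii_add (h : Ok W) (P Q : W.Point) : ∃ a b : W.CoordinateRing, Mon a ∧ Mon b ∧
    Ideal.span {a} * (II W (pt P) * II W (pt Q)) = Ideal.span {b} * II W (pt (P + Q)) := by
  obtain ⟨U, hU, hc⟩ := e3_class P
  obtain ⟨V, hV, hd⟩ := e3_class Q
  obtain ⟨T, hT, he⟩ := e3_class (P + Q)
  have h1 : ((U * V : (FractionalIdeal (nonZeroDivisors W.CoordinateRing) W.FunctionField)ˣ) :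
      FractionalIdeal (nonZeroDivisors W.CoordinateRing) W.FunctionField) =
      (II W (pt P) * II W (pt Q) : Ideal W.CoordinateRing) := by
    rw [Units.val_mul, hU, hV, FractionalIdeal.coeIdeal_mul]
  have h2 : ClassGroup.mk W.FunctionField (U * V) = ClassGroup.mk W.FunctionField T := by
    rw [map_mul, hc, hd, he, map_add, toMul_add]
  obtain ⟨a, b, a0, b0, e⟩ := (ClassGroup.mk_eq_mk_of_coe_ideal h1 hT).mp h2
  obtain ⟨c, c0, hc⟩ := exists_mon h a0
  obtain ⟨d, d0, hd⟩ := exists_mon h b0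
  refine ⟨_, _, hc, hd, ?_⟩
  rw [Ideal.span_singleton_mul_left_unit (e3_unit c0),
    Ideal.span_singleton_mul_left_unit (e3_unit d0), e]

theorem e3_gen {f g : W.CoordinateRing} (hf : Mon f) (hg : Mon g)
    (e : Ideal.span {f} = Ideal.span {g}) : ∃ c : F, c ^ 4 = 1 ∧ f = algebraMap F _ c * g := by
  obtain ⟨u, hu⟩ := Ideal.span_singleton_eq_span_singleton.1 e.symm
  obtain ⟨c, hc⟩ := unit_const u.isUnit
  rw [hc, mul_comm] at hu
  exact ⟨c, hg.const (hu ▸ hf), hu.symm⟩

/-- Raise `ii_add` to the power `n`; two generators of a principal ideal differ by a unit. -/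
theorem rep_add (h : Ok W) {P Q : W.Point} {f g k : W.CoordinateRing} (hf : Rep W n (pt P) f)
    (hg : Rep W n (pt Q) g) (hk : Rep W n (pt (P + Q)) k) :
    ∃ (a b : W.CoordinateRing) (c : F), a ≠ 0 ∧ b ≠ 0 ∧ c ^ 4 = 1 ∧
      a ^ n * (f * g) = algebraMap F _ c * b ^ n * k := by
  obtain ⟨a, b, ha, hb, e⟩ := ii_add h P Q
  have e2 : Ideal.span {a ^ n * (f * g)} = Ideal.span {b ^ n * k} := by
    simp only [← Ideal.span_singleton_mul_span_singleton, ← Ideal.span_singleton_pow, hf.id, hg.id,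
      hk.id, ← mul_pow, e]
  obtain ⟨c, hc, e3⟩ := e3_gen ((e3_pow ha n).mul (hf.mon.mul hg.mon)) ((e3_pow hb n).mul hk.mon) e2
  exact ⟨a, b, c, ha.ne_zero, hb.ne_zero, hc, by rw [e3, mul_assoc]⟩

theorem rep_uniq {o : Op F} {f g : W.CoordinateRing} (hf : Rep W n o f) (hg : Rep W n o g) :
    ∃ c : F, c ^ 4 = 1 ∧ f = algebraMap F _ c * g :=
  e3_gen hf.mon hg.mon (hf.id.trans hg.id.symm)

end

end Pool.Agent.Lib.MP_16ef92_ag.CV
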