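import Mathlib
import Pool.Agent.Lib.MP_16ef92_ag.CV.E1

set_option autoImplicit false
set_option linter.unusedSectionVars false
set_option linter.unusedVariables false

namespace Pool.Agent.Lib.MP_16ef92_ag.CV

open Polynomial WeierstrassCurve WeierstrassCurve.Affine WeierstrassCurve.Affine.CoordinateRing

noncomputable section

variable {A F : Type} [CommRing A] [IsDomain A] [IsIntegrallyClosed A] [Field F] [Algebra A F]
  [IsFractionRing A F]

theorem e4_val {a : F} (h : ∀ O : ValuationSubring F, (∀ r : A, algebraMap A F r ∈ O) → a ∈ O) :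
    ∃ r, algebraMap A F r = a := by
  by_contra hn
  have : IsIntegrallyClosedIn (algebraMap A F).range F := by
    refine (isIntegrallyClosedIn_iff).2 ⟨Subtype.val_injective, fun {x} hx => ?_⟩
    let _ : Algebra A (algebraMap A F).range := (algebraMap A F).rangeRestrict.toAlgebra
    have : IsScalarTower A (algebraMap A F).range F := IsScalarTower.of_algebraMap_eq fun _ => rfl
    have : Algebra.IsIntegral A (algebraMap A F).range :=
      Algebra.isIntegral_of_surjective (algebraMap A F).rangeRestrict_surjective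
    obtain ⟨y, hy⟩ := IsIntegrallyClosed.isIntegral_iff.1 (isIntegral_trans (R := A) x hx)
    exact ⟨⟨x, y, hy⟩, rfl⟩
  obtain ⟨O, hO, ha⟩ := Subring.exists_le_valuationSubring_of_isIntegrallyClosedIn
    (R := (algebraMap A F).range) (x := a) hn
  exact ha (h O fun r => hO ⟨r, rfl⟩)

theorem e4_par {k : Type} [Field k] {P Q c : k[X]} (hc : c.Monic) (h3 : c.natDegree = 3)
    (h : P ^ 2 = Q ^ 2 * c) : P = 0 ∧ Q = 0 := by
  have hQ : Q = 0 := by
    by_contra hQ
    have h1 := congrArg natDegree h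
    rw [natDegree_mul (pow_ne_zero _ hQ) hc.ne_zero, natDegree_pow, natDegree_pow, h3] at h1
    omega
  refine ⟨?_, hQ⟩
  rw [hQ, zero_pow two_ne_zero, zero_mul] at h
  exact pow_eq_zero_iff two_ne_zero |>.1 h

open Classical in
theorem e4_O (O : ValuationSubring F) {c N : O[X]} (hc : c.Monic) (h3 : c.natDegree = 3)
    {p q : F[X]} (h : p ^ 2 - q ^ 2 * c.map O.subtype = N.map O.subtype) :
    ∀ a ∈ p.coeffs ∪ q.coeffs, a ∈ O := by
  intro a0 ha0
  obtain ⟨a, ha, hmax⟩ := (p.coeffs ∪ q.coeffs).exists_max_image O.valuation ⟨a0, ha0⟩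
  by_cases haO : a ∈ O
  · exact (O.valuation_le_one_iff _).1 ((hmax _ ha0).trans ((O.valuation_le_one_iff _).2 haO))
  exfalso
  have ha0 : a ≠ 0 := fun e => haO (e ▸ O.zero_mem)
  have hva : O.valuation a ≠ 0 := (Valuation.ne_zero_iff _).2 ha0
  have key : ∀ r : F[X], (∀ b ∈ r.coeffs, O.valuation b ≤ O.valuation a) →
      ∃ R : O[X], R.map O.subtype = C a⁻¹ * r := by
    intro r hr
    rw [← mem_lifts, lifts_iff_coeff_lifts]
    intro n
    rw [coeff_C_mul]
    refine ⟨⟨a⁻¹ * r.coeff n, ?_⟩, rfl⟩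
    by_cases h0 : r.coeff n = 0
    · rw [h0, mul_zero]
      exact O.zero_mem
    · rw [← O.valuation_le_one_iff, map_mul, map_inv₀, inv_mul_le_iff₀ (zero_lt_iff.2 hva), mul_one]
      exact hr _ (coeff_mem_coeffs h0)
  obtain ⟨P, hP⟩ := key p fun b hb => hmax b (Finset.mem_union_left _ hb)
  obtain ⟨Q, hQ⟩ := key q fun b hb => hmax b (Finset.mem_union_right _ hb)
  have hb : a⁻¹ ∈ O := (O.mem_or_inv_mem a).resolve_left haO
  have hres : IsLocalRing.residue O ⟨a⁻¹, hb⟩ = 0 := by
    rw [IsLocalRing.residue_eq_zero_iff, IsLocalRing.mem_maximalIdeal, mem_nonunits_iff]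
    intro hu
    obtain ⟨w, hw⟩ := hu.exists_right_inv
    have hw' : a⁻¹ * (w : F) = 1 := congrArg Subtype.val hw
    rw [inv_mul_eq_one₀ ha0] at hw'
    exact haO (hw' ▸ w.2)
  have hrel : P ^ 2 - Q ^ 2 * c = C (⟨a⁻¹, hb⟩ : O) ^ 2 * N := by
    apply Polynomial.map_injective O.subtype Subtype.val_injective
    simp only [Polynomial.map_sub, Polynomial.map_mul, Polynomial.map_pow, hP, hQ, map_C, ← h]
    change _ = C a⁻¹ ^ 2 * _
    ring
  have hrel' := congrArg (Polynomial.map (IsLocalRing.residue O)) hrel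
  simp only [Polynomial.map_sub, Polynomial.map_mul, Polynomial.map_pow, map_C, hres, C_0,
    zero_pow two_ne_zero, zero_mul, sub_eq_zero] at hrel'
  obtain ⟨hP0, hQ0⟩ := e4_par (hc.map _) (by rw [hc.natDegree_map, h3]) hrel'
  have fin : ∀ (r : F[X]) (R : O[X]), R.map O.subtype = C a⁻¹ * r → a ∈ r.coeffs →
      R.map (IsLocalRing.residue O) ≠ 0 := by
    intro r R hR har h0
    obtain ⟨n, -, hn⟩ := mem_coeffs_iff.1 har
    have h1 : R.coeff n = 1 := by
      apply Subtype.val_injective
      have h2 := congrArg (coeff · n) hR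
      simp only [coeff_map, coeff_C_mul, ← hn, inv_mul_cancel₀ ha0] at h2
      exact h2
    have h2 := congrArg (coeff · n) h0
    simp only [coeff_map, h1, map_one, coeff_zero] at h2
    exact one_ne_zero h2
  rcases Finset.mem_union.1 ha with ha | ha
  · exact fin p P hP ha hP0
  · exact fin q Q hQ ha hQ0

/-- Let `O` be a valuation subring of `F` that contains `A`, and `a` a coefficient of `p` or `q` of
largest value.  If `a ∉ O`, reduce `(p / a)^2 - (q / a)^2 c = N / a^2` modulo the maximal ideal: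
`p̄^2 = q̄^2 c̄`, impossible by parity of degrees unless both vanish.  So all coefficients lie in
all such `O`, so they are integral over `A` (`iInf_valuationSubring_superset` or
`Subring.exists_le_valuationSubring_of_isIntegrallyClosedIn`). -/
theorem int_of_norm {c N : A[X]} (hc : c.Monic) (h3 : c.natDegree = 3) {p q : F[X]}
    (h : p ^ 2 - q ^ 2 * c.map (algebraMap A F) = N.map (algebraMap A F)) :
    p ∈ lifts (algebraMap A F) ∧ q ∈ lifts (algebraMap A F) := by
  classical
  have key : ∀ a ∈ p.coeffs ∪ q.coeffs, ∃ r, algebraMap A F r = a := fun a ha =>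
    e4_val fun O hO => by
      let φ : A →+* O := (algebraMap A F).codRestrict O hO
      have e : O.subtype.comp φ = algebraMap A F := rfl
      refine e4_O O (c := c.map φ) (N := N.map φ) (hc.map φ) (by rw [hc.natDegree_map, h3]) ?_ a ha
      rw [Polynomial.map_map, Polynomial.map_map, e, h]
  constructor
  · rw [lifts_iff_coeffs_subset_range]
    exact fun a ha => key a (Finset.mem_union_left _ ha)
  · rw [lifts_iff_coeffs_subset_range]
    exact fun a ha => key a (Finset.mem_union_right _ ha)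

section conj

variable {B : Type} [CommRing B] {V : Affine B}

/-- The cubic. -/
abbrev e4_c (V : Affine B) : B[X] := X ^ 3 + C V.a₂ * X ^ 2 + C V.a₄ * X + C V.a₆

theorem e4_norm (h : Ok V) (p q : B[X]) :
    Algebra.norm B[X] (p • (1 : V.CoordinateRing) + q • CoordinateRing.mk V X) =
      p ^ 2 - q ^ 2 * e4_c V := by
  rw [norm_smul_basis, h.a1, h.a3]
  simp

theorem e4_sq (h : Ok V) : CoordinateRing.mk V X ^ 2 = CoordinateRing.mk V (C (e4_c V)) :=
  AdjoinRoot.mk_eq_mk.mpr ⟨1, by rw [polynomial, h.a1, h.a3]; simp⟩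

/-- The conjugation. -/
def e4_tau (h : Ok V) : V.CoordinateRing →+* V.CoordinateRing :=
  AdjoinRoot.lift (AdjoinRoot.of _) (-CoordinateRing.mk V X) (by
    have e : V.polynomial = X ^ 2 - C (e4_c V) := by rw [polynomial, h.a1, h.a3]; simp
    conv_lhs => enter [3]; rw [e]
    rw [eval₂_sub, eval₂_pow, eval₂_X, eval₂_C, neg_sq, e4_sq h]
    exact sub_self _)

theorem e4_tau_C (h : Ok V) (p : B[X]) :
    e4_tau h (CoordinateRing.mk V (C p)) = CoordinateRing.mk V (C p) := by
  rw [e4_tau, AdjoinRoot.lift_mk, eval₂_C]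
  rfl

theorem e4_tau_Y (h : Ok V) : e4_tau h (CoordinateRing.mk V X) = -CoordinateRing.mk V X := by
  rw [e4_tau, AdjoinRoot.lift_mk, eval₂_X]

theorem e4_mul_tau (h : Ok V) (f : V.CoordinateRing) :
    f * e4_tau h f = CoordinateRing.mk V (C (Algebra.norm B[X] f)) := by
  obtain ⟨p, q, rfl⟩ := exists_smul_basis_eq f
  rw [e4_norm h, map_sub, map_sub, map_mul C, map_mul (CoordinateRing.mk V), ← e4_sq h]
  simp only [smul, map_add, map_mul, map_one, e4_tau_C, e4_tau_Y, map_pow]
  ring

theorem e4_tau_xy (h : Ok V) (x y : B) :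
    (XYIdeal V x (C y)).map (e4_tau h) = XYIdeal V x (C (-y)) := by
  have e : e4_tau h (YClass V (C y)) = -YClass V (C (-y)) := by
    simp only [YClass, map_sub, e4_tau_C, e4_tau_Y, map_neg]
    ring
  rw [XYIdeal, XYIdeal, Ideal.map_span, Set.image_pair, e, XClass, e4_tau_C, Ideal.span_insert,
    Ideal.span_insert, Ideal.span_singleton_neg]

theorem e4_dvd {a b : B[X]} (h : CoordinateRing.mk V (C a) ∣ CoordinateRing.mk V (C b)) : a ∣ b := by
  obtain ⟨u, hu⟩ := h
  obtain ⟨p, q, rfl⟩ := exists_smul_basis_eq u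
  have h0 : (p * a - b) • (1 : V.CoordinateRing) + (q * a) • CoordinateRing.mk V X = 0 := by
    rw [sub_smul, smul b, mul_one, hu, mul_comm (CoordinateRing.mk V (C a)), smul_basis_mul_C]
    ring
  exact ⟨p, by rw [mul_comm]; exact (sub_eq_zero.1 (smul_basis_eq_zero h0).1).symm⟩

theorem e4_pow (h : Ok V) {x y : B} (hxy : V.Equation x y) (n : ℕ) :
    XYIdeal V x (C y) ^ n * XYIdeal V x (C (-y)) ^ n =
      Ideal.span {CoordinateRing.mk V (C ((X - C x) ^ n))} := by
  rw [← mul_pow, mul_comm, xy_neg_mul h hxy, Ideal.span_singleton_pow, XClass, ← map_pow, ← map_pow]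

theorem e4_rep_norm [IsDomain B] (h : Ok V) {x y : B} (hxy : V.Equation x y) {n : ℕ}
    {f : V.CoordinateRing} (hf : Rep V n (some (x, y)) f) :
    Algebra.norm B[X] f = (X - C x) ^ n ∨ Algebra.norm B[X] f = -(X - C x) ^ n := by
  have h1 : Ideal.span {f} = XYIdeal V x (C y) ^ n := hf.id
  have h2 : Ideal.span {e4_tau h f} = XYIdeal V x (C (-y)) ^ n := by
    rw [← e4_tau_xy h, ← Ideal.map_pow, ← h1, Ideal.map_span, Set.image_singleton]
  have h3 := e4_pow h hxy n
  rw [← h1, ← h2, Ideal.span_singleton_mul_span_singleton, e4_mul_tau,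
    Ideal.span_singleton_eq_span_singleton] at h3
  have h4 : Associated (Algebra.norm B[X] f) ((X - C x) ^ n) :=
    associated_of_dvd_dvd (e4_dvd h3.dvd) (e4_dvd h3.symm.dvd)
  have hm : ((X - C x) ^ n : B[X]).Monic := (monic_X_sub_C x).pow n
  rcases hf.mon with h5 | h5
  · exact Or.inl (eq_of_monic_of_associated h5 hm h4)
  · exact Or.inr (neg_eq_iff_eq_neg.1 (eq_of_monic_of_associated h5 hm h4.neg_left))

end conj

theorem e4_alg {W : Affine A} (c : A) :
    CoordinateRing.map W (algebraMap A F) (algebraMap A _ c) =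
      CoordinateRing.mk _ (C (C (algebraMap A F c))) := by
  have e : algebraMap A W.CoordinateRing c = CoordinateRing.mk W (C (C c)) := rfl
  rw [e, map_mk, map_C, coe_mapRingHom, map_C]

theorem e4_den {W : Affine A} (r : (W.map (algebraMap A F)).CoordinateRing) :
    ∃ c : A, c ≠ 0 ∧ ∃ s, CoordinateRing.map W (algebraMap A F) s =
      CoordinateRing.map W (algebraMap A F) (algebraMap A _ c) * r := by
  obtain ⟨p, q, rfl⟩ := exists_smul_basis_eq r
  obtain ⟨b, hb, hp⟩ := IsLocalization.integerNormalization_spec (nonZeroDivisors A) p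
  obtain ⟨d, hd, hq⟩ := IsLocalization.integerNormalization_spec (nonZeroDivisors A) q
  refine ⟨b * d, mul_ne_zero (nonZeroDivisors.ne_zero hb) (nonZeroDivisors.ne_zero hd),
    (C d * IsLocalization.integerNormalization (nonZeroDivisors A) p) • 1 +
      (C b * IsLocalization.integerNormalization (nonZeroDivisors A) q) • CoordinateRing.mk W X, ?_⟩
  rw [e4_alg, mul_comm (CoordinateRing.mk _ _), smul_basis_mul_C, map_add, CoordinateRing.map_smul,
    CoordinateRing.map_smul, map_one, map_mk, map_X, Polynomial.map_mul, Polynomial.map_mul, hp, hq,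
    map_C, map_C, Algebra.smul_def b, Algebra.smul_def d, Polynomial.algebraMap_apply,
    Polynomial.algebraMap_apply, map_mul, map_mul]
  congr 2 <;> ring

theorem e4_ideal {W : Affine A} (K : Ideal W.CoordinateRing)
    {r : (W.map (algebraMap A F)).CoordinateRing}
    (hr : r ∈ K.map (CoordinateRing.map W (algebraMap A F))) :
    ∃ c : A, c ≠ 0 ∧ ∃ s ∈ K, CoordinateRing.map W (algebraMap A F) s =
      CoordinateRing.map W (algebraMap A F) (algebraMap A _ c) * r := by
  induction hr using Submodule.span_induction with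
  | mem _ hx =>
    obtain ⟨s, hs, rfl⟩ := hx
    exact ⟨1, one_ne_zero, s, hs, by simp⟩
  | zero => exact ⟨1, one_ne_zero, 0, K.zero_mem, by simp⟩
  | add x y _ _ hx hy =>
    obtain ⟨c, hc, s, hs, e⟩ := hx
    obtain ⟨d, hd, t, ht, e'⟩ := hy
    refine ⟨c * d, mul_ne_zero hc hd, algebraMap A _ d * s + algebraMap A _ c * t,
      K.add_mem (K.mul_mem_left _ hs) (K.mul_mem_left _ ht), ?_⟩
    simp only [map_add, map_mul, e, e']
    ring
  | smul a x _ hx =>
    obtain ⟨c, hc, s, hs, e⟩ := hx
    obtain ⟨d, hd, t, e'⟩ := e4_den a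
    refine ⟨c * d, mul_ne_zero hc hd, t * s, K.mul_mem_left _ hs, ?_⟩
    simp only [map_mul, e, e', smul_eq_mul]
    ring

/-- The case `none`: `f` is a unit constant, take `1`... more precisely the statement only asks
for some `g`.  The case of a point `(x, y)`: with the conjugation `τ : y ↦ -y`, `f τ(f)` is the norm
and generates `(X - x)^n` (`xy_neg_mul`), so the norm is `± (X - x)^n`; `int_of_norm` gives `g` over
`A` with image `f`; `c g ∈ I^n` for some `c ≠ 0` in `A` (clear denominators), so `g ∈ I^n`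
(`ii_sat`), `τ g ∈ J^n`; for `s ∈ I^n`, `s τ(g) ∈ (u^n) = (g τ(g))`, so `g ∣ s`. -/
theorem rep_int {W : Affine A} (h : Ok W) {n : ℕ} {o : Op A} (ho : On W o)
    {f : (W.map (algebraMap A F)).CoordinateRing}
    (hf : Rep (W.map (algebraMap A F)) n (omap (algebraMap A F) o) f) : ∃ g, Rep W n o g := by
  rcases o with _ | ⟨x, y⟩
  · exact ⟨1, rep_none W n⟩
  have hinj : Function.Injective (algebraMap A F) := IsFractionRing.injective A F
  have hxy : W.Equation x y := ho
  have h' := h.map (algebraMap A F)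
  have hN : ∃ N : A[X], (N = (X - C x) ^ n ∨ N = -(X - C x) ^ n) ∧
      Algebra.norm F[X] f = N.map (algebraMap A F) := by
    rcases e4_rep_norm h' (ho.map (algebraMap A F)) hf with e | e
    · exact ⟨_, Or.inl rfl, by rw [e]; simp⟩
    · exact ⟨_, Or.inr rfl, by rw [e]; simp⟩
  obtain ⟨N, hN, hfN⟩ := hN
  obtain ⟨p, q, rfl⟩ := exists_smul_basis_eq f
  have hcm : (e4_c W).Monic := by unfold e4_c; monicity!
  have hc3 : (e4_c W).natDegree = 3 := by unfold e4_c; compute_degree!
  have hc : e4_c (W.map (algebraMap A F)) = (e4_c W).map (algebraMap A F) := by simp [e4_c]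
  have hpq := hfN
  rw [e4_norm h', hc] at hpq
  obtain ⟨⟨p0, rfl⟩, q0, rfl⟩ := int_of_norm hcm hc3 hpq
  set g : W.CoordinateRing := p0 • 1 + q0 • CoordinateRing.mk W X with hg
  have hgf : mapRingHom (algebraMap A F) p0 • 1 +
      mapRingHom (algebraMap A F) q0 • CoordinateRing.mk (W.map (algebraMap A F)) X =
      CoordinateRing.map W (algebraMap A F) g := by
    rw [hg, map_add, CoordinateRing.map_smul, CoordinateRing.map_smul, map_one, map_mk, map_X]
    rfl
  rw [hgf] at hf hfN
  have hgN : Algebra.norm A[X] g = N :=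
    Polynomial.map_injective _ hinj (((cm_map W (algebraMap A F)).norm g).symm.trans hfN)
  have hm : ((X - C x) ^ n : A[X]).Monic := (monic_X_sub_C x).pow n
  have hgI : g ∈ XYIdeal W x (C y) ^ n := by
    have h1 := Ideal.mem_span_singleton_self (CoordinateRing.map W (algebraMap A F) g)
    rw [hf.id, ← (cm_map W (algebraMap A F)).ii, ← Ideal.map_pow] at h1
    obtain ⟨c, hc0, s, hs, e⟩ := e4_ideal _ h1
    rw [← map_mul] at e
    exact ii_sat h ho hc0 (CoordinateRing.map_injective hinj e ▸ hs)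
  have hgJ : e4_tau h g ∈ XYIdeal W x (C (-y)) ^ n := by
    rw [← e4_tau_xy h, ← Ideal.map_pow]
    exact Ideal.mem_map_of_mem _ hgI
  have hsp : Ideal.span {CoordinateRing.mk W (C ((X - C x) ^ n))} = Ideal.span {g * e4_tau h g} := by
    rw [e4_mul_tau, hgN]
    rcases hN with e | e
    · rw [e]
    · rw [e, map_neg, map_neg, Ideal.span_singleton_neg]
  have ht0 : e4_tau h g ≠ 0 := by
    intro e
    rw [e, mul_zero, Ideal.span_singleton_eq_span_singleton, associated_zero_iff_eq_zero, map_pow,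
      map_pow] at hsp
    exact XClass_ne_zero x (pow_eq_zero_iff'.1 hsp).1
  refine ⟨g, le_antisymm ((Ideal.span_singleton_le_iff_mem _).2 hgI) fun s hs => ?_, ?_⟩
  · have h1 := Ideal.mul_mem_mul hs hgJ
    rw [show II W (some (x, y)) = XYIdeal W x (C y) from rfl, e4_pow h hxy, hsp,
      Ideal.mem_span_singleton] at h1
    exact Ideal.mem_span_singleton.2 ((mul_dvd_mul_iff_right ht0).1 h1)
  · rw [Mon, hgN]
    rcases hN with e | e
    · exact Or.inl (e ▸ hm)
    · exact Or.inr (by rw [e, neg_neg]; exact hm)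

end

end Pool.Agent.Lib.MP_16ef92_ag.CV
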