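import Mathlib
import Pool.Agent.Lib.MP_16ef92_ag.CV.E2
import Pool.Agent.Lib.MP_16ef92_ag.CV.E3
import Pool.Agent.Lib.MP_796ce4_ag.Lang

set_option autoImplicit false
set_option linter.unusedSectionVars false
set_option linter.unusedVariables false

namespace Pool.Agent.Lib.MP_16ef92_ag.CV

open Polynomial WeierstrassCurve WeierstrassCurve.Affine WeierstrassCurve.Affine.CoordinateRing
open scoped Classical

noncomputable section

section ded

open scoped nonZeroDivisors

variable {R : Type} [CommRing R] [IsDedekindDomain R]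

/-- The class of an ideal (`1` for the zero ideal). -/
def e5_cl (I : Ideal R) : ClassGroup R :=
  if h : I = 0 then 1 else ClassGroup.mk0 ⟨I, mem_nonZeroDivisors_of_ne_zero h⟩

theorem e5_cl_eq {I : Ideal R} (h : I ≠ 0) :
    e5_cl I = ClassGroup.mk0 ⟨I, mem_nonZeroDivisors_of_ne_zero h⟩ := dif_neg h

theorem e5_cl_mul {I J : Ideal R} (hI : I ≠ 0) (hJ : J ≠ 0) :
    e5_cl (I * J) = e5_cl I * e5_cl J := by
  rw [e5_cl_eq hI, e5_cl_eq hJ, e5_cl_eq (mul_ne_zero hI hJ), ← map_mul]
  rfl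

theorem e5_cl_span (x : R) : e5_cl (Ideal.span {x}) = 1 := by
  by_cases h : Ideal.span {x} = 0
  · exact dif_pos h
  · rw [e5_cl_eq h, ClassGroup.mk0_eq_one_iff]
    exact ⟨x, rfl⟩

theorem e5_cl_one : e5_cl (1 : Ideal R) = 1 := by
  rw [Ideal.one_eq_top, ← Ideal.span_singleton_one]
  exact e5_cl_span 1

theorem e5_cl_pow {I : Ideal R} (hI : I ≠ 0) (k : ℕ) : e5_cl (I ^ k) = e5_cl I ^ k := by
  induction k with
  | zero => rw [pow_zero, pow_zero, e5_cl_one]
  | succ k ih => rw [pow_succ, pow_succ, e5_cl_mul (pow_ne_zero _ hI) hI, ih]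

theorem e5_cl_prod {ι : Type} (s : Finset ι) (I : ι → Ideal R) (hI : ∀ i, I i ≠ 0) :
    e5_cl (∏ i ∈ s, I i) = ∏ i ∈ s, e5_cl (I i) := by
  induction s using Finset.induction_on with
  | empty => simpa using e5_cl_one
  | insert a s ha ih =>
    rw [Finset.prod_insert ha, Finset.prod_insert ha,
      e5_cl_mul (hI a) (Finset.prod_ne_zero_iff.2 fun i _ => hI i), ih]

theorem e5_pow_inj {I J : Ideal R} {k : ℕ} (hk : k ≠ 0) (h : I ^ k = J ^ k) : I = J := by
  by_cases hI : I = 0
  · rw [hI, zero_pow hk] at h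
    rw [hI, (pow_eq_zero_iff hk).1 h.symm]
  have hJ : J ≠ 0 := fun e => hI ((pow_eq_zero_iff hk).1 (by rw [h, e, zero_pow hk]))
  have hI' : Associates.mk I ≠ 0 := Associates.mk_ne_zero.2 hI
  have hJ' : Associates.mk J ≠ 0 := Associates.mk_ne_zero.2 hJ
  rw [← associated_iff_eq, ← Associates.mk_eq_mk_iff_associated]
  refine Associates.eq_of_eq_counts hI' hJ' fun p hp => Nat.eq_of_mul_eq_mul_left
    (Nat.pos_of_ne_zero hk) ?_
  rw [← Associates.count_pow hI' hp, ← Associates.count_pow hJ' hp, ← Associates.mk_pow,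
    ← Associates.mk_pow, h]

/-- An element that is locally a unit times a `d`-th power generates a `d`-th power. -/
theorem e5_root {d : ℕ} {x : R} (hx : x ≠ 0)
    (h : ∀ q : Ideal R, q.IsPrime → ∃ s t u v : R, s ∉ q ∧ t ∉ q ∧ v ≠ 0 ∧
      x * t * v ^ d = s * u ^ d) : ∃ J : Ideal R, Ideal.span {x} = J ^ d := by
  have ne : ∀ {y : R}, y ≠ 0 → Associates.mk (Ideal.span {y}) ≠ 0 := fun hy =>
    Associates.mk_ne_zero.2 (by rwa [Ne, Ideal.zero_eq_bot, Ideal.span_singleton_eq_bot])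
  obtain ⟨b, hb⟩ := Associates.is_pow_of_dvd_count (ne hx) (k := d) fun p hp => by
    obtain ⟨q, rfl⟩ := Associates.mk_surjective p
    have hq : Irreducible q := Associates.irreducible_mk.1 hp
    obtain ⟨s, t, u, v, hs, ht, hv, e⟩ := h q (Ideal.isPrime_of_prime hq.prime)
    have hs0 : s ≠ 0 := fun e => hs (e ▸ q.zero_mem)
    have ht0 : t ≠ 0 := fun e => ht (e ▸ q.zero_mem)
    have z : ∀ {y : R}, y ∉ q →
        (Associates.mk q).count (Associates.mk (Ideal.span {y})).factors = 0 := fun {y} hy => by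
      by_contra hc
      have hy0 : y ≠ 0 := fun e => hy (e ▸ q.zero_mem)
      exact hy (Ideal.dvd_span_singleton.1
        ((Associates.count_ne_zero_iff_dvd (Associates.mk_ne_zero.1 (ne hy0)) hq).1 hc))
    rcases Nat.eq_zero_or_pos d with rfl | hd
    · have e1 : Ideal.span {x} * Ideal.span {t} = Ideal.span {s} := by
        rw [Ideal.span_singleton_mul_span_singleton]
        simpa using congrArg (fun y => Ideal.span {y}) e
      have e2 := congrArg (fun I => (Associates.mk q).count (Associates.mk I).factors) e1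
      simp only [← Associates.mk_mul_mk] at e2
      rw [Associates.count_mul (ne hx) (ne ht0) hp, z hs, z ht] at e2
      rw [add_zero] at e2
      rw [e2]
    have hu : u ≠ 0 := by
      rintro rfl
      rw [zero_pow hd.ne', mul_zero] at e
      exact mul_ne_zero (mul_ne_zero hx ht0) (pow_ne_zero _ hv) e
    have e1 : Ideal.span {x} * Ideal.span {t} * Ideal.span {v} ^ d =
        Ideal.span {s} * Ideal.span {u} ^ d := by
      simp only [Ideal.span_singleton_pow, Ideal.span_singleton_mul_span_singleton, e]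
    have e2 := congrArg (fun I => (Associates.mk q).count (Associates.mk I).factors) e1
    simp only [← Associates.mk_mul_mk, Associates.mk_pow] at e2
    rw [Associates.count_mul (mul_ne_zero (ne hx) (ne ht0)) (pow_ne_zero _ (ne hv)) hp,
      Associates.count_mul (ne hx) (ne ht0) hp,
      Associates.count_mul (ne hs0) (pow_ne_zero _ (ne hu)) hp, Associates.count_pow (ne hv) hp,
      Associates.count_pow (ne hu) hp, z hs, z ht, add_zero, zero_add] at e2
    exact (Nat.dvd_add_left (dvd_mul_right _ _)).1 (e2 ▸ dvd_mul_right _ _)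
  obtain ⟨J, rfl⟩ := Associates.mk_surjective b
  exact ⟨J, by rwa [← Associates.mk_pow, Associates.mk_eq_mk_iff_associated,
    associated_iff_eq] at hb⟩

end ded

variable {K L : Type} [Field K] {W : Affine K} [Field L] [Algebra W.CoordinateRing L]
  [IsFractionRing W.CoordinateRing L] {n : ℕ}

theorem e5_pt [IsDedekindDomain W.CoordinateRing] (P : W.Point) :
    II W (pt P) ≠ 0 ∧ e5_cl (II W (pt P)) = Additive.toMul (Point.toClass P) := by
  cases P with
  | zero =>
    refine ⟨?_, ?_⟩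
    · change (⊤ : Ideal W.CoordinateRing) ≠ 0
      exact top_ne_bot
    · change e5_cl (⊤ : Ideal W.CoordinateRing) = 1
      rw [← Ideal.one_eq_top, e5_cl_one]
  | some x y h =>
    have h0 : XYIdeal W x (C y) ≠ 0 := by
      intro e
      have h1 := XYIdeal'_eq (W := W) h
      rw [e] at h1
      exact (XYIdeal' (W := W) h).ne_zero (by simpa using h1)
    refine ⟨h0, ?_⟩
    change e5_cl (XYIdeal W x (C y)) = ClassGroup.mk W.FunctionField (XYIdeal' (W := W) h)
    rw [e5_cl_eq h0, ← ClassGroup.mk_mk0 (K := W.FunctionField)]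
    congr 1
    exact Units.ext (by rw [XYIdeal'_eq, FractionalIdeal.coe_mk0])

theorem e5_surj [IsAlgClosed K] [IsDedekindDomain W.CoordinateRing] (h : Ok W)
    (J : Ideal W.CoordinateRing) :
    J ≠ 0 → ∃ P : W.Point, e5_cl J = Additive.toMul (Point.toClass P) := by
  refine UniqueFactorizationMonoid.induction_on_prime J (fun h => (h rfl).elim) ?_ ?_
  · intro x hx _
    refine ⟨0, ?_⟩
    rw [Ideal.isUnit_iff.1 hx, ← Ideal.one_eq_top, e5_cl_one, map_zero, toMul_zero]
  · intro a p ha hp ih _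
    obtain ⟨P, hP⟩ := ih ha
    haveI := Ideal.isPrime_of_prime hp
    obtain ⟨Q, hQ⟩ := h.max p hp.ne_zero
    refine ⟨Q + P, ?_⟩
    rw [e5_cl_mul hp.ne_zero ha, hP, hQ, (e5_pt Q).2, map_add, toMul_add]

theorem e5_div [IsAlgClosed K] (h : Ok W) {e : ℕ} (he : e ≠ 0) (P : W.Point) :
    ∃ Q : W.Point, e • Q = P := by
  have key : ∀ W' : Affine K, W' = W → (∀ P : W'.Point, ∃ Q : W'.Point, e • Q = P) →
      ∀ P : W.Point, ∃ Q : W.Point, e • Q = P := by
    rintro _ rfl H
    exact H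
  exact key (Affine.baseChange W K) (map_id W)
    (MP_796ce4_ag.nsmul_surj (E := W) (k := K) h.a1 h.a3 h.disc.ne_zero he) P

/-- In the group of fractional ideals of the Dedekind domain (`Ok.crv`), which is torsion free,
`∏ I_i ^ a i = (z)`; so `toClass (∑ a i • P i) = 0`; `toClass_injective`. -/
theorem rep_ind (h : Ok W) (hn : n ≠ 0) {ι : Type} [Fintype ι] (P : ι → W.Point)
    (f : ι → W.CoordinateRing) (hf : ∀ i, Rep W n (pt (P i)) (f i)) (a : ι → ℕ) {z : L}
    (hz : ∏ i, algebraMap _ L (f i) ^ a i = z ^ n) : ∑ i, a i • P i = 0 := by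
  haveI := h.crv.ded
  obtain ⟨u, v, hv, rfl⟩ := IsFractionRing.div_surjective (A := W.CoordinateRing) z
  have hv0 : v ≠ 0 := nonZeroDivisors.ne_zero hv
  have hv1 : algebraMap _ L v ≠ 0 := by
    rwa [Ne, FaithfulSMul.algebraMap_eq_zero_iff]
  have e1 : (∏ i, f i ^ a i) * v ^ n = u ^ n := by
    apply FaithfulSMul.algebraMap_injective W.CoordinateRing L
    simp only [map_mul, map_pow, map_prod]
    rw [hz, div_pow, div_mul_cancel₀ _ (pow_ne_zero _ hv1)]
  have e2 : ((∏ i, II W (pt (P i)) ^ a i) * Ideal.span {v}) ^ n = Ideal.span {u} ^ n := by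
    rw [mul_pow, Ideal.span_singleton_pow, Ideal.span_singleton_pow, ← e1,
      ← Ideal.span_singleton_mul_span_singleton, ← Ideal.prod_span_singleton,
      ← Finset.prod_pow]
    congr 1
    refine Finset.prod_congr rfl fun i _ => ?_
    rw [← Ideal.span_singleton_pow, (hf i).id, ← pow_mul, ← pow_mul, mul_comm]
  have hne : ∀ i, II W (pt (P i)) ^ a i ≠ 0 := fun i => pow_ne_zero _ (e5_pt _).1
  have e3 := congrArg e5_cl (e5_pow_inj hn e2)
  rw [e5_cl_mul (Finset.prod_ne_zero_iff.2 fun i _ => hne i)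
    (by rwa [Ne, Ideal.zero_eq_bot, Ideal.span_singleton_eq_bot]), e5_cl_span, e5_cl_span, mul_one,
    e5_cl_prod _ _ hne] at e3
  rw [← Point.toClass_eq_zero, map_sum]
  apply Additive.toMul.injective
  rw [toMul_sum, toMul_zero, ← e3]
  refine Finset.prod_congr rfl fun i _ => ?_
  rw [map_nsmul, toMul_nsmul, e5_cl_pow (e5_pt _).1, (e5_pt _).2]

/-- All exponents of `f` are multiples of `d`, so `(f) = J^d`; every prime is the ideal of a point
(`Ok.max`), so the class of `J` is `toClass P₀`, with `d • P₀ = 0`.  Take `P` with `e • P = P₀`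
(`MP_796ce4_ag.nsmul_surj`).  Then `(g) = (I_P^e)^d` and `J = (z₀) I_P^e`, so `f / (g z₀^d)` is a
unit, a constant (`unit_const`), a `d`-th power. -/
theorem rep_pw [IsAlgClosed K] (h : Ok W) {d e : ℕ} (hd : d ≠ 0) (he : e ≠ 0) {f : L}
    (hf : ∀ q : Ideal W.CoordinateRing, q.IsPrime → Pw q d f) :
    ∃ P : W.Point, (d * e) • P = 0 ∧ ∀ g, Rep W (d * e) (pt P) g →
      ∃ z : L, z ≠ 0 ∧ f = algebraMap _ L g * z ^ d := by
  haveI := h.crv.ded
  have inj := FaithfulSMul.algebraMap_injective W.CoordinateRing L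
  have nz : ∀ {y : W.CoordinateRing}, y ≠ 0 → algebraMap _ L y ≠ 0 := fun hy => by
    rwa [Ne, FaithfulSMul.algebraMap_eq_zero_iff]
  have hf0 : f ≠ 0 := by
    haveI : (⊥ : Ideal W.CoordinateRing).IsPrime := Ideal.isPrime_bot
    exact (hf ⊥ this).ne_zero
  obtain ⟨a, b, hb, hab⟩ := IsFractionRing.div_surjective (A := W.CoordinateRing) f
  have hb0 : b ≠ 0 := nonZeroDivisors.ne_zero hb
  obtain ⟨d', rfl⟩ := Nat.exists_eq_succ_of_ne_zero hd
  have hx : algebraMap _ L (a * b ^ d') = f * algebraMap _ L b ^ (d' + 1) := by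
    rw [← hab, map_mul, map_pow, pow_succ', ← mul_assoc, div_mul_cancel₀ _ (nz hb0)]
  have hx0 : a * b ^ d' ≠ 0 := fun e0 => by
    rw [e0, map_zero] at hx
    exact mul_ne_zero hf0 (pow_ne_zero _ (nz hb0)) hx.symm
  obtain ⟨J, hJ⟩ := e5_root (d := d' + 1) hx0 fun q hq => by
    obtain ⟨z, hz, s, t, hs, ht, e1⟩ := hf q hq
    obtain ⟨u, v, hv, rfl⟩ := IsFractionRing.div_surjective (A := W.CoordinateRing) z
    have hv0 : v ≠ 0 := nonZeroDivisors.ne_zero hv
    have hu : algebraMap _ L u ≠ 0 := fun e0 => hz (by rw [e0, zero_div])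
    refine ⟨s, t, u * b, v, hs, ht, hv0, inj ?_⟩
    have := nz hv0
    rw [map_mul, map_mul, hx, map_mul, ← e1]
    simp only [map_mul, map_pow, Nat.succ_eq_add_one, div_pow, mul_pow]
    field_simp
  have hJ0 : J ≠ 0 := fun e0 => hx0 (by
    rwa [e0, zero_pow hd, Ideal.zero_eq_bot, Ideal.span_singleton_eq_bot] at hJ)
  obtain ⟨P₀, hP₀⟩ := e5_surj h J hJ0
  obtain ⟨P, rfl⟩ := e5_div h he P₀
  refine ⟨P, ?_, fun g hg => ?_⟩
  · rw [mul_nsmul', ← Point.toClass_eq_zero]
    apply Additive.toMul.injective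
    rw [map_nsmul, toMul_nsmul, ← hP₀, ← e5_cl_pow hJ0, ← hJ, e5_cl_span, toMul_zero]
  have hI : II W (pt P) ^ e ≠ 0 := pow_ne_zero _ (e5_pt P).1
  have e1 : e5_cl (II W (pt P) ^ e) = e5_cl J := by
    rw [hP₀, e5_cl_pow (e5_pt P).1, (e5_pt P).2, map_nsmul, toMul_nsmul]
  rw [e5_cl_eq hI, e5_cl_eq hJ0, ClassGroup.mk0_eq_mk0_iff] at e1
  obtain ⟨x, y, hx', hy', e1⟩ := e1
  have e2 : Ideal.span {x ^ (d' + 1) * g} = Ideal.span {y ^ (d' + 1) * (a * b ^ d')} := by
    rw [← Ideal.span_singleton_mul_span_singleton, ← Ideal.span_singleton_mul_span_singleton, hJ,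
      hg.id, ← Ideal.span_singleton_pow, ← Ideal.span_singleton_pow, mul_comm d'.succ e, pow_mul,
      ← mul_pow, ← mul_pow]
    exact congrArg (· ^ (d' + 1)) e1
  obtain ⟨w, hw⟩ := Ideal.span_singleton_eq_span_singleton.1 e2
  obtain ⟨c, hc⟩ := unit_const w.isUnit
  obtain ⟨r, rfl⟩ := IsAlgClosed.exists_pow_nat_eq c (Nat.succ_pos d')
  have hr : algebraMap K W.CoordinateRing r ≠ 0 := fun e0 => w.ne_zero (by
    rw [hc, map_pow, e0, zero_pow hd])
  have h1 := nz hx'
  have h2 := nz hy'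
  have h3 := nz hb0
  have h4 := nz hr
  refine ⟨algebraMap _ L x * algebraMap _ L (algebraMap K W.CoordinateRing r) /
    (algebraMap _ L y * algebraMap _ L b), div_ne_zero (mul_ne_zero h1 h4) (mul_ne_zero h2 h3), ?_⟩
  have e3 := congrArg (algebraMap _ L) hw
  rw [hc, map_mul, map_mul, map_mul, hx] at e3
  simp only [map_pow, Nat.succ_eq_add_one] at e3
  rw [Nat.succ_eq_add_one, div_pow, mul_pow, mul_pow, ← mul_div_assoc,
    eq_div_iff (mul_ne_zero (pow_ne_zero _ h2) (pow_ne_zero _ h3))]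
  linear_combination -e3

end

end Pool.Agent.Lib.MP_16ef92_ag.CV
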