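import Mathlib
import Pool.Agent.Lib.MP_16ef92_ag.CV.E2
import Pool.Agent.Lib.MP_16ef92_ag.CV.E3
import Pool.Agent.Lib.MP_16ef92_ag.CV.E4
import Pool.Agent.Lib.MP_16ef92_ag.CV.E5
import Pool.Agent.Lib.MP_16ef92_ag.AL.ETor

set_option autoImplicit false
set_option linter.unusedSectionVars false
set_option linter.unusedVariables false
set_option linter.style.haveILetI false

namespace Pool.Agent.Lib.MP_16ef92_ag.CV

open Polynomial WeierstrassCurve WeierstrassCurve.Affine WeierstrassCurve.Affine.CoordinateRing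

noncomputable section

section Fld

variable {K L : Type} [Field K] [Field L] [DecidableEq K] [DecidableEq L] {W : Affine K}
  {W' : Affine L} {n : ℕ}

theorem Ok.sh (h : Ok W) : AL.EC.Sh W := ⟨h.a1, h.a3, h.disc.ne_zero⟩

/-- `AL.EC.exists_isMap`. -/
theorem exists_pmap (h : Ok W) (σ : K →+* L) (hW : W.map σ = W') :
    ∃ φ : W.Point →+ W'.Point, ∀ P, pt (φ P) = omap σ (pt P) := by
  obtain ⟨φ, hφ⟩ := AL.EC.exists_isMap h.sh σ hW.symm
  refine ⟨φ, fun P => ?_⟩
  rcases P with _ | ⟨x, y, hxy⟩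
  · exact congrArg pt (map_zero φ)
  · have h0 := hφ.ne (.some x y hxy) (by simp)
    have h1 := hφ.x (.some x y hxy)
    have h2 := hφ.y (.some x y hxy)
    generalize φ (.some x y hxy) = Q at h0 h1 h2
    rcases Q with _ | ⟨x', y', h'⟩
    · exact absurd rfl h0
    · exact congrArg some (Prod.ext h1 h2)

/-- `equation_iff_nonsingular_of_Δ_ne_zero`. -/
theorem exists_pt (h : Ok W) {o : Op K} (ho : On W o) : ∃ P : W.Point, pt P = o := by
  cases o with
  | none => exact ⟨0, rfl⟩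
  | some v =>
    exact ⟨.some v.1 v.2 ((equation_iff_nonsingular_of_Δ_ne_zero h.disc.ne_zero).1 ho), rfl⟩

/-- `rep_ind` with one point, `a = n`, `z = f`. -/
theorem Rep.tors (h : Ok W) (hn : n ≠ 0) {P : W.Point} {f : W.CoordinateRing}
    (hf : Rep W n (pt P) f) : n • P = 0 := by
  have h1 := rep_ind (L := W.FunctionField) h hn (fun _ : Unit => P) (fun _ => f) (fun _ => hf)
    (fun _ => n) (z := algebraMap _ _ f) (by simp)
  obtain rfl : ‹DecidableEq K› = fun a b => Classical.propDecidable (a = b) :=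
    Subsingleton.elim _ _
  classical
  rwa [Fintype.sum_unique] at h1

/-- Counting: `(a₀, a₁) ↦ a₀ P₀ + a₁ P₁` is injective on `Fin n × Fin n`;
`AL.EC.card_tors_sep`. -/
theorem basis_gen [IsSepClosed K] (h : Ok W) (hn : (n : K) ≠ 0) {P₀ P₁ : W.Point}
    (h0 : n • P₀ = 0) (h1 : n • P₁ = 0)
    (hi : ∀ a₀ a₁ : ℕ, a₀ • P₀ + a₁ • P₁ = 0 → n ∣ a₀ ∧ n ∣ a₁) {P : W.Point} (hP : n • P = 0) :
    ∃ a₀ a₁ : ℕ, P = a₀ • P₀ + a₁ • P₁ := by
  have hn0 : n ≠ 0 := fun e => hn (by rw [e, Nat.cast_zero])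
  have hc := AL.EC.card_tors_sep h.sh hn
  have : Finite {P : W.Point // n • P = 0} :=
    Nat.finite_of_card_ne_zero (hc ▸ pow_ne_zero 2 hn0)
  let g : Fin n × Fin n → {P : W.Point // n • P = 0} := fun a =>
    ⟨(a.1 : ℕ) • P₀ + (a.2 : ℕ) • P₁, by
      rw [nsmul_add, smul_comm n, h0, smul_comm n, h1, nsmul_zero, nsmul_zero, add_zero]⟩
  have k : ∀ {Q : W.Point} {a b : Fin n}, n • Q = 0 →
      ((a : ℕ) + (n - b)) • Q = (a : ℕ) • Q - (b : ℕ) • Q := fun {Q a b} hQ => by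
    rw [eq_sub_iff_add_eq, ← add_nsmul, add_assoc, Nat.sub_add_cancel b.2.le, add_nsmul, hQ,
      add_zero]
  have k' : ∀ {a b : Fin n}, n ∣ (a : ℕ) + (n - b) → a = b := fun {a b} ⟨c, e⟩ => by
    have h2 := a.2
    have h3 := b.2
    obtain rfl : c = 1 := by
      rcases c with _ | _ | c
      · omega
      · rfl
      · rw [mul_add, mul_add] at e
        omega
    exact Fin.ext (by omega)
  have hg : Function.Injective g := fun a b e => by
    have e' : (a.1 : ℕ) • P₀ + (a.2 : ℕ) • P₁ = (b.1 : ℕ) • P₀ + (b.2 : ℕ) • P₁ :=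
      congrArg Subtype.val e
    obtain ⟨d0, d1⟩ := hi (a.1 + (n - b.1)) (a.2 + (n - b.2)) (by
      rw [k h0, k h1, sub_add_sub_comm, e', sub_self])
    exact Prod.ext (k' d0) (k' d1)
  obtain ⟨a, ha⟩ := (hg.bijective_of_nat_card_le (by simp [hc, sq])).2 ⟨P, hP⟩
  exact ⟨_, _, (congrArg Subtype.val ha).symm⟩

end Fld

variable {A A' L : Type} [CommRing A] [CommRing A'] [Field L] [DecidableEq L] {W : Affine A}
  {W' : Affine L} {ι : A →+* L} {n : ℕ}

theorem on_of (hι : Function.Injective ι) (hW : W.map ι = W') {o : Op A} {P : W'.Point}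
    (h : omap ι o = pt P) : On W o := by
  subst hW
  have h1 := on_pt P
  rw [← h] at h1
  cases o with
  | none => trivial
  | some v => exact (map_equation W hι v.1 v.2).1 h1

/-- `map_injective`, `CM.unique`. -/
theorem CM.inj {W₂ : Affine A'} {φ : A →+* A'} {ψ : W.CoordinateRing →+* W₂.CoordinateRing}
    (h : CM W W₂ φ ψ) (hφ : Function.Injective φ) : Function.Injective ψ := by
  obtain ⟨rfl, rfl⟩ := h.unique
  exact CoordinateRing.map_injective hφ

theorem CM.alg {W₂ : Affine A'} {φ : A →+* A'} {ψ : W.CoordinateRing →+* W₂.CoordinateRing}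
    (h : CM W W₂ φ ψ) (a : A) : ψ (algebraMap A _ a) = algebraMap A' _ (φ a) := by
  have h1 := h.app (C (C a))
  rw [Polynomial.map_C, coe_mapRingHom, Polynomial.map_C] at h1
  exact h1

theorem four_of {k : Type} [Field k] [IsAlgClosed k] [IsDomain A] (κ : k →+* A) (hn : n ≠ 0)
    (c : A) (hc : c ^ 4 = 1) : ∃ z : A, z ^ n = c := by
  obtain ⟨i, hi⟩ := IsAlgClosed.exists_pow_nat_eq (-1 : k) two_pos
  have h1 : κ i ^ 2 = -1 := by rw [← map_pow, hi, map_neg, map_one]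
  have h2 : (c - κ 1) * ((c - κ (-1)) * ((c - κ i) * (c - κ (-i)))) = 0 := by
    simp only [map_neg, map_one]
    linear_combination hc - (c ^ 2 - 1) * h1
  obtain ⟨u, rfl⟩ : ∃ u, c = κ u := by
    simp only [mul_eq_zero, sub_eq_zero] at h2
    rcases h2 with e | e | e | e <;> exact ⟨_, e⟩
  obtain ⟨z, rfl⟩ := IsAlgClosed.exists_pow_nat_eq u (Nat.pos_of_ne_zero hn)
  exact ⟨κ z, (map_pow κ z n).symm⟩

variable [IsDomain A] [IsIntegrallyClosed A]

section e6b

open scoped Classical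

variable (F : Type) [Field F] [Algebra A F] [IsFractionRing A F]

include F

theorem e6b_lift (h : Ok W) (hι : Function.Injective ι) (hW : W.map ι = W') :
    ∃ φ : (W.map (algebraMap A F)).Point →+ W'.Point, Function.Injective φ ∧
      ∀ (o : Op A) (P : W'.Point), omap ι o = pt P →
        ∃ P₀, φ P₀ = P ∧ pt P₀ = omap (algebraMap A F) o := by
  let j : F →+* L := IsFractionRing.lift hι
  have hj : j.comp (algebraMap A F) = ι := RingHom.ext fun a => IsFractionRing.lift_algebraMap hι a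
  have hW' : (W.map (algebraMap A F)).map j = W' := by
    rw [← hW, ← hj]
    exact WeierstrassCurve.map_map W _ _
  obtain ⟨φ, hφ⟩ := exists_pmap (h.map (algebraMap A F)) j hW'
  refine ⟨φ, fun P Q e => pt_inj ?_, fun o P ho => ?_⟩
  · have e2 : omap j (pt P) = omap j (pt Q) := by rw [← hφ, ← hφ, e]
    exact Option.map_injective (j.injective.prodMap j.injective) e2
  · obtain ⟨P₀, hP₀⟩ := exists_pt (h.map (algebraMap A F))
      ((on_of hι hW ho).map (algebraMap A F))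
    refine ⟨P₀, pt_inj ?_, hP₀⟩
    rw [hφ, hP₀, ← ho, ← hj]
    cases o <;> rfl

theorem e6b_four (h4 : ∀ c : A, c ^ 4 = 1 → ∃ z : A, z ^ n = c) {c : F} (hc : c ^ 4 = 1) :
    ∃ z : A, algebraMap A F z ^ n = c := by
  have hi : IsIntegral A c := IsIntegral.of_pow (n := 4) (by norm_num) (hc ▸ isIntegral_one)
  obtain ⟨c₀, rfl⟩ := IsIntegrallyClosed.isIntegral_iff.1 hi
  obtain ⟨z, hz⟩ := h4 c₀ (IsFractionRing.injective A F (by rw [map_pow, hc, map_one]))
  exact ⟨z, by rw [← map_pow, hz]⟩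

theorem e6b_ex (h : Ok W) (hι : Function.Injective ι) (hW : W.map ι = W') {o : Op A}
    {P : W'.Point} (ho : omap ι o = pt P) (hP : n • P = 0) : ∃ f, Rep W n o f := by
  obtain ⟨φ, hφ, H⟩ := e6b_lift F h hι hW
  obtain ⟨P₀, rfl, e⟩ := H o P ho
  have h0 : n • P₀ = 0 := hφ (by rw [map_nsmul, hP, map_zero])
  obtain ⟨f, hf⟩ := rep_ex (h.map (algebraMap A F)) h0
  rw [e] at hf
  exact rep_int h (on_of hι hW ho) hf

theorem e6b_add (h : Ok W) (hι : Function.Injective ι) (hW : W.map ι = W')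
    (h4 : ∀ c : A, c ^ 4 = 1 → ∃ z : A, z ^ n = c) {o₁ o₂ o₃ : Op A} {P Q : W'.Point}
    (h1 : omap ι o₁ = pt P) (h2 : omap ι o₂ = pt Q) (h3 : omap ι o₃ = pt (P + Q))
    {f g k : W.CoordinateRing} (hf : Rep W n o₁ f) (hg : Rep W n o₂ g) (hk : Rep W n o₃ k) :
    ∃ a b : W.CoordinateRing, a ≠ 0 ∧ a ^ n * (f * g) = b ^ n * k := by
  obtain ⟨φ, hφ, H⟩ := e6b_lift F h hι hW
  obtain ⟨P₀, rfl, e1⟩ := H o₁ P h1
  obtain ⟨Q₀, rfl, e2⟩ := H o₂ Q h2
  obtain ⟨R₀, hR, e3⟩ := H o₃ _ h3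
  obtain rfl : R₀ = P₀ + Q₀ := hφ (by rw [hR, map_add])
  have cm := cm_map W (algebraMap A F)
  have hi := cm.inj (IsFractionRing.injective A F)
  have hf' := hf.map cm
  have hg' := hg.map cm
  have hk' := hk.map cm
  rw [← e1] at hf'
  rw [← e2] at hg'
  rw [← e3] at hk'
  obtain ⟨a, b, c, ha, -, hc, e⟩ := rep_add (h.map (algebraMap A F)) hf' hg' hk'
  obtain ⟨z, rfl⟩ := e6b_four F h4 hc
  obtain ⟨c₁, hc₁, s₁, hs₁⟩ := e4_den a
  obtain ⟨c₂, hc₂, s₂, hs₂⟩ := e4_den b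
  have nz : ∀ {d : A}, d ≠ 0 →
      CoordinateRing.map W (algebraMap A F) (algebraMap A _ d) ≠ 0 := fun {d} hd => by
    rw [cm.alg]
    exact (e3_unit ((map_ne_zero_iff _ (IsFractionRing.injective A F)).2 hd)).ne_zero
  refine ⟨algebraMap A _ c₂ * s₁, algebraMap A _ z * algebraMap A _ c₁ * s₂, fun h0 => ?_, hi ?_⟩
  · have h5 := congrArg (CoordinateRing.map W (algebraMap A F)) h0
    rw [map_mul, hs₁, map_zero] at h5
    exact mul_ne_zero (nz hc₂) (mul_ne_zero (nz hc₁) ha) h5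
  · rw [map_pow, ← cm.alg] at e
    simp only [map_mul, map_pow, hs₁, hs₂, mul_pow]
    linear_combination (CoordinateRing.map W (algebraMap A F) (algebraMap A _ c₁)) ^ n *
      (CoordinateRing.map W (algebraMap A F) (algebraMap A _ c₂)) ^ n * e

theorem e6b_uniq (h4 : ∀ c : A, c ^ 4 = 1 → ∃ z : A, z ^ n = c) {o : Op A}
    {f g : W.CoordinateRing} (hf : Rep W n o f) (hg : Rep W n o g) :
    ∃ z : W.CoordinateRing, f = z ^ n * g := by
  have cm := cm_map W (algebraMap A F)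
  obtain ⟨c, hc, e⟩ := rep_uniq (hf.map cm) (hg.map cm)
  obtain ⟨z, rfl⟩ := e6b_four F h4 hc
  refine ⟨algebraMap A _ z, cm.inj (IsFractionRing.injective A F) ?_⟩
  rw [e, map_mul, map_pow, map_pow, cm.alg]

end e6b

/-- Let `F` be the fraction field of `A`; `ι` extends to `F`; the point comes from a point over `F`
(`on_of`, `On.map`, `exists_pt`, `exists_pmap`, `pt_inj`); `rep_ex`, `rep_int`. -/
theorem rep_ex_int (h : Ok W) (hι : Function.Injective ι) (hW : W.map ι = W') {o : Op A}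
    {P : W'.Point} (ho : omap ι o = pt P) (hP : n • P = 0) : ∃ f, Rep W n o f :=
  e6b_ex (FractionRing A) h hι hW ho hP

/-- `rep_add` over `F`; `c` lies in `A` (normal); clear the denominators of `a` and `b`;
`CM.inj`. -/
theorem rep_add_int (h : Ok W) (hι : Function.Injective ι) (hW : W.map ι = W')
    (h4 : ∀ c : A, c ^ 4 = 1 → ∃ z : A, z ^ n = c) {o₁ o₂ o₃ : Op A} {P Q : W'.Point}
    (h1 : omap ι o₁ = pt P) (h2 : omap ι o₂ = pt Q) (h3 : omap ι o₃ = pt (P + Q))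
    {f g k : W.CoordinateRing} (hf : Rep W n o₁ f) (hg : Rep W n o₂ g) (hk : Rep W n o₃ k) :
    ∃ a b : W.CoordinateRing, a ≠ 0 ∧ a ^ n * (f * g) = b ^ n * k :=
  e6b_add (FractionRing A) h hι hW h4 h1 h2 h3 hf hg hk

/-- `rep_uniq` over `F`. -/
theorem rep_uniq_int (h4 : ∀ c : A, c ^ 4 = 1 → ∃ z : A, z ^ n = c) {o : Op A}
    {f g : W.CoordinateRing} (hf : Rep W n o f) (hg : Rep W n o g) :
    ∃ z : W.CoordinateRing, f = z ^ n * g :=
  e6b_uniq (FractionRing A) h4 hf hg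

end

end Pool.Agent.Lib.MP_16ef92_ag.CV
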