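import Mathlib
import Pool.Agent.Lib.MP_16ef92_ag.CV.E2
import Pool.Agent.Lib.MP_16ef92_ag.FA.PO

set_option autoImplicit false
set_option linter.unusedSectionVars false
set_option linter.unusedVariables false
set_option linter.style.haveILetI false

namespace Pool.Agent.Lib.MP_16ef92_ag.CV

open Polynomial WeierstrassCurve WeierstrassCurve.Affine WeierstrassCurve.Affine.CoordinateRing

noncomputable section

variable {A A' : Type} [CommRing A] [CommRing A'] {W : Affine A}

theorem e7a_alg (W : Affine A) (a : A) :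
    algebraMap A W.CoordinateRing a = CoordinateRing.mk W (C (C a)) := rfl

theorem e7a_eval (W : Affine A) {Z : Type} [CommRing Z] (w : W.CoordinateRing →+* Z)
    (p : A[X][X]) : w (CoordinateRing.mk W p) =
      (p.map (mapRingHom (w.comp (algebraMap A _)))).evalEval (w (CoordinateRing.mk W (C X)))
        (w (CoordinateRing.mk W X)) := by
  rw [← eval₂_eval₂RingHom_apply]
  have h : w.comp (CoordinateRing.mk W) = eval₂RingHom (eval₂RingHom (w.comp (algebraMap A _))
      (w (CoordinateRing.mk W (C X)))) (w (CoordinateRing.mk W X)) := by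
    refine ringHom_ext' (ringHom_ext' (RingHom.ext fun a => ?_) ?_) ?_
    · simp [e7a_alg]
    · simp
    · simp
  exact RingHom.congr_fun h p

/-- Free over `A[X]` (`CoordinateRing.basis`), which is free over `A`. -/
theorem coord_flat (W : Affine A) : (algebraMap A W.CoordinateRing).Flat := by
  have h1 : Module.Free A[X] W.CoordinateRing := .of_basis (CoordinateRing.basis W)
  exact RingHom.flat_algebraMap_iff.2 (Module.Flat.trans A A[X] W.CoordinateRing)

theorem coord_fp (W : Affine A) : (algebraMap A W.CoordinateRing).FinitePresentation :=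
  RingHom.finitePresentation_algebraMap.2
    (Algebra.FinitePresentation.trans A A[X] W.CoordinateRing)

/-- Points of the coordinate ring: `AdjoinRoot.lift` (or `evalEval`). -/
theorem coord_lift (W : Affine A) {Z : Type} [CommRing Z] (u : A →+* Z) (x y : Z)
    (h : (W.map u).Equation x y) : ∃ w : W.CoordinateRing →+* Z,
      w.comp (algebraMap A _) = u ∧ w (CoordinateRing.mk W (C X)) = x ∧
        w (CoordinateRing.mk W X) = y := by
  have h1 : W.polynomial.eval₂ (eval₂RingHom u x) y = 0 := by
    rw [eval₂_eval₂RingHom_apply, ← map_polynomial]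
    exact h
  refine ⟨AdjoinRoot.lift _ y h1, RingHom.ext fun a => ?_, ?_, ?_⟩
  · rw [RingHom.comp_apply, e7a_alg, AdjoinRoot.lift_mk]
    simp
  · rw [AdjoinRoot.lift_mk]
    simp
  · rw [AdjoinRoot.lift_mk]
    simp

theorem coord_ext (W : Affine A) {Z : Type} [CommRing Z] {w w' : W.CoordinateRing →+* Z}
    (h : w.comp (algebraMap A _) = w'.comp (algebraMap A _))
    (hx : w (CoordinateRing.mk W (C X)) = w' (CoordinateRing.mk W (C X)))
    (hy : w (CoordinateRing.mk W X) = w' (CoordinateRing.mk W X)) : w = w' := by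
  refine RingHom.ext fun s => ?_
  obtain ⟨p, rfl⟩ := AdjoinRoot.mk_surjective s
  exact (e7a_eval W w p).trans (by rw [h, hx, hy]; exact (e7a_eval W w' p).symm)

theorem coord_eq (W : Affine A) {Z : Type} [CommRing Z] (w : W.CoordinateRing →+* Z) :
    (W.map (w.comp (algebraMap A _))).Equation (w (CoordinateRing.mk W (C X)))
      (w (CoordinateRing.mk W X)) := by
  have h := e7a_eval W w W.polynomial
  rw [← map_polynomial, AdjoinRoot.mk_self, map_zero] at h
  exact h.symm

/-- Base change of coordinate rings. -/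
theorem coord_po {W' : Affine A'} {φ : A →+* A'} {ψ : W.CoordinateRing →+* W'.CoordinateRing}
    (h : CM W W' φ ψ) : FA.PO (algebraMap A W.CoordinateRing) φ ψ
      (algebraMap A' W'.CoordinateRing) := by
  obtain ⟨rfl, h⟩ := h
  have hx : ψ (CoordinateRing.mk W (C X)) = CoordinateRing.mk (W.map φ) (C X) := by
    rw [h]
    simp
  have hy : ψ (CoordinateRing.mk W X) = CoordinateRing.mk (W.map φ) X := by
    rw [h]
    simp
  have hc : ψ.comp (algebraMap A W.CoordinateRing) =
      (algebraMap A' (W.map φ).CoordinateRing).comp φ := RingHom.ext fun a => by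
    rw [RingHom.comp_apply, e7a_alg, h, RingHom.comp_apply, e7a_alg]
    simp
  refine ⟨hc, fun Z _ u v e => ?_, fun Z _ w w' h1 h2 => coord_ext _ h2 ?_ ?_⟩
  · have h1 := coord_eq W u
    rw [e] at h1
    obtain ⟨w, w1, w2, w3⟩ := coord_lift (W.map φ) v _ _ h1
    refine ⟨w, coord_ext W ?_ ?_ ?_, w1⟩
    · rw [RingHom.comp_assoc, hc, ← RingHom.comp_assoc, w1, e]
    · rw [RingHom.comp_apply, hx, w2]
    · rw [RingHom.comp_apply, hy, w3]
  · rw [← hx, ← RingHom.comp_apply w, h1, RingHom.comp_apply]
  · rw [← hy, ← RingHom.comp_apply w, h1, RingHom.comp_apply]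

theorem coord_sur (W : Affine A) {Z : Type} [Field Z] [IsAlgClosed Z] (u : A →+* Z) :
    ∃ w : W.CoordinateRing →+* Z, w.comp (algebraMap A _) = u := by
  obtain ⟨y, hy⟩ := IsAlgClosed.exists_root (X ^ 2 + C (u W.a₃) * X - C (u W.a₆) : Z[X])
    (by
      have : (X ^ 2 + C (u W.a₃) * X - C (u W.a₆) : Z[X]).degree = 2 := by compute_degree!
      rw [this]
      decide)
  obtain ⟨w, hw, -⟩ := coord_lift W u 0 y (by
    rw [equation_iff]
    simp only [IsRoot.def, eval_sub, eval_add, eval_pow, eval_X, eval_mul, eval_C] at hy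
    simp only [map_a₁, map_a₂, map_a₃, map_a₄, map_a₆]
    linear_combination hy)
  exact ⟨w, hw⟩

theorem e7b_std {R B : Type} [CommRing R] [CommRing B] {f g : R[X]} (hf : f.Monic)
    (hc : ∃ p, derivative f * p = g) (e : AdjoinRoot f →+* B) (he : Function.Bijective e) {r : B}
    (hr : e (AdjoinRoot.mk f g) = r) {c : R →+* B} (hb : e.comp (AdjoinRoot.of f) = c) :
    ((algebraMap B (Localization.Away r)).comp c).Etale := by
  obtain ⟨p, hp⟩ := hc
  let P : StandardEtalePair R := ⟨f, hf, g, p, 0, 1, by rw [hp, mul_zero, add_zero, pow_one]⟩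
  have h1 : Algebra.Etale R (Localization.Away (AdjoinRoot.mk f g)) :=
    Algebra.Etale.of_equiv P.equivAwayAdjoinRoot
  have h2 : Submonoid.map (RingEquiv.ofBijective e he).toMonoidHom
      (Submonoid.powers (AdjoinRoot.mk f g)) = Submonoid.powers r := by
    rw [Submonoid.map_powers, ← hr]; rfl
  let j := IsLocalization.ringEquivOfRingEquiv (Localization.Away (AdjoinRoot.mk f g))
    (Localization.Away r) (RingEquiv.ofBijective e he) h2
  have h3 : (algebraMap B (Localization.Away r)).comp c =
      (j : _ →+* _).comp (algebraMap R (Localization.Away (AdjoinRoot.mk f g))) := by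
    refine RingHom.ext fun a => ?_
    rw [← hb, IsScalarTower.algebraMap_eq R (AdjoinRoot f)]
    exact (IsLocalization.ringEquivOfRingEquiv_eq h2 _).symm
  rw [h3]
  exact FA.etale_comp (RingHom.etale_algebraMap.2 h1) (RingHom.Etale.of_bijective j.bijective)

/-- Away from `y = 0` the function `x` is etale: `A[X][Y] / (Y ^ 2 - cubic)` localised at `2 Y` is
standard etale (`StandardEtalePair`). -/
theorem etale_x (h : Ok W) : ((algebraMap W.CoordinateRing
    (Localization.Away (CoordinateRing.mk W X))).comp (algebraMap A[X] W.CoordinateRing)).Etale := by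
  obtain ⟨u, hu⟩ := h.two.exists_right_inv
  refine e7b_std (g := X) monic_polynomial ⟨C (C u), ?_⟩ (RingHom.id _) Function.bijective_id rfl rfl
  have h2 : (2 : A[X][X]) * C (C u) = 1 := by
    simpa only [map_mul, map_ofNat, map_one] using congrArg (fun a : A => (C (C a) : A[X][X])) hu
  simp only [polynomial, h.a1, h.a3, map_zero, zero_mul, add_zero, derivative_sub, derivative_C,
    derivative_X_pow, sub_zero, Nat.cast_ofNat, map_ofNat, Nat.add_one_sub_one, pow_one]
  linear_combination X * h2

/-- The derivative of the cubic. -/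
def dcub (W : Affine A) : W.CoordinateRing :=
  CoordinateRing.mk W (C (C 3 * X ^ 2 + C (2 * W.a₂) * X + C W.a₄))

/-- Away from the zeros of the derivative of the cubic the function `y` is etale: the coordinate
ring is `A[T][X] / (cubic (X) - T ^ 2)` (universal properties, `coord_lift`, `coord_ext`). -/
theorem etale_y (h : Ok W) : ((algebraMap W.CoordinateRing (Localization.Away (dcub W))).comp
    (eval₂RingHom (algebraMap A W.CoordinateRing) (CoordinateRing.mk W X))).Etale := by
  obtain ⟨f, hf⟩ : ∃ f : A[X][X],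
      f = X ^ 3 + C (C W.a₂) * X ^ 2 + C (C W.a₄) * X + C (C W.a₆ - X ^ 2) := ⟨_, rfl⟩
  have hm : f.Monic := by rw [hf]; monicity!
  have h1 := (equation_iff _ _).1 (coord_eq W (RingHom.id _))
  simp only [map_a₁, map_a₂, map_a₃, map_a₄, map_a₆, h.a1, h.a3, map_zero, zero_mul, add_zero,
    RingHom.id_comp, RingHom.id_apply] at h1
  have h2 : f.eval₂ (eval₂RingHom (algebraMap A W.CoordinateRing) (CoordinateRing.mk W X))
      (CoordinateRing.mk W (C X)) = 0 := by
    simp only [hf, eval₂_add, eval₂_mul, eval₂_pow, eval₂_X, eval₂_C, coe_eval₂RingHom, eval₂_sub]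
    linear_combination -h1
  have h3 := AdjoinRoot.eval₂_root f
  obtain ⟨w, w1, w2, w3⟩ := coord_lift W ((AdjoinRoot.of f).comp C) (AdjoinRoot.root f)
    (AdjoinRoot.of f X) (by
      rw [equation_iff]
      simp only [map_a₁, map_a₂, map_a₃, map_a₄, map_a₆, h.a1, h.a3, map_zero, zero_mul, add_zero,
        RingHom.comp_apply]
      generalize AdjoinRoot.root f = x at h3 ⊢
      generalize AdjoinRoot.of f = i at h3 ⊢
      simp only [hf, eval₂_add, eval₂_mul, eval₂_pow, eval₂_X, eval₂_C, map_sub, map_pow,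
        eval₂_sub] at h3
      linear_combination -h3)
  have w4 : ∀ a, w (algebraMap A _ a) = AdjoinRoot.of f (C a) := RingHom.congr_fun w1
  have e1 : w.comp (AdjoinRoot.lift _ _ h2) = RingHom.id _ := by
    refine AdjoinRoot.ringHom_ext (Polynomial.ringHom_ext (fun a => ?_) ?_) ?_
    · rw [RingHom.comp_assoc, AdjoinRoot.lift_comp_of, RingHom.comp_apply, coe_eval₂RingHom,
        eval₂_C, w4]
      rfl
    · rw [RingHom.comp_assoc, AdjoinRoot.lift_comp_of, RingHom.comp_apply, coe_eval₂RingHom,
        eval₂_X, w3]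
      rfl
    · rw [RingHom.comp_apply, AdjoinRoot.lift_root, w2]
      rfl
  have e2 : (AdjoinRoot.lift _ _ h2).comp w = RingHom.id _ := by
    refine coord_ext W (RingHom.ext fun a => ?_) ?_ ?_
    · rw [RingHom.comp_apply, RingHom.comp_apply, w4, AdjoinRoot.lift_of, coe_eval₂RingHom,
        eval₂_C]
      rfl
    · rw [RingHom.comp_apply, w2, AdjoinRoot.lift_root]
      rfl
    · rw [RingHom.comp_apply, w3, AdjoinRoot.lift_of, coe_eval₂RingHom, eval₂_X]
      rfl
  refine e7b_std (g := derivative f) hm ⟨1, mul_one _⟩ (AdjoinRoot.lift _ _ h2)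
    (Function.bijective_iff_has_inverse.2 ⟨w, RingHom.congr_fun e1, RingHom.congr_fun e2⟩) ?_
    (AdjoinRoot.lift_comp_of h2)
  have h4 : ∀ a : A, algebraMap A W.CoordinateRing a = CoordinateRing.mk W (C (C a)) :=
    fun _ => rfl
  have h5 : derivative f = C (C 3) * X ^ 2 + C (C (2 * W.a₂)) * X + C (C W.a₄) := by
    simp only [hf, derivative_add, derivative_mul, derivative_X_pow, derivative_C, derivative_X,
      map_mul, map_ofNat, Nat.cast_ofNat]
    ring
  rw [AdjoinRoot.lift_mk, h5, dcub]
  simp only [eval₂_add, eval₂_mul, eval₂_pow, eval₂_X, eval₂_C, coe_eval₂RingHom, h4, map_add,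
    map_mul, map_pow]

/-- `e2_sep`: the cubic and its derivative are coprime. -/
theorem y_or_dcub (h : Ok W) {Z : Type} [Field Z] (w : W.CoordinateRing →+* Z) :
    w (CoordinateRing.mk W X) ≠ 0 ∨ w (dcub W) ≠ 0 := by
  by_contra hn
  simp only [not_or, not_not] at hn
  have h1 := coord_eq W w
  have h2 := hn.2
  rw [dcub, e7a_eval] at h2
  rw [equation_iff, hn.1] at h1
  obtain ⟨a, b, hab⟩ := e2_sep h
  have h3 := congrArg (eval₂RingHom (w.comp (algebraMap A _)) (w (CoordinateRing.mk W (C X)))) hab
  generalize w.comp (algebraMap A _) = u at h1 h2 h3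
  generalize w (CoordinateRing.mk W (C X)) = x at h1 h2 h3
  simp only [map_a₁, map_a₂, map_a₃, map_a₄, map_a₆] at h1
  rw [Polynomial.map_C, evalEval_C] at h2
  simp [map_ofNat] at h2
  simp [map_ofNat] at h3
  exact one_ne_zero (α := Z) (by
    linear_combination (-1 : Z) * h3 - eval₂ u x a * h1 + eval₂ u x b * h2)

end

end Pool.Agent.Lib.MP_16ef92_ag.CV
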