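import Mathlib
import Pool.Agent.Lib.MP_16ef92_ag.RS.Push
import Pool.Agent.Lib.MP_16ef92_ag.RS.Cls

set_option autoImplicit false
set_option linter.unusedSectionVars false
set_option linter.unusedVariables false
set_option linter.style.haveILetI false

namespace Pool.Agent.Lib.MP_16ef92_ag.CV

open RS

noncomputable section

variable [Bg] {R T V W : Type} [CommRing R] [CommRing T] [CommRing V] [CommRing W]

/-- The class of a section of the Godement quotient over an algebra. -/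
def cl (F : Sys T) (a : T →+* V) : (Q F).S a →+ HH 1 F a :=
  (sh 0 (F.pb a)).comp (F.can a).qm.toHom.app

section pua

variable {R' R'' : Type} [CommRing R'] [CommRing R''] {g : R →+* R'} {g' : R' →+* R''} {F : Sys R}
  {F' : Sys R'} {F'' : Sys R''}

theorem pua_jm (m : Mor g F F') (m' : Mor g' F' F'') (m'' : Mor (g'.comp g) F F'')
    (h : ∀ x, ∀ u ∈ F.M (x.comp (g'.comp g)), m'.φ x (m.φ (x.comp g') u) = m''.φ x u)
    (x : Pnt R'') (u : (J F).A) (hu : u ∈ (J F).M (x.comp (g'.comp g))) :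
    m'.jm.φ x (m.jm.φ (x.comp g') u) = m''.jm.φ x u := by
  obtain ⟨W, W', _, _, c, c', d, z, t, hc, hc', hd, ht, hz, rfl⟩ :=
    (god F).germ_ind g (x.comp g') hu
  have e : ∀ y : Pnt W', (y.comp d).comp c = (y.comp c').comp g := fun y => by
    rw [RingHom.comp_assoc, hd, RingHom.comp_assoc]
  have e' : ∀ w : Pnt (Ten c' g'), (w.comp (Ten.inl c' g')).comp c' =
      (w.comp (Ten.inr c' g')).comp g' := fun w => by
    rw [RingHom.comp_assoc, Ten.comm, RingHom.comp_assoc]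
  have h1 := m.jm_germ d z hc hc' hd ht
  have h2 := m'.jm_germ (Ten.inl c' g') (Ten.lift z x hz) hc' (Ten.etale_inr g' hc')
    (Ten.comm c' g') (t := fun z' => m.φ (z'.comp c') (t (z'.comp d)))
    (fun y => m.mem _ _ (e y ▸ ht (y.comp d)))
  have h3 := m''.jm_germ ((Ten.inl c' g').comp d) (Ten.lift z x hz) hc (Ten.etale_inr g' hc')
    (by rw [RingHom.comp_assoc, hd, ← RingHom.comp_assoc, Ten.comm, RingHom.comp_assoc]) ht
  rw [← RingHom.comp_assoc, Ten.lift_inl, Ten.lift_inr] at h3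
  rw [Ten.lift_inl, Ten.lift_inr] at h2
  rw [← hz, h1, h2, h3]
  refine congrArg _ (funext fun w => ?_)
  rw [e' w]
  refine h _ _ ?_
  have h4 := ht ((w.comp (Ten.inl c' g')).comp d)
  rwa [e, e'] at h4

theorem pua_qm (m : Mor g F F') (m' : Mor g' F' F'') (m'' : Mor (g'.comp g) F F'')
    (h : ∀ x, ∀ u ∈ F.M (x.comp (g'.comp g)), m'.φ x (m.φ (x.comp g') u) = m''.φ x u)
    (x : Pnt R'') (u : (Q F).A) (hu : u ∈ (Q F).M (x.comp (g'.comp g))) :
    m'.qm.φ x (m.qm.φ (x.comp g') u) = m''.qm.φ x u := by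
  obtain ⟨v, hv, rfl⟩ := (ses_can F).surj _ u hu
  have h1 := m.qm_pi (x.comp g') hv
  have h2 := m'.qm_pi x (m.jm.mem (x.comp g') v hv)
  have h3 := m''.qm_pi x hv
  rw [h3, ← pua_jm m m' m'' h x v hv, ← h2, ← h1]
  rfl

theorem pua_map {U : Type} [CommRing U] {a : R →+* V} {a' : R →+* W} {a'' : R →+* U} (g : R →+* T)
    (b : V →+* W) (h : b.comp a = a') (b' : W →+* U) (h' : b'.comp a' = a'')
    (h'' : (b'.comp b).comp a = a'') :
    (Ten.map g b' h').comp (Ten.map g b h) = Ten.map g (b'.comp b) h'' :=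
  Ten.hom_ext (by
    rw [Ten.map_inl, RingHom.comp_assoc, Ten.map_inl, ← RingHom.comp_assoc, Ten.map_inl,
      RingHom.comp_assoc]) (by rw [Ten.map_inr, RingHom.comp_assoc, Ten.map_inr, Ten.map_inr])

end pua

/-- `qm_can_bij`, `Hmap_bij 0`. -/
theorem cl_surj (F : Sys T) {a : T →+* V} (ha : a.Etale) : Function.Surjective (cl F a) :=
  (sh_surj 0 (F.pb a)).comp
    (Hmap_bij 0 (F.can a).qm.toHom (qm_can_bij F ha).1 (qm_can_bij F ha).2).2

/-- `sh_ker`, `jm_can_bij`, `qm_can_bij`, `Mor.qm_pi`. -/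
theorem cl_zero (F : Sys T) {a : T →+* V} (ha : a.Etale) (s : (Q F).S a) :
    cl F a s = 0 ↔ ∃ u ∈ (J F).S a, ∀ y, (piQ F).φ (y.comp a) (u y) = s.1 y := by
  refine (sh_ker 0 (F.pb a) _).trans ⟨fun ⟨t, ht⟩ => ?_, fun ⟨u, hu, h⟩ => ?_⟩
  · obtain ⟨u, rfl⟩ := (Hmap_bij 0 (F.can a).jm.toHom (jm_can_bij F ha).1 (jm_can_bij F ha).2).2 t
    have hu : u.1 ∈ (J F).S a := u.2
    refine ⟨u.1, hu, fun y => sub_eq_zero.1 ?_⟩
    have h1 := (piQ F).mem (y.comp a) _ ((J F).mem hu y)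
    have h2 := (Q F).mem s.2 y
    refine (qm_can_bij F ha).1 y _ (sub_mem h1 h2) ?_
    rw [(F.can a).qm.sub y h1 h2, (F.can a).qm_pi y ((J F).mem hu y), sub_eq_zero]
    exact congrFun (congrArg Subtype.val ht) y
  · refine ⟨(F.can a).jm.toHom.app ⟨u, hu⟩, Subtype.ext (funext fun y => ?_)⟩
    exact ((F.can a).qm_pi y ((J F).mem hu y)).symm.trans (congrArg _ (h y))

/-- `sh_nat`, and `Hmap_comp_of 1` (or directly: both sides are `sh` of `qm` of a composite). -/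
theorem cl_res (F : Sys T) {a : T →+* V} {a' : T →+* W} (b : V →+* W) (h : b.comp a = a')
    (s : (Q F).S a) : HR 1 F b h (cl F a s) = cl F a' ⟨rs b s.1, (Q F).res' b h s.2⟩ := by
  subst h
  have e : (F.rm (a := a) (a' := b.comp a) b rfl).qm.app ((F.can a).qm.toHom.app s) =
      (F.can (b.comp a)).qm.toHom.app ⟨rs b s.1, (Q F).res b s.2⟩ := by
    refine Subtype.ext (funext fun z => ?_)
    change (F.rm (a := a) (a' := b.comp a) b rfl).qm.φ z ((F.can a).qm.φ (z.comp b)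
      (s.1 (z.comp b))) = (F.can (b.comp a)).qm.φ z (s.1 (z.comp b))
    exact pua_qm (F'' := F.pb (b.comp a)) (F.can a) (F.rm (a := a) (a' := b.comp a) b rfl)
      (F.can (b.comp a)) (fun _ _ _ => rfl) z (s.1 (z.comp b)) ((Q F).mem s.2 (z.comp b))
  exact (sh_nat 0 (F.rm (a := a) (a' := b.comp a) b rfl) ((F.can a).qm.toHom.app s)).trans
    (congrArg (sh 0 (F.pb (b.comp a))) e)

theorem cl_can (F : Sys T) (a : T →+* V) (s : Z0 (Q F)) :
    Hmap 1 (F.can a) (sh 0 F s) = cl F a ⟨rs a s.1, (Q F).res' a a.comp_id s.2⟩ := by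
  have e : (F.can a).qm.app s =
      (F.can a).qm.toHom.app ⟨rs a s.1, (Q F).res' a a.comp_id s.2⟩ := by
    refine Subtype.ext (funext fun z => ?_)
    change (F.can a).qm.φ z (s.1 (z.comp a)) = (F.can a).qm.φ z (s.1 (z.comp a))
    rfl
  exact (sh_nat 0 (F.can a) s).trans (congrArg (sh 0 (F.pb a)) e)

variable (g : R →+* T) (F : Sys T)

/-- The image of the direct image of `J F` in the direct image of `Q F`. -/
def puI : Sys R := ((piQ F).pu g).opn_im.sys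

/-- The inclusion. -/
def puInc : Hom (puI g F) (push g (Q F)) := ((piQ F).pu g).opn_im.inc

/-- The corestriction. -/
def puTo : Hom (push g (J F)) (puI g F) where
  φ := ((piQ F).pu g).φ
  add := ((piQ F).pu g).add
  mem x u hu := Mor.mem_im.2 ⟨u, hu, rfl⟩
  sec hs := ⟨((piQ F).pu g).sec hs, fun y => Mor.mem_im.2 ⟨_, (push g (J F)).mem hs y, rfl⟩⟩

/-- The first higher direct image. -/
def puS : Sys R := (puInc g F).cok

theorem ses_pu1 : SES ((eta F).pu g) (puTo g F) :=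
  ⟨push_inj (eta_inj F) g, fun x _ hv => (ses_can F).push_ex g x hv,
    fun _ _ hv => Mor.mem_im.1 hv⟩

theorem ses_pu2 : SES (puInc g F) (puInc g F).pr := (puInc g F).ses_cok fun _ _ _ h => h

variable {g}

/-- The class `η` over `W ⊗ T` dies near the point `y` of `W`. -/
def DiesAt {c : R →+* W} (y : Pnt W) (η : HH 1 F (Ten.inr c g)) : Prop :=
  ∃ (W' : Type) (_ : CommRing W') (d : W →+* W') (z : Pnt W'), d.Etale ∧ z.comp d = y ∧
    HR 1 F (Ten.map g d rfl) (Ten.map_inr g d rfl) η = 0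

variable (g) in
/-- The class `ξ` over `T` dies near the point `x` of `R`. -/
def DiesG (x : Pnt R) (ξ : H 1 F) : Prop :=
  ∃ (W : Type) (_ : CommRing W) (c : R →+* W) (y : Pnt W), c.Etale ∧ y.comp c = x ∧
    Hmap 1 (F.can (Ten.inr c g)) ξ = 0

/-- `Mor.cmk_eq_zero`, `pg_surj`, `Mor.push_pg`, `pg_res`, `pg_add`, `pg_zero`, `cl_zero`,
`cl_res`. -/
theorem pr_pg {c : R →+* W} (hc : c.Etale) (y : Pnt W) (s : (Q F).S (Ten.inr c g)) :
    (puInc g F).pr.φ (y.comp c) (pg g (Q F) c y s.1) = 0 ↔ DiesAt F y (cl F _ s) := by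
  refine ((puInc g F).cmk_eq_zero.trans Mor.mem_im).trans ⟨?_, ?_⟩
  · rintro ⟨v, hv, hv'⟩
    obtain ⟨u, hu, rfl⟩ := Mor.mem_im.1 hv
    obtain ⟨W₁, _, c₁, y₁, s₁, hc₁, hy₁, hs₁, rfl⟩ := pg_surj _ hu
    have hy : y.comp c = y₁.comp c₁ := hy₁.symm
    have hc₂ : ((Ten.inl c c₁).comp c).Etale := et_comp hc (Ten.etale_inl c hc₁)
    have h1 := pg_res hc hc₂ (Ten.inl c c₁) rfl (Ten.lift y y₁ hy) s.2
    have h2 := (piQ F).push_pg (g := g) (g' := g) (f := RingHom.id R) rfl hc₁ hc₂ (Ten.inr c c₁)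
      (Ten.comm c c₁).symm (Ten.lift y y₁ hy) hs₁ (Ten.map g (Ten.inr c c₁) (Ten.comm c c₁).symm)
      (Ten.map_inl ..) (Ten.map_inr ..)
    have hA := (Q F).res' _ (Ten.map_inr g (Ten.inl c c₁) rfl) s.2
    have hB := (piQ F).sec (a := Ten.inr ((Ten.inl c c₁).comp c) g)
      ((J F).res' _ (Ten.map_inr g (Ten.inr c c₁) (Ten.comm c c₁).symm) hs₁)
    rw [Ten.lift_inl] at h1
    rw [Ten.lift_inr, ← RingHom.comp_assoc, Ten.lift_inl] at h2
    have h3 := pg_add hc₂ (Ten.lift y y₁ hy) (sub_mem hA hB) hB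
    rw [sub_add_cancel, h1] at h3
    have h4 := (h2.symm.trans hv').trans h3
    obtain ⟨f, hf, h5⟩ := (pg_zero hc₂ _ (sub_mem hA hB)).1 (right_eq_add.1 h4)
    obtain ⟨z, hz⟩ := pnt_away _ hf
    let j := algebraMap (Ten c c₁) (Localization.Away f)
    have hd : (j.comp (Ten.inl c c₁)).Etale := et_comp (Ten.etale_inl c hc₁) (et_away f)
    refine ⟨_, _, j.comp (Ten.inl c c₁), z, hd, by rw [← RingHom.comp_assoc, hz, Ten.lift_inl], ?_⟩
    let k : Ten ((Ten.inl c c₁).comp c) g →+* Ten ((j.comp (Ten.inl c c₁)).comp c) g :=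
      Ten.map g j rfl
    have k1 : k.comp (Ten.inr _ g) = Ten.inr _ g := Ten.map_inr ..
    have k2 : k.comp (Ten.map g (Ten.inl c c₁) rfl) = Ten.map g (j.comp (Ten.inl c c₁)) rfl :=
      pua_map ..
    have k3 : k.comp (Ten.inl _ g) = (Ten.inl _ g).comp j := Ten.map_inl ..
    rw [cl_res, cl_zero F (Ten.etale_inr g (et_comp hc hd))]
    refine ⟨_, (J F).res' k k1 ((J F).res' _
      (Ten.map_inr g (Ten.inr c c₁) (Ten.comm c c₁).symm) hs₁), fun w => ?_⟩
    have h6 := sub_eq_zero.1 (h5 (w.comp k) fun e =>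
      pnt_away_ne (w.comp (Ten.inl ((j.comp (Ten.inl c c₁)).comp c) g))
        ((congrArg w (RingHom.congr_fun k3 f)).symm.trans e))
    have k4 : (w.comp k).comp (Ten.inr _ g) = w.comp (Ten.inr _ g) := congrArg w.comp k1
    beta_reduce at h6
    rw [k4] at h6
    exact h6.symm.trans (congrArg (fun e => s.1 (w.comp e)) k2)
  · rintro ⟨W', _, d, z, hd, rfl, h⟩
    have hc' := et_comp hc hd
    rw [cl_res, cl_zero F (Ten.etale_inr g hc')] at h
    obtain ⟨u, hu, h⟩ := h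
    refine ⟨_, Mor.mem_im.2 ⟨_, (push g (J F)).mem (pg_sec hc' hu) z, rfl⟩, ?_⟩
    have h2 := (piQ F).push_pg (g := g) (g' := g) (f := RingHom.id R) rfl hc' hc' (RingHom.id _)
      rfl z hu (RingHom.id _) rfl rfl
    exact (h2.trans (congrArg _ (funext h))).trans (pg_res hc hc' d rfl z s.2)

/-- The global section of the direct image attached to `t` (`push_H0`), with its germs. -/
theorem exists_up (t : Z0 (Q F)) : ∃ t' : Z0 (push g (Q F)), (eps g (Q F)).app t' = t ∧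
    ∀ (W : Type) [CommRing W] (c : R →+* W) (y : Pnt W), c.Etale →
      t'.1 (y.comp c) = pg g (Q F) c y (rs (Ten.inr c g) t.1) := by
  obtain ⟨t', rfl⟩ := (push_H0 g (Q F)).2 t
  refine ⟨t', rfl, fun W _ c y hc => ?_⟩
  obtain ⟨s, hs, h⟩ := push_sec (g := g) (F := Q F) hc ((push g (Q F)).res' c (RingHom.comp_id c) t'.2)
  have h1 : s = rs (Ten.inr c g) ((eps g (Q F)).app t').1 := funext fun z => by
    have h2 : (z.comp (Ten.inl c g)).comp c = (z.comp (Ten.inr c g)).comp g := by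
      rw [RingHom.comp_assoc, RingHom.comp_assoc, Ten.comm]
    rw [rs_apply, Mor.app_val, ← h2, ← eps_pg hc hs z, ← h]
    rfl
  rw [← h1]
  exact h y

theorem pub_res (G : Sys T) (a : T →+* V) (t : Z0 G) : rs a t.1 ∈ G.S a := G.res a t.2

theorem pub_can (a : T →+* V) (s : Z0 (Q F)) :
    Hmap 1 (F.can a) (sh 0 F s) = cl F a ⟨rs a s.1, pub_res (Q F) a s⟩ := cl_can F a s

theorem pub_dies (t : Z0 (Q F)) (t' : Z0 (push g (Q F)))
    (ht : ∀ (W : Type) [CommRing W] (c : R →+* W) (y : Pnt W), c.Etale →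
      t'.1 (y.comp c) = pg g (Q F) c y (rs (Ten.inr c g) t.1)) {x : Pnt R}
    (h : DiesG g F x (sh 0 F t)) : (puInc g F).pr.φ x (t'.1 x) = 0 := by
  obtain ⟨W, _, c, y, hc, rfl, h⟩ := h
  rw [ht W c y hc]
  refine (pr_pg F hc y ⟨rs (Ten.inr c g) t.1, pub_res (Q F) _ t⟩).2
    ⟨W, _, RingHom.id W, y, et_id, rfl, ?_⟩
  rw [← pub_can, h, map_zero]

/-- Low degree Leray sequence.  Write `ξ = sh t`; `t'` of `exists_up` lies in `puI` (`pr_pg`,
`cl_can`); apply `SES.sh_mem` to `ses_pu1` with the maps `eps g F`, `eps g (J F)` and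
`(puInc g F).comp (eps g (Q F))` (`Mor.eps_push`). -/
theorem leray1 (ξ : H 1 F) (h : ∀ x, DiesG g F x ξ) : ξ ∈ (Hmap 1 (eps g F)).range := by
  obtain ⟨t, rfl⟩ := sh_surj 0 F ξ
  obtain ⟨t', h1, h2⟩ := exists_up (g := g) F t
  have h3 : ∀ x, t'.1 x ∈ (puI g F).M x := fun x => by
    obtain ⟨u, hu, e⟩ := Mor.mem_im.1
      ((puInc g F).cmk_eq_zero.1 (pub_dies F t t' h2 (h x)))
    exact (show u = t'.1 x from e) ▸ hu
  let m : Mor g (puI g F) (Q F) := (puInc g F).comp (eps g (Q F))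
  have h4 := (ses_pu1 g F).sh_mem (eps g F) (eps g (J F)) m
    (fun x u hu => (eta F).eps_push (g := g) (g' := g) (f := RingHom.id R) rfl x hu)
    (fun x u hu => (piQ F).eps_push (g := g) (g' := g) (f := RingHom.id R) rfl x hu) 0
    (⟨t'.1, t'.2, h3⟩ : Z0 (puI g F))
  rw [← h1]
  exact h4

/-- Let `σ` vanish at all points whose kernel is not in the finite set `Z`.  For each `p ∈ Z` that
is a kernel pick `x` with kernel `p`, write `σ x = pr (pg s)`, take `ξ = sh t` for `η = cl s`; the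
sum of the `t'` (`exists_up`) maps to `σ`: at `x` by `pr_pg`, at points with the same kernel by
`Sys.sep'`, and both vanish elsewhere. -/
theorem pr_surj
    (h1 : ∀ σ : Z0 (puS g F), ∃ Z : Set (Ideal R), Z.Finite ∧
      ∀ x : Pnt R, RingHom.ker x ∉ Z → σ.1 x = 0)
    (h2 : ∀ (W : Type) [CommRing W] (c : R →+* W) (y : Pnt W) (η : HH 1 F (Ten.inr c g)), c.Etale →
      ∃ ξ : H 1 F, DiesAt F y (η - Hmap 1 (F.can (Ten.inr c g)) ξ) ∧
        ∀ x : Pnt R, RingHom.ker x ≠ RingHom.ker (y.comp c) → DiesG g F x ξ) :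
    Function.Surjective (Hmap 0 (puInc g F).pr) := by
  classical
  intro σ
  obtain ⟨Z, hZ, h0⟩ := h1 σ
  have key : ∀ p : Ideal R, ∃ τ : Z0 (push g (Q F)), ∀ x : Pnt R,
      (RingHom.ker x = p → ((puInc g F).pr.app τ).1 x = σ.1 x) ∧
        (RingHom.ker x ≠ p → ((puInc g F).pr.app τ).1 x = 0) := by
    intro p
    by_cases hp : ∃ x : Pnt R, RingHom.ker x = p
    swap
    · exact ⟨0, fun x => ⟨fun h => (hp ⟨x, h⟩).elim, fun _ => by rw [map_zero]; rfl⟩⟩
    obtain ⟨x, rfl⟩ := hp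
    obtain ⟨v, hv, e⟩ := (puS g F).mem σ.2 x
    obtain ⟨W, _, c, y, s, hc, rfl, hs, rfl⟩ := pg_surj x hv
    obtain ⟨ξ, h3, h4⟩ := h2 W c y (cl F _ ⟨s, hs⟩) hc
    obtain ⟨t, rfl⟩ := sh_surj 0 F ξ
    obtain ⟨t', -, h5⟩ := exists_up (g := g) F t
    have hr : rs (Ten.inr c g) t.1 ∈ (Q F).S (Ten.inr c g) := pub_res (Q F) _ t
    have h6 : ((puInc g F).pr.app t').1 (y.comp c) = σ.1 (y.comp c) := by
      have h3' : cl F _ ⟨s - rs (Ten.inr c g) t.1, sub_mem hs hr⟩ =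
          cl F _ ⟨s, hs⟩ - Hmap 1 (F.can (Ten.inr c g)) (sh 0 F t) :=
        (map_sub (cl F _) ⟨s, hs⟩ ⟨_, hr⟩).trans (congrArg _ (pub_can F _ t).symm)
      have h7 : (puInc g F).cmk (y.comp c) (pg g (Q F) c y (s - rs (Ten.inr c g) t.1)) = 0 :=
        (pr_pg F hc y ⟨_, sub_mem hs hr⟩).2 (h3' ▸ h3)
      have h8 := pg_add hc y (sub_mem hs hr) hr
      rw [sub_add_cancel] at h8
      have e' : (puInc g F).cmk (y.comp c) (pg g (Q F) c y s) = σ.1 (y.comp c) := e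
      rw [h8, map_add, h7, zero_add, ← h5 W c y hc] at e'
      exact e'
    refine ⟨t', fun x => ⟨fun hx => ?_, fun hx => pub_dies F t t' h5 (h4 x hx)⟩⟩
    obtain ⟨f, hf, h9⟩ := (puS g F).sep' ((puInc g F).pr.app t').2 σ.2 h6
    exact h9 x fun h => hf (RingHom.mem_ker.1 (hx ▸ RingHom.mem_ker.2 h))
  choose τ hτ using key
  refine ⟨(∑ p ∈ hZ.toFinset, τ p : Z0 (push g (Q F))), Subtype.ext (funext fun x => ?_)⟩
  have h3 : ((puInc g F).pr.app (∑ p ∈ hZ.toFinset, τ p)).1 x =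
      ∑ p ∈ hZ.toFinset, ((puInc g F).pr.app (τ p)).1 x := by
    rw [map_sum, AddSubgroup.val_finsetSum, Finset.sum_apply]
  refine h3.trans ?_
  by_cases hx : RingHom.ker x ∈ Z
  · rw [Finset.sum_eq_single_of_mem _ (hZ.mem_toFinset.2 hx) fun p _ hp => (hτ p x).2 hp.symm]
    exact (hτ _ x).1 rfl
  · rw [Finset.sum_eq_zero fun p hp => (hτ p x).2 fun e => hx (e ▸ hZ.mem_toFinset.1 hp)]
    exact (h0 x hx).symm

/-- The stalk of `puS` vanishes where all classes die. -/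
theorem puS_zero (x : Pnt R) (h : ∀ (W : Type) [CommRing W] (c : R →+* W) (y : Pnt W)
    (η : HH 1 F (Ten.inr c g)), c.Etale → y.comp c = x → DiesAt F y η) :
    ∀ u ∈ (puS g F).M x, u = 0 := by
  rintro _ ⟨v, hv, rfl⟩
  obtain ⟨W, _, c, y, s, hc, rfl, hs, rfl⟩ := pg_surj x hv
  exact (pr_pg F hc y ⟨s, hs⟩).2 (h W c y _ hc rfl)

theorem leray2 (hd : ∀ i, Dies g F (i + 1)) (h2 : ∀ q (ξ : H (q + 2) F), ξ = 0)
    (hS : ∀ q (ξ : H (q + 1) (puS g F)), ξ = 0)
    (h0 : Function.Surjective (Hmap 0 (puInc g F).pr)) (q : ℕ) (ξ : H (q + 2) (push g F)) :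
    ξ = 0 := by
  have hI : ∀ ζ : H (q + 1) (puI g F), ζ = 0 := by
    refine (ses_pu2 g F).left_zero q ?_ fun ζ => eps_inj (q + 1) (Q F)
      (fun i _ => Dies.q.1 (hd i)) ((h2 q _).trans (map_zero _).symm)
    cases q with
    | zero => exact h0
    | succ q => exact fun ζ => ⟨0, (map_zero _).trans (hS q ζ).symm⟩
  exact (ses_pu1 g F).left_zero (q + 1) (fun ζ => ⟨0, (map_zero _).trans (hI ζ).symm⟩)
    (H_push_J g F (q + 1)) ξ

end

end Pool.Agent.Lib.MP_16ef92_ag.CV
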