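import Mathlib
import Pool.Agent.Lib.MP_16ef92_ag.CV.R1

set_option autoImplicit false
set_option linter.unusedSectionVars false
set_option linter.unusedVariables false

namespace Pool.Agent.Lib.MP_16ef92_ag.CV

open Polynomial

noncomputable section

variable {K V L W L' : Type} [Field K] [CommRing V] [Algebra K V] [Field L] [Algebra V L]
  [CommRing W] [Algebra K W] [Algebra V W] [IsScalarTower K V W] [Field L'] [Algebra W L']

theorem crv_poly (K : Type) [Field K] : Crv K K[X] :=
  ⟨inferInstance, inferInstance, Polynomial.not_isField K⟩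

theorem r2a_alg (V W : Type) [CommRing V] [IsDomain V] [CommRing W] [Algebra V W]
    [Algebra.Etale V W] (x : W) : IsAlgebraic V x := by
  let F := FractionRing V
  have : Module.Finite F (TensorProduct V F W) := Algebra.FormallyUnramified.finite_of_free _ _
  have h1 : IsAlgebraic F (Algebra.TensorProduct.includeRight x : TensorProduct V F W) :=
    (Algebra.IsIntegral.isIntegral _).isAlgebraic
  have h2 : IsAlgebraic V (Algebra.TensorProduct.includeRight x : TensorProduct V F W) :=
    (IsFractionRing.isAlgebraic_iff V F _).2 h1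
  exact (isAlgebraic_algHom_iff _
    (Algebra.TensorProduct.includeRight_injective (IsFractionRing.injective V F))).1 h2

theorem r2a_under (V W : Type) [CommRing V] [IsDomain V] [CommRing W] [Algebra V W]
    [Algebra.Etale V W] [IsDomain W] {P : Ideal W} (hP : P ≠ ⊥) :
    P.comap (algebraMap V W) ≠ ⊥ := by
  obtain ⟨x, hx, hx0⟩ := Submodule.exists_mem_ne_zero_of_ne_bot hP
  exact Ideal.comap_ne_bot_of_algebraic_mem hx0 hx (r2a_alg V W x)

/-- Normal by `et_normal`, noetherian as of finite type.  A prime `P ≠ 0` of `W` lies over a prime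
`p ≠ 0` (`W` is algebraic over `V`: `et_field`), `p` is maximal, `W / P` is a domain that is
unramified and of finite type over the field `V / p`, so finite, so a field.  If `W` is a field it
is finite over `K` (`finite_of_finite_type_of_isJacobsonRing`), and then so is `V` (`et_faith`). -/
theorem Crv.et (h : Crv K V) [Algebra.Etale V W] [IsDomain W] : Crv K W := by
  have := h.ded
  have := h.ft
  have hft : Algebra.FiniteType K W := Algebra.FiniteType.trans h.ft inferInstance
  have hN : IsNoetherianRing W := Algebra.FiniteType.isNoetherianRing K W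
  have hI : IsIntegrallyClosed W := et_normal V W
  have hD : Ring.DimensionLEOne W := by
    refine ⟨fun {P} hP hp => ?_⟩
    obtain ⟨Q, hQ, hle⟩ := Ideal.exists_le_maximal P hp.ne_top
    have hm : (P.comap (algebraMap V W)).IsMaximal :=
      Ring.DimensionLEOne.maximalOfPrime (r2a_under V W hP) inferInstance
    have h1 : P.comap (algebraMap V W) = Q.comap (algebraMap V W) :=
      hm.eq_of_le (Ideal.comap_ne_top _ hQ.ne_top) (Ideal.comap_mono hle)
    rwa [Algebra.QuasiFinite.eq_of_le_of_under_eq (R := V) P Q hle h1]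
  refine ⟨{ hN, hD, hI with }, hft, fun hW => h.nf ?_⟩
  let := hW.toField
  have : Module.Finite K W := finite_of_finite_type_of_isJacobsonRing K W
  have : Module.Finite K V := Module.Finite.of_injective (IsScalarTower.toAlgHom K V W).toLinearMap
    (et_faith V W)
  exact isField_of_isIntegral_of_isField' (Field.toIsField K)

theorem Crv.under_ne (h : Crv K V) [Algebra.Etale V W] [IsDomain W] {P : Ideal W} (hP : P ≠ ⊥) :
    P.comap (algebraMap V W) ≠ ⊥ := by
  have := h.ded
  exact r2a_under V W hP

section r2b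

open IsDedekindDomain IsDedekindDomain.HeightOneSpectrum WithZero

variable {A M : Type} [CommRing A] [IsDedekindDomain A] [Field M] [Algebra A M]
  [IsFractionRing A M] (v : HeightOneSpectrum A)

theorem r2b_lu {f : M} : LU v.asIdeal f ↔ v.valuation M f = 1 := by
  constructor
  · rintro ⟨s, t, hs, ht, e⟩
    have e' := congrArg (v.valuation M) e
    rwa [map_mul, (valuation_eq_one_iff_notMem v).2 hs, (valuation_eq_one_iff_notMem v).2 ht,
      mul_one] at e'
  · intro hf
    obtain ⟨n, d, e⟩ := exists_primeCompl_mul_eq_of_integer v f hf.le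
    refine ⟨n, d, ?_, d.2, e⟩
    rw [← valuation_eq_one_iff_notMem v (K := M), ← e, map_mul, hf,
      (valuation_eq_one_iff_notMem v).2 d.2, mul_one]

theorem r2b_of {π : A} (hπ : v.intValuation π = exp (-1 : ℤ)) : Unif M v.asIdeal π := by
  have hv : v.valuation M (algebraMap A M π) = exp (-1 : ℤ) := by
    rw [← hπ]; exact valuation_of_algebraMap v π
  refine ⟨fun e => ?_, fun f hf => ⟨-log (v.valuation M f), ?_⟩, fun a ha => ?_⟩
  · rw [e, map_zero] at hv
    exact exp_ne_zero hv.symm
  · have h0 : v.valuation M f ≠ 0 := (Valuation.ne_zero_iff _).2 hf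
    rw [r2b_lu, map_div₀, map_zpow₀, hv, ← exp_zsmul, smul_eq_mul, mul_neg, mul_one, neg_neg,
      exp_log h0, div_self h0]
  · rw [r2b_lu, map_zpow₀, hv, ← exp_zsmul, smul_eq_mul, mul_neg, mul_one, exp_eq_one] at ha
    exact neg_eq_zero.1 ha

theorem r2b_to {π : A} (hπ : Unif M v.asIdeal π) : v.intValuation π = exp (-1 : ℤ) := by
  obtain ⟨w, hw⟩ := valuation_exists_uniformizer M v
  have hw0 : w ≠ 0 := by
    rintro rfl
    rw [map_zero] at hw
    exact exp_ne_zero hw.symm
  obtain ⟨a, ha⟩ := hπ.ex w hw0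
  have hv : v.valuation M (algebraMap A M π) = v.intValuation π := valuation_of_algebraMap v π
  have h0 : v.intValuation π ≠ 0 := by
    rw [← hv]; exact (Valuation.ne_zero_iff _).2 hπ.ne
  have hle : log (v.intValuation π) ≤ 0 := by
    have h1 := intValuation_le_one v π
    rwa [← exp_log h0, ← exp_zero, exp_le_exp] at h1
  rw [r2b_lu, map_div₀, map_zpow₀, hw, hv, ← exp_log h0, ← exp_zsmul, smul_eq_mul, ← exp_sub,
    exp_eq_one] at ha
  rw [← exp_log h0, exp_inj]
  have h2 : -log (v.intValuation π) * a = 1 := by linarith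
  have h3 := Int.eq_one_of_mul_eq_one_right (by linarith) h2
  linarith

end r2b

/-- The localisation at `q` is a discrete valuation ring; take `π ∈ V` that generates its maximal
ideal (or use `HeightOneSpectrum.valuation_exists_uniformizer` / `intValuation`). -/
theorem Crv.unif (h : Crv K V) (L : Type) [Field L] [Algebra V L] [IsFractionRing V L]
    (q : Ideal V) [q.IsPrime] (hq : q ≠ ⊥) : ∃ π ∈ q, Unif L q π := by
  have := h.ded
  let v : IsDedekindDomain.HeightOneSpectrum V := ⟨q, ‹_›, hq⟩
  obtain ⟨π, hπ⟩ := v.intValuation_exists_uniformizer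
  refine ⟨π, (v.intValuation_lt_one_iff_mem π).1 ?_, r2b_of v hπ⟩
  rw [hπ, ← WithZero.exp_zero, WithZero.exp_lt_exp]
  norm_num

/-- `π ∈ q` is a uniformiser iff it generates the maximal ideal of the localisation at `q`;
unramified maps preserve this (`Algebra.isUnramifiedAt_iff_map_eq` or
`Algebra.FormallyUnramified.map_maximalIdeal`). -/
theorem Crv.unif_et (h : Crv K V) [IsFractionRing V L] [IsFractionRing W L'] [Algebra.Etale V W]
    [IsDomain W] (P : Ideal W) [P.IsPrime] (hP : P ≠ ⊥) {π : V}
    (hπ : Unif L (P.comap (algebraMap V W)) π) : Unif L' P (algebraMap V W π) := by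
  have := h.ded
  have := (h.et (W := W)).ded
  let v : IsDedekindDomain.HeightOneSpectrum V :=
    ⟨P.comap (algebraMap V W), inferInstance, h.under_ne hP⟩
  let w : IsDedekindDomain.HeightOneSpectrum W := ⟨P, ‹_›, hP⟩
  have : P.LiesOver (P.comap (algebraMap V W)) := ⟨rfl⟩
  have : w.asIdeal.LiesOver v.asIdeal := ⟨rfl⟩
  let _ := Localization.AtPrime.algebraOfLiesOver (P.comap (algebraMap V W)) P
  have hu : Algebra.IsUnramifiedAt V P := inferInstance
  have he : v.asIdeal.ramificationIdx' w.asIdeal = 1 :=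
    Ideal.ramificationIdx'_eq_one_of_map_localization Ideal.map_comap_le hP
      (Ideal.primeCompl_le_nonZeroDivisors _)
      ((Algebra.isUnramifiedAt_iff_map_eq V (P.comap (algebraMap V W)) P).1 hu).2
  refine r2b_of w ?_
  rw [← IsDedekindDomain.HeightOneSpectrum.intValuation_liesOver v w, he, pow_one]
  exact r2b_to (M := L) v hπ

theorem Crv.fin (h : Crv K V) {f : V} (hf : f ≠ 0) :
    {q : Ideal V | q.IsPrime ∧ f ∈ q}.Finite := by
  have := h.ded
  refine (Ideal.finite_minimalPrimes_of_isNoetherianRing V (Ideal.span {f})).subset ?_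
  rintro q ⟨hq, hfq⟩
  refine ⟨⟨hq, (Ideal.span_singleton_le_iff_mem q).2 hfq⟩, fun p hp hle => ?_⟩
  have hp0 : p ≠ ⊥ := fun e => hf (by
    have := (Ideal.span_singleton_le_iff_mem p).1 hp.2
    rwa [e, Ideal.mem_bot] at this)
  exact ((Ring.DimensionLEOne.maximalOfPrime hp0 hp.1).eq_of_le hq.ne_top hle).ge

/-- Nullstellensatz. -/
theorem Crv.res [IsAlgClosed K] (h : Crv K V) (q : Ideal V) [q.IsPrime] (hq : q ≠ ⊥) (v : V) :
    ∃ c : K, v - algebraMap K V c ∈ q := by
  have := h.ded
  have := h.ft
  have : q.IsMaximal := Ring.DimensionLEOne.maximalOfPrime hq inferInstance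
  let := Ideal.Quotient.field q
  have : Module.Finite K (V ⧸ q) := finite_of_finite_type_of_isJacobsonRing K (V ⧸ q)
  obtain ⟨c, hc⟩ := (IsAlgClosed.algebraMap_bijective_of_isIntegral (k := K) (K := V ⧸ q)).2
    (Ideal.Quotient.mk q v)
  exact ⟨c, Ideal.Quotient.eq.1 hc.symm⟩

/-- Prime avoidance in dimension one: finitely many other closed points can be removed. -/
theorem Crv.avoid (h : Crv K V) (q : Ideal V) [q.IsPrime] (Z : Set (Ideal V)) (hZ : Z.Finite)
    (hp : ∀ p ∈ Z, p.IsPrime ∧ p ≠ ⊥ ∧ p ≠ q) : ∃ g : V, g ∉ q ∧ ∀ p ∈ Z, g ∈ p := by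
  have := h.ded
  have hq : q.IsPrime := inferInstance
  induction Z, hZ using Set.Finite.induction_on with
  | empty => exact ⟨1, (Ideal.ne_top_iff_one q).1 hq.ne_top, by simp⟩
  | @insert p Z _ _ ih =>
    obtain ⟨g, hg, hZ⟩ := ih fun r hr => hp r (Set.mem_insert_of_mem _ hr)
    obtain ⟨h1, h2, h3⟩ := hp p (Set.mem_insert _ _)
    have h4 : ¬ p ≤ q := fun hle =>
      h3 ((Ring.DimensionLEOne.maximalOfPrime h2 h1).eq_of_le hq.ne_top hle)
    obtain ⟨a, ha, ha'⟩ := SetLike.not_le_iff_exists.1 h4
    refine ⟨a * g, fun hm => (hq.mem_or_mem hm).elim ha' hg, ?_⟩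
    rintro r (rfl | hr)
    · exact r.mul_mem_right _ ha
    · exact r.mul_mem_left _ (hZ r hr)

end

end Pool.Agent.Lib.MP_16ef92_ag.CV
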