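import Mathlib
import Pool.Agent.Lib.MP_16ef92_ag.CV.R2

set_option autoImplicit false
set_option linter.unusedSectionVars false
set_option linter.unusedVariables false
set_option linter.style.haveILetI false

namespace Pool.Agent.Lib.MP_16ef92_ag.CV

open Polynomial

noncomputable section

variable {K V L W : Type} [Field K] [CommRing V] [Algebra K V] [Field L] [Algebra V L]
  [CommRing W] [Algebra K W] [Algebra V W] [IsScalarTower K V W]

theorem r6_max (h : Crv K V) [Algebra.Etale V W] {f : V} (hf : f ≠ 0) (P : Ideal W)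
    [hp : P.IsPrime] (hP : algebraMap V W f ∈ P) : P.IsMaximal := by
  have := h.ded
  obtain ⟨Q, hQ, hle⟩ := Ideal.exists_le_maximal P hp.ne_top
  have hm : (P.comap (algebraMap V W)).IsMaximal := Ring.DimensionLEOne.maximalOfPrime
    (fun e => hf (Ideal.mem_bot.1 (e ▸ Ideal.mem_comap.2 hP))) inferInstance
  rwa [Algebra.QuasiFinite.eq_of_le_of_under_eq (R := V) P Q hle
    (hm.eq_of_le (Ideal.comap_ne_top _ hQ.ne_top) (Ideal.comap_mono hle))]

/-- The primes of `W` that contain `f` lie over the finitely many maximal ideals of `V` that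
contain `f` (`Crv.fin`); `W` is quasi-finite over `V`, so they are finite in number and maximal.
`W` is not assumed to be a domain. -/
theorem Crv.sepW (h : Crv K V) [Algebra.Etale V W] {f : V} (hf : f ≠ 0) (P : Ideal W) [P.IsPrime]
    (hP : algebraMap V W f ∈ P) : ∃ g : W, g ∉ P ∧ ∀ P' : Ideal W, P'.IsPrime →
      algebraMap V W f ∈ P' → P' ≠ P → g ∈ P' := by
  have hZ : {P' : Ideal W | P'.IsPrime ∧ algebraMap V W f ∈ P' ∧ P' ≠ P}.Finite :=
    ((h.fin hf).biUnion fun q _ => Algebra.QuasiFinite.finite_primesOver (S := W) q).subset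
      fun P' hP' => by
        have := hP'.1
        exact Set.mem_biUnion (x := P'.comap (algebraMap V W)) ⟨inferInstance, hP'.2.1⟩
          ⟨this, ⟨rfl⟩⟩
  have key : ∀ P' : hZ.toFinset, ∃ g ∈ P'.1, g ∉ P := fun P' => by
    obtain ⟨h1, h2, h3⟩ := hZ.mem_toFinset.1 P'.2
    exact SetLike.not_le_iff_exists.1 fun hle =>
      h3 ((r6_max h hf P'.1 h2).eq_of_le Ideal.IsPrime.ne_top' hle)
  choose g h1 h2 using key
  refine ⟨∏ P', g P', fun hm => ?_, fun P' k1 k2 k3 => ?_⟩
  · obtain ⟨P', -, k⟩ := Ideal.IsPrime.prod_mem_iff.1 hm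
    exact h2 P' k
  · exact Ideal.prod_mem P' (Finset.mem_univ _) (h1 ⟨P', hZ.mem_toFinset.2 ⟨k1, k2, k3⟩⟩)

/-- `P` is maximal as above; Nullstellensatz. -/
theorem Crv.resW [IsAlgClosed K] (h : Crv K V) [Algebra.Etale V W] {f : V} (hf : f ≠ 0)
    (P : Ideal W) [P.IsPrime] (hP : algebraMap V W f ∈ P) (w : W) :
    ∃ c : K, w - algebraMap K W c ∈ P := by
  have : Algebra.FiniteType K W := Algebra.FiniteType.trans h.ft inferInstance
  have := r6_max h hf P hP
  let := Ideal.Quotient.field P
  have : Module.Finite K (W ⧸ P) := finite_of_finite_type_of_isJacobsonRing K (W ⧸ P)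
  obtain ⟨c, hc⟩ := (IsAlgClosed.algebraMap_bijective_of_isIntegral (k := K) (K := W ⧸ P)).2
    (Ideal.Quotient.mk P w)
  exact ⟨c, Ideal.Quotient.eq.1 hc.symm⟩

/-- Unique factorisation of ideals: all exponents of `span {f}` are multiples of `d`
(`r2b_lu`, `Ideal.finprod_heightOneSpectrum_factorization`, or `normalizedFactors`). -/
theorem Crv.root (h : Crv K V) [IsFractionRing V L] {d : ℕ} {f : V}
    (hf : ∀ q : Ideal V, q.IsPrime → Pw q d (algebraMap V L f)) :
    ∃ I : Ideal V, I ^ d = Ideal.span {f} := by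
  have := h.ded
  have h0 : f ≠ 0 := fun e => (hf ⊥ inferInstance).ne_zero (by rw [e, map_zero])
  have hI : Ideal.span {f} ≠ 0 := mt Ideal.span_singleton_eq_bot.1 h0
  have key : ∀ v : IsDedekindDomain.HeightOneSpectrum V,
      d ∣ (Associates.mk v.asIdeal).count (Associates.mk (Ideal.span {f})).factors := fun v => by
    obtain ⟨z, hz, h1⟩ := hf v.asIdeal v.isPrime
    have h2 : v.valuation L z ≠ 0 := (Valuation.ne_zero_iff _).2 hz
    rw [r2b_lu, map_div₀, map_pow, v.valuation_of_algebraMap, v.intValuation_if_neg h0,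
      ← WithZero.exp_log h2, ← WithZero.exp_nsmul, ← WithZero.exp_sub, WithZero.exp_eq_one,
      nsmul_eq_mul] at h1
    exact Int.natCast_dvd_natCast.1 ⟨-WithZero.log (v.valuation L z), by linarith⟩
  choose k hk using key
  rcases eq_or_ne d 0 with rfl | hd
  · refine ⟨⊤, ?_⟩
    rw [← Ideal.finprod_heightOneSpectrum_factorization hI]
    simp only [IsDedekindDomain.HeightOneSpectrum.maxPowDividing, hk, zero_mul, pow_zero,
      finprod_one]
  refine ⟨∏ᶠ v : IsDedekindDomain.HeightOneSpectrum V, v.asIdeal ^ k v, ?_⟩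
  have e : ∀ v : IsDedekindDomain.HeightOneSpectrum V,
      (v.asIdeal ^ k v) ^ d = v.maxPowDividing (Ideal.span {f}) := fun v => by
    rw [IsDedekindDomain.HeightOneSpectrum.maxPowDividing, hk, ← pow_mul, mul_comm]
  rw [finprod_pow, finprod_congr e, Ideal.finprod_heightOneSpectrum_factorization hI]
  refine (Ideal.hasFiniteMulSupport hI).subset fun v hv h1 => hv ?_
  exact Ideal.one_eq_top.trans (eq_top_iff.2 ((Ideal.one_eq_top.symm.trans
    ((e v).trans h1).symm).trans_le (Ideal.pow_le_self hd))).symm |>.symm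

/-- `Pw` descends along etale maps of curves: `Crv.unif`, `Crv.unif_et`, `Unif.pw_iff`; for
`P = ⊥` both sides say `f ≠ 0`. -/
theorem Crv.pw_et (h : Crv K V) [IsFractionRing V L] [Algebra.Etale V W] [IsDomain W] {L' : Type}
    [Field L'] [Algebra W L'] [IsFractionRing W L'] (ι : L →+* L')
    (hι : ∀ v, ι (algebraMap V L v) = algebraMap W L' (algebraMap V W v)) (P : Ideal W) [P.IsPrime]
    {d : ℕ} {f : L} : Pw P d (ι f) ↔ Pw (P.comap (algebraMap V W)) d f := by
  have := h.ded
  have hl : ∀ g : L, LU (P.comap (algebraMap V W)) g → LU P (ι g) := by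
    rintro g ⟨s, t, hs, ht, e⟩
    exact ⟨_, _, hs, ht, by rw [← hι, ← hι, ← map_mul, e]⟩
  rcases eq_or_ne f 0 with rfl | hf
  · exact ⟨fun h => absurd (map_zero ι) h.ne_zero, fun h => absurd rfl h.ne_zero⟩
  rcases eq_or_ne P ⊥ with rfl | hP
  · have h1 : LU ((⊥ : Ideal W).comap (algebraMap V W)) f := by
      obtain ⟨s, t, ht, rfl⟩ := IsFractionRing.div_surjective (A := V) f
      have h2 := nonZeroDivisors.ne_zero ht
      refine ⟨s, t, fun e => hf ?_, fun e => h2 ?_, div_mul_cancel₀ _
        ((map_ne_zero_iff _ (IsFractionRing.injective V L)).2 h2)⟩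
      · rw [(map_eq_zero_iff _ (et_faith V W)).1 e, map_zero, zero_div]
      · exact (map_eq_zero_iff _ (et_faith V W)).1 e
    exact ⟨fun _ => h1.pw d, fun _ => (hl f h1).pw d⟩
  obtain ⟨π, -, hπ⟩ := h.unif L _ (h.under_ne hP)
  obtain ⟨a, ha⟩ := hπ.ex f hf
  have h1 := hl _ ha
  rw [map_div₀, map_zpow₀, hι] at h1
  rw [hπ.pw_iff ha, (h.unif_et (L' := L') P hP hπ).pw_iff h1]

/-- Idempotents: an etale algebra over a normal domain is a finite product of domains
(`et_dec`; for complete orthogonal idempotents the map to the product of the localisations is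
bijective). -/
theorem et_prod (V W : Type) [CommRing V] [IsDomain V] [IsIntegrallyClosed V] [CommRing W]
    [Algebra V W] [Algebra.Etale V W] : ∃ (r : ℕ) (e : Fin r → W),
      (∀ i, IsDomain (Localization.Away (e i))) ∧
      Function.Bijective (RingHom.pi fun i => algebraMap W (Localization.Away (e i))) := by
  obtain ⟨r, e, hc, hd⟩ := et_dec V W
  refine ⟨r, e, hd, fun x y h => ?_, fun z => ?_⟩
  · have h1 : ∀ i, e i * x = e i * y := fun i => by
      obtain ⟨⟨_, n, rfl⟩, hn⟩ :=
        (IsLocalization.eq_iff_exists (Submonoid.powers (e i)) _).1 (congrFun h i)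
      have h2 := congrArg (e i * ·) hn
      simp only [← mul_assoc, ← pow_succ', (hc.idem i).pow_succ_eq] at h2
      exact h2
    rw [← one_mul x, ← one_mul y, ← hc.complete, Finset.sum_mul, Finset.sum_mul]
    exact Finset.sum_congr rfl fun i _ => h1 i
  · choose x hx using fun i => IsLocalization.Away.algebraMap_surjective_of_isIdempotentElem
      (S := Localization.Away (e i)) (e i) (hc.idem i) (z i)
    refine ⟨∑ i, e i * x i, funext fun i => (hx i) ▸
      (IsLocalization.eq_iff_exists (Submonoid.powers (e i)) _).2 ⟨⟨_, Submonoid.mem_powers _⟩, ?_⟩⟩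
    change e i * _ = e i * _
    rw [Finset.mul_sum, Finset.sum_eq_single i, ← mul_assoc, (hc.idem i).eq]
    · intro j _ hj
      rw [← mul_assoc, hc.ortho hj.symm, zero_mul]
    · simp

end

end Pool.Agent.Lib.MP_16ef92_ag.CV
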