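import Mathlib
import Pool.Agent.Lib.MP_16ef92_ag.CV.R6
import Pool.Agent.Lib.MP_16ef92_ag.CV.Kum
import Pool.Agent.Lib.MP_16ef92_ag.CV.PU

set_option autoImplicit false
set_option linter.unusedSectionVars false
set_option linter.unusedVariables false
set_option linter.style.haveILetI false

namespace Pool.Agent.Lib.MP_16ef92_ag.CV

open RS

noncomputable section

variable [Bg] {V W L T : Type} [CommRing V] [CommRing W] [Field L] [CommRing T] {n : ℕ} [NeZero n]
  {M : Type} [AddCommGroup M]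

/-- The generic fibre of an etale algebra that is a domain is its fraction field (`et_field`,
`csta_inj`, `csta_frac`). -/
theorem exists_gen [IsDomain V] [Algebra V L] [IsFractionRing V L] {c : V →+* W} (hc : c.Etale)
    [IsDomain W] : ∃ e : Ten c (algebraMap V L) →+* FractionRing W, Function.Bijective e ∧
      e.comp (Ten.inl c _) = algebraMap W (FractionRing W) := by
  have hj : @IsFractionRing V _ L _ (algebraMap V L).toAlgebra := by
    rw [toAlgebra_algebraMap]
    infer_instance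
  generalize algebraMap V L = j at hj
  letI := c.toAlgebra
  letI := j.toAlgebra
  haveI : Algebra.Etale V W := hc
  haveI := (et_field V L W).2
  let e := IsLocalization.algEquiv (nonZeroDivisors W) (TensorProduct V W L) (FractionRing W)
  exact ⟨e.toRingEquiv.toRingHom, e.bijective, RingHom.ext e.commutes⟩

theorem spla_normal [IsDomain V] [IsIntegrallyClosed V] {c : V →+* W} (hc : c.Etale)
    [IsDomain W] : IsIntegrallyClosed W := by
  letI := c.toAlgebra
  haveI : Algebra.Etale V W := hc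
  exact et_normal V W

/-- A neighbourhood of `y` that is a normal domain (`et_dom`, `et_normal`, `pnt_away`). -/
theorem exists_dom [IsDomain V] [IsIntegrallyClosed V] {c : V →+* W} (hc : c.Etale) (y : Pnt W) :
    ∃ (W' : Type) (_ : CommRing W') (d : W →+* W') (z : Pnt W'), d.Etale ∧ z.comp d = y ∧
      IsDomain W' ∧ IsIntegrallyClosed W' := by
  obtain ⟨e, he, -, hd⟩ : ∃ e : W, e ∉ RingHom.ker y ∧ IsIdempotentElem e ∧
      IsDomain (Localization.Away e) := by
    letI := c.toAlgebra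
    haveI : Algebra.Etale V W := hc
    haveI := RingHom.ker_isPrime y
    exact et_dom V W _
  obtain ⟨z, hz⟩ := pnt_away y he
  exact ⟨_, _, _, z, et_away e, hz, hd, spla_normal (et_comp hc (et_away e))⟩

theorem spla_roots (hn : IsUnit (n : W)) {ι : Type} (u : ι → Wˣ) (s : Finset ι) :
    ∃ (W' : Type) (_ : CommRing W') (d : W →+* W'), Cov d ∧ ∀ i ∈ s, ∃ w, w ^ n = d (u i) := by
  classical
  induction s using Finset.induction_on with
  | empty => exact ⟨W, _, RingHom.id W, ⟨et_id, fun y => ⟨y, rfl⟩⟩, by simp⟩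
  | insert a s _ ih =>
    obtain ⟨W', _, d, hd, h⟩ := ih
    obtain ⟨W'', _, b, w, hb, hw, -⟩ := exists_root_cov (n := n) (by simpa using hn.map d)
      (Units.map (d : W →* W') (u a))
    refine ⟨W'', _, b.comp d, ⟨et_comp hd.et hb.et, hd.sur.comp hb.sur⟩, fun i hi => ?_⟩
    rcases Finset.mem_insert.1 hi with rfl | hi
    · exact ⟨w, hw⟩
    · obtain ⟨w', hw'⟩ := h i hi
      exact ⟨b w', by rw [← map_pow, hw']; rfl⟩

/-- Write `f i = z ^ n * s / t` with `s, t ∉ ker y`; invert all `s`, `t` and adjoin the roots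
(`exists_root_cov`, induction on the index set or one step for each index). -/
theorem exists_spl [IsDomain W] [Algebra W L] [IsFractionRing W L] (hn : IsUnit (n : W))
    (y : Pnt W) {ι : Type} [Finite ι] (f : ι → Lˣ) (h : ∀ i, Pw (RingHom.ker y) n (f i : L)) :
    ∃ (W' : Type) (_ : CommRing W') (d : W →+* W') (z : Pnt W'), d.Etale ∧ z.comp d = y ∧
      ∀ (T : Type) [CommRing T] (a : W' →+* T) (b : L →+* T),
        a.comp d = b.comp (algebraMap W L) → ∀ i, ∃ v : Tˣ, Units.map (b : L →* T) (f i) = v ^ n :=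
  by
  have := Fintype.ofFinite ι
  choose z hz s t hs ht e using h
  have hg : y (∏ i, s i * t i) ≠ 0 := by
    rw [map_prod, Finset.prod_ne_zero_iff]
    exact fun i _ => (map_mul y _ _).trans_ne (mul_ne_zero (hs i) (ht i))
  obtain ⟨y₁, hy₁⟩ := pnt_away y hg
  have hu := fun i => IsLocalization.Away.isUnit_of_dvd (S := Localization.Away (∏ i, s i * t i))
    _ (Finset.dvd_prod_of_mem (fun i => s i * t i) (Finset.mem_univ i))
  simp only [map_mul, IsUnit.mul_iff] at hu
  obtain ⟨W', _, d, hd, h⟩ := spla_roots (n := n) (by simpa using hn.map (algebraMap W _))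
    (fun i => (hu i).1.unit * (hu i).2.unit⁻¹) Finset.univ
  obtain ⟨y', hy'⟩ := hd.sur y₁
  refine ⟨W', _, d.comp (algebraMap W _), y', et_comp (et_away _) hd.et,
    (congrArg (RingHom.comp · _) hy').trans hy₁, fun T _ a b hab i => ?_⟩
  obtain ⟨w, hw⟩ := h i (Finset.mem_univ i)
  have k : ∀ r : W, a (d (algebraMap W _ r)) = b (algebraMap W L r) := RingHom.congr_fun hab
  have h1 : w ^ n * d (algebraMap W _ (t i)) = d (algebraMap W _ (s i)) := by
    rw [hw, ← map_mul, Units.val_mul, mul_assoc, IsUnit.val_inv_mul, mul_one, IsUnit.unit_spec]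
  have h2 := congrArg a h1
  have h3 : (f i : L) * algebraMap W L (t i) = z i ^ n * algebraMap W L (s i) := by
    rw [← e i, ← mul_assoc, mul_div_cancel₀ _ (pow_ne_zero _ (hz i))]
  have h4 := congrArg b h3
  rw [map_mul, map_pow, k, k] at h2
  rw [map_mul, map_mul, map_pow, ← h2, ← mul_assoc, ← mul_pow] at h4
  have h5 := (k _ ▸ ((hu i).2.map d).map a).mul_right_cancel h4
  have h6 := (isUnit_pow_iff (NeZero.ne n)).1 (h5 ▸ (f i).isUnit.map b)
  exact ⟨h6.unit, Units.ext h5⟩

/-- `rc_cm`, `kum_map`, `kum_pow_n`. -/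
theorem rc_sum_zero (hM : ∀ m : M, n • m = 0) {ζ : V} (hζ : Prim n ζ) {ι : Type} [Fintype ι]
    (f : ι → Vˣ) (m : ι → M) (b : V →+* T)
    (h : ∀ i, ∃ v : Tˣ, Units.map (b : V →* T) (f i) = v ^ n) :
    rc 1 M b (∑ i, cm hM (kum n ζ (f i)) (m i)) = 0 := by
  rw [map_sum]
  refine Finset.sum_eq_zero fun i _ => ?_
  obtain ⟨v, hv⟩ := h i
  rw [rc_cm, kum_map hζ, hv, kum_pow_n (hζ.map b), map_zero, AddMonoidHom.zero_apply]

theorem rc_sum (hM : ∀ m : M, n • m = 0) {ζ : V} (hζ : Prim n ζ) {ι : Type} [Fintype ι]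
    (f : ι → Vˣ) (m : ι → M) (b : V →+* T) : rc 1 M b (∑ i, cm hM (kum n ζ (f i)) (m i)) =
      ∑ i, cm hM (kum n (b ζ) (Units.map (b : V →* T) (f i))) (m i) := by
  rw [map_sum]
  exact Finset.sum_congr rfl fun i _ => by rw [rc_cm, kum_map hζ]

/-- `HR_HR`; `Ten.map` is functorial (`Ten.hom_ext`). -/
theorem DiesAt.of_res {g : V →+* T} {F : Sys T} {c : V →+* W} {W' : Type} [CommRing W']
    {d : W →+* W'} (hd : d.Etale) {z : Pnt W'} {η : HH 1 F (Ten.inr c g)}
    (h : DiesAt F z (HR 1 F (Ten.map g d rfl) (Ten.map_inr g d rfl) η)) :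
    DiesAt F (z.comp d) η := by
  obtain ⟨W₂, _, d', z', hd', rfl, h0⟩ := h
  refine ⟨W₂, _, d'.comp d, z', et_comp hd hd', rfl, ?_⟩
  have e : (Ten.map g d' rfl : Ten (d.comp c) g →+* Ten (d'.comp (d.comp c)) g).comp
      (Ten.map g d rfl) = Ten.map (a := c) g (d'.comp d) rfl := by
    refine Ten.hom_ext ?_ ?_
    · have e1 := Ten.map_inl (a := c) g d rfl
      have e2 := Ten.map_inl (a := d.comp c) g d' rfl
      have e3 := Ten.map_inl (a := c) g (d'.comp d) rfl
      exact ((congrArg (RingHom.comp _) e1).trans (congrArg (RingHom.comp · d) e2)).trans e3.symm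
    · have e1 := Ten.map_inr (a := c) g d rfl
      have e2 := Ten.map_inr (a := d.comp c) g d' rfl
      have e3 := Ten.map_inr (a := c) g (d'.comp d) rfl
      exact ((congrArg (RingHom.comp _) e1).trans e2).trans e3.symm
  exact (HR_HR 1 F _ _ _ _ _ (Ten.map_inr (a := c) g (d'.comp d) rfl) e η).symm.trans h0

/-- `exists_spl`, with `T = Ten (d.comp c) g`, `a = Ten.inl`, `b = Ten.map g d ∘ e⁻¹`. -/
theorem diesAt_sum (hM : ∀ m : M, n • m = 0) {g : V →+* T} {c : V →+* W} [IsDomain W]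
    [Algebra W L] [IsFractionRing W L] {e : Ten c g →+* L} (he : Function.Bijective e)
    (he' : e.comp (Ten.inl c g) = algebraMap W L) (hn : IsUnit (n : W)) {ζ : L} (hζ : Prim n ζ)
    (y : Pnt W) {ι : Type} [Fintype ι] (f : ι → Lˣ) (m : ι → M)
    (h : ∀ i, Pw (RingHom.ker y) n (f i : L)) (η : H 1 (cst (Ten c g) M))
    (hη : rc 1 M e η = ∑ i, cm hM (kum n ζ (f i)) (m i)) : DiesAt (cst T M) y η := by
  obtain ⟨W', _, d, z, hd, hz, H⟩ := exists_spl hn y f h
  let E := RingEquiv.ofBijective e he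
  let b : L →+* Ten (d.comp c) g := (Ten.map g d rfl).comp E.symm.toRingHom
  have h1 : b.comp e = Ten.map g d rfl :=
    RingHom.ext fun t => congrArg (Ten.map g d rfl) (E.symm_apply_apply t)
  have h2 : (Ten.inl (d.comp c) g).comp d = b.comp (algebraMap W L) := by
    rw [← he', ← RingHom.comp_assoc, h1, Ten.map_inl]
  refine ⟨W', _, d, z, hd, hz, (rc_HR _ _ η).trans ?_⟩
  rw [← rc_rc e b _ h1, hη]
  exact rc_sum_zero hM hζ f m b (H _ _ b h2)

/-- `exists_spl`, with `T = Ten d g`, `a = Ten.inl`, `b = Ten.inr`; `rc_can`. -/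
theorem diesG_sum (hM : ∀ m : M, n • m = 0) [IsDomain V] [Algebra V L] [IsFractionRing V L]
    (hn : IsUnit (n : V)) {ζ : L} (hζ : Prim n ζ) (x : Pnt V) {ι : Type} [Fintype ι] (f : ι → Lˣ)
    (m : ι → M) (h : ∀ i, Pw (RingHom.ker x) n (f i : L)) :
    DiesG (algebraMap V L) (cst L M) x (∑ i, cm hM (kum n ζ (f i)) (m i)) := by
  obtain ⟨W', _, d, z, hd, hz, H⟩ := exists_spl hn x f h
  exact ⟨W', _, d, z, hd, hz, (rc_can _ _).trans
    (rc_sum_zero hM hζ f m _ (H _ _ _ (Ten.comm d (algebraMap V L))))⟩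

end

end Pool.Agent.Lib.MP_16ef92_ag.CV
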