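import Mathlib
import Pool.Agent.Lib.MP_16ef92_ag.CV.Spl

set_option autoImplicit false
set_option linter.unusedSectionVars false
set_option linter.unusedVariables false
set_option linter.style.haveILetI false

namespace Pool.Agent.Lib.MP_16ef92_ag.CV

open RS

noncomputable section

variable [Bg] {V W : Type} [CommRing V] [CommRing W] {n : ℕ} [NeZero n]

variable (n) in
/-- `ξ` is the Kummer class of `f` wherever `f` does not vanish. -/
def IsKum (ζ f : V) (ξ : H 1 (cst V (ZMod n))) : Prop :=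
  ∀ (L : Type) [Field L] (η : V →+* L) (u : Lˣ), η f = u → rc 1 (ZMod n) η ξ = kum n (η ζ) u

variable {ζ f g : V} {ξ ξ' : H 1 (cst V (ZMod n))}

theorem IsKum.map (h : IsKum n ζ f ξ) (b : V →+* W) :
    IsKum n (b ζ) (b f) (rc 1 (ZMod n) b ξ) := fun L _ η u hu =>
  (rc_rc b η _ rfl ξ).trans (h L (η.comp b) u hu)

theorem IsKum.mul (hζ : Prim n ζ) (h : IsKum n ζ f ξ) (h' : IsKum n ζ g ξ') :
    IsKum n ζ (f * g) (ξ + ξ') := fun L _ η u hu => by
  have h0 : η f * η g ≠ 0 := by rw [← map_mul, hu]; exact u.ne_zero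
  have h1 := left_ne_zero_of_mul h0
  have h2 := right_ne_zero_of_mul h0
  rw [map_add, h L η (Units.mk0 _ h1) rfl, h' L η (Units.mk0 _ h2) rfl, ← kum_mul (hζ.map η)]
  congr 1
  exact Units.ext (by rw [← hu, map_mul]; rfl)

theorem isKum_one (hζ : Prim n ζ) : IsKum n ζ 1 0 := fun L _ η u hu => by
  rw [map_zero, show u = 1 from Units.ext (by rw [← hu, map_one]; rfl), kum_one (hζ.map η)]

theorem IsKum.zeta {j : ℕ} (hζ : Prim n ζ) (hζ' : Prim n (ζ ^ j)) (h : IsKum n (ζ ^ j) f ξ) :
    IsKum n ζ f (j • ξ) := fun L _ η u hu => by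
  rw [map_nsmul, h L η u hu, map_pow]
  exact (kum_zeta (hζ.map η) (by simpa using hζ'.map η) u).symm

theorem nrm_map (hζ : Prim n ζ) (u : Vˣ) (b : V →+* W) {ζ' : W} {v : Wˣ} (h1 : b ζ = ζ')
    (h2 : b u = v) : rc 1 (ZMod n) b (kum n ζ u) = kum n ζ' v := by
  rw [kum_map hζ, h1, show Units.map (b : V →* W) u = v from Units.ext h2]

variable [IsDomain V] [IsIntegrallyClosed V]

/-- Compare at the generic point: `rc_gen_inj`, `kum_mul`, `kum_pow_n`. -/
theorem IsKum.eq (hV : Good V) (hζ : Prim n ζ) (h : IsKum n ζ f ξ) (h' : IsKum n ζ g ξ') {a b : V}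
    (ha : a ≠ 0) (hf : f ≠ 0) (e : a ^ n * f = b ^ n * g) : ξ = ξ' := by
  have h0 : b ^ n * g ≠ 0 := e ▸ mul_ne_zero (pow_ne_zero _ ha) hf
  have hb : b ≠ 0 := fun h1 => left_ne_zero_of_mul h0 (by rw [h1, zero_pow (NeZero.ne n)])
  have hj : ∀ {x : V}, x ≠ 0 → algebraMap V (FractionRing V) x ≠ 0 := fun hx =>
    (map_ne_zero_iff _ (IsFractionRing.injective V _)).2 hx
  have hp := hζ.map (algebraMap V (FractionRing V))
  have h2 : Units.mk0 _ (hj ha) ^ n * Units.mk0 _ (hj hf) =
      Units.mk0 _ (hj hb) ^ n * Units.mk0 _ (hj (right_ne_zero_of_mul h0)) := Units.ext (by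
    simp only [Units.val_mul, Units.val_pow_eq_pow_val, Units.val_mk0, ← map_pow, ← map_mul, e])
  have h3 := congrArg (kum n (algebraMap V (FractionRing V) ζ)) h2
  rw [kum_mul hp, kum_mul hp, kum_pow_n hp, kum_pow_n hp, zero_add, zero_add] at h3
  exact rc_gen_inj (L := FractionRing V) hV ((h _ _ _ rfl).trans (h3.trans (h' _ _ _ rfl).symm))

/-- On `Localization.Away f`, a normal good domain with the same fraction field, `ξ` is the Kummer
class of the unit `f` (`rc_gen_inj`, `kum_map`); every `η` with `η f ≠ 0` factors through it. -/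
theorem isKum_of_gen (hV : Good V) (hζ : Prim n ζ) {L : Type} [Field L] [Algebra V L]
    [IsFractionRing V L] {u : Lˣ} (hu : algebraMap V L f = u)
    (h : rc 1 (ZMod n) (algebraMap V L) ξ = kum n (algebraMap V L ζ) u) : IsKum n ζ f ξ := by
  have hf : f ≠ 0 := fun e => u.ne_zero (by rw [← hu, e, map_zero])
  have hle := powers_le_nonZeroDivisors_of_noZeroDivisors hf
  have : IsDomain (Localization.Away f) := IsLocalization.isDomain_localization hle
  have : IsIntegrallyClosed (Localization.Away f) := isIntegrallyClosed_of_isLocalization _ _ hle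
  have h1 : IsUnit (algebraMap V L f) := hu ▸ u.isUnit
  letI : Algebra (Localization.Away f) L := (IsLocalization.Away.lift f h1).toAlgebra
  have h2 : (algebraMap (Localization.Away f) L).comp (algebraMap V _) = algebraMap V L :=
    IsLocalization.Away.lift_comp f h1
  have : IsScalarTower V (Localization.Away f) L := IsScalarTower.of_algebraMap_eq' h2.symm
  have : IsFractionRing (Localization.Away f) L :=
    IsFractionRing.isFractionRing_of_isDomain_of_isLocalization (Submonoid.powers f) _ _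
  obtain ⟨w, hw⟩ := IsLocalization.Away.algebraMap_isUnit (S := Localization.Away f) f
  have hp := hζ.map (algebraMap V (Localization.Away f))
  have h3 : rc 1 (ZMod n) (algebraMap V (Localization.Away f)) ξ = kum n (algebraMap V _ ζ) w :=
    rc_gen_inj (L := L) (hV.loc (Submonoid.powers f) _) (((rc_rc _ _ _ h2 ξ).trans h).trans
      (nrm_map hp w _ (RingHom.congr_fun h2 ζ)
        (by rw [hw, ← hu]; exact RingHom.congr_fun h2 f)).symm)
  intro L' _ η v hv
  have h4 : IsUnit (η f) := hv ▸ v.isUnit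
  have h5 := IsLocalization.Away.lift_comp (S := Localization.Away f) f h4
  rw [← rc_rc _ _ _ h5 ξ, h3]
  exact nrm_map hp w _ (RingHom.congr_fun h5 ζ) (by rw [hw, ← hv]; exact RingHom.congr_fun h5 f)

/-- `kum ζ f` over the fraction field dies near every point (`diesG_sum` with the one term
`m = 1`, or `exists_spl` and `kum_map`); `leray1`, `unitJ_inj`, `unitJ_surj`, `Hmap_bij`,
`eps_unitJ`. -/
theorem exists_isKum (hV : Good V) (hζ : Prim n ζ) (hf : f ≠ 0)
    (h : ∀ q : Ideal V, q.IsPrime → ∃ r s z : V, r ∉ q ∧ s ∉ q ∧ f * r = s * z ^ n) :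
    ∃ ξ, IsKum n ζ f ξ := by
  have hj : ∀ {x : V}, x ≠ 0 → algebraMap V (FractionRing V) x ≠ 0 := fun hx =>
    (map_ne_zero_iff _ (IsFractionRing.injective V _)).2 hx
  have hp := hζ.map (algebraMap V (FractionRing V))
  obtain ⟨ξ₁, h1⟩ := leray1 (g := algebraMap V (FractionRing V)) _
    (kum n (algebraMap V (FractionRing V) ζ) (Units.mk0 _ (hj hf))) fun x => by
      obtain ⟨r, s, z, hr, hs, e⟩ := h _ (RingHom.ker_isPrime x)
      have hz : z ≠ 0 := by
        rintro rfl
        rw [zero_pow (NeZero.ne n), mul_zero, mul_eq_zero] at e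
        exact e.elim hf fun e => hr (e ▸ zero_mem _)
      obtain ⟨W', _, d, y, hd, hy, h2⟩ := exists_spl hζ.unit x
        (fun _ : Unit => Units.mk0 _ (hj hf)) fun _ => ⟨_, hj hz, s, r, hs, hr, by
          rw [Units.val_mk0, div_mul_eq_mul_div, div_eq_iff (pow_ne_zero _ (hj hz)), ← map_mul, e,
            map_mul, map_pow]⟩
      obtain ⟨v, hv⟩ := h2 _ _ _ (Ten.comm d _) ()
      refine ⟨W', _, d, y, hd, hy, (rc_can _ _).trans ?_⟩
      rw [kum_map hp, hv]
      exact kum_pow_n (hp.map _) v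
  obtain ⟨ξ, rfl⟩ := (Hmap_bij 1 _ (unitJ_inj hV) (unitJ_surj hV)).2 ξ₁
  exact ⟨ξ, isKum_of_gen hV hζ (u := Units.mk0 _ (hj hf)) rfl ((eps_unitJ 1 ξ).symm.trans h1)⟩

end

end Pool.Agent.Lib.MP_16ef92_ag.CV
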