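import Mathlib
import Pool.Agent.Lib.MP_16ef92_ag.CV.Nrm
import Pool.Agent.Lib.MP_16ef92_ag.CV.E6
import Pool.Agent.Lib.MP_16ef92_ag.CV.E7
import Pool.Agent.Lib.MP_16ef92_ag.CV.Chr

set_option autoImplicit false
set_option linter.unusedSectionVars false
set_option linter.unusedVariables false
set_option linter.style.haveILetI false

namespace Pool.Agent.Lib.MP_16ef92_ag.CV

open RS Polynomial WeierstrassCurve WeierstrassCurve.Affine
  WeierstrassCurve.Affine.CoordinateRing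

noncomputable section

variable [Bg] {A A' L : Type} [CommRing A] [CommRing A'] [Field L] [DecidableEq L] {W : Affine A}
  {W' : Affine L} {ι : A →+* L} {n : ℕ} [NeZero n] {ζ : A}

variable (n) in
/-- The hypotheses on the base ring. -/
structure NB (ζ : A) : Prop where
  gd : Good A
  prim : Prim n ζ
  four : ∀ c : A, c ^ 4 = 1 → ∃ z : A, z ^ n = c

variable (W n ζ) in
/-- `c` is the class of the torsion point `o`. -/
def KC (o : Op A) (c : H 1 (cst W.CoordinateRing (ZMod n))) : Prop :=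
  ∃ f, Rep W n o f ∧ IsKum n (algebraMap A W.CoordinateRing ζ) f c

variable {o o₁ o₂ o₃ : Op A} {c c' c₁ c₂ c₃ : H 1 (cst W.CoordinateRing (ZMod n))}

theorem good_coord (h : Good A) (W : Affine A) : Good W.CoordinateRing :=
  h.ft (RingHom.FiniteType.of_finitePresentation (coord_fp W))

theorem KC.none (h : Prim n ζ) : KC W n ζ none 0 := ⟨1, rep_none W n, isKum_one (h.map _)⟩

theorem KC.map {W₂ : Affine A'} {φ : A →+* A'} {ψ : W.CoordinateRing →+* W₂.CoordinateRing}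
    (hc : CM W W₂ φ ψ) (h : KC W n ζ o c) :
    KC W₂ n (φ ζ) (omap φ o) (rc 1 (ZMod n) ψ c) := by
  obtain ⟨f, h1, h2⟩ := h
  exact ⟨ψ f, h1.map hc, hc.alg ζ ▸ h2.map ψ⟩

theorem KC.zeta {k : ℕ} (h1 : Prim n ζ) (h2 : Prim n (ζ ^ k)) (h : KC W n (ζ ^ k) o c) :
    KC W n ζ o (k • c) := by
  obtain ⟨f, h3, h4⟩ := h
  rw [map_pow] at h4
  exact ⟨f, h3, h4.zeta (h1.map _) (by simpa using h2.map (algebraMap A W.CoordinateRing))⟩

section Normal

variable [IsDomain A] [IsIntegrallyClosed A]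

theorem KC.ex (hA : NB n ζ) (h : Ok W) (hι : Function.Injective ι) (hW : W.map ι = W')
    {P : W'.Point} (ho : omap ι o = pt P) (hP : n • P = 0) : ∃ c, KC W n ζ o c := by
  have := h.normal
  obtain ⟨f, hf⟩ := rep_ex_int h hι hW ho hP
  obtain ⟨c, hc⟩ := exists_isKum (good_coord hA.gd W) (hA.prim.map (algebraMap A _))
    hf.mon.ne_zero fun q hq => hf.loc h (on_of hι hW ho) q
  exact ⟨c, f, hf, hc⟩

theorem KC.unique (hA : NB n ζ) (h : Ok W) (h1 : KC W n ζ o c) (h2 : KC W n ζ o c') : c = c' := by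
  have := h.normal
  obtain ⟨f, hf, h1⟩ := h1
  obtain ⟨g, hg, h2⟩ := h2
  obtain ⟨z, hz⟩ := rep_uniq_int hA.four hf hg
  exact h1.eq (good_coord hA.gd W) (hA.prim.map _) h2 (a := 1) (b := z) one_ne_zero
    hf.mon.ne_zero (by rw [one_pow, one_mul, hz])

theorem KC.add (hA : NB n ζ) (h : Ok W) (hι : Function.Injective ι) (hW : W.map ι = W')
    {P Q : W'.Point} (e1 : omap ι o₁ = pt P) (e2 : omap ι o₂ = pt Q) (e3 : omap ι o₃ = pt (P + Q))
    (h1 : KC W n ζ o₁ c₁) (h2 : KC W n ζ o₂ c₂) (h3 : KC W n ζ o₃ c₃) : c₃ = c₁ + c₂ := by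
  have := h.normal
  obtain ⟨f, hf, h1⟩ := h1
  obtain ⟨g, hg, h2⟩ := h2
  obtain ⟨k, hk, h3⟩ := h3
  obtain ⟨a, b, ha, e⟩ := rep_add_int h hι hW hA.four e1 e2 e3 hf hg hk
  exact ((h1.mul (hA.prim.map _) h2).eq (good_coord hA.gd W) (hA.prim.map _) h3 ha
    (hf.mon.mul hg.mon).ne_zero e).symm

theorem omap_inj (hι : Function.Injective ι) : Function.Injective (omap ι) :=
  Option.map_injective (hι.prodMap hι)

theorem KC.nsmul (hA : NB n ζ) (h : Ok W) (hι : Function.Injective ι) (hW : W.map ι = W')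
    (hr : ∀ P : W'.Point, n • P = 0 → ∃ o, omap ι o = pt P) {P : W'.Point} (hP : n • P = 0)
    (e : omap ι o = pt P) (h1 : KC W n ζ o c) (a : ℕ) {o' : Op A} (e' : omap ι o' = pt (a • P))
    (h2 : KC W n ζ o' c') : c' = a • c := by
  induction a generalizing o' c' with
  | zero =>
    rw [zero_smul] at e' ⊢
    obtain rfl : o' = Option.none := omap_inj hι e'
    exact h2.unique hA h (KC.none hA.prim)
  | succ a ih =>
    have ha : n • a • P = 0 := by rw [smul_comm, hP, smul_zero]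
    obtain ⟨o'', e''⟩ := hr _ ha
    obtain ⟨c'', h3⟩ := KC.ex hA h hι hW e'' ha
    rw [succ_nsmul] at e' ⊢
    rw [KC.add hA h hι hW e'' e e' h3 h1 h2, ih e'' h3]

theorem KC.comb (hA : NB n ζ) (h : Ok W) (hι : Function.Injective ι) (hW : W.map ι = W')
    (hr : ∀ P : W'.Point, n • P = 0 → ∃ o, omap ι o = pt P) {P Q : W'.Point} (hP : n • P = 0)
    (hQ : n • Q = 0) (e1 : omap ι o₁ = pt P) (e2 : omap ι o₂ = pt Q) (h1 : KC W n ζ o₁ c₁)
    (h2 : KC W n ζ o₂ c₂) (a b : ℕ) (e : omap ι o = pt (a • P + b • Q)) (h3 : KC W n ζ o c) :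
    c = a • c₁ + b • c₂ := by
  have ha : n • a • P = 0 := by rw [smul_comm, hP, smul_zero]
  have hb : n • b • Q = 0 := by rw [smul_comm, hQ, smul_zero]
  obtain ⟨oa, ea⟩ := hr _ ha
  obtain ⟨ob, eb⟩ := hr _ hb
  obtain ⟨ca, ka⟩ := KC.ex hA h hι hW ea ha
  obtain ⟨cb, kb⟩ := KC.ex hA h hι hW eb hb
  rw [KC.add hA h hι hW ea eb e ka kb h3, KC.nsmul hA h hι hW hr hP e1 h1 a ea ka,
    KC.nsmul hA h hι hW hr hQ e2 h2 b eb kb]

end Normal

theorem KC.nat [IsDomain A'] [IsIntegrallyClosed A'] {W₂ : Affine A'} {φ : A →+* A'}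
    {ψ : W.CoordinateRing →+* W₂.CoordinateRing} {ζ₂ : A'} {k : ℕ} (hζ : Prim n ζ)
    (hA : NB n ζ₂) (h : Ok W₂) (hc : CM W W₂ φ ψ) (hk : φ ζ = ζ₂ ^ k) (h1 : KC W n ζ o c)
    {c₂ : H 1 (cst W₂.CoordinateRing (ZMod n))} (h2 : KC W₂ n ζ₂ (omap φ o) c₂) :
    c₂ = k • Hmap 1 (cstMap ψ (AddMonoidHom.id (ZMod n))) c :=
  h2.unique hA h (KC.zeta hA.prim (hk ▸ hζ.map φ) (hk ▸ h1.map hc))

section Fld

variable {K : Type} [Field K] [DecidableEq K] {E : Affine K} {ζ : K} {M : Type} [AddCommGroup M]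

theorem Prim.root (hK : Good K) (h : Prim n ζ) : IsPrimitiveRoot ζ n := by
  obtain ⟨x, -⟩ := hK ⊥ Ideal.isPrime_bot
  exact (h.prim x).of_map_of_injective x.injective

/-- Restrict to the function field (`rc_cm`, the definition of `IsKum`); `fk_rel`, `rep_ind`. -/
theorem kc_ind (hK : Good K) (hζ : Prim n ζ) (h : Ok E) (hM : ∀ m : M, n • m = 0) {ι : Type}
    [Fintype ι] (Q : ι → E.Point) (c : ι → H 1 (cst E.CoordinateRing (ZMod n)))
    (hc : ∀ i, KC E n ζ (pt (Q i)) (c i)) (m : ι → M) (h0 : ∑ i, cm hM (c i) (m i) = 0)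
    (ψ : M →+ ZMod n) : ∑ i, (ψ (m i)).val • Q i = 0 := by
  obtain rfl : ‹DecidableEq K› = fun a b => Classical.propDecidable (a = b) := Subsingleton.elim _ _
  choose f hf hk using hc
  have hL : Good E.FunctionField := (good_coord hK E).loc (nonZeroDivisors _) _
  have h1 : ∀ i, algebraMap _ E.FunctionField (f i) ≠ 0 := fun i =>
    (map_ne_zero_iff _ (IsFractionRing.injective _ _)).2 (hf i).mon.ne_zero
  have h2 := congrArg (rc 1 M (algebraMap _ E.FunctionField)) h0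
  rw [map_sum, map_zero, Finset.sum_congr rfl fun i _ => (rc_cm hM _ _ _).trans
    (congrArg (cm hM · (m i)) (hk i _ _ (Units.mk0 _ (h1 i)) rfl))] at h2
  obtain ⟨z, hz⟩ := fk_rel hM hL (((hζ.map _).map _).root hL) _ m h2 ψ
  refine rep_ind (L := E.FunctionField) (z := z) h (NeZero.ne n) Q f hf _ ?_
  simpa using congrArg Units.val hz

/-- `kc_ind` with `M = ZMod n`, `m = 1`; for `n = 1` use `Rep.tors`. -/
theorem KC.eq_zero (hK : Good K) (hζ : Prim n ζ) (h : Ok E) {Q : E.Point}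
    (hc : KC E n ζ (pt Q) 0) : Q = 0 := by
  have h1 := kc_ind hK hζ h (M := ZMod n) (fun m => by simp) (fun _ : Unit => Q) (fun _ => 0)
    (fun _ => hc) (fun _ => 1) (by simp) (AddMonoidHom.id _)
  obtain ⟨f, hf, -⟩ := hc
  rwa [Fintype.sum_unique, AddMonoidHom.id_apply, ZMod.val_one_eq_one_mod,
    ← nsmul_eq_mod_nsmul 1 (hf.tors h (NeZero.ne n)), one_nsmul] at h1

end Fld

/-- A basis of the torsion stays independent on every fibre.  Let `P = a₀ P₀ + a₁ P₁` with pair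
`o` and class `c = a₀ c₀ + a₁ c₁` (`KC.ex`, `KC.comb`).  On the fibre (`KC.map`, `cm_map`; `NB` by
`four_of`; `ι` the identity) `KC.comb` shows that the class restricts to `0`, so `omap τ o` is the
pair of a point (`exists_pt`, `On.map`) that vanishes (`KC.eq_zero`); hence `o = none`. -/
theorem fib_ind [IsDomain A] [IsIntegrallyClosed A] (hA : NB n ζ) (h : Ok W)
    (hι : Function.Injective ι) (hW : W.map ι = W')
    (hr : ∀ P : W'.Point, n • P = 0 → ∃ o, omap ι o = pt P) {P₀ P₁ : W'.Point} (h0 : n • P₀ = 0)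
    (h1 : n • P₁ = 0) (hi : ∀ a₀ a₁ : ℕ, a₀ • P₀ + a₁ • P₁ = 0 → n ∣ a₀ ∧ n ∣ a₁)
    (e0 : omap ι o₁ = pt P₀) (e1 : omap ι o₂ = pt P₁) {K : Type} [Field K] [DecidableEq K]
    [IsAlgClosed K] (hK : Good K) (τ : A →+* K) {E : Affine K} (hE : W.map τ = E) {Q₀ Q₁ : E.Point}
    (q0 : pt Q₀ = omap τ o₁) (q1 : pt Q₁ = omap τ o₂) (a₀ a₁ : ℕ)
    (ha : a₀ • Q₀ + a₁ • Q₁ = 0) : n ∣ a₀ ∧ n ∣ a₁ := by
  subst hE
  have hP : n • (a₀ • P₀ + a₁ • P₁) = 0 := by
    rw [smul_add, smul_comm, h0, smul_comm n, h1, smul_zero, smul_zero, add_zero]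
  obtain ⟨o, eo⟩ := hr _ hP
  obtain ⟨c₀, k0⟩ := KC.ex hA h hι hW e0 h0
  obtain ⟨c₁, k1⟩ := KC.ex hA h hι hW e1 h1
  obtain ⟨c, k⟩ := KC.ex hA h hι hW eo hP
  obtain rfl := KC.comb hA h hι hW hr h0 h1 e0 e1 k0 k1 a₀ a₁ eo k
  have l0 := k0.map (cm_map W τ)
  have l1 := k1.map (cm_map W τ)
  have l := k.map (cm_map W τ)
  obtain ⟨Q, hQ⟩ := exists_pt (h.map τ) ((on_of hι hW eo).map τ)
  rw [← q0] at l0
  rw [← q1] at l1
  have hB : NB n (τ ζ) := ⟨hK, hA.prim.map τ, four_of (RingHom.id K) (NeZero.ne n)⟩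
  have hid : ∀ o : Op K, omap (RingHom.id K) o = o := fun o => by cases o <;> rfl
  have h2 := KC.comb hB (h.map τ) (ι := RingHom.id K) Function.injective_id (map_id _)
    (fun P _ => ⟨_, hid _⟩) (l0.choose_spec.1.tors (h.map τ) (NeZero.ne n))
    (l1.choose_spec.1.tors (h.map τ) (NeZero.ne n)) (hid _) (hid _) l0 l1 a₀ a₁
    (by rw [ha]; rfl) (KC.none hB.prim)
  rw [← hQ, map_add, map_nsmul, map_nsmul, ← h2] at l
  rw [l.eq_zero hK hB.prim (h.map τ)] at hQ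
  obtain rfl : o = none := Option.map_eq_none_iff.1 hQ.symm
  exact hi a₀ a₁ (pt_inj eo.symm)

end

end Pool.Agent.Lib.MP_16ef92_ag.CV
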