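import Mathlib
import Pool.Agent.Lib.MP_16ef92_ag.CV.RDef
import Pool.Agent.Lib.MP_16ef92_ag.AL.WDiv

set_option autoImplicit false
set_option linter.unusedSectionVars false
set_option linter.unusedVariables false

namespace Pool.Agent.Lib.MP_16ef92_ag.CV

open Polynomial Pool.Agent.Lib.MP_6adaea_nt

noncomputable section

variable {K V L : Type} [Field K] [CommRing V] [Algebra K V] [Field L] [Algebra V L]
  [Algebra K L] [IsScalarTower K V L] [IsFractionRing V L]

/-- Noether normalisation (`exists_finite_inj_algHom_of_fg`): `V` is finite over a polynomial ring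
in `s` variables; `s ≠ 0` as `V` is not a field, and `s ≤ 1` as `V` has dimension at most one
(lift the chain `0 < (X 0) < (X 0, X 1)` by lying over / going up). -/
theorem Crv.isFF (h : Crv K V) : IsFF K L := by
  have := h.ded
  have := h.ft
  obtain ⟨s, g, gi, gf⟩ := exists_finite_inj_algHom_of_fg K V
  let _ : Algebra (MvPolynomial (Fin s) K) V := g.toRingHom.toAlgebra
  have hint : Algebra.IsIntegral (MvPolynomial (Fin s) K) V := ⟨gf.to_isIntegral⟩
  have hg : ∀ x, algebraMap (MvPolynomial (Fin s) K) V x = g x := fun _ => rfl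
  rcases s with _ | _ | s
  · exact absurd (isField_of_isIntegral_of_isField' (R := MvPolynomial (Fin 0) K)
      ((MvPolynomial.isEmptyRingEquiv K (Fin 0)).toMulEquiv.isField (Field.toIsField K))) h.nf
  · let t : L := algebraMap V L (g (MvPolynomial.X 0))
    have e : (MvPolynomial.aeval fun _ : Fin (0 + 1) => t) =
        (IsScalarTower.toAlgHom K V L).comp g :=
      MvPolynomial.algHom_ext fun i => by
        have : i = 0 := Subsingleton.elim (α := Fin 1) _ _
        subst this
        simp [t]
    have hi : AlgebraicIndependent K fun _ : Fin (0 + 1) => t := by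
      rw [algebraicIndependent_iff_injective_aeval, e]
      exact (IsFractionRing.injective V L).comp gi
    refine ⟨t, hi.transcendental 0, ?_⟩
    let F := IntermediateField.adjoin K {t}
    let ψ : MvPolynomial (Fin (0 + 1)) K →ₐ[K] F :=
      MvPolynomial.aeval fun _ => ⟨t, IntermediateField.mem_adjoin_simple_self K t⟩
    have hψ : F.val.comp ψ = (IsScalarTower.toAlgHom K V L).comp g := by
      rw [← e]
      exact MvPolynomial.algHom_ext fun i => by simp [ψ]
    have hI : ∀ x : V, IsIntegral F (algebraMap V L x) := fun x =>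
      IsIntegral.map_of_comp_eq ψ.toRingHom (algebraMap V L)
        (RingHom.ext fun y => DFunLike.congr_fun hψ y) (hint.isIntegral x)
    obtain ⟨T, hT⟩ := h.ft.out
    let S : Set L := algebraMap V L '' T
    have : Finite S := (T.finite_toSet.image _).to_subtype
    have hfd : FiniteDimensional F (IntermediateField.adjoin F S) :=
      IntermediateField.finiteDimensional_adjoin (by rintro _ ⟨x, -, rfl⟩; exact hI x)
    have hV : ∀ x : V, algebraMap V L x ∈ IntermediateField.adjoin F S := fun x => by
      have hx : x ∈ Algebra.adjoin K (T : Set V) := hT ▸ Algebra.mem_top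
      induction hx using Algebra.adjoin_induction with
      | mem x hx => exact IntermediateField.subset_adjoin _ _ ⟨x, hx, rfl⟩
      | algebraMap c =>
        rw [← IsScalarTower.algebraMap_apply, IsScalarTower.algebraMap_apply K F L]
        exact IntermediateField.algebraMap_mem _ _
      | add x y _ _ hx hy => rw [map_add]; exact add_mem hx hy
      | mul x y _ _ hx hy => rw [map_mul]; exact mul_mem hx hy
    have htop : IntermediateField.adjoin F S = ⊤ := eq_top_iff.2 fun x _ => by
      obtain ⟨a, b, -, rfl⟩ := IsFractionRing.div_surjective V x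
      exact div_mem (hV a) (hV b)
    rw [htop] at hfd
    exact IntermediateField.topEquiv.toLinearEquiv.finiteDimensional
  · exfalso
    let φ : MvPolynomial (Fin (s + 1 + 1)) K →ₐ[K] MvPolynomial (Fin (s + 1 + 1)) K :=
      MvPolynomial.aeval fun i => if i = 0 then 0 else MvPolynomial.X i
    have hP : (RingHom.ker φ).IsPrime := RingHom.ker_isPrime φ
    obtain ⟨Q, hQ, hc⟩ := Ideal.exists_ideal_over_prime_of_isIntegral_of_isDomain (S := V)
      (RingHom.ker φ) (fun x hx => by
        have : x = 0 := gi (by rw [map_zero]; exact hx)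
        rw [this]; exact zero_mem _)
    have h0 : (MvPolynomial.X 0 : MvPolynomial (Fin (s + 1 + 1)) K) ∈ RingHom.ker φ := by
      simp [φ, RingHom.mem_ker]
    have hQ0 : Q ≠ ⊥ := by
      rintro rfl
      rw [← hc, Ideal.mem_comap, Ideal.mem_bot, hg] at h0
      exact MvPolynomial.X_ne_zero _ (gi (h0.trans (map_zero g).symm))
    have hm : Q.IsMaximal := hQ.isMaximal hQ0
    have hm' := Ideal.isMaximal_comap_of_isIntegral_of_isMaximal
      (R := MvPolynomial (Fin (s + 1 + 1)) K) Q
    rw [hc] at hm'
    let ε : MvPolynomial (Fin (s + 1 + 1)) K →ₐ[K] K := MvPolynomial.aeval fun _ => 0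
    have hε : ε.comp φ = ε := MvPolynomial.algHom_ext fun i => by
      by_cases hi : i = 0 <;> simp [ε, φ, hi]
    have hle : RingHom.ker φ ≤ RingHom.ker ε := fun x hx => by
      rw [RingHom.mem_ker] at hx ⊢
      rw [← hε, AlgHom.comp_apply, hx, map_zero]
    have heq := hm'.eq_of_le (RingHom.ker_ne_top ε) hle
    have h1 : (MvPolynomial.X 1 : MvPolynomial (Fin (s + 1 + 1)) K) ∈ RingHom.ker φ := by
      rw [heq]
      simp [ε, RingHom.mem_ker]
    simp [φ, RingHom.mem_ker] at h1

/-- The place attached to a nonzero prime: `ord f = - log (v.valuation L f)` for the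
`HeightOneSpectrum` point `v = q`. -/
theorem Crv.place (h : Crv K V) (q : Ideal V) [q.IsPrime] (hq : q ≠ ⊥) :
    ∃ v : Place K L, (∀ f : L, f ≠ 0 → (LU q f ↔ v.ord f = 0)) ∧
      ∀ s : V, v.Ge (algebraMap V L s) 0 := by
  have := h.ded
  let p : IsDedekindDomain.HeightOneSpectrum V := ⟨q, inferInstance, hq⟩
  have ne : ∀ {f : L}, f ≠ 0 → p.valuation L f ≠ 0 := fun hf => (Valuation.ne_zero_iff _).2 hf
  have one : ∀ {s : V}, p.valuation L (algebraMap V L s) = 1 ↔ s ∉ q :=
    p.valuation_eq_one_iff_notMem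
  have le : ∀ s : V, p.valuation L (algebraMap V L s) ≤ 1 := fun s => p.valuation_le_one s
  have lg : ∀ {f : L}, f ≠ 0 → (-WithZero.log (p.valuation L f) = 0 ↔ p.valuation L f = 1) :=
    fun hf => ⟨fun e => by rw [← WithZero.exp_log (ne hf), neg_eq_zero.1 e, WithZero.exp_zero],
      fun e => by rw [e, WithZero.log_one, neg_zero]⟩
  refine ⟨⟨fun f => -WithZero.log (p.valuation L f), by simp, fun hf hg => ?_,
    fun {f g} hf hg hfg => ?_, fun c => ?_, ?_⟩, fun f hf => ?_, fun s => ?_⟩
  · rw [map_mul, WithZero.log_mul (ne hf) (ne hg), neg_add]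
  · rcases le_max_iff.1 ((p.valuation L).map_add f g) with e | e
    · exact (min_le_left _ _).trans (neg_le_neg ((WithZero.log_le_log (ne hfg) (ne hf)).2 e))
    · exact (min_le_right _ _).trans (neg_le_neg ((WithZero.log_le_log (ne hfg) (ne hg)).2 e))
  · by_cases hc : c = 0
    · simp [hc]
    · rw [IsScalarTower.algebraMap_apply K V L, one.2 fun hm => Ideal.IsPrime.ne_top inferInstance
        (q.eq_top_of_isUnit_mem hm ((IsUnit.mk0 c hc).map _)), WithZero.log_one, neg_zero]
  · obtain ⟨π, hπ⟩ := p.valuation_exists_uniformizer L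
    refine ⟨π, fun e => ?_, by rw [hπ, WithZero.log_exp, neg_neg]⟩
    rw [e, map_zero] at hπ
    exact WithZero.exp_ne_zero hπ.symm
  · refine Iff.trans ?_ (lg hf).symm
    constructor
    · rintro ⟨s, t, hs, ht, e⟩
      have := congrArg (p.valuation L) e
      rwa [map_mul, one.2 hs, one.2 ht, mul_one] at this
    · intro e
      obtain ⟨s, t, hst⟩ := p.exists_primeCompl_mul_eq_of_integer f e.le
      refine ⟨s, t, one.1 ?_, t.2, hst⟩
      rw [← hst, map_mul, e, one.2 t.2, mul_one]
  · by_cases hs : algebraMap V L s = 0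
    · exact Or.inl hs
    · refine Or.inr (neg_nonneg.2 ?_)
      rw [← WithZero.log_one, WithZero.log_le_log (ne hs) one_ne_zero]
      exact le s

/-- The class group of an affine curve is divisible.  Let `v` be the place of `q`, and `w` a place
where some `t ∈ V` has a pole (`AL.const_of_ge`; `V` is not `K`), so that `w` is not the place of a
prime.  Apply `AL.pic_div` to `single v 1 - single w 1`.  Different primes have different places.
For `q' = ⊥` every nonzero `f` is `LU`.  Note `v.ord π = 1`: by `Unif.ex` for an element of order 1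
it is `1` or `-1`, and it is nonnegative. -/
theorem Crv.pic [IsAlgClosed K] [AL.PosChar K] (h : Crv K V) {n : ℕ} (hn : (n : K) ≠ 0)
    (q : Ideal V) [q.IsPrime] (hq : q ≠ ⊥) {π : V} (hπ : Unif L q π) :
    ∃ f : L, f ≠ 0 ∧ Pw q n (f / algebraMap V L π) ∧
      ∀ q' : Ideal V, q'.IsPrime → q' ≠ q → Pw q' n f := by
  classical
  have := h.ded
  have : IsFF K L := h.isFF
  have inj := IsFractionRing.injective V L
  obtain ⟨v, v1, v2⟩ := h.place (L := L) q hq
  obtain ⟨t, w, hw⟩ : ∃ (t : V) (w : Place K L), ¬ w.Ge (algebraMap V L t) 0 := by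
    by_contra hc
    push Not at hc
    refine h.nf ⟨exists_pair_ne V, mul_comm, fun {a} ha => ?_⟩
    obtain ⟨c, e⟩ := AL.const_of_ge (hc a)
    rw [IsScalarTower.algebraMap_apply K V L] at e
    have e' := inj e
    have c0 : c ≠ 0 := fun h0 => ha (by rw [e', h0, map_zero])
    exact ⟨algebraMap K V c⁻¹, by rw [e', ← map_mul, mul_inv_cancel₀ c0, map_one]⟩
  have hπ1 : v.ord (algebraMap V L π) = 1 := by
    obtain ⟨u, u0, u1⟩ := v.surj
    obtain ⟨a, ha⟩ := hπ.ex u u0
    have h1 := (v1 _ ha.ne_zero).1 ha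
    rw [v.ord_div u0 (zpow_ne_zero _ hπ.ne), u1, v.ord_zpow, sub_eq_zero] at h1
    have h2 := (v2 π).le hπ.ne
    rcases Int.eq_one_or_neg_one_of_mul_eq_one' h1.symm with h3 | h3
    · exact h3.2
    · omega
  obtain ⟨D, f, f0, hD⟩ := AL.pic_div (k := K) (K := L) hn
    (D := Finsupp.single v 1 - Finsupp.single w 1)
    (by rw [map_sub, AL.deg_single, AL.deg_single, sub_self])
  have hD' : ∀ u : Place K L, u ≠ w → u.ord f = (if v = u then 1 else 0) - n * D u :=
    fun u hu => by
      have := DFunLike.congr_fun hD u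
      rw [Finsupp.sub_apply, Finsupp.add_apply, Finsupp.smul_apply, AL.dv_apply, nsmul_eq_mul,
        Finsupp.single_apply, Finsupp.single_apply, if_neg hu.symm, sub_zero] at this
      rw [this]
      ring
  have key : ∀ (q' : Ideal V) (u : Place K L) (g : L) (m : ℤ),
      (∀ f : L, f ≠ 0 → (LU q' f ↔ u.ord f = 0)) → g ≠ 0 → u.ord g = n * m → Pw q' n g :=
    fun q' u g m hu g0 hg => by
      obtain ⟨z, z0, hz⟩ := u.exists_ord_eq m
      refine ⟨z, z0, (hu _ (div_ne_zero g0 (pow_ne_zero _ z0))).2 ?_⟩
      rw [u.ord_div g0 (pow_ne_zero _ z0), u.ord_pow, hz, hg, sub_self]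
  refine ⟨f, f0, key q v _ (-D v) v1 (div_ne_zero f0 hπ.ne) ?_, fun q' hp hne => ?_⟩
  · rw [v.ord_div f0 hπ.ne, hD' v fun e => hw (e ▸ v2 t), hπ1, if_pos rfl]
    ring
  · by_cases h0 : q' = ⊥
    · subst h0
      obtain ⟨a, b, hb, rfl⟩ := IsFractionRing.div_surjective V f
      have b0 : b ≠ 0 := nonZeroDivisors.ne_zero hb
      have b1 : algebraMap V L b ≠ 0 := fun e => b0 (inj (e.trans (map_zero _).symm))
      refine LU.pw ⟨a, b, fun ha => f0 ?_, fun hb => b0 (Ideal.mem_bot.1 hb),
        div_mul_cancel₀ _ b1⟩ n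
      rw [Ideal.mem_bot.1 ha, map_zero, zero_div]
    · obtain ⟨u, u1, u2⟩ := h.place (L := L) q' h0
      have huv : v ≠ u := by
        rintro rfl
        have hm : q'.IsMaximal := hp.isMaximal h0
        refine hne (hm.eq_of_le (Ideal.IsPrime.ne_top inferInstance) fun s hs => ?_)
        by_contra hs'
        have l1 : LU q (algebraMap V L s) := LU.of_notMem hs'
        obtain ⟨a, b, ha, hb, e⟩ := (u1 _ l1.ne_zero).2 ((v1 _ l1.ne_zero).1 l1)
        rw [← map_mul] at e
        exact ha (inj e ▸ q'.mul_mem_right b hs)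
      refine key q' u f (-D u) u1 f0 ?_
      rw [hD' u fun e => hw (e ▸ u2 t), if_neg huv]
      ring

end

end Pool.Agent.Lib.MP_16ef92_ag.CV
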