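import Mathlib
import Pool.Agent.Lib.MP_16ef92_ag.RS.Push
import Pool.Agent.Lib.MP_16ef92_ag.RS.Cls
import Pool.Agent.Lib.MP_16ef92_ag.CV.R6

set_option autoImplicit false
set_option linter.unusedSectionVars false
set_option linter.unusedVariables false
set_option linter.style.haveILetI false

namespace Pool.Agent.Lib.MP_16ef92_ag.CV

open RS

noncomputable section

variable [Bg] {K V W T : Type} [Field K] [CommRing V] [CommRing W] [CommRing T]

/-- The stalks at the generic points vanish. -/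
def Sky (S : Sys V) : Prop := ∀ x : Pnt V, RingHom.ker x = ⊥ → ∀ u ∈ S.M x, u = 0

/-- Let `I` be the ideal spanned by the `f ∈ W` such that `s` vanishes on `D(f)`.  If `I` misses
the image of the nonzero elements of `V`, a prime `q ⊇ I` misses it
(`Ideal.exists_le_prime_disjoint`); a point with kernel `q` is generic, so `s` vanishes near it. -/
theorem Sky.supp [IsDomain V] {S : Sys V} (h : Sky S) {a : V →+* W} (hW : Good W)
    {s : Pnt W → S.A} (hs : s ∈ S.S a) :
    ∃ f : V, f ≠ 0 ∧ ∀ z : Pnt W, z (a f) ≠ 0 → s z = 0 := by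
  let I : Ideal W :=
    { carrier := {f | ∀ z : Pnt W, z f ≠ 0 → s z = 0}
      add_mem' := fun {f g} hf hg z hz => by
        by_cases h0 : z f = 0
        · exact hg z (by rwa [map_add, h0, zero_add] at hz)
        · exact hf z h0
      zero_mem' := fun z hz => absurd (map_zero z) hz
      smul_mem' := fun c f hf z hz => hf z fun h0 => hz (by
        rw [smul_eq_mul, map_mul, h0, mul_zero]) }
  by_contra hn
  have hd : Disjoint (I : Set W) ((nonZeroDivisors V).map a : Submonoid W) := by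
    rw [Set.disjoint_left]
    rintro _ hf ⟨f, hf0, rfl⟩
    exact hn ⟨f, nonZeroDivisors.ne_zero hf0, hf⟩
  obtain ⟨q, hq, hI, hq'⟩ := Ideal.exists_le_prime_disjoint I _ hd
  obtain ⟨y, rfl⟩ := hW q hq
  have h0 : RingHom.ker (y.comp a) = ⊥ := by
    rw [eq_bot_iff]
    intro v hv
    by_contra hv0
    exact Set.disjoint_left.1 hq' (show a v ∈ RingHom.ker y from hv)
      ⟨v, mem_nonZeroDivisors_of_ne_zero hv0, rfl⟩
  obtain ⟨f, hf, hf'⟩ := S.sep hs y (h _ h0 _ (S.mem hs y))
  exact hf (hI (show f ∈ I from hf'))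

theorem Sky.cok {S G : Sys V} (h : Sky G) (i : Hom S G) : Sky i.cok := by
  rintro x hx _ ⟨u, hu, rfl⟩
  rw [h x hx u hu]
  exact map_zero _

/-- `pg_surj`, `Sky.supp` on `Ten c g`, `pg_zero`. -/
theorem Sky.push [IsDomain V] {S : Sys V} (h : Sky S) {g : V →+* T}
    (hg : ∀ (W : Type) [CommRing W] (c : V →+* W), c.Etale → Good (Ten c g)) :
    Sky (push g (S.pb g)) := by
  intro x hx u hu
  obtain ⟨W, _, c, y, s, hc, rfl, hs, rfl⟩ := pg_surj x hu
  obtain ⟨f, hf, hf'⟩ := h.supp (a := (Ten.inr c g).comp g) (hg W c hc) hs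
  refine (pg_zero hc y hs).2 ⟨c f, fun h0 => hf ?_, fun z hz => hf' z ?_⟩
  · have : f ∈ RingHom.ker (y.comp c) := h0
    rwa [hx] at this
  · rw [← Ten.comm]
    exact hz

theorem skyb_sep [Algebra K V] (hV : Crv K V) {b : V →+* W} (hb : b.Etale) {f : V} (hf : f ≠ 0)
    (y : Pnt W) : ∃ g : W, y g ≠ 0 ∧ ∀ y' : Pnt W, y' (b f) = 0 → y' g ≠ 0 →
      RingHom.ker y' = RingHom.ker y := by
  by_cases h0 : y (b f) = 0
  · letI := b.toAlgebra
    letI := (b.comp (algebraMap K V)).toAlgebra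
    have : IsScalarTower K V W := IsScalarTower.of_algebraMap_eq' rfl
    have : Algebra.Etale V W := hb
    have := RingHom.ker_isPrime y
    obtain ⟨g, h1, h2⟩ := hV.sepW hf (RingHom.ker y) h0
    exact ⟨g, h1, fun y' h3 h4 => by_contra fun h5 => h4 (h2 _ (RingHom.ker_isPrime y') h3 h5)⟩
  · exact ⟨b f, h0, fun y' h3 h4 => absurd h3 h4⟩

theorem skyb_uniq [IsAlgClosed K] [Algebra K V] (hV : Crv K V) {b : V →+* W} (hb : b.Etale)
    {f : V} (hf : f ≠ 0) {y y' : Pnt W} (h0 : y (b f) = 0) (h1 : y.comp b = y'.comp b)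
    (h2 : RingHom.ker y = RingHom.ker y') : y = y' := by
  letI := b.toAlgebra
  letI := (b.comp (algebraMap K V)).toAlgebra
  have : IsScalarTower K V W := IsScalarTower.of_algebraMap_eq' rfl
  have : Algebra.Etale V W := hb
  have := RingHom.ker_isPrime y
  refine RingHom.ext fun w => ?_
  obtain ⟨c, h3⟩ := hV.resW hf (RingHom.ker y) h0 w
  have h4 := h2 ▸ h3
  rw [RingHom.sub_mem_ker_iff] at h3 h4
  rw [h3, h4]
  exact RingHom.congr_fun h1 (algebraMap K V c)

theorem skyb_pts {b : V →+* W} (hb : Cov b) : ∃ y : Pnt V → Pnt W, (∀ x, (y x).comp b = x) ∧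
    ∀ x x', RingHom.ker x = RingHom.ker x' → RingHom.ker (y x) = RingHom.ker (y x') := by
  have h1 : ∀ p : Ideal V, ∃ P : Ideal W, ∀ x : Pnt V, RingHom.ker x = p →
      P.IsPrime ∧ P.comap b = p := fun p => by
    by_cases h : ∃ x : Pnt V, RingHom.ker x = p
    · obtain ⟨x, rfl⟩ := h
      obtain ⟨z, rfl⟩ := hb.sur x
      exact ⟨RingHom.ker z, fun _ _ => ⟨RingHom.ker_isPrime z, rfl⟩⟩
    · exact ⟨⊤, fun x hx => absurd ⟨x, hx⟩ h⟩
  choose P hP using h1
  choose y hy using fun x : Pnt V => pnt_lift_et hb.et x _ (hP _ x rfl).1 (hP _ x rfl).2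
  exact ⟨y, fun x => (hy x).1, fun x x' e => by rw [(hy x).2, (hy x').2, e]⟩

/-- Take a representative `t` on a cover `b : V → W`; its coboundary on `Ten b b` vanishes on
`D(f)`.  For each prime `p ∋ f` fix a prime `P p` of `W` over it; for `x` with `x f = 0` let `y x`
be the point over `x` with kernel `P (ker x)` (`pnt_lift_et`; unique by `Crv.resW`), for the other
`x` any point over `x`; put `u x = t (y x)`.  Then `t - rs b u` vanishes on `D(f)`, and near the
point `(y, y x)` of `Ten b b`, on `D(inr g)` with `g` from `Crv.sepW`, it is the coboundary. -/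
theorem Sky.h1 [IsAlgClosed K] [Algebra K V] (hV : Crv K V) (hG : Good V) {S : Sys V} (h : Sky S)
    (ξ : H 1 S) : ξ = 0 := by
  have := hV.ded
  obtain ⟨W, _, b, t, hb, ht⟩ := exists_rep hG ξ
  have hc := (ht.coc hb.et).sec _ _ _ (Ten.comm b b)
  have hi := Ten.etale_inl b hb.et
  obtain ⟨f, hf, h0⟩ := h.supp (hG.et (et_comp hb.et hi)) hc
  have h1 : ∀ y y' : Pnt W, y.comp b = y'.comp b → y (b f) ≠ 0 → t y = t y' := fun y y' e hy => by
    have h2 := h0 (Ten.lift y y' e) (by
      rwa [RingHom.comp_apply, ← RingHom.comp_apply (Ten.lift y y' e), Ten.lift_inl])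
    rwa [Pi.sub_apply, rs_apply, rs_apply, Ten.lift_inl, Ten.lift_inr, sub_eq_zero] at h2
  obtain ⟨y, hy, hk⟩ := skyb_pts hb
  refine (ht.zero_iff hb).2 ⟨fun x => t (y x), fun x => by simpa only [hy] using ht.1 (y x),
    S.loc fun y₀ => ?_⟩
  obtain ⟨g, g1, g2⟩ := skyb_sep hV hb.et hf (y (y₀.comp b))
  have key : ∀ y' : Pnt W, y' g ≠ 0 → t y' = t (y (y'.comp b)) := fun y' h3 => by
    by_cases h4 : y' (b f) = 0
    · have h5 := g2 y' h4 h3
      have h6 : RingHom.ker (y'.comp b) = RingHom.ker (y₀.comp b) := by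
        rw [← RingHom.comap_ker, h5, RingHom.comap_ker, hy]
      exact congrArg t (skyb_uniq hV hb.et hf h4 (hy _).symm (h5.trans (hk _ _ h6).symm))
    · exact h1 _ _ (hy _).symm h4
  obtain ⟨z, hz⟩ := pnt_away (Ten.lift y₀ (y (y₀.comp b)) (hy _).symm) (f := Ten.inr b b g) (by
    rwa [← RingHom.comp_apply, Ten.lift_inr])
  refine ⟨_, _, (algebraMap _ (Localization.Away (Ten.inr b b g))).comp (Ten.inl b b), z,
    et_comp hi (et_away _), by rw [← RingHom.comp_assoc, hz, Ten.lift_inl], ?_⟩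
  have h7 : rs ((algebraMap _ (Localization.Away (Ten.inr b b g))).comp (Ten.inl b b))
      (t - rs b fun x => t (y x)) = rs (algebraMap _ (Localization.Away (Ten.inr b b g)))
        (rs (Ten.inl b b) t - rs (Ten.inr b b) t) := funext fun w => by
    have h8 := key ((w.comp (algebraMap _ _)).comp (Ten.inr b b)) (pnt_away_ne w)
    rw [RingHom.comp_assoc _ (Ten.inr b b), ← Ten.comm] at h8
    exact congrArg (fun m => t ((w.comp (algebraMap _ _)).comp (Ten.inl b b)) - m) h8.symm
  rw [h7]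
  exact S.res (algebraMap _ (Localization.Away (Ten.inr b b g))) hc

/-- An acyclic resolution by direct images. -/
def HasG (V : Type) [CommRing V] : Prop :=
  ∃ (T : Type) (_ : CommRing T) (g : V →+* T),
    (∀ (W : Type) [CommRing W] (c : V →+* W), c.Etale → Good (Ten c g)) ∧
    ∀ F : Sys V, (F.can g).adj.Inj ∧ ∀ q (ξ : H (q + 1) (push g (F.pb g))), ξ = 0

theorem Sky.all [IsAlgClosed K] [Algebra K V] (hV : Crv K V) (hG : Good V) (hT : HasG V) (q : ℕ)
    {S : Sys V} (h : Sky S) (ξ : H (q + 1) S) : ξ = 0 := by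
  have := hV.ded
  obtain ⟨T, _, g, h1, h2⟩ := hT
  induction q generalizing S with
  | zero => exact h.h1 hV hG ξ
  | succ q ih =>
    exact ((S.can g).adj.ses_cok (h2 S).1).left_zero (q + 1)
      (fun ζ => ⟨0, (map_zero _).trans (ih ((h.push h1).cok _) ζ).symm⟩) ((h2 S).2 _) ξ

end

end Pool.Agent.Lib.MP_16ef92_ag.CV
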