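import Mathlib
import Pool.Agent.Lib.MP_16ef92_ag.CV.Spl
import Pool.Agent.Lib.MP_16ef92_ag.CV.Sky
import Pool.Agent.Lib.MP_16ef92_ag.CV.Chr
import Pool.Agent.Lib.MP_16ef92_ag.CV.R3
import Pool.Agent.Lib.MP_16ef92_ag.TL.Lim

set_option autoImplicit false
set_option linter.unusedSectionVars false
set_option linter.unusedVariables false
set_option linter.style.haveILetI false

namespace Pool.Agent.Lib.MP_16ef92_ag.CV

open RS Polynomial

noncomputable section

variable [Bg] {K V W L : Type} [Field K] [CommRing V] [CommRing W] [Field L] {M : Type}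
  [AddCommGroup M]

theorem hasG (hV : Good V) : HasG V :=
  ⟨_, _, FA.toTR OO V, fun W _ c hc => hV.tr.et (Ten.etale_inr _ hc),
    fun F => ⟨adj_inj sur_toTR F, fun q ξ => H_push_ac FA.ac_TR hV.tr _ _ q ξ⟩⟩

theorem posChar_of (p : ℕ) [Fact p.Prime] [CharP OO p] (hK : Good K) : AL.PosChar K := by
  obtain ⟨x, -⟩ := hK ⊥ Ideal.isPrime_bot
  exact ⟨p, Fact.out, RingHom.charP x x.injective p⟩

theorem cast_ne (hK : Good K) {n : ℕ} (hn : (n : OO) ≠ 0) : (n : K) ≠ 0 := fun e => by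
  obtain ⟨x, -⟩ := hK ⊥ Ideal.isPrime_bot
  exact hn (by rw [← map_natCast x, e, map_zero])

theorem exists_prim [IsAlgClosed K] {n : ℕ} [NeZero n] (hn : (n : K) ≠ 0) :
    ∃ ζ : K, IsPrimitiveRoot ζ n :=
  haveI : NeZero (n : K) := ⟨hn⟩
  HasEnoughRootsOfUnity.exists_primitiveRoot K n

variable [IsAlgClosed K] [Algebra K V] [Algebra V L] [IsFractionRing V L]

omit [IsAlgClosed K] [Algebra V L] [IsFractionRing V L] in
theorem vana_crv (hV : Crv K V) {c : V →+* W} (hc : c.Etale) [IsDomain W] :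
    @Crv K W _ _ (c.comp (algebraMap K V)).toAlgebra := by
  letI := c.toAlgebra
  letI := (c.comp (algebraMap K V)).toAlgebra
  haveI : IsScalarTower K V W := IsScalarTower.of_algebraMap_eq' rfl
  haveI : Algebra.Etale V W := hc
  exact hV.et

omit [IsAlgClosed K] [Algebra K V] in
theorem vana_lu [IsDomain V] {f : L} (hf : f ≠ 0) : LU (⊥ : Ideal V) f := by
  obtain ⟨⟨s, t⟩, h⟩ := IsLocalization.surj (nonZeroDivisors V) f
  have ht : (t : V) ≠ 0 := nonZeroDivisors.coe_ne_zero t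
  refine ⟨s, t, fun hs => ?_, ht, h⟩
  rw [Ideal.mem_bot.1 hs, map_zero] at h
  exact mul_ne_zero hf ((map_ne_zero_iff _ (IsFractionRing.injective V L)).2 ht) h

/-- `exists_dom`; for the domain `W'` the ring `Ten (d.comp c) g` is isomorphic to
`FractionRing W'` (`exists_gen`), a function field over `K` (`Crv.et`, `Crv.isFF`); `cd_ff` for the
pullback of `F`, and `Hmap_bij'`. -/
theorem dies_gen (hV : Crv K V) {l k : ℕ} [Fact l.Prime] (hl : (l : K) ≠ 0) {F : Sys L}
    (hF : F.Tor (l ^ k)) (i : ℕ) : Dies (algebraMap V L) F (i + 1) := by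
  intro W _ c y ξ hc
  have := hV.ded
  obtain ⟨W', _, d, z, hd, hz, _, _⟩ := exists_dom hc y
  refine ⟨W', _, d, z, hd, hz, ?_⟩
  obtain ⟨e, he, -⟩ := exists_gen (L := L) (et_comp hc hd)
  letI := ((d.comp c).comp (algebraMap K V)).toAlgebra
  have := (vana_crv hV (et_comp hc hd)).isFF (L := FractionRing W')
  refine (Hmap_bij' (i + 2) (F.rm e rfl) he (fun _ _ _ h => h) fun _ v hv => ⟨v, hv, rfl⟩).1 ?_
  rw [map_zero]
  exact cd_ff (K := K) hl i (hF.pb _) _

variable {n : ℕ} [NeZero n]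

/-- `exists_dom`, `DiesAt.of_res`, `exists_gen`, `fk_dec` over `FractionRing W'` (`Good.et`,
`Good.loc`), `diesAt_sum`; the kernel of the point of `W'` is zero (`Crv.under_ne`), so that every
nonzero element is `LU`. -/
theorem diesAt_gen (hV : Crv K V) (hG : Good V) (hn : (n : K) ≠ 0) (hM : ∀ m : M, n • m = 0)
    {c : V →+* W} (hc : c.Etale) (y : Pnt W) (hy : RingHom.ker (y.comp c) = ⊥)
    (η : HH 1 (cst L M) (Ten.inr c (algebraMap V L))) : DiesAt (cst L M) y η := by
  have := hV.ded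
  obtain ⟨W', _, d, z, hd, rfl, _, _⟩ := exists_dom hc y
  refine DiesAt.of_res hd ?_
  have hc' := et_comp hc hd
  obtain ⟨e, he, he'⟩ := exists_gen (L := L) hc'
  obtain ⟨ζ, hζ⟩ := exists_prim hn
  let k : K →+* W' := (d.comp c).comp (algebraMap K V)
  have hζ' : IsPrimitiveRoot ((algebraMap W' (FractionRing W')).comp k ζ) n :=
    hζ.map_of_injective (RingHom.injective _)
  have hz : RingHom.ker z = ⊥ := by
    by_contra h0
    letI := (d.comp c).toAlgebra
    haveI : Algebra.Etale V W' := hc'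
    exact r2a_under V W' h0 hy
  obtain ⟨r, f, m, _, -, -, h⟩ := fk_dec hM
    ((hG.et hc').loc (nonZeroDivisors W') (FractionRing W')) hζ'
    (rc 1 M e (HR 1 (cst L M) (Ten.map _ d rfl) (Ten.map_inr _ d rfl) η))
  refine diesAt_sum hM he he' (map_natCast k n ▸ hn.isUnit.map k) (prim_field hζ') z f m
    (fun i => ?_) _ h
  rw [hz]
  exact (vana_lu (f i).ne_zero).pw n

theorem vanb_zpow {A E : Type} [CommRing A] [Field E] [Algebra A E] [FaithfulSMul A E]
    {q : Ideal A} [q.IsPrime] {f : E} (h : Pw q n f) (a : ℤ) : Pw q n (f ^ a) := by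
  obtain ⟨z, hz, h⟩ := h
  refine ⟨z ^ a, zpow_ne_zero _ hz, ?_⟩
  have h1 := h.zpow a
  rwa [div_zpow, ← zpow_natCast, ← zpow_mul, mul_comm, zpow_mul, zpow_natCast] at h1

theorem vanb_div {ζ : W} (h : Prim n ζ) (u v : Wˣ) :
    kum n ζ (u / v) = kum n ζ u - kum n ζ v := by
  rw [eq_sub_iff_add_eq, ← kum_mul h, div_mul_cancel]

/-- If `q = ker (y.comp c)` is zero take `ξ = 0` (`diesAt_gen`).  Otherwise pass to a domain `W'`
with fraction field `L'` and `ι = e.comp Ten.inr : L →+* L'`; write the class as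
`∑ cm (kum ζ (f i)) (m i)` (`fk_dec`); take a uniformiser `π` at `q` (`Crv.unif`, `Crv.unif_et`),
orders `a i` of the `f i` (`Unif.ex`), `f₀` from `Crv.pic`, and
`ξ = ∑ cm (kum ζ (f₀ ^ a i)) (m i)`; `f i / ι f₀ ^ a i` is `Pw` (`Crv.pw_et`, `Unif.pw_iff`);
`diesAt_sum`, `diesG_sum`, `rc_sum`, `kum_mul`. -/
theorem van_h2 [AL.PosChar K] (hV : Crv K V) (hG : Good V) (hn : (n : K) ≠ 0)
    (hM : ∀ m : M, n • m = 0) {c : V →+* W} (hc : c.Etale) (y : Pnt W)
    (η : HH 1 (cst L M) (Ten.inr c (algebraMap V L))) : ∃ ξ : H 1 (cst L M),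
      DiesAt (cst L M) y (η - Hmap 1 ((cst L M).can (Ten.inr c (algebraMap V L))) ξ) ∧
        ∀ x : Pnt V, RingHom.ker x ≠ RingHom.ker (y.comp c) →
          DiesG (algebraMap V L) (cst L M) x ξ := by
  have := hV.ded
  by_cases hq : RingHom.ker (y.comp c) = ⊥
  · refine ⟨0, diesAt_gen hV hG hn hM hc y hq _, fun x _ =>
      ⟨V, inferInstance, RingHom.id V, x, RingHom.Etale.of_bijective Function.bijective_id, rfl,
        map_zero _⟩⟩
  obtain ⟨ζ₀, hζ₀⟩ := exists_prim hn
  letI : Algebra K L := ((algebraMap V L).comp (algebraMap K V)).toAlgebra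
  have : IsScalarTower K V L := IsScalarTower.of_algebraMap_eq' rfl
  have hζ : IsPrimitiveRoot (algebraMap K L ζ₀) n :=
    hζ₀.map_of_injective (algebraMap K L).injective
  have hnV : IsUnit (n : V) := by simpa using hn.isUnit.map (algebraMap K V)
  obtain ⟨W', _, d, z, hd, rfl, _, _⟩ := exists_dom hc y
  have hc' : (d.comp c).Etale := RingHom.Etale.stableUnderComposition _ _ hc hd
  obtain ⟨e, he, he'⟩ := exists_gen (L := L) hc'
  let ι : L →+* FractionRing W' := e.comp (Ten.inr (d.comp c) (algebraMap V L))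
  have hζ' : IsPrimitiveRoot (ι (algebraMap K L ζ₀)) n := hζ.map_of_injective ι.injective
  obtain ⟨r, f, m, -, -, -, hf⟩ := fk_dec hM
    ((hG.et hc').loc (nonZeroDivisors W') (FractionRing W')) hζ'
    (rc 1 M e (HR 1 (cst L M) (Ten.map _ d rfl) (Ten.map_inr _ d rfl) η))
  letI : Algebra V W' := (d.comp c).toAlgebra
  letI : Algebra K W' := ((d.comp c).comp (algebraMap K V)).toAlgebra
  have : IsScalarTower K V W' := IsScalarTower.of_algebraMap_eq' rfl
  have : Algebra.Etale V W' := hc'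
  have hι : ∀ v, ι (algebraMap V L v) = algebraMap W' _ (algebraMap V W' v) := fun v => by
    rw [← he']
    exact congrArg e (RingHom.congr_fun (Ten.comm (d.comp c) (algebraMap V L)) v).symm
  have := RingHom.ker_isPrime z
  have hP : RingHom.ker z ≠ ⊥ := fun h0 => hq (by
    change (RingHom.ker z).comap (algebraMap V W') = ⊥
    rw [h0]
    exact (RingHom.injective_iff_ker_eq_bot _).1 (et_faith V W'))
  let q : Ideal V := (RingHom.ker z).comap (algebraMap V W')
  obtain ⟨π, -, hπ⟩ := hV.unif L q hq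
  have hπ' := hV.unif_et (L' := FractionRing W') (RingHom.ker z) hP hπ
  choose a ha using fun i => hπ'.ex (f i) (f i).ne_zero
  obtain ⟨f₀, h0, h1, h2⟩ := hV.pic hn q hq hπ
  refine ⟨∑ i, cm hM (kum n (algebraMap K L ζ₀) (Units.mk0 f₀ h0 ^ a i)) (m i),
    DiesAt.of_res hd ?_, fun x hx => diesG_sum hM hnV (prim_field hζ) x _ m fun i => ?_⟩
  · refine diesAt_sum hM he he' (by simpa using hnV.map (d.comp c)) (prim_field hζ') z
      (fun i => f i / Units.map (ι : L →* _) (Units.mk0 f₀ h0 ^ a i)) m (fun i => ?_) _ ?_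
    · have h3 := ((ha i).pw n).mul
        (vanb_zpow ((hV.pw_et ι hι (RingHom.ker z)).2 h1) (-a i))
      have h4 := zpow_ne_zero (a i) hπ'.ne
      rw [map_div₀, hι, zpow_neg, div_zpow, inv_div, div_mul_div_cancel₀ h4] at h3
      simpa using h3
    · rw [map_sub, HR_can, rc_can]
      refine (map_sub _ _ _).trans ?_
      rw [hf, rc_rc _ _ ι rfl, rc_sum hM (prim_field hζ), ← Finset.sum_sub_distrib]
      exact Finset.sum_congr rfl fun i _ => by
        rw [vanb_div (prim_field hζ'), map_sub, AddMonoidHom.sub_apply]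
  · have := RingHom.ker_isPrime x
    simpa using vanb_zpow (h2 _ this hx) (a i)

theorem sky_puS (hV : Crv K V) (hG : Good V) (hn : (n : K) ≠ 0) (hM : ∀ m : M, n • m = 0) :
    Sky (puS (algebraMap V L) (cst L M)) := fun x hx =>
  puS_zero _ x fun W _ c y η hc hy => diesAt_gen hV hG hn hM hc y (by rw [hy, hx]) η

theorem Sky.fin (hV : Crv K V) (hG : Good V) {S : Sys V} (h : Sky S) (σ : Z0 S) :
    ∃ Z : Set (Ideal V), Z.Finite ∧ ∀ x : Pnt V, RingHom.ker x ∉ Z → σ.1 x = 0 := by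
  have := hV.ded
  obtain ⟨f, hf, h1⟩ := h.supp hG σ.2
  exact ⟨_, hV.fin hf, fun x hx => h1 x fun e => hx ⟨RingHom.ker_isPrime x, e⟩⟩

omit [Algebra V L] [IsFractionRing V L] in
/-- Smooth affine curves have no cohomology in degrees at least two. -/
theorem van_crv [AL.PosChar K] (hV : Crv K V) (hG : Good V) {l k : ℕ} [Fact l.Prime]
    (hl : (l : K) ≠ 0) (hM : ∀ m : M, l ^ k • m = 0) (q : ℕ) (ξ : H (q + 2) (cst V M)) :
    ξ = 0 := by
  have := hV.ded
  have : NeZero (l ^ k) := ⟨pow_ne_zero _ (Fact.out : l.Prime).ne_zero⟩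
  have hn : ((l ^ k : ℕ) : K) ≠ 0 := by rw [Nat.cast_pow]; exact pow_ne_zero _ hl
  have := hV.isFF (L := FractionRing V)
  have hs := sky_puS (L := FractionRing V) hV hG hn hM
  refine (Hmap_bij _ _ (unitJ_inj (L := FractionRing V) hG) (unitJ_surj hG)).1 ?_
  rw [map_zero]
  exact leray2 _ (dies_gen hV hl (cst_tor hM _)) (fun q ξ => cd_ff (K := K) hl q (cst_tor hM _) ξ)
    (fun q ξ => hs.all hV hG (hasG hG) q ξ)
    (pr_surj _ (hs.fin hV hG) fun W _ c y η hc => van_h2 hV hG hn hM hc y η) q _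

omit [Algebra K V] [Algebra V L] [IsFractionRing V L] in
/-- `et_prod` over `K[X]`, `H_pi`, `rc_can`; the factors are curves (`crv_poly`, `Crv.et`). -/
theorem van_line [AL.PosChar K] (hK : Good K) {l k : ℕ} [Fact l.Prime] (hl : (l : K) ≠ 0)
    (hM : ∀ m : M, l ^ k • m = 0) (h : K[X] →+* V) (hh : h.Etale) (q : ℕ)
    (ξ : H (q + 2) (cst V M)) : ξ = 0 := by
  letI := h.toAlgebra
  haveI : Algebra.Etale K[X] V := hh
  obtain ⟨r, e, hd, hb⟩ := et_prod K[X] V
  have hX : Good K[X] :=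
    hK.ft (a := algebraMap K K[X]) (RingHom.finiteType_algebraMap.2 inferInstance)
  refine (H_pi _ hb (q + 2) (cst V M)).1 (funext fun i => ?_)
  have hc := et_comp hh (et_away (e i))
  letI := (((algebraMap V (Localization.Away (e i))).comp h).comp (algebraMap K K[X])).toAlgebra
  exact (van_crv (vana_crv (crv_poly K) hc) (hX.et hc) hl hM q _).trans (map_zero _).symm

end

end Pool.Agent.Lib.MP_16ef92_ag.CV
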