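import Mathlib
import Pool.Agent.Lib.MP_16ef92_ag.CV.Van
import Pool.Agent.Lib.MP_16ef92_ag.LH.Def

set_option autoImplicit false
set_option linter.unusedSectionVars false
set_option linter.unusedVariables false
set_option linter.style.haveILetI false

namespace Pool.Agent.Lib.MP_16ef92_ag.CV

open RS Polynomial

noncomputable section

variable [Bg] {K V L : Type} [Field K] [IsAlgClosed K] [CommRing V] [Field L] {M : Type}
  [AddCommGroup M] {n : ℕ} [NeZero n]

section Dom

variable [Algebra K V] [Algebra V L] [IsFractionRing V L]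

theorem unra_bot [IsDomain V] {f : L} (hf : f ≠ 0) : LU (⊥ : Ideal V) f := by
  obtain ⟨a, b, hb, rfl⟩ := IsFractionRing.div_surjective (A := V) f
  have b0 := nonZeroDivisors.ne_zero hb
  refine ⟨a, b, ?_, b0, div_mul_cancel₀ _ ((map_ne_zero_iff _ (IsFractionRing.injective V L)).2 b0)⟩
  rintro (rfl : a = 0)
  exact hf (by rw [map_zero, zero_div])

theorem unra_prod {q : Ideal V} [q.IsPrime] {ι : Type} {π : L} (hπ : π ≠ 0) (f : ι → L)
    (a : ι → ℤ) (k : ι → ℕ) (h : ∀ i, LU q (f i / π ^ a i)) (s : Finset ι) :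
    LU q ((∏ i ∈ s, f i ^ k i) / π ^ (∑ i ∈ s, a i * k i)) := by
  classical
  induction s using Finset.induction_on with
  | empty => simpa using LU.one
  | insert i s hi ih =>
    rw [Finset.prod_insert hi, Finset.sum_insert hi, zpow_add₀ hπ, zpow_mul, zpow_natCast,
      mul_div_mul_comm, ← div_pow]
    exact ((h i).pow _).mul ih

/-- Classes of a curve are unramified.  `fk_dec` over `L`.  For `q = ⊥` every nonzero element is
`LU`.  For `q ≠ ⊥` take a point with kernel `q`; `ξ` dies on an etale neighbourhood (`H_loc`,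
`rc_can`) that is a domain `W` (`exists_dom`) with fraction field `L'`, and `V → W` is injective
(`et_faith`), so `L` maps to `L'`; `rc_sum`, `fk_rel` over `L'`: with the orders `a i` of the `f i`
(`Crv.unif`, `Crv.unif_et`, `Crv.pw_et`, `Unif.pw_iff`) the element `∑ a i • m i` is killed by all
`ψ`, so it vanishes (`exists_chr`), and `Ind` gives `d i ∣ a i`. -/
theorem unram (hV : Crv K V) (hG : Good V) (hM : ∀ m : M, n • m = 0) {ζ : L}
    (hζ : IsPrimitiveRoot ζ n) (ξ : H 1 (cst V M)) :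
    ∃ (r : ℕ) (f : Fin r → Lˣ) (m : Fin r → M) (d : Fin r → ℕ), Ind m d ∧ (∀ i, d i ∣ n) ∧
      rc 1 M (algebraMap V L) ξ = ∑ i, cm hM (kum n ζ (f i)) (m i) ∧
      ∀ i (q : Ideal V), q.IsPrime → Pw q (d i) (f i : L) := by
  haveI := hV.ded
  obtain ⟨r, f, m, d, hI, hd, e⟩ := fk_dec hM (hG.loc (nonZeroDivisors V) L) hζ
    (rc 1 M (algebraMap V L) ξ)
  refine ⟨r, f, m, d, hI, hd, e, fun i q hq => ?_⟩
  by_cases h0 : q = ⊥
  · subst h0
    exact (unra_bot (f i).ne_zero).pw _
  obtain ⟨x, hx⟩ := hG q hq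
  obtain ⟨W₀, _, c, y, hc, hy, hξ⟩ := H_loc 0 (cst V M) ξ x
  replace hξ : rc 1 M c ξ = 0 := (rc_can c ξ).symm.trans hξ
  obtain ⟨W, _, c', z, hc', hz, hdom, hnor⟩ := exists_dom hc y
  letI := (c'.comp c).toAlgebra
  haveI : Algebra.Etale V W := (et_comp hc hc').toAlgebra
  letI : Algebra K W := ((c'.comp c).comp (algebraMap K V)).toAlgebra
  haveI : IsScalarTower K V W := IsScalarTower.of_algebraMap_eq' rfl
  have inj : Function.Injective ((algebraMap W (FractionRing W)).comp (algebraMap V W)) :=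
    (IsFractionRing.injective W (FractionRing W)).comp (et_faith V W)
  let ι : L →+* FractionRing W := IsFractionRing.lift inj
  have hι : ∀ v, ι (algebraMap V L v) = algebraMap W (FractionRing W) (algebraMap V W v) :=
    IsFractionRing.lift_algebraMap inj
  have hG' : Good (FractionRing W) := (hG.et (et_comp hc hc')).loc (nonZeroDivisors W) _
  have z0 : ∑ i, cm hM (kum n (ι ζ) (Units.map (ι : L →* FractionRing W) (f i))) (m i) = 0 := by
    rw [← rc_sum hM (prim_field hζ) f m ι, ← e,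
      rc_rc _ ι (((algebraMap W (FractionRing W)).comp c').comp c) (RingHom.ext hι),
      ← rc_rc c _ _ rfl, hξ, map_zero]
  haveI : (RingHom.ker z).IsPrime := RingHom.ker_isPrime z
  have hP : (RingHom.ker z).comap (algebraMap V W) = q := by
    rw [← hx, ← hy, ← hz]
    rfl
  obtain ⟨π, -, hπ⟩ := hV.unif L q h0
  choose a ha using fun i => hπ.ex (f i) (f i).ne_zero
  rw [hπ.pw_iff (ha i)]
  refine (hI a).1 ?_ i
  by_contra hne
  obtain ⟨ψ, hψ⟩ := exists_chr hM hne
  obtain ⟨w, hw⟩ := fk_rel hM hG' (hζ.map_of_injective ι.injective) _ m z0 ψ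
  have hw' : ι (∏ i, (f i : L) ^ (ψ (m i)).val) = (w : FractionRing W) ^ n := by
    simpa using congrArg Units.val hw
  have p1 : Pw (RingHom.ker z) n (ι (∏ i, (f i : L) ^ (ψ (m i)).val)) := by
    rw [hw']
    exact Pw.pow w.ne_zero n
  have p2 : Pw q n (∏ i, (f i : L) ^ (ψ (m i)).val) :=
    hP ▸ (hV.pw_et ι hι (RingHom.ker z)).1 p1
  have p3 := (hπ.pw_iff (unra_prod hπ.ne (fun i => (f i : L)) a (fun i => (ψ (m i)).val) ha
    Finset.univ)).1 p2
  refine hψ ?_
  rw [← (ZMod.intCast_zmod_eq_zero_iff_dvd _ n).2 p3, map_sum, Int.cast_sum]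
  refine Finset.sum_congr rfl fun i _ => ?_
  rw [map_zsmul, Int.cast_mul, Int.cast_natCast, ZMod.natCast_zmod_val, zsmul_eq_mul]

theorem unrb_ind {ι : Type} [Fintype ι] {m : ι → M} {d : ι → ℕ} (h : Ind m d) (i : ι) :
    d i • m i = 0 := by
  classical
  have h1 := (h (Pi.single i (d i : ℤ))).2 fun j => by
    by_cases e : j = i
    · rw [e, Pi.single_eq_same]
    · rw [Pi.single_eq_of_ne e]
      exact dvd_zero _
  rw [Finset.sum_eq_single i (fun j _ e => by rw [Pi.single_eq_of_ne e, zero_smul])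
    (fun e => absurd (Finset.mem_univ i) e), Pi.single_eq_same, natCast_zsmul] at h1
  exact h1

theorem unrb_term (hM : ∀ m : M, n • m = 0) {ζ : L} (hζ : Prim n ζ) {f u w : Lˣ} {d : ℕ} {m : M}
    (e : f * u ^ n = w ^ d) (hm : d • m = 0) : cm hM (kum n ζ f) m = 0 := by
  have h1 : kum n ζ f = d • kum n ζ w := by
    rw [← kum_pow hζ, ← e, kum_mul hζ, kum_pow_n hζ, add_zero]
  rw [h1, map_nsmul, AddMonoidHom.nsmul_apply, ← map_nsmul, hm, map_zero]

omit [Algebra K V] in
theorem unrb_num [IsDomain V] (f : Lˣ) :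
    ∃ (g : V) (u : Lˣ), algebraMap V L g = (f * u ^ n : Lˣ) := by
  obtain ⟨a, s, hs, e⟩ := IsFractionRing.div_surjective (A := V) (f : L)
  have h0 : algebraMap V L s ≠ 0 := IsFractionRing.to_map_ne_zero_of_mem_nonZeroDivisors hs
  obtain ⟨k, hk⟩ := Nat.exists_eq_succ_of_ne_zero (NeZero.ne n)
  refine ⟨a * s ^ k, Units.mk0 _ h0, ?_⟩
  rw [Units.val_mul, Units.val_pow_eq_pow_val, Units.val_mk0, ← e, hk, map_mul, map_pow, pow_succ]
  field_simp

omit [Algebra K V] [Algebra V L] [IsFractionRing V L] in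
theorem unrb_fld (hM : ∀ m : M, n • m = 0) {ζ : L} (hζ : Prim n ζ) {r : ℕ} {f u : Fin r → Lˣ}
    {m : Fin r → M} {d : Fin r → ℕ} (hI : Ind m d) (hd : ∀ i, d i ≠ 0) {L' : Type} [Field L']
    (ι : L →+* L') (hz : ∀ i, ∃ z, z ^ d i = ι (f i * u i ^ n : Lˣ)) :
    rc 1 M ι (∑ i, cm hM (kum n ζ (f i)) (m i)) = 0 := by
  rw [rc_sum hM hζ]
  refine Finset.sum_eq_zero fun i _ => ?_
  obtain ⟨z, e⟩ := hz i
  have h0 : z ≠ 0 := fun h => by
    rw [h, zero_pow (hd i)] at e
    exact (_root_.map_ne_zero ι).2 (Units.ne_zero _) e.symm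
  refine unrb_term hM (hζ.map ι) (u := Units.map (ι : L →* L') (u i))
    (w := Units.mk0 _ h0) (Units.ext ?_) (unrb_ind hI i)
  rw [← map_pow, ← map_mul]
  exact e.symm

omit [Algebra K V] in
theorem unrb_lift [IsDomain V] [IsIntegrallyClosed V] {W : Type} [CommRing W] [IsDomain W]
    {b : V →+* W} (hb : b.Etale) (L' : Type) [Field L'] [Algebra W L'] [IsFractionRing W L'] :
    IsIntegrallyClosed W ∧ ∃ ι : L →+* L', ι.comp (algebraMap V L) = (algebraMap W L').comp b := by
  letI := b.toAlgebra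
  haveI : Algebra.Etale V W := hb
  have hi : Function.Injective ((algebraMap W L').comp b) :=
    (IsFractionRing.injective W L').comp (et_faith V W)
  exact ⟨et_normal V W, IsFractionRing.lift hi,
    RingHom.ext fun v => IsFractionRing.lift_algebraMap hi v⟩

omit [Algebra K V] in
theorem unrb_dom [IsDomain V] [IsIntegrallyClosed V] (hG : Good V) (hM : ∀ m : M, n • m = 0)
    {ζ : L} (hζ : Prim n ζ) {ξ : H 1 (cst V M)} {r : ℕ} {f u : Fin r → Lˣ} {m : Fin r → M}
    {d : Fin r → ℕ} {g : Fin r → V} (hI : Ind m d) (hd : ∀ i, d i ≠ 0)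
    (hξ : rc 1 M (algebraMap V L) ξ = ∑ i, cm hM (kum n ζ (f i)) (m i))
    (hg : ∀ i, algebraMap V L (g i) = (f i * u i ^ n : Lˣ)) {W : Type} [CommRing W] [IsDomain W]
    {b : V →+* W} (hb : b.Etale) (hz : ∀ i, ∃ z, z ^ d i = b (g i)) : rc 1 M b ξ = 0 := by
  obtain ⟨h1, ι, hι⟩ := unrb_lift (L := L) hb (FractionRing W)
  refine rc_gen_inj (L := FractionRing W) (hG.et hb) ?_
  refine ((rc_rc b _ _ rfl ξ).trans ((rc_rc _ ι _ hι ξ).symm.trans ?_)).trans (map_zero _).symm
  rw [hξ]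
  refine unrb_fld hM hζ (u := u) hI hd ι fun i => ?_
  obtain ⟨z, hz⟩ := hz i
  refine ⟨algebraMap W _ z, ?_⟩
  rw [← map_pow, hz, ← hg i]
  exact (RingHom.congr_fun hι (g i)).symm

omit [Algebra V L] [IsFractionRing V L] in
/-- `unram` with `L = FractionRing V`, `exists_prim`.  Multiply `f i` by the `n`-th power of a
denominator (`kum_mul`, `kum_pow_n`, `Pw.mul`); `Crv.root`.  Given `b`, split `V'` into normal
domains (`et_prod`, `et_normal`, `H_pi`); on each of them use `rc_gen_inj`, `rc_sum`, `kum_pow`, and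
`d i • m i = 0` (from `Ind`). -/
theorem kum_crv (hV : Crv K V) (hG : Good V) (hn : (n : K) ≠ 0) (hM : ∀ m : M, n • m = 0)
    (ξ : H 1 (cst V M)) : ∃ (r : ℕ) (f : Fin r → V) (d : Fin r → ℕ) (I : Fin r → Ideal V),
      (∀ i, f i ≠ 0 ∧ d i ∣ n ∧ I i ^ d i = Ideal.span {f i}) ∧
      ∀ (V' : Type) [CommRing V'] (b : V →+* V'), b.Etale → (∀ i, ∃ z, z ^ d i = b (f i)) →
        rc 1 M b ξ = 0 := by
  have := hV.ded
  obtain ⟨ζ, hζ⟩ := exists_prim (K := K) hn
  have hζ' := hζ.map_of_injective ((algebraMap V (FractionRing V)).comp (algebraMap K V)).injective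
  obtain ⟨r, f, m, d, hI, hd, hξ, hP⟩ := unram hV hG hM hζ' ξ
  choose g u hg using fun i => unrb_num (V := V) (n := n) (f i)
  have hP' : ∀ i (q : Ideal V), q.IsPrime → Pw q (d i) (algebraMap V (FractionRing V) (g i)) :=
    fun i q hq => by
      obtain ⟨k, hk⟩ := hd i
      rw [hg i, Units.val_mul, Units.val_pow_eq_pow_val, hk, mul_comm (d i), pow_mul]
      exact (hP i q hq).mul (Pw.pow (pow_ne_zero _ (u i).ne_zero) _)
  choose I hI' using fun i => hV.root (hP' i)
  refine ⟨r, g, d, I, fun i => ⟨fun e => ?_, hd i, hI' i⟩, fun V' _ b hb hz => ?_⟩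
  · exact Units.ne_zero _ ((hg i).symm.trans (by rw [e, map_zero]))
  letI := b.toAlgebra
  haveI : Algebra.Etale V V' := hb
  obtain ⟨s, e, h1, h2⟩ := et_prod V V'
  refine (H_pi _ h2 1 (cst V' M)).1 (funext fun j => ?_)
  haveI := h1 j
  refine ((rc_can _ _).trans ((rc_rc b _ _ rfl ξ).trans ?_)).trans (map_zero _).symm
  refine unrb_dom hG hM (prim_field hζ') hI
    (fun i => ne_zero_of_dvd_ne_zero (NeZero.ne n) (hd i)) hξ hg (et_comp hb (et_away _)) fun i => ?_
  obtain ⟨z, hz⟩ := hz i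
  exact ⟨algebraMap V' _ z, by rw [← map_pow, hz]; rfl⟩

end Dom

theorem unrc_bij {W : Type} [CommRing W] {r : ℕ} {e : Fin r → W}
    (hc : CompleteOrthogonalIdempotents e) :
    Function.Bijective (RingHom.pi fun i => algebraMap W (Localization.Away (e i))) := by
  refine ⟨fun x y h => ?_, fun z => ?_⟩
  · have h1 : ∀ i, e i * x = e i * y := fun i => by
      obtain ⟨⟨_, n, rfl⟩, hn⟩ :=
        (IsLocalization.eq_iff_exists (Submonoid.powers (e i)) _).1 (congrFun h i)
      have h2 := congrArg (e i * ·) hn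
      simp only [← mul_assoc, ← pow_succ', (hc.idem i).pow_succ_eq] at h2
      exact h2
    rw [← one_mul x, ← one_mul y, ← hc.complete, Finset.sum_mul, Finset.sum_mul]
    exact Finset.sum_congr rfl fun i _ => h1 i
  · choose x hx using fun i => IsLocalization.Away.algebraMap_surjective_of_isIdempotentElem
      (S := Localization.Away (e i)) (e i) (hc.idem i) (z i)
    refine ⟨∑ i, e i * x i, funext fun i => (hx i) ▸
      (IsLocalization.eq_iff_exists (Submonoid.powers (e i)) _).2 ⟨⟨_, Submonoid.mem_powers _⟩, ?_⟩⟩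
    change e i * _ = e i * _
    rw [Finset.mul_sum, Finset.sum_eq_single i, ← mul_assoc, (hc.idem i).eq]
    · intro j _ hj
      rw [← mul_assoc, hc.ortho hj.symm, zero_mul]
    · simp

theorem unrc_lift {ε : V} (hε : IsIdempotentElem ε) [IsDomain (Localization.Away ε)]
    {g : Localization.Away ε} (hg : g ≠ 0) {J : Ideal (Localization.Away ε)} {d : ℕ}
    (hJ : J ^ d = Ideal.span {g}) : ∃ (f : V) (I : Ideal V), f ∈ nonZeroDivisors V ∧
      I ^ d = Ideal.span {f} ∧ algebraMap V _ f = g := by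
  have hs := IsLocalization.Away.algebraMap_surjective_of_isIdempotentElem
    (S := Localization.Away ε) ε hε
  have h1 : algebraMap V (Localization.Away ε) ε = 1 :=
    (IsLocalization.Away.algebraMap_isUnit (S := Localization.Away ε) ε).mul_left_cancel
      (by rw [← map_mul, hε.eq, mul_one])
  have h2 : ∀ x, algebraMap V (Localization.Away ε) x = 0 → x = x * (1 - ε) := fun x hx => by
    obtain ⟨⟨_, k, rfl⟩, hk⟩ := (IsLocalization.map_eq_zero_iff (Submonoid.powers ε) _ x).1 hx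
    have h3 := congrArg (ε * ·) hk
    simp only [← mul_assoc, ← pow_succ', hε.pow_succ_eq] at h3
    linear_combination h3
  obtain ⟨g, rfl⟩ := hs g
  have h3 : algebraMap V (Localization.Away ε) (ε * g + (1 - ε)) = algebraMap V _ g := by
    rw [map_add, map_mul, map_sub, map_one, h1, one_mul, sub_self, add_zero]
  have h4 : (1 - ε) * (ε * g + (1 - ε)) = 1 - ε := by linear_combination (1 - g) * hε.eq
  have h5 : ∀ A : Ideal V, 1 - ε ∈ A →
      (A.map (algebraMap V (Localization.Away ε))).comap (algebraMap V _) = A := fun A hA => by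
    rw [Ideal.comap_map_of_surjective _ hs, sup_eq_left]
    intro x hx
    rw [h2 x hx]
    exact A.mul_mem_left x hA
  refine ⟨_, J.comap (algebraMap V _), mem_nonZeroDivisors_iff_right.2 fun x hx => ?_, ?_, h3⟩
  · have h6 := congrArg (algebraMap V (Localization.Away ε)) hx
    rw [map_mul, h3, map_zero] at h6
    rw [h2 x ((mul_eq_zero.1 h6).resolve_right hg), ← h4, mul_left_comm, hx, mul_zero]
  · have h6 : (1 - ε) ^ d ∈ J.comap (algebraMap V _) ^ d := Ideal.pow_mem_pow (by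
      rw [Ideal.mem_comap, map_sub, map_one, h1, sub_self]
      exact zero_mem _) d
    have h7 := Ideal.mul_mem_right (1 - ε) _ h6
    rw [← pow_succ, hε.one_sub.pow_succ_eq] at h7
    rw [← h5 _ h7, ← h5 (Ideal.span _) (Ideal.mem_span_singleton'.2 ⟨_, h4⟩), Ideal.map_pow,
      Ideal.map_comap_of_surjective _ hs, hJ, Ideal.map_span, Set.image_singleton, h3]

theorem unrc_dom [IsDomain V] (hK : Good K) (hn : (n : K) ≠ 0) (hM : ∀ m : M, n • m = 0)
    (h : K[X] →+* V) (hh : h.Etale) (ξ : H 1 (cst V M)) :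
    ∃ (r : ℕ) (f : Fin r → V) (d : Fin r → ℕ) (I : Fin r → Ideal V),
      (∀ i, f i ≠ 0 ∧ d i ∣ n ∧ I i ^ d i = Ideal.span {f i}) ∧
      ∀ (V' : Type) [CommRing V'] (b : V →+* V'), b.Etale → (∀ i, ∃ z, z ^ d i = b (f i)) →
        rc 1 M b ξ = 0 := by
  letI := h.toAlgebra
  letI := (h.comp (algebraMap K K[X])).toAlgebra
  have : IsScalarTower K K[X] V := IsScalarTower.of_algebraMap_eq' rfl
  have : Algebra.Etale K[X] V := hh
  exact kum_crv ((crv_poly K).et (W := V))
    ((hK.ft (RingHom.finiteType_algebraMap.2 inferInstance)).et hh) hn hM ξ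

/-- `et_dec` gives idempotents `e j` with domains `V j = Localization.Away (e j)`, curves by
`crv_poly`, `Crv.et`; the map `V → ∏ V j` is bijective (see the proof of `et_prod`).  Apply
`kum_crv` to each; lift `f j i` to the element of `V` with component `f j i` at `j` and `1`
elsewhere, and `I j i` to its comap; index by `Σ j, Fin (r j) ≃ Fin r`.  Given `b`, split `V'` by
the idempotents `b (e j)` (`H_pi`; `et_cancel` for `V j → Localization.Away (b (e j))`). -/
theorem kum_line (hK : Good K) (hn : (n : K) ≠ 0) (hM : ∀ m : M, n • m = 0) (h : K[X] →+* V)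
    (hh : h.Etale) (ξ : H 1 (cst V M)) :
    ∃ (r : ℕ) (f : Fin r → V) (d : Fin r → ℕ) (I : Fin r → Ideal V),
      (∀ i, f i ∈ nonZeroDivisors V ∧ d i ∣ n ∧ I i ^ d i = Ideal.span {f i}) ∧
      ∀ (V' : Type) [CommRing V'] (b : V →+* V'), b.Etale → (∀ i, ∃ z, z ^ d i = b (f i)) →
        rc 1 M b ξ = 0 := by
  obtain ⟨s, e, hc, hd⟩ : ∃ (s : ℕ) (e : Fin s → V), CompleteOrthogonalIdempotents e ∧
      ∀ j, IsDomain (Localization.Away (e j)) := by
    letI := h.toAlgebra
    have : Algebra.Etale K[X] V := hh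
    exact et_dec K[X] V
  choose r g d J h1 h2 using fun j => unrc_dom hK hn hM _ (et_comp hh (et_away (e j)))
    (rc 1 M (algebraMap V _) ξ)
  choose f I k1 k2 k3 using fun x : Σ j, Fin (r j) =>
    unrc_lift (hc.idem x.1) (h1 x.1 x.2).1 (h1 x.1 x.2).2.2
  let σ := (Fintype.equivFin (Σ j, Fin (r j))).symm
  refine ⟨_, fun i => f (σ i), fun i => d (σ i).1 (σ i).2, fun i => I (σ i),
    fun i => ⟨k1 _, (h1 _ _).2.1, k2 _⟩, fun V' _ b hb hz => ?_⟩
  refine (H_pi _ (unrc_bij (hc.map b)) 1 (cst V' M)).1 (funext fun j => ?_)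
  have h3 : (IsLocalization.Away.map (Localization.Away (e j)) (Localization.Away (b (e j))) b
      (e j)).comp (algebraMap V _) = (algebraMap V' _).comp b := IsLocalization.map_comp _
  refine ((rc_can _ _).trans ((rc_rc b _ _ rfl ξ).trans ((rc_rc _ _ _ h3 ξ).symm.trans
    (h2 j _ _ (et_cancel (et_away _) (h3 ▸ et_comp hb (et_away _))) fun i => ?_)))).trans
      (map_zero _).symm
  obtain ⟨z, h4⟩ := (σ.surjective.forall (p := fun x => ∃ z, z ^ d x.1 x.2 = b (f x))).2 hz ⟨j, i⟩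
  refine ⟨algebraMap V' _ z, ?_⟩
  rw [← map_pow, h4, ← k3 ⟨j, i⟩]
  exact (RingHom.congr_fun h3 _).symm

/-- The cohomology of etale algebras over the line. -/
theorem crvH (p : ℕ) [Fact p.Prime] [CharP OO p] {l : ℕ} [Fact l.Prime] (hl : (l : OO) ≠ 0)
    (k : ℕ) : LH.CrvH (l ^ k) where
  van K V _ _ _ hK h hh F hF q ξ := by
    have := posChar_of p hK
    obtain ⟨ξ, rfl⟩ := (cstHom_bij F (h.comp C) (q + 2)).2 ξ
    rw [van_line hK (cast_ne hK hl) (z0_tor hF) h hh q ξ]
    exact map_zero _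
  kum K V _ _ _ hK h hh F hF ξ := by
    have : NeZero (l ^ k) := ⟨pow_ne_zero _ (Fact.out : l.Prime).ne_zero⟩
    have hn : ((l ^ k : ℕ) : K) ≠ 0 := by
      rw [Nat.cast_pow]; exact pow_ne_zero _ (cast_ne hK hl)
    obtain ⟨ξ, rfl⟩ := (cstHom_bij F (h.comp C) 1).2 ξ
    obtain ⟨r, f, d, I, h1, h2⟩ := kum_line hK hn (z0_tor hF) h hh ξ
    refine ⟨r, f, d, I, fun i => ⟨(h1 i).1, ne_zero_of_dvd_ne_zero hn
      (Nat.cast_dvd_cast (h1 i).2.1), (h1 i).2.2⟩, fun V' _ b hb hz => (dz_iff rfl).1 ?_⟩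
    rw [HR_pb]
    exact (congrArg _ ((rc_HR b _ ξ).trans (h2 V' b hb hz))).trans (map_zero _)

end

end Pool.Agent.Lib.MP_16ef92_ag.CV
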