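import Mathlib
import Pool.Agent.Lib.MP_16ef92_ag.CV.Unr
import Pool.Agent.Lib.MP_16ef92_ag.CV.KC

set_option autoImplicit false
set_option linter.unusedSectionVars false
set_option linter.unusedVariables false
set_option linter.style.haveILetI false

namespace Pool.Agent.Lib.MP_16ef92_ag.CV

open RS LH Polynomial WeierstrassCurve WeierstrassCurve.Affine
  WeierstrassCurve.Affine.CoordinateRing

noncomputable section

variable [Bg] {K V V' : Type} [Field K] [CommRing V] [CommRing V'] {n : ℕ} [NeZero n]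

/-- `cup_nat` for `(cstHom F).pb j`, `cpb_id`, `cm_apply`. -/
theorem lh_cm {R : Type} [CommRing R] (c : Fin 2 → H 1 (cst V (ZMod n))) (j : R →+* V) {F : Sys R}
    (hF : F.Tor n) (m : Fin 2 → H 0 F) : lh c j hF 0 m =
      Hmap 1 ((cstHom F).pb j) (∑ e, cm (z0_tor hF) (c e) (m e)) := by
  refine Eq.trans ?_ (map_sum (Hmap 1 ((cstHom F).pb j)) _ _).symm
  refine Finset.sum_congr rfl fun e _ => Eq.symm ?_
  refine (cup_nat (cst_tor (z0_tor hF) V) (hF.pb j) ((cstHom F).pb j) (c e) 0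
    (csec V (Z0 F) (m e))).trans ?_
  exact congrArg (fun x => cup (hF.pb j) x 0 (Hmap 0 (F.can j) (m e))) (cpb_id (c e))

theorem fiba_bij {R : Type} [CommRing R] {j : R →+* V} {j' : R →+* V'} {e : V →+* V'}
    (he : Function.Bijective e) (h : e.comp j = j') (q : ℕ) (F : Sys R) :
    Function.Bijective (HR q F e h) := by
  subst h
  exact Hmap_bij' q _ he (fun _ _ _ h => h) fun _ v hv => ⟨v, hv, rfl⟩

theorem fiba_lh {R : Type} [CommRing R] {j : R →+* V} {j' : R →+* V'} {e : V →+* V'}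
    (h : e.comp j = j') (c : Fin 2 → H 1 (cst V (ZMod n))) {F : Sys R} (hF : F.Tor n) (q : ℕ)
    (m : Fin 2 → H q F) : HR (q + 1) F e h (lh c j hF q m) = lh (fun i => cpb e (c i)) j' hF q m := by
  rw [lh, lh, map_sum]
  exact Finset.sum_congr rfl fun i _ =>
    (cup_nat (hF.pb j) (hF.pb j') (F.rm e h) (c i) q _).trans (congrArg _ (HR_can q F e h (m i)))

/-- `Hmap_bij'` for `F.rm e`, `HR_can`, `lh_nat` (or `cup_nat`). -/
theorem fibK_equiv {R : Type} [CommRing R] {j : R →+* V} {j' : R →+* V'} {e : V →+* V'}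
    (he : Function.Bijective e) (h : e.comp j = j') {c : Fin 2 → H 1 (cst V (ZMod n))}
    (hc : FibK n j c) : FibK n j' fun i => cpb e (c i) where
  b0 F ξ := by
    obtain ⟨ξ, rfl⟩ := (fiba_bij he h 0 F).2 ξ
    obtain ⟨ξ, rfl⟩ := hc.b0 F ξ
    exact ⟨ξ, (HR_can 0 F e h ξ).symm⟩
  b1 F hF q ξ := by
    obtain ⟨ξ, rfl⟩ := (fiba_bij he h (q + 2) F).2 ξ
    rw [hc.b1 F hF q ξ, map_zero]
  b2 F hF ξ := by
    obtain ⟨ξ, rfl⟩ := (fiba_bij he h 1 F).2 ξ
    obtain ⟨m, rfl⟩ := hc.b2 F hF ξ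
    exact ⟨m, (fiba_lh h c hF 0 m).symm⟩
  b3 F hF m h0 := hc.b3 F hF m ((fiba_bij he h 1 F).1
    ((fiba_lh h c hF 0 m).trans (h0.trans (map_zero _).symm)))

/-- `cstHom_bij` in degree `0`, `LC.const`; if `V` had no points both sides would be trivial. -/
theorem fib_b0 [IsAlgClosed K] [IsDomain V] (hV : Good V) (j : K →+* V) (F : Sys K) :
    Function.Surjective (Hmap 0 (F.can j)) := fun ξ => by
  obtain ⟨s, rfl⟩ := (cstHom_bij F j 0).2 ξ
  obtain ⟨z, -⟩ := hV ⊥ Ideal.isPrime_bot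
  refine ⟨s.1 z, Subtype.ext (funext fun y => ?_)⟩
  exact congrArg (fun m : Z0 F => m.1 (y.comp j)) (LC.const (M := Z0 F) hV s.2 z y)

variable [IsAlgClosed K] [DecidableEq K] {E : Affine K} {ζ : K} {M : Type} [AddCommGroup M]

theorem fibb_omap {A : Type} [CommRing A] (o : Op A) : omap (RingHom.id A) o = o := by
  cases o <;> rfl

theorem fibb_one (hK : Good K) (hζ : Prim n ζ) (h : Ok E)
    {Q : Fin 2 → E.Point} {c : Fin 2 → H 1 (cst E.CoordinateRing (ZMod n))}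
    (hc : ∀ e, KC E n ζ (pt (Q e)) (c e))
    (hi : ∀ a₀ a₁ : ℕ, a₀ • Q 0 + a₁ • Q 1 = 0 → n ∣ a₀ ∧ n ∣ a₁) {L : Type} [Field L]
    [Algebra E.CoordinateRing L] [IsFractionRing E.CoordinateRing L] {d : ℕ} (hd : d ∣ n) (f : Lˣ)
    (hf : ∀ q : Ideal E.CoordinateRing, q.IsPrime → Pw q d (f : L)) :
    ∃ (a₀ a₁ : ℕ) (x : H 1 (cst L (ZMod n))),
      kum n (algebraMap E.CoordinateRing L (algebraMap K E.CoordinateRing ζ)) f =
        a₀ • rc 1 (ZMod n) (algebraMap E.CoordinateRing L) (c 0) +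
          a₁ • rc 1 (ZMod n) (algebraMap E.CoordinateRing L) (c 1) + d • x := by
  obtain rfl : (inferInstance : DecidableEq K) = fun a b => Classical.propDecidable (a = b) :=
    Subsingleton.elim _ _
  letI : DecidableEq K := fun a b => Classical.propDecidable (a = b)
  have hn : n ≠ 0 := NeZero.ne n
  have hA : NB n ζ := ⟨hK, hζ, four_of (RingHom.id K) hn⟩
  have hQ : ∀ e, n • Q e = 0 := fun e => by
    obtain ⟨g, hg, -⟩ := hc e
    exact hg.tors h hn
  have hW : E.map (RingHom.id K) = E := map_id E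
  obtain ⟨e, he⟩ := hd
  obtain ⟨P, hP, h1⟩ := rep_pw h (d := d) (e := e) (left_ne_zero_of_mul (he ▸ hn))
    (right_ne_zero_of_mul (he ▸ hn)) hf
  rw [← he] at hP h1
  obtain ⟨c', hc'⟩ := KC.ex hA h Function.injective_id hW (fibb_omap (pt P)) hP
  obtain ⟨a₀, a₁, ha⟩ := basis_gen h hζ.unit.ne_zero (hQ 0) (hQ 1) hi hP
  have h2 := KC.comb hA h Function.injective_id hW (fun P _ => ⟨_, fibb_omap (pt P)⟩) (hQ 0) (hQ 1)
    (fibb_omap _) (fibb_omap _) (hc 0) (hc 1) a₀ a₁ (ha ▸ fibb_omap (pt P)) hc'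
  obtain ⟨g, hg, hk⟩ := hc'
  obtain ⟨z, hz, h3⟩ := h1 g hg
  have h4 : algebraMap E.CoordinateRing L g ≠ 0 := left_ne_zero_of_mul (h3 ▸ f.ne_zero)
  have h5 : f = Units.mk0 _ h4 * Units.mk0 z hz ^ d := Units.ext h3
  have h6 := (hζ.map (algebraMap K E.CoordinateRing)).map (algebraMap E.CoordinateRing L)
  refine ⟨a₀, a₁, kum n (algebraMap E.CoordinateRing L (algebraMap K E.CoordinateRing ζ))
    (Units.mk0 z hz), ?_⟩
  rw [h5, kum_mul h6, kum_pow h6, ← hk L _ (Units.mk0 _ h4) rfl, h2, map_add, map_nsmul, map_nsmul]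

/-- `unram` for `L = FractionRing E.CoordinateRing` (`Ok.crv`, `good_coord`, `Prim.root`); with
`n = d i * e i`, `rep_pw` gives a point `P i`, `KC.ex` (`ι` the identity, `NB` by `four_of`) its
class and function `g i` with `f i = g i * z ^ d i`; `d i • m i = 0` by `Ind`; `basis_gen`,
`KC.comb`, `rc_gen_inj`, `rc_cm`. -/
theorem fib_b2 (hK : Good K) (hζ : Prim n ζ) (h : Ok E) (hM : ∀ m : M, n • m = 0)
    {Q : Fin 2 → E.Point} {c : Fin 2 → H 1 (cst E.CoordinateRing (ZMod n))}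
    (hc : ∀ e, KC E n ζ (pt (Q e)) (c e))
    (hi : ∀ a₀ a₁ : ℕ, a₀ • Q 0 + a₁ • Q 1 = 0 → n ∣ a₀ ∧ n ∣ a₁)
    (ξ : H 1 (cst E.CoordinateRing M)) : ∃ m : Fin 2 → M, ∑ e, cm hM (c e) (m e) = ξ := by
  classical
  have := h.normal
  let L := FractionRing E.CoordinateRing
  have hr : IsPrimitiveRoot (algebraMap E.CoordinateRing L (algebraMap K E.CoordinateRing ζ)) n :=
    (hζ.root hK).map_of_injective
      ((algebraMap E.CoordinateRing L).comp (algebraMap K E.CoordinateRing)).injective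
  obtain ⟨r, f, m, d, h1, h2, h3, h4⟩ := unram h.crv (good_coord hK E) hM hr ξ
  choose a₀ a₁ x hx using fun i => fibb_one hK hζ h hc hi (h2 i) (f i) (h4 i)
  have h5 : ∀ i, d i • m i = 0 := fun i => by
    have h6 := (h1 (Pi.single i (d i))).2 fun j => by
      by_cases e : j = i
      · rw [e, Pi.single_eq_same]
      · rw [Pi.single_eq_of_ne e]
        exact dvd_zero _
    rw [Finset.sum_eq_single i (fun j _ e => by rw [Pi.single_eq_of_ne e, zero_smul])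
      (fun e => (e (Finset.mem_univ i)).elim), Pi.single_eq_same, natCast_zsmul] at h6
    exact h6
  refine ⟨![∑ i, a₀ i • m i, ∑ i, a₁ i • m i], rc_gen_inj (L := L) (good_coord hK E) ?_⟩
  rw [h3, Fin.sum_univ_two, map_add, rc_cm, rc_cm, Matrix.cons_val_zero, Matrix.cons_val_one,
    Matrix.cons_val_zero, map_sum, map_sum, ← Finset.sum_add_distrib]
  refine Finset.sum_congr rfl fun i _ => ?_
  have h7 : ∀ (k : ℕ) (y : H 1 (cst L (ZMod n))), cm hM (k • y) (m i) = cm hM y (k • m i) :=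
    fun k y => by rw [map_nsmul, map_nsmul, AddMonoidHom.nsmul_apply]
  rw [hx, map_add, map_add, AddMonoidHom.add_apply, AddMonoidHom.add_apply, h7, h7, h7, h5,
    map_zero, add_zero]

theorem fib_b3 (hK : Good K) (hζ : Prim n ζ) (h : Ok E) (hM : ∀ m : M, n • m = 0)
    {Q : Fin 2 → E.Point} {c : Fin 2 → H 1 (cst E.CoordinateRing (ZMod n))}
    (hc : ∀ e, KC E n ζ (pt (Q e)) (c e))
    (hi : ∀ a₀ a₁ : ℕ, a₀ • Q 0 + a₁ • Q 1 = 0 → n ∣ a₀ ∧ n ∣ a₁) (m : Fin 2 → M)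
    (h0 : ∑ e, cm hM (c e) (m e) = 0) : m = 0 := by
  funext e
  by_contra hm
  obtain ⟨ψ, hψ⟩ := exists_chr hM hm
  have h1 := kc_ind hK hζ h hM Q c hc m h0 ψ
  rw [Fin.sum_univ_two] at h1
  have h2 : n ∣ (ψ (m e)).val := by
    fin_cases e
    · exact (hi _ _ h1).1
    · exact (hi _ _ h1).2
  exact hψ ((ZMod.val_eq_zero _).1 (Nat.eq_zero_of_dvd_of_lt h2 (ZMod.val_lt _)))

theorem fibK_ell (p : ℕ) [Fact p.Prime] [CharP OO p] {l k : ℕ} [Fact l.Prime] (hn : n = l ^ k)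
    (hl : (l : OO) ≠ 0) (hK : Good K) (hζ : Prim n ζ) (h : Ok E) {Q : Fin 2 → E.Point}
    {c : Fin 2 → H 1 (cst E.CoordinateRing (ZMod n))} (hc : ∀ e, KC E n ζ (pt (Q e)) (c e))
    (hi : ∀ a₀ a₁ : ℕ, a₀ • Q 0 + a₁ • Q 1 = 0 → n ∣ a₀ ∧ n ∣ a₁) :
    FibK n (algebraMap K E.CoordinateRing) c where
  b0 F := fib_b0 (good_coord hK E) _ F
  b1 F hF q ξ := by
    have := posChar_of p hK
    obtain ⟨ξ, rfl⟩ := (cstHom_bij F _ (q + 2)).2 ξ
    subst hn
    rw [van_crv h.crv (good_coord hK E) (cast_ne hK hl) (z0_tor hF) q ξ]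
    exact map_zero _
  b2 F hF ξ := by
    obtain ⟨ξ, rfl⟩ := (cstHom_bij F _ 1).2 ξ
    obtain ⟨m, rfl⟩ := fib_b2 hK hζ h (z0_tor hF) hc hi ξ
    exact ⟨m, lh_cm c _ hF m⟩
  b3 F hF m h0 := by
    rw [lh_cm] at h0
    exact fib_b3 hK hζ h (z0_tor hF) hc hi m
      ((cstHom_bij F _ 1).1 (h0.trans (map_zero _).symm))

variable {A L : Type} [CommRing A] [Field L] [DecidableEq L] {W : Affine A} {W' : Affine L}
  {ι : A →+* L} {ζ : A}

/-- `y_or_dcub`, `etale_x`, `etale_y`, `pnt_away`, `et_away`. -/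
theorem locA_ell (h : Ok W) : LocA (algebraMap A W.CoordinateRing) := fun y => by
  rcases y_or_dcub h y with h1 | h1
  · obtain ⟨z, hz⟩ := pnt_away y h1
    exact ⟨_, _, _, z, _, et_away _, hz, etale_x h, rfl⟩
  · obtain ⟨z, hz⟩ := pnt_away y h1
    refine ⟨_, _, _, z, _, et_away _, hz, etale_y h, RingHom.ext fun a => ?_⟩
    simp only [RingHom.comp_apply, coe_eval₂RingHom, eval₂_C]

/-- The family of elliptic curves with the classes of a basis of the torsion points. -/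
theorem fbr_ell [IsDomain A] [IsIntegrallyClosed A] (p : ℕ) [Fact p.Prime] [CharP OO p] {l k : ℕ}
    [Fact l.Prime] (hn : n = l ^ k) (hl : (l : OO) ≠ 0) (hA : NB n ζ) (h : Ok W)
    (hι : Function.Injective ι) (hW : W.map ι = W')
    (hr : ∀ P : W'.Point, n • P = 0 → ∃ o, omap ι o = pt P) {P : Fin 2 → W'.Point}
    (hP : ∀ e, n • P e = 0) (hi : ∀ a₀ a₁ : ℕ, a₀ • P 0 + a₁ • P 1 = 0 → n ∣ a₀ ∧ n ∣ a₁)
    {o : Fin 2 → Op A} (ho : ∀ e, omap ι (o e) = pt (P e))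
    {c : Fin 2 → H 1 (cst W.CoordinateRing (ZMod n))} (hc : ∀ e, KC W n ζ (o e) (c e)) :
    Fbr n (algebraMap A W.CoordinateRing) c where
  flat := coord_flat W
  fp := coord_fp W
  sur y := coord_sur W y
  loc := locA_ell h
  fib K _ _ hK τ V _ i j hP' := by
    classical
    choose Q hQ using fun e => exists_pt (h.map τ) ((on_of hι hW (ho e)).map τ)
    obtain ⟨e, e1, e2⟩ := (coord_po (cm_map W τ)).equiv hP'
    have := fibK_equiv e.bijective e2 (fibK_ell p hn hl hK (hA.prim.map τ) (h.map τ)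
      (fun e => hQ e ▸ (hc e).map (cm_map W τ))
      (fib_ind hA h hι hW hr (hP 0) (hP 1) hi (ho 0) (ho 1) hK τ rfl (hQ 0) (hQ 1)))
    simpa only [cpb_cpb, e1] using this

end

end Pool.Agent.Lib.MP_16ef92_ag.CV
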