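import Mathlib
import Pool.Agent.Lib.MP_16ef92_ag.CV.GT
import Pool.Agent.Lib.MP_16ef92_ag.FA.IE2

set_option autoImplicit false
set_option linter.unusedSectionVars false
set_option linter.unusedVariables false
set_option linter.style.haveILetI false

namespace Pool.Agent.Lib.MP_16ef92_ag.CV

open RS Module

noncomputable section

variable [Bg] {R Rt R' Rt' : Type} [CommRing R] [CommRing Rt] [CommRing R'] [CommRing Rt']
  {Γ : Type} [Group Γ] {a : R →+* Rt} {ρ : Γ →* (Rt →+* Rt)} {Φ : AL.Fam Γ}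
  {f : R →+* R'} {i : Rt →+* Rt'} {a' : R' →+* Rt'}

/-- The action on a base change. -/
theorem exists_rho_po (hP : FA.PO a f i a') (hρ : ∀ g, (ρ g).comp a = a) :
    ∃ ρ' : Γ →* (Rt' →+* Rt'), ∀ g, (ρ' g).comp i = i.comp (ρ g) ∧ (ρ' g).comp a' = a' := by
  choose w h1 h2 using fun g => hP.ex Rt' (i.comp (ρ g)) a'
    (by rw [RingHom.comp_assoc, hρ, hP.comm])
  refine ⟨⟨⟨w, hP.uq _ _ _ ?_ ?_⟩, fun g k => hP.uq _ _ _ ?_ ?_⟩, fun g => ⟨h1 g, h2 g⟩⟩
  · rw [h1, map_one]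
    rfl
  · rw [h2]
    rfl
  · dsimp only
    rw [h1, map_mul, RingHom.mul_def, RingHom.mul_def, RingHom.comp_assoc, h1,
      ← RingHom.comp_assoc, ← RingHom.comp_assoc, h1]
  · dsimp only
    rw [h2, RingHom.mul_def, RingHom.comp_assoc, h2, h2]

theorem gt7_sur {S S' T T' : Type} [CommRing S] [CommRing S'] [CommRing T] [CommRing T']
    {u : S →+* T} {v : S →+* S'} {p : T →+* T'} {q : S' →+* T'} (h : FA.PO u v p q) (hv : Sur v) :
    Sur p := fun y => by
  obtain ⟨t, ht⟩ := hv (y.comp u)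
  exact (h.ex _ y t ht.symm).imp fun _ e => e.1

/-- A stage of the base change maps to the base change of a stage: the proof of
`FA.IE.of_lift_kill` with `lift_po`, `kill_po`, `exists_stage_po`. -/
theorem stage_po (hi : FA.IE a) (hP : FA.PO a f i a') (X : FA.Stage a') :
    ∃ (U : FA.Stage a) (Y : FA.Stage a') (j : U.W →+* Y.W) (e : X.W →+* Y.W),
      FA.PO f U.a Y.a j ∧ Y.d.comp j = i.comp U.d ∧ X.Le Y e := by
  let := X.a.toAlgebra
  obtain ⟨n, φ, hφ, s, hs⟩ := (FA.etale_fp X.et : Algebra.FinitePresentation R' X.W).out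
  choose U hU using fun k : Fin n => hi.lift_po hP.symm (X.d (φ (MvPolynomial.X k)))
  obtain ⟨V, b, hb⟩ := FA.Stage.exists_ub U
  obtain ⟨Y, j, h1, h2, h3⟩ := FA.IE.exists_stage_po hP.symm V
  choose w hw using fun k => hU k Y.W Y.a (j.comp (b k)) Y.d Y.comm
    (by rw [← RingHom.comp_assoc, h2, RingHom.comp_assoc, (hb k).2])
  let ψ : MvPolynomial (Fin n) R' →+* Y.W := MvPolynomial.eval₂Hom Y.a w
  have e0 : ∀ r, φ (MvPolynomial.C r) = X.a r := φ.commutes
  have e : Y.d.comp ψ = X.d.comp φ.toRingHom := by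
    refine MvPolynomial.ringHom_ext (fun r => ?_) fun k => ?_
    · have e2 := RingHom.congr_fun Y.comm r
      have e3 := RingHom.congr_fun X.comm r
      simp only [RingHom.comp_apply] at e2 e3
      simp [ψ, e0, e2, e3]
    · simp [ψ, hw]
  choose V1 hV1 using fun x : s => (hi.stage V).kill_po h3 (s := ψ x.1) (by
    have : x.1 ∈ RingHom.ker φ.toRingHom := hs ▸ Ideal.subset_span x.2
    rw [← RingHom.comp_apply, e, RingHom.comp_apply, RingHom.mem_ker.1 this, map_zero])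
  obtain ⟨V', b', hb'⟩ := FA.Stage.exists_ub V1
  obtain ⟨Z, j', h4, h5, -⟩ := FA.IE.exists_stage_po h3 V'
  have hk : RingHom.ker φ.toRingHom ≤ RingHom.ker (Z.a.comp ψ) := by
    rw [← hs, Ideal.span_le]
    intro x hx
    exact hV1 ⟨x, hx⟩ Z.W Z.a (j'.comp (b' _)) (by rw [RingHom.comp_assoc, (hb' _).1, h4.comm])
  let β : X.W →+* Z.W := φ.toRingHom.liftOfSurjective hφ ⟨Z.a.comp ψ, hk⟩
  have hβ : β.comp φ.toRingHom = Z.a.comp ψ := RingHom.liftOfRightInverse_comp _ _ _ _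
  refine ⟨V.up V', Y.up Z, j', β, (h1.symm.paste h4.symm).symm, h5, RingHom.ext fun r => ?_,
    RingHom.ext fun x => ?_⟩
  · refine (congrArg β (e0 r).symm).trans ((RingHom.congr_fun hβ (MvPolynomial.C r)).trans ?_)
    exact congrArg Z.a (MvPolynomial.eval₂Hom_C Y.a w r)
  · obtain ⟨y, rfl⟩ := hφ x
    refine (congrArg Z.d (RingHom.congr_fun hβ y)).trans ?_
    exact (RingHom.congr_fun Z.comm (ψ y)).trans (RingHom.congr_fun e y)

/-- Galois towers are stable under base change: the base change of a level is a level. -/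
theorem GT.bc (h : GT a ρ Φ) (hi : FA.IE a) (hP : FA.PO a f i a') {ρ' : Γ →* (Rt' →+* Rt')}
    (hρ : ∀ g, (ρ' g).comp i = i.comp (ρ g) ∧ (ρ' g).comp a' = a')
    (hl : ∀ (F : Sys R'), ∀ s ∈ F.S a', ∃ (U : FA.Stage a') (t : Pnt U.W → F.A),
      t ∈ F.S U.a ∧ s = rs U.d t) : GT a' ρ' Φ := by
  refine ⟨fun g => (hρ g).2, gt7_sur hP.symm h.sur, fun y y' e => ?_, fun N hN W _ b d hb hd => ?_,
    fun F s hs => ?_⟩
  · obtain ⟨g, hg⟩ := h.trans (y.comp i) (y'.comp i) (by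
      rw [RingHom.comp_assoc, RingHom.comp_assoc, hP.comm, ← RingHom.comp_assoc, e,
        RingHom.comp_assoc])
    refine ⟨g, hP.uq _ _ _ ?_ ?_⟩
    · rw [hg, RingHom.comp_assoc, RingHom.comp_assoc, (hρ g).1]
    · rw [RingHom.comp_assoc, (hρ g).2, e]
  · obtain ⟨U, Y, j, e, h1, h2, h3⟩ := stage_po hi hP ⟨W, b, d, hb, hd⟩
    obtain ⟨L, e0, h4, h5, h6⟩ := h.cof N hN U.W U.a U.d U.et U.comm
    obtain ⟨Z, j', k1, k2, k3⟩ := FA.IE.exists_stage_po hP.symm ⟨L.W, L.b, L.d, L.et, L.comm⟩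
    replace k1 : FA.PO f L.b Z.a j' := k1
    replace k2 : Z.d.comp j' = i.comp L.d := k2
    obtain ⟨w, w1, w2⟩ := h1.ex Z.W Z.a (j'.comp e0) (by rw [RingHom.comp_assoc, h4, k1.comm])
    have w3 : Z.d.comp w = Y.d := h1.uq _ _ _ (by rw [RingHom.comp_assoc, w1, Z.comm, Y.comm]) (by
      rw [RingHom.comp_assoc, w2, ← RingHom.comp_assoc, k2, RingHom.comp_assoc, h5, h2])
    choose σ s1 s2 using fun g => k1.ex Z.W Z.a (j'.comp (L.σ g))
      (by rw [RingHom.comp_assoc, L.fix, k1.comm])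
    have k4 : ∀ g, ((ρ' g).comp Z.d).comp Z.a = Z.d.comp Z.a := fun g => by
      rw [RingHom.comp_assoc, Z.comm, (hρ g).2]
    have k5 : ∀ g, ((ρ' g).comp Z.d).comp j' = i.comp ((ρ g).comp L.d) := fun g => by
      rw [RingHom.comp_assoc, k2, ← RingHom.comp_assoc, (hρ g).1, RingHom.comp_assoc]
    refine ⟨⟨Z.W, Z.a, Z.d, σ, Z.et, Z.comm, gt7_sur k3 L.sur, fun g => k1.uq _ _ _ ?_ ?_, s1,
      L.ev.mono fun g hg => k1.uq _ _ _ (k4 g) (by rw [k5, hg, k2])⟩, w.comp e, ?_, ?_,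
      fun y g hy => h6 (y.comp i) g ?_⟩
    · rw [k4, RingHom.comp_assoc, s1]
    · rw [k5, RingHom.comp_assoc, s2, ← RingHom.comp_assoc, k2, RingHom.comp_assoc, L.equi]
    · exact (RingHom.comp_assoc _ _ _).trans ((congrArg w.comp h3.1).trans w1)
    · exact (RingHom.comp_assoc _ _ _).symm.trans ((congrArg (RingHom.comp · e) w3).trans h3.2)
    · have e1 := congrArg (RingHom.comp · j') hy
      change (y.comp (((ρ' g).comp Z.d).comp j')) = y.comp (Z.d.comp j') at e1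
      rw [k5, k2] at e1
      exact e1
  · obtain ⟨U, t, h1, h2⟩ := hl F s hs
    exact ⟨U.W, inferInstance, U.a, U.d, t, U.et, U.comm, h1, h2⟩

end

end Pool.Agent.Lib.MP_16ef92_ag.CV
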